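import Pool.Agent.SGN.AllG
import Pool.Agent.SG.Final

set_option autoImplicit false

/-!
# Module FinD: alternative (C) of the final theorem (many conditions on the small points)

`sys_zero`: nine points of multiplicity `0` impose nothing: `sys d (9 + h) (Fin.append 0 m) p` is
`sys d h m (fun i => p (Fin.natAdd 9 i))`; so if `Q` works for `(d; m)` then `Q` renamed by
`(i, l) ↦ (Fin.natAdd 9 i, l)` (injective, `rename_injective`) works for `(d; 0^9, m)`.
`altC`: `C = 4 C0 + C2`, `C0` from `exactNineG ε`, `C2` from `exactG2 ε`. If all `b j = 0`: `exactG2` (second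
alternative) and `sys_zero`. Otherwise some `b j ≠ 0`, `C (M+1)^(1+ε) ≤ d`, so `b i + C (M+1)^(1+ε) ≤ d` for
all `i`: `exactNineG` (second alternative).
-/

namespace Pool.Agent.SGN

open MvPolynomial Pool.Agent.helper5.NBS Pool.Agent.helper89.Segre Pool.Agent.SH9
open Pool.Agent.helper25.ST Pool.Agent.helper25.SXN Pool.Agent.helper25.SXQ Pool.Agent.SG

theorem sys_zero {d h : ℕ} {m : Fin h → ℕ} (hQ : ∃ Q : MvPolynomial (Fin h × Fin 3) ℂ, Q ≠ 0 ∧
      ∀ p : Fin h → Fin 3 → ℂ, eval (fun ij : Fin h × Fin 3 => p ij.1 ij.2) Q ≠ 0 →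
      Module.finrank ℂ (sys d h m p) = (d + 2).choose 2 - ∑ k, (m k + 1).choose 2) :
    ∃ Q : MvPolynomial (Fin (9 + h) × Fin 3) ℂ, Q ≠ 0 ∧ ∀ p : Fin (9 + h) → Fin 3 → ℂ,
      eval (fun ij : Fin (9 + h) × Fin 3 => p ij.1 ij.2) Q ≠ 0 →
      Module.finrank ℂ (sys d (9 + h) (Fin.append (fun _ : Fin 9 => 0) m) p) =
        (d + 2).choose 2 - ∑ k : Fin (9 + h), (Fin.append (fun _ : Fin 9 => 0) m k + 1).choose 2 := by
  obtain ⟨Q, hQ0, hQ⟩ := hQ
  have hinj : Function.Injective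
      (fun ij : Fin h × Fin 3 => ((Fin.natAdd 9 ij.1, ij.2) : Fin (9 + h) × Fin 3)) := by
    rintro ⟨i, l⟩ ⟨i', l'⟩ heq
    simp only [Prod.mk.injEq] at heq
    obtain ⟨h1, h2⟩ := heq
    have h3 : i = i' := by
      apply Fin.ext
      have := congrArg Fin.val h1
      simpa using this
    rw [h3, h2]
  refine ⟨rename (fun ij : Fin h × Fin 3 => ((Fin.natAdd 9 ij.1, ij.2) : Fin (9 + h) × Fin 3)) Q,
    fun h0 => hQ0 (rename_injective _ hinj (by rw [h0, map_zero])), fun p hp => ?_⟩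
  rw [eval_rename] at hp
  have hp' := hQ (fun i => p (Fin.natAdd 9 i)) hp
  have hsys : sys d (9 + h) (Fin.append (fun _ : Fin 9 => 0) m) p =
      sys d h m (fun i => p (Fin.natAdd 9 i)) := by
    ext f
    constructor
    · rintro ⟨hf1, hf2⟩
      refine ⟨hf1, fun i n hn => hf2 (Fin.natAdd 9 i) n ?_⟩
      rw [Fin.append_right]
      exact hn
    · rintro ⟨hf1, hf2⟩
      refine ⟨hf1, fun i n hn => ?_⟩
      induction i using Fin.addCases with
      | left i =>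
        rw [Fin.append_left] at hn
        exact absurd hn (Nat.not_lt_zero _)
      | right i =>
        rw [Fin.append_right] at hn
        exact hf2 i n hn
  rw [hsys, hp', Fin.sum_univ_add]
  simp only [Fin.append_left, Fin.append_right]
  simp

theorem altC (ε : ℝ) (hε : 0 < ε) : ∃ C : ℝ, 0 < C ∧ ∀ (d h M : ℕ) (b : Fin 9 → ℕ) (m : Fin h → ℕ),
    (∀ i j k, i ≠ j → j ≠ k → i ≠ k → b i + b j + b k ≤ d) → (∀ i, m i ≤ M) →
    (∀ i, b i ≠ 0 → (b i : ℝ) + C * ((M : ℝ) + 1) ^ (1 + ε) ≤ d) →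
    C * ((M : ℝ) + 1) ^ (2 + ε) ≤ ∑ i, (m i : ℝ) ^ 2 →
    ∃ Q : MvPolynomial (Fin (9 + h) × Fin 3) ℂ, Q ≠ 0 ∧ ∀ p : Fin (9 + h) → Fin 3 → ℂ,
      eval (fun ij : Fin (9 + h) × Fin 3 => p ij.1 ij.2) Q ≠ 0 →
      Module.finrank ℂ (sys d (9 + h) (Fin.append b m) p) =
        (d + 2).choose 2 - ∑ k : Fin (9 + h), (Fin.append b m k + 1).choose 2 := by
  obtain ⟨C0, hC0p, hC0⟩ := exactNineG ε hε
  obtain ⟨C2, hC2p, hC2⟩ := exactG2 ε hε
  refine ⟨C0 + C2, by linarith, fun d h M b m h3 hm hb hs => ?_⟩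
  have hM1 : (0 : ℝ) ≤ (M : ℝ) + 1 := by
    have := Nat.cast_nonneg (α := ℝ) M
    linarith
  have hP1 : (0 : ℝ) ≤ ((M : ℝ) + 1) ^ (1 + ε) := Real.rpow_nonneg hM1 _
  have hP2 : (0 : ℝ) ≤ ((M : ℝ) + 1) ^ (2 + ε) := Real.rpow_nonneg hM1 _
  by_cases hz : ∀ j, b j = 0
  · have hb0 : b = fun _ : Fin 9 => 0 := funext hz
    subst hb0
    exact sys_zero (hC2 d h M m hm (Or.inr
      (le_trans (mul_le_mul_of_nonneg_right (by linarith) hP2) hs)))
  · push Not at hz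
    obtain ⟨j, hj⟩ := hz
    have hall : ∀ i, (b i : ℝ) + (C0 + C2) * ((M : ℝ) + 1) ^ (1 + ε) ≤ d := by
      intro i
      by_cases hi : b i = 0
      · have h1 := hb j hj
        have h2 : (0 : ℝ) ≤ (b j : ℝ) := Nat.cast_nonneg _
        rw [hi, Nat.cast_zero]
        linarith
      · exact hb i hi
    refine hC0 d h M b m hm h3 (fun i => ?_) (Or.inr
      (le_trans (mul_le_mul_of_nonneg_right (by linarith) hP2) hs))
    have h1 := hall i
    have h2 : C0 * ((M : ℝ) + 1) ^ (1 + ε) ≤ (C0 + C2) * ((M : ℝ) + 1) ^ (1 + ε) :=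
      mul_le_mul_of_nonneg_right (by linarith) hP1
    linarith

end Pool.Agent.SGN
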