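import Pool.Agent.SGN.FinM
import Pool.Agent.helper25.SXQ.FinX

set_option autoImplicit false

/-!
# Module AllG: all standard systems, exponents `1 + ε` and `2 + ε` (`exactAllG`, `exactAllG2`, `exactNineG`)

Compare SXQ/AllB.lean and SXQ/FinX.lean.
-/

namespace Pool.Agent.SGN

open MvPolynomial Pool.Agent.helper5.NBS Pool.Agent.helper89.Segre Pool.Agent.SH9
open Pool.Agent.helper25.ST Pool.Agent.helper25.SXN Pool.Agent.helper25.SXQ Pool.Agent.SG

/-- both alternatives, the last big point is the smallest -/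
theorem exactAllG (ε : ℝ) (hε : 0 < ε) : ∃ C : ℝ, 1 ≤ C ∧
    ∀ (d M Y N : ℕ) (b : Fin 9 → ℕ) (ms : Multiset ℕ), (∀ μ ∈ ms, μ ≤ M) → (∀ i, b 8 ≤ b i) →
    (∀ i j k, i ≠ j → j ≠ k → i ≠ k → b i + b j + b k ≤ d) → (∀ i, i ≠ 8 → b i + Y ≤ d) →
    ∑ i, b i ^ 2 + N = d ^ 2 → C * ((M : ℝ) + 1) ^ (1 + ε) ≤ Y →
    (C * ((M : ℝ) + 1) ^ (2 + ε) ≤ N ∨ C * ((M : ℝ) + 1) ^ (2 + ε) ≤ (cd ms : ℕ)) →
    Good ℂ (tri d) (Bm b + ms) (min (cd (Bm b) + cd ms) (tri d).card) := by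
  obtain ⟨C0, hC01, hC0⟩ := exactMG ε hε
  refine ⟨C0 + 400, by linarith, ?_⟩
  intro d M Y N b ms hM hmin h3 h2 hN hY hor
  have hM1 : (1 : ℝ) ≤ (M : ℝ) + 1 := by
    have := Nat.cast_nonneg (α := ℝ) M
    linarith
  have hP1 : (1 : ℝ) ≤ ((M : ℝ) + 1) ^ (1 + ε) := Real.one_le_rpow hM1 (by linarith)
  have hP2 : (1 : ℝ) ≤ ((M : ℝ) + 1) ^ (2 + ε) := Real.one_le_rpow hM1 (by linarith)
  have hY0 : C0 * ((M : ℝ) + 1) ^ (1 + ε) ≤ Y :=
    le_trans (mul_le_mul_of_nonneg_right (by linarith) (by linarith)) hY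
  have hY1 : 400 ≤ Y := by
    have h1 : (400 : ℝ) ≤ Y := by
      refine le_trans ?_ hY
      nlinarith
    exact_mod_cast h1
  rcases hor with hor | hor
  · exact hC0 d M Y N b ms hM hmin h3 h2 hN hY0
      (le_trans (mul_le_mul_of_nonneg_right (by linarith) (by linarith)) hor)
  · have hor0 : C0 * ((M : ℝ) + 1) ^ (2 + ε) ≤ (cd ms : ℕ) :=
      le_trans (mul_le_mul_of_nonneg_right (by linarith) (by linarith)) hor
    have hms2 : 2 ≤ cd ms := by
      have h1 : (2 : ℝ) ≤ (cd ms : ℕ) := by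
        refine le_trans ?_ hor
        nlinarith
      exact_mod_cast h1
    obtain ⟨hs3, -⟩ := std_three h3
    obtain ⟨q, hq⟩ : ∃ q, ∑ i, b i + q = 3 * d := ⟨3 * d - ∑ i, b i, by omega⟩
    have hqN : 400 * q ≤ 18 * N := by
      have h4 := std_NQ hmin h3 h2 hN hq
      have h5 : q * 400 ≤ q * Y := Nat.mul_le_mul_left _ hY1
      omega
    have htri : ∀ e : ℕ, 2 * (tri e).card = e ^ 2 + 3 * e + 2 := by
      intro e
      rw [card_tri, two_choose]
      ring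
    have hB := two_cd_Bm b
    have ht := htri d
    rcases Nat.eq_zero_or_pos q with hq0 | hq0
    · rw [hq0, add_zero] at hq
      obtain ⟨k, rfl, rfl⟩ := q_zero hN hq
      have h7 : ∃ μ ∈ ms, 1 ≤ μ := by
        by_contra hcon
        push Not at hcon
        have h8 : cd ms = 0 := by
          rw [cd, Multiset.sum_eq_zero]
          intro x hx
          obtain ⟨μ, hμ, rfl⟩ := Multiset.mem_map.mp hx
          have : μ = 0 := by have := hcon μ hμ; omega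
          rw [this]
          decide
        omega
      obtain ⟨μ, hμ, hμ1⟩ := h7
      obtain ⟨rest, rfl⟩ := Multiset.exists_cons_of_mem hμ
      have hE := (E_prop (k := k) hμ1).add rest
      have he : Bm (fun _ => k) + {μ} + rest = Bm (fun _ => k) + (μ ::ₘ rest) := by
        rw [add_assoc, Multiset.singleton_add]
      rw [he] at hE
      have h8 : 2 * cd (Bm fun _ => k) = 9 * k ^ 2 + 9 * k := by
        rw [hB]
        simp
      have h9 : 2 * (tri (3 * k)).card = 9 * k ^ 2 + 9 * k + 2 := by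
        rw [ht]
        ring
      have h10 : (tri (3 * k)).card ≤ cd (Bm fun _ => k) + cd (μ ::ₘ rest) := by
        clear hB ht hN hq
        omega
      rw [min_eq_right h10]
      exact hE
    · rcases Nat.lt_or_ge (N + q + 2) (2 * cd ms) with hc | hc
      · rw [min_eq_right (by omega)]
        obtain ⟨x, hx⟩ := Nat.exists_eq_add_of_le hc.le
        obtain ⟨k, hk⟩ : ∃ k, k = x / (2 * q) := ⟨_, rfl⟩
        have k1 : 2 * q * k ≤ x := by rw [hk]; exact Nat.mul_div_le _ _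
        have k2 : x < 2 * q * k + 2 * q := by
          have := Nat.lt_mul_div_succ x (show 0 < 2 * q by omega)
          rw [← hk, mul_add, mul_one] at this
          exact this
        have e1 := sum_add_sq b k
        have e2 := sum_add_one b k
        have e3 : (d + 3 * k) ^ 2 = d ^ 2 + 2 * k * (3 * d) + 9 * k ^ 2 := by ring
        have e4 : 2 * k * (∑ i, b i + q) = 2 * k * ∑ i, b i + 2 * q * k := by ring
        rw [← hq, e4] at e3
        have hNk : ∑ i, (b i + k) ^ 2 + (N + 2 * q * k) = (d + 3 * k) ^ 2 := by omega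
        have hle : cd ms ≤ N + 2 * q * k := by omega
        have hG := hC0 (d + 3 * k) M Y (N + 2 * q * k) (fun i => b i + k) ms hM
          (fun i => Nat.add_le_add_right (hmin i) k)
          (fun i j l hij hjl hil => by have := h3 i j l hij hjl hil; omega)
          (fun i hi => by have := h2 i hi; omega) hNk hY0
          (hor0.trans (by exact_mod_cast hle))
        have hBk := two_cd_Bm (fun i => b i + k)
        have htk := htri (d + 3 * k)
        rw [min_eq_right (by omega)] at hG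
        exact cubKs k hG
      · exact hC0 d M Y N b ms hM hmin h3 h2 hN hY0
          (hor0.trans (by
            have : cd ms ≤ N := by omega
            exact_mod_cast this))

/-- a permutation of the big points moves the smallest one to the last place -/
lemma perm_min (b : Fin 9 → ℕ) : ∃ σ : Equiv.Perm (Fin 9), (∀ i, b (σ 8) ≤ b i) ∧
    Bm (fun i => b (σ i)) = Bm b := by
  obtain ⟨i0, -, hi0⟩ := Finset.exists_min_image Finset.univ b Finset.univ_nonempty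
  refine ⟨Equiv.swap 8 i0, fun i => ?_, ?_⟩
  · rw [Equiv.swap_apply_left]
    exact hi0 i (Finset.mem_univ i)
  · obtain ⟨σ, hσ⟩ : ∃ σ : Equiv.Perm (Fin 9), σ = Equiv.swap 8 i0 := ⟨_, rfl⟩
    rw [← hσ]
    have h1 : (Finset.univ : Finset (Fin 9)).val.map σ = (Finset.univ : Finset (Fin 9)).val := by
      simp
    calc Bm (fun i => b (σ i)) = ((Finset.univ : Finset (Fin 9)).val.map σ).map b := by
          rw [Multiset.map_map]
          rfl
      _ = Bm b := by rw [h1]; rfl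

/-- `exactAllG` without the assumption that the last weight is the smallest -/
theorem exactAllG' (ε : ℝ) (hε : 0 < ε) : ∃ C : ℝ, 1 ≤ C ∧
    ∀ (d M Y N : ℕ) (b : Fin 9 → ℕ) (ms : Multiset ℕ), (∀ μ ∈ ms, μ ≤ M) →
    (∀ i j k, i ≠ j → j ≠ k → i ≠ k → b i + b j + b k ≤ d) → (∀ i, b i + Y ≤ d) →
    ∑ i, b i ^ 2 + N = d ^ 2 → C * ((M : ℝ) + 1) ^ (1 + ε) ≤ Y →
    (C * ((M : ℝ) + 1) ^ (2 + ε) ≤ N ∨ C * ((M : ℝ) + 1) ^ (2 + ε) ≤ (cd ms : ℕ)) →
    Good ℂ (tri d) (Bm b + ms) (min (cd (Bm b) + cd ms) (tri d).card) := by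
  obtain ⟨C, hC1, hC⟩ := exactAllG ε hε
  refine ⟨C, hC1, fun d M Y N b ms hM h3 h2 hN hY hor => ?_⟩
  obtain ⟨σ, hσ, hB⟩ := perm_min b
  have hG := hC d M Y N (fun i => b (σ i)) ms hM (fun i => hσ _)
    (fun i j k hij hjk hik => h3 _ _ _ (fun h => hij (σ.injective h))
      (fun h => hjk (σ.injective h)) (fun h => hik (σ.injective h)))
    (fun i _ => h2 _)
    (by rw [Equiv.sum_comp σ (fun i => b i ^ 2)]; exact hN) hY hor
  rwa [hB] at hG

lemma sq_le_two_cd {h : ℕ} (m : Fin h → ℕ) :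
    ∑ i, m i ^ 2 ≤ 2 * cd (Finset.univ.val.map m) := by
  have h1 : cd (Finset.univ.val.map m) = ∑ i, kk (m i) := by
    rw [cd, Multiset.map_map]
    rfl
  rw [h1, Finset.mul_sum]
  refine Finset.sum_le_sum fun i _ => ?_
  rw [two_mul_kk]
  nlinarith

theorem exactNineG (ε : ℝ) (hε : 0 < ε) : ∃ C : ℝ, 0 < C ∧ ∀ (d h M : ℕ) (b : Fin 9 → ℕ)
    (m : Fin h → ℕ), (∀ i, m i ≤ M) →
    (∀ i j k, i ≠ j → j ≠ k → i ≠ k → b i + b j + b k ≤ d) →
    (∀ i, (b i : ℝ) + C * ((M : ℝ) + 1) ^ (1 + ε) ≤ d) →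
    (∑ i, (b i : ℝ) ^ 2 + C * ((M : ℝ) + 1) ^ (2 + ε) ≤ (d : ℝ) ^ 2 ∨
      C * ((M : ℝ) + 1) ^ (2 + ε) ≤ ∑ i, (m i : ℝ) ^ 2) →
    ∃ Q : MvPolynomial (Fin (9 + h) × Fin 3) ℂ, Q ≠ 0 ∧ ∀ p : Fin (9 + h) → Fin 3 → ℂ,
      eval (fun ij : Fin (9 + h) × Fin 3 => p ij.1 ij.2) Q ≠ 0 →
      Module.finrank ℂ (sys d (9 + h) (Fin.append b m) p) =
        (d + 2).choose 2 - ∑ k : Fin (9 + h), (Fin.append b m k + 1).choose 2 := by
  obtain ⟨C0, hC01, hC⟩ := exactAllG' ε hε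
  refine ⟨4 * C0, by positivity, ?_⟩
  intro d h M b m hm h3 h2 hd
  have hM1 : (1 : ℝ) ≤ (M : ℝ) + 1 := by
    have := Nat.cast_nonneg (α := ℝ) M
    linarith
  obtain ⟨X, hX⟩ : ∃ X : ℝ, X = ((M : ℝ) + 1) ^ (1 + ε) := ⟨_, rfl⟩
  obtain ⟨Z, hZ⟩ : ∃ Z : ℝ, Z = ((M : ℝ) + 1) ^ (2 + ε) := ⟨_, rfl⟩
  have hX1 : 1 ≤ X := by rw [hX]; exact Real.one_le_rpow hM1 (by linarith)
  have hZ1 : 1 ≤ Z := by rw [hZ]; exact Real.one_le_rpow hM1 (by linarith)
  rw [← hX] at h2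
  rw [← hZ] at hd
  obtain ⟨Y, hY⟩ : ∃ Y : ℕ, Y = ⌈C0 * X⌉₊ := ⟨_, rfl⟩
  have hY1 : C0 * X ≤ Y := by rw [hY]; exact Nat.le_ceil _
  have hY2 : (Y : ℝ) ≤ 4 * C0 * X := by
    have h1 : (⌈C0 * X⌉₊ : ℝ) < C0 * X + 1 := Nat.ceil_lt_add_one (by positivity)
    rw [hY]
    nlinarith
  have H2 : ∀ i, b i + Y ≤ d := by
    intro i
    have e0 := h2 i
    have e1 : ((b i + Y : ℕ) : ℝ) ≤ (d : ℝ) := by
      push_cast
      linarith
    exact_mod_cast e1
  obtain ⟨-, hsq⟩ := std_three h3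
  obtain ⟨N, hN⟩ : ∃ N, ∑ i, b i ^ 2 + N = d ^ 2 := ⟨d ^ 2 - ∑ i, b i ^ 2, by omega⟩
  obtain ⟨ms, hms⟩ : ∃ ms : Multiset ℕ, ms = Finset.univ.val.map m := ⟨_, rfl⟩
  have hle : ∀ μ ∈ ms, μ ≤ M := by
    intro μ hμ
    rw [hms] at hμ
    obtain ⟨i, _, rfl⟩ := Multiset.mem_map.mp hμ
    exact hm i
  have hG := hC d M Y N b ms hle h3 H2 hN (by rw [← hX]; exact hY1) (by
    rw [← hZ]
    have hCZ : 0 ≤ C0 * Z := by positivity
    rcases hd with hd | hd
    · left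
      have e3 : ∑ i : Fin 9, (b i : ℝ) ^ 2 + (N : ℝ) = (d : ℝ) ^ 2 := by exact_mod_cast hN
      nlinarith
    · right
      have e1 := sq_le_two_cd m
      rw [← hms] at e1
      have e2 : ∑ i, (m i : ℝ) ^ 2 ≤ 2 * (cd ms : ℝ) := by exact_mod_cast e1
      nlinarith)
  have hcd : cd (Bm b) + cd ms = ∑ k : Fin (9 + h), (Fin.append b m k + 1).choose 2 := by
    have e1 : cd (Bm b) + cd ms = cd (Bm b + ms) := by
      simp only [cd, Multiset.map_add, Multiset.sum_add]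
    rw [e1, hms, ← map_append']
    exact sumkk_eq (Fin.append b m)
  rw [hcd, card_tri, hms, ← map_append'] at hG
  exact generic_of_good hG

end Pool.Agent.SGN
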