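import Pool.Agent.SGN.NNBstep
import Pool.Agent.SGN.AllG

set_option autoImplicit false

/-!
# Module FinE: many conditions on points of multiplicity at most `Y / C`

`nnb_zero0`: level zero with a linear margin (the proof of `nnb_zero` with `violB0`, `r = 0`).
`altE`: if `(1 + δ) N ≤ Sq ms` and all multiplicities are at most `Y / C` then the system is empty
(`empB` for `NNB 0 0`, cutoff `W = Y / C`, `X = C0 W²`).
-/

namespace Pool.Agent.SGN

open MvPolynomial Pool.Agent.helper5.NBS Pool.Agent.helper89.Segre Pool.Agent.SH9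
open Pool.Agent.helper25.ST Pool.Agent.helper25.SXN Pool.Agent.helper25.SXQ Pool.Agent.SG

private lemma rpow_mono_W {W : ℕ} (hW : 1 ≤ W) {x y : ℝ} (h : x ≤ y) :
    (W : ℝ) ^ x ≤ (W : ℝ) ^ y :=
  Real.rpow_le_rpow_of_exponent_le (by exact_mod_cast hW) h

private lemma le_of_rpow {R0 t Y : ℕ} {x : ℝ} (ht : 1 ≤ t) (hx : 0 ≤ x)
    (h : (R0 : ℝ) * (t : ℝ) ^ x ≤ Y) : R0 ≤ Y := by
  have h1 : (1 : ℝ) ≤ (t : ℝ) ^ x := Real.one_le_rpow (by exact_mod_cast ht) hx
  have h2 : (R0 : ℝ) * 1 ≤ (R0 : ℝ) * (t : ℝ) ^ x := mul_le_mul_of_nonneg_left h1 (Nat.cast_nonneg _)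
  have h3 : (R0 : ℝ) ≤ Y := by linarith
  exact_mod_cast h3

private lemma mul_rpow_mono {R C W Y : ℕ} {x y : ℝ} (hW : 1 ≤ W) (hR : R ≤ C) (hxy : x ≤ y)
    (h : (C : ℝ) * (W : ℝ) ^ y ≤ Y) : (R : ℝ) * (W : ℝ) ^ x ≤ Y := by
  have h1 : (W : ℝ) ^ x ≤ (W : ℝ) ^ y := rpow_mono_W hW hxy
  have h0 : (0 : ℝ) ≤ (W : ℝ) ^ y := Real.rpow_nonneg (Nat.cast_nonneg _) _
  have h2 : (R : ℝ) ≤ C := by exact_mod_cast hR
  calc (R : ℝ) * (W : ℝ) ^ x ≤ (R : ℝ) * (W : ℝ) ^ y :=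
        mul_le_mul_of_nonneg_left h1 (Nat.cast_nonneg _)
    _ ≤ (C : ℝ) * (W : ℝ) ^ y := mul_le_mul_of_nonneg_right h2 h0
    _ ≤ Y := h

private lemma pos_n {n N Y f W : ℕ} {w : Fin n → ℕ} (hY : 1 ≤ Y) (hY2 : 2 * Y ^ 2 ≤ N)
    (hf : N ≤ f * ∑ i with w i ≤ W, w i ^ 2) : 0 < n := by
  rcases Nat.eq_zero_or_pos n with h | h
  · exfalso
    subst h
    have h1 : ∑ i with w i ≤ W, w i ^ 2 = 0 := by
      apply Finset.sum_eq_zero
      intro i _
      exact i.elim0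
    rw [h1, mul_zero] at hf
    have h2 : 1 ≤ Y ^ 2 := Nat.one_le_pow _ _ hY
    omega
  · exact h

/-- level zero with a linear margin -/
theorem nnb_zero0 : NNB 0 0 := by
  intro f
  obtain ⟨R, hR1, hR⟩ := violB0 f (100 * (f + 1)) 0 le_rfl zero_le_one
  refine ⟨R + 1024, by omega, ?_⟩
  intro n b w D Y N q W X hB hW hCW hCw hf hX hsq
  have hn : 0 < n := pos_n hB.hY hB.hY2 hf
  have hX2 : (R + 1024) ^ 2 * W ^ 4 ≤ X ^ 2 := by simpa using hX
  have hX' : (R + 1024) * W ^ 2 ≤ X := by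
    have h1 : ((R + 1024) * W ^ 2) ^ 2 ≤ X ^ 2 := by
      calc ((R + 1024) * W ^ 2) ^ 2 = (R + 1024) ^ 2 * W ^ 4 := by ring
        _ ≤ X ^ 2 := hX2
    exact (Nat.pow_le_pow_iff_left (by norm_num)).mp h1
  have hW2 : 1 ≤ W ^ 2 := Nat.one_le_pow _ _ hW
  have hXW : 1024 * W ^ 2 ≤ X := le_trans (Nat.mul_le_mul_right _ (by omega)) hX'
  have hX1 : 1 ≤ X := by omega
  refine nefPB_of w hn hB.pos ?_
  intro e β μ hcu hv
  exfalso
  obtain ⟨Y', NF, p, t, hB', ht, hRt, hRμ, hμt, hNFf, hNF1, hNF2, hcase, hone⟩ :=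
    hR n b β w μ D Y N q W X e hB hW hX1
      (mul_rpow_mono hW (by omega) (by norm_num) hCW)
      (fun i => le_trans (Nat.mul_le_mul_right _ (by omega)) (hCw i)) hf hsq hcu hv
  have hY' : 100 * (f + 1) ≤ Y' := le_of_rpow ht (by norm_num) hRt
  have hNFb : 2 * (100 * (f + 1)) ^ 2 ≤ NF :=
    (Nat.mul_le_mul_left 2 (Nat.pow_le_pow_left hY' 2)).trans hB'.hY2
  have hNF0 : 0 < NF := by
    have h1 : 0 < 2 * (100 * (f + 1)) ^ 2 := by positivity
    omega
  rcases hcase with ⟨h4, hXe⟩ | ⟨h4, htN, hXe⟩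
  · subst h4
    have h1 : NF * (1024 * W ^ 2) ≤ NF * X := Nat.mul_le_mul_left _ hXW
    have h2 : 256 * NF * W ^ 2 < N := by
      have h3 : NF * (1024 * W ^ 2) = 4 * (256 * NF * W ^ 2) := by ring
      omega
    obtain ⟨j, hjW, hj0, hju⟩ := hone h2
    have h5 : ∑ i with w i ≤ W, μ i ^ 2 ≤ 16 := by
      have h6 : ∑ i with w i ≤ W, μ i ^ 2 = μ j ^ 2 := by
        apply Finset.sum_eq_single j
        · intro i hi hij
          rw [Finset.mem_filter] at hi
          have h7 : μ i = 0 := by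
            by_contra h8
            exact hij (hju i hi.2 (Nat.pos_of_ne_zero h8))
          rw [h7]
          rfl
        · intro hj
          exact absurd (Finset.mem_filter.mpr ⟨Finset.mem_univ j, hjW⟩) hj
      rw [h6]
      have h7 : μ j ≤ 4 := hμt j hjW
      calc μ j ^ 2 ≤ 4 ^ 2 := Nat.pow_le_pow_left h7 2
        _ = 16 := by norm_num
    have h6 : NF ≤ 4 * f * 16 := hNFf.trans (Nat.mul_le_mul_left _ h5)
    have h7 : 2 * (100 * (f + 1)) ^ 2 = 20000 * f ^ 2 + 40000 * f + 20000 := by ring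
    have h8 : 4 * f * 16 = 64 * f := by ring
    have h9 : 0 ≤ f ^ 2 := Nat.zero_le _
    omega
  · have h1 : 16 * N ≤ t ^ 2 * N := Nat.mul_le_mul_right _ (by
      have : 4 ^ 2 ≤ t ^ 2 := Nat.pow_le_pow_left h4 2
      omega)
    have h2 : 4 * N ≤ NF * W ^ 2 := by
      have h3 : 4 * NF * W ^ 2 = 4 * (NF * W ^ 2) := by ring
      omega
    have h3 : NF * X ^ 2 < NF * W ^ 4 := by
      calc NF * X ^ 2 < 4 * W ^ 2 * N := hXe
        _ = W ^ 2 * (4 * N) := by ring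
        _ ≤ W ^ 2 * (NF * W ^ 2) := Nat.mul_le_mul_left _ h2
        _ = NF * W ^ 4 := by ring
    have h4' : X ^ 2 < W ^ 4 := Nat.lt_of_mul_lt_mul_left h3
    have h5 : 1 * W ^ 4 ≤ (R + 1024) ^ 2 * W ^ 4 :=
      Nat.mul_le_mul_right _ (Nat.one_le_pow _ _ (by omega))
    omega

/-- a subset with prescribed sum of squares -/
private lemma pickSq {K B : ℕ} (t : Multiset ℕ) : ∀ n : ℕ, (∀ m ∈ t, m ^ 2 ≤ B) → n ≤ K * Sq t →
    ∃ gs ≤ t, n ≤ K * Sq gs ∧ K * Sq gs ≤ n + K * B := by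
  induction t using Multiset.induction_on with
  | empty =>
    intro n _ hn
    exact ⟨0, le_refl _, hn, by simp [Sq]⟩
  | cons m a ih =>
    intro n h hn
    by_cases h1 : n ≤ K * Sq a
    · obtain ⟨gs, g1, g2, g3⟩ := ih n (fun μ hμ => h μ (Multiset.mem_cons_of_mem hμ)) h1
      exact ⟨gs, g1.trans (Multiset.le_cons_self _ _), g2, g3⟩
    · refine ⟨m ::ₘ a, le_refl _, hn, ?_⟩
      have h2 := h m (Multiset.mem_cons_self _ _)
      rw [Sq_cons, mul_add]
      have h3 : K * m ^ 2 ≤ K * B := Nat.mul_le_mul_left _ h2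
      omega

theorem altE (δ : ℝ) (hδ : 0 < δ) : ∃ C : ℝ, 1 ≤ C ∧
    ∀ (d Y N : ℕ) (b : Fin 9 → ℕ) (ms : Multiset ℕ),
    (∀ i j k, i ≠ j → j ≠ k → i ≠ k → b i + b j + b k ≤ d) → (∀ i, b i + Y ≤ d) →
    ∑ i, b i ^ 2 + N = d ^ 2 → Y ^ 2 ≤ N → C ≤ Y → (∀ m ∈ ms, C * (m : ℝ) ≤ Y) →
    (1 + δ) * N ≤ (Sq ms : ℝ) → E d (Bm b + ms) := by
  obtain ⟨K0, hK0⟩ := exists_nat_ge (16 / δ)
  obtain ⟨K, hK⟩ : ∃ K : ℕ, K = K0 + 16 := ⟨_, rfl⟩
  have hK16 : 16 ≤ K := by omega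
  have hKδ : 16 ≤ (K : ℝ) * δ := by
    rw [div_le_iff₀ hδ] at hK0
    have h1 : (K : ℝ) = K0 + 16 := by rw [hK]; push_cast; ring
    rw [h1]
    nlinarith
  obtain ⟨C0, hC0, hE⟩ := empB nnb_zero0 1 3
  obtain ⟨C, hC⟩ : ∃ C : ℕ, C = 400 * C0 * K := ⟨_, rfl⟩
  have hC1 : 1 ≤ C := by
    rw [hC]
    exact Nat.mul_pos (by omega) (by omega)
  refine ⟨C, by exact_mod_cast hC1, fun d Y N b ms h3 hbY hN hYN hCY hCm hS => ?_⟩
  obtain ⟨σ, hσ, hB⟩ := perm_min b
  rw [← hB]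
  obtain ⟨c, hc⟩ : ∃ c : Fin 9 → ℕ, c = fun i => b (σ i) := ⟨_, rfl⟩
  rw [← hc]
  have hmin : ∀ i, c 8 ≤ c i := fun i => by rw [hc]; exact hσ _
  have h3c : ∀ i j k, i ≠ j → j ≠ k → i ≠ k → c i + c j + c k ≤ d := fun i j k hij hjk hik => by
    rw [hc]
    exact h3 _ _ _ (fun h => hij (σ.injective h)) (fun h => hjk (σ.injective h))
      (fun h => hik (σ.injective h))
  have hcY : ∀ i, i ≠ 8 → c i + Y ≤ d := fun i _ => by rw [hc]; exact hbY _
  have hcN : ∑ i, c i ^ 2 + N = d ^ 2 := by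
    rw [hc, Equiv.sum_comp σ (fun i => b i ^ 2)]
    exact hN
  have hCY' : C ≤ Y := by exact_mod_cast hCY
  have hCm' : ∀ m ∈ ms, C * m ≤ Y := fun m hm => by
    have := hCm m hm
    exact_mod_cast this
  have hS' : (K + 16) * N ≤ K * Sq ms := by
    have h1 : ((K : ℝ) + 16) * N ≤ K * (Sq ms : ℝ) := by
      have h2 : (K : ℝ) * ((1 + δ) * N) ≤ K * (Sq ms : ℝ) :=
        mul_le_mul_of_nonneg_left hS (Nat.cast_nonneg _)
      have h3 : (16 : ℝ) * N ≤ (K * δ) * N := mul_le_mul_of_nonneg_right hKδ (Nat.cast_nonneg _)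
      nlinarith
    exact_mod_cast h1
  -- the margin and the cutoff
  obtain ⟨Y1, hY1⟩ : ∃ Y1 : ℕ, Y1 = Y / 100 := ⟨_, rfl⟩
  obtain ⟨W, hW⟩ : ∃ W : ℕ, W = Y / C := ⟨_, rfl⟩
  have hCK : 400 * K ≤ C := by
    rw [hC]
    calc 400 * K = 400 * 1 * K := by ring
      _ ≤ 400 * C0 * K := Nat.mul_le_mul_right _ (Nat.mul_le_mul_left _ hC0)
  have y1 : 100 * Y1 ≤ Y := by omega
  have y2 : Y ≤ 200 * Y1 := by omega
  have y3 : 4 * K ≤ Y1 + 1 := by omega
  have hW1 : 1 ≤ W := by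
    rw [hW]
    exact Nat.div_pos hCY' (by omega)
  have hCW : C * W ≤ Y := by
    rw [hW]
    exact Nat.mul_div_le Y C
  have hmW : ∀ m ∈ ms, m ≤ W := fun m hm => by
    rw [hW, Nat.le_div_iff_mul_le (by omega), mul_comm]
    exact hCm' m hm
  have hCW2 : C ^ 2 * W ^ 2 ≤ N := by
    calc C ^ 2 * W ^ 2 = (C * W) ^ 2 := by ring
      _ ≤ Y ^ 2 := Nat.pow_le_pow_left hCW 2
      _ ≤ N := hYN
  have hKX : K * (C0 * W ^ 2) ≤ N := by
    refine le_trans ?_ hCW2
    calc K * (C0 * W ^ 2) = (C0 * K) * W ^ 2 := by ring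
      _ ≤ C ^ 2 * W ^ 2 := by
          apply Nat.mul_le_mul_right
          have h1 : C0 * K ≤ C := by
            rw [hC]
            calc C0 * K = 1 * C0 * K := by ring
              _ ≤ 400 * C0 * K := Nat.mul_le_mul_right _ (Nat.mul_le_mul_right _ (by norm_num))
          calc C0 * K ≤ C := h1
            _ ≤ C * C := Nat.le_mul_of_pos_left _ hC1
            _ = C ^ 2 := by ring
  have hWN : W ^ 2 ≤ N := le_trans (Nat.le_mul_of_pos_left _ (by positivity)) hCW2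
  have hKN : K ≤ N := by
    have h1 : Y ≤ Y ^ 2 := by
      calc Y ≤ Y * Y := Nat.le_mul_of_pos_left _ (by omega)
        _ = Y ^ 2 := by ring
    omega
  obtain ⟨h3d, -⟩ := std_three h3c
  obtain ⟨q, hq⟩ : ∃ q, ∑ i, c i + q = 3 * d := ⟨3 * d - ∑ i, c i, by omega⟩
  have hqY := std_NQ hmin h3c hcY hcN hq
  have hqY1 : 2 * (Y1 * q) ≤ N := by
    have h4 : 100 * (q * Y1) ≤ q * Y := by
      calc 100 * (q * Y1) = q * (100 * Y1) := by ring
        _ ≤ q * Y := Nat.mul_le_mul_left _ y1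
    have h5 : Y1 * q = q * Y1 := mul_comm _ _
    omega
  have hY12 : 2 * Y1 ^ 2 ≤ N := by
    refine le_trans ?_ hYN
    calc 2 * Y1 ^ 2 ≤ 10000 * Y1 ^ 2 := Nat.mul_le_mul_right _ (by norm_num)
      _ = (100 * Y1) ^ 2 := by ring
      _ ≤ Y ^ 2 := Nat.pow_le_pow_left y1 2
  have hP : Pos d Y1 c := std_posQ hmin h3c (fun i hi => by
    have := hcY i hi
    omega) hcN hY12
  have hBig : Big d Y1 N q c := ⟨hP, hcN, hq, by omega, hqY1, hY12⟩
  have hKq : K * (2 * q) ≤ N := by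
    have h1 : K * q ≤ Y1 * q := Nat.mul_le_mul_right _ (by omega)
    have h2 : K * (2 * q) = 2 * (K * q) := by ring
    omega
  obtain ⟨gs, hg, g1, g2⟩ := pickSq (K := K) (B := W ^ 2) ms ((K + 16) * N)
    (fun m hm => Nat.pow_le_pow_left (hmW m hm) 2) hS'
  have hfil : (gs.filter fun m => m ≤ W) = gs :=
    Multiset.filter_eq_self.mpr fun m hm => hmW m (Multiset.mem_of_le hg hm)
  have hfin := hE d Y1 N q W (C0 * W ^ 2) c gs hBig hW1 (by
      rw [add_zero, Real.rpow_one]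
      have h1 : C0 * W ≤ Y1 := by
        have h2 : 200 * (C0 * W) ≤ 200 * Y1 := by
          calc 200 * (C0 * W) ≤ C * W := by
                rw [hC]
                calc 200 * (C0 * W) = 200 * C0 * 1 * W := by ring
                  _ ≤ 400 * C0 * K * W := by
                      apply Nat.mul_le_mul_right
                      exact Nat.mul_le_mul (Nat.mul_le_mul_right _ (by norm_num)) (by omega)
            _ ≤ Y := hCW
            _ ≤ 200 * Y1 := y2
        omega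
      exact_mod_cast h1) (by
      intro m hm
      have h1 : m ≤ W := hmW m (Multiset.mem_of_le hg hm)
      have h2 : 200 * (C0 * m) ≤ 200 * Y1 := by
        calc 200 * (C0 * m) ≤ 200 * (C0 * W) := Nat.mul_le_mul_left _ (Nat.mul_le_mul_left _ h1)
          _ ≤ C * W := by
              rw [hC]
              calc 200 * (C0 * W) = 200 * C0 * 1 * W := by ring
                _ ≤ 400 * C0 * K * W := by
                    apply Nat.mul_le_mul_right
                    exact Nat.mul_le_mul (Nat.mul_le_mul_right _ (by norm_num)) (by omega)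
          _ ≤ Y := hCW
          _ ≤ 200 * Y1 := y2
      omega)
    (by
      rw [hfil, one_mul]
      have h1 : K * N ≤ K * Sq gs := by
        have : (K + 16) * N = K * N + 16 * N := by ring
        omega
      exact Nat.le_of_mul_le_mul_left h1 (by omega))
    (by
      have h1 : K * Sq gs ≤ K * (3 * N) := by
        have e1 : (K + 16) * N = K * N + 16 * N := by ring
        have e2 : 16 * N ≤ K * N := Nat.mul_le_mul_right _ hK16
        have e3 : K * W ^ 2 ≤ K * N := Nat.mul_le_mul_left _ hWN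
        have e4 : K * (3 * N) = 3 * (K * N) := by ring
        omega
      exact Nat.le_of_mul_le_mul_left h1 (by omega))
    (by
      rw [pow_zero, mul_one]
      exact le_of_eq (by ring))
    (by
      have h1 : K * (N + 2 * q + C0 * W ^ 2 + 1) ≤ K * Sq gs := by
        have e1 : (K + 16) * N = K * N + 16 * N := by ring
        have e2 : K * (N + 2 * q + C0 * W ^ 2 + 1) =
            K * N + K * (2 * q) + K * (C0 * W ^ 2) + K := by ring
        rw [e2]
        rw [e1] at g1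
        omega
      exact Nat.le_of_mul_le_mul_left h1 (by omega))
  obtain ⟨rest, hr⟩ := Multiset.le_iff_exists_add.mp hg
  have hQ := hfin.add rest
  rw [add_assoc, ← hr] at hQ
  exact hQ

end Pool.Agent.SGN
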