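import Pool.Agent.SGN.FinC
import Pool.Agent.SGN.FinD
import Pool.Agent.SGN.FinE

set_option autoImplicit false

/-!
# Module FinX: the final theorem (nine arbitrary points, many big points, small points)
-/

namespace Pool.Agent.SGN

open MvPolynomial Pool.Agent.helper5.NBS Pool.Agent.helper89.Segre Pool.Agent.SH9
open Pool.Agent.helper25.ST Pool.Agent.helper25.SXN Pool.Agent.helper25.SXQ Pool.Agent.SG

/-- squares of the elements of a family with a property -/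
private lemma Sq_filter {h : ℕ} (m : Fin h → ℕ) (P : ℕ → Prop) [DecidablePred P] :
    ((Sq ((Finset.univ.val.map m).filter P) : ℕ) : ℝ) = ∑ i with P (m i), (m i : ℝ) ^ 2 := by
  rw [Sq, Multiset.filter_map, Multiset.map_map]
  have h1 : (((Finset.univ : Finset (Fin h)).val.filter (P ∘ m)).map
      ((fun m => m ^ 2) ∘ m)).sum = ∑ i with P (m i), (m i) ^ 2 := rfl
  rw [h1]
  push_cast
  rfl

theorem exactUN (ε δ : ℝ) (hε : 0 < ε) (hδ : 0 < δ) : ∃ C : ℝ, 0 < C ∧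
    ∀ (d h : ℕ) (b : Fin 9 → ℕ) (m : Fin h → ℕ),
    (∀ i j k, i ≠ j → j ≠ k → i ≠ k → b i + b j + b k ≤ d) →
    ((∃ r : ℝ, C ≤ r ∧ (∀ i, (b i : ℝ) + r ≤ d) ∧ ∑ i, (b i : ℝ) ^ 2 + r ^ 2 ≤ (d : ℝ) ^ 2 ∧
        (∀ i, C * (m i : ℝ) ≤ r) ∧
        (∑ i with ¬ C * ((m i : ℝ) + 1) ^ (1 + ε) ≤ r, (m i : ℝ) ^ 2 ≤
            (1 - δ) * ((d : ℝ) ^ 2 - ∑ i, (b i : ℝ) ^ 2) ∨
          δ * ((d : ℝ) ^ 2 - ∑ i, (b i : ℝ) ^ 2) ≤
            ∑ i with C * ((m i : ℝ) + 1) ^ (1 + ε) ≤ r, (m i : ℝ) ^ 2 ∨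
          (1 + δ) * ((d : ℝ) ^ 2 - ∑ i, (b i : ℝ) ^ 2) ≤ ∑ i, (m i : ℝ) ^ 2)) ∨
      ∃ M : ℕ, (∀ i, m i ≤ M) ∧
        (((∀ i, b i ≠ 0 → (b i : ℝ) + C * ((M : ℝ) + 1) ^ (1 + ε) ≤ d) ∧
            C * ((M : ℝ) + 1) ^ (2 + ε) ≤ ∑ i, (m i : ℝ) ^ 2) ∨
          ((∀ i, (b i : ℝ) + C * ((M : ℝ) + 1) ≤ d) ∧
            (∑ i, (b i : ℝ) ^ 2 + C * ((M : ℝ) + 1) ^ (5 / 2 + ε) ≤ (d : ℝ) ^ 2 ∨
              C * ((M : ℝ) + 1) ^ (5 / 2 + ε) ≤ ∑ i, (m i : ℝ) ^ 2)))) →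
    ∃ Q : MvPolynomial (Fin (9 + h) × Fin 3) ℂ, Q ≠ 0 ∧ ∀ p : Fin (9 + h) → Fin 3 → ℂ,
      eval (fun ij : Fin (9 + h) × Fin 3 => p ij.1 ij.2) Q ≠ 0 →
      Module.finrank ℂ (sys d (9 + h) (Fin.append b m) p) =
        (d + 2).choose 2 - ∑ k : Fin (9 + h), (Fin.append b m k + 1).choose 2 := by
  obtain ⟨C1, hC11, hC1⟩ := altAB ε δ hε hδ
  obtain ⟨C2, hC20, hC2⟩ := altC ε hε
  obtain ⟨C3, hC30, hC3⟩ := exactNine ε hε
  obtain ⟨C4, hC41, hC4⟩ := altE δ hδ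
  refine ⟨2 * C1 + C2 + C3 + 2 * C4, by linarith, fun d h b m h3 hd => ?_⟩
  obtain ⟨C, hC⟩ : ∃ C : ℝ, C = 2 * C1 + C2 + C3 + 2 * C4 := ⟨_, rfl⟩
  rw [← hC] at hd
  have c1 : 2 * C1 ≤ C := by linarith
  have c4 : 2 * C4 ≤ C := by linarith
  have c2 : C2 ≤ C := by linarith
  have c3 : C3 ≤ C := by linarith
  rcases hd with ⟨r, hr, hbr, hsr, hmr, hAB⟩ | ⟨M, hM, hd⟩
  · -- alternatives (A), (B)
    obtain ⟨Y, hY⟩ : ∃ Y : ℕ, Y = ⌊r⌋₊ := ⟨_, rfl⟩
    have hr0 : 0 ≤ r := by linarith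
    have hY1 : (Y : ℝ) ≤ r := by rw [hY]; exact Nat.floor_le hr0
    have hY2 : r < (Y : ℝ) + 1 := by rw [hY]; exact Nat.lt_floor_add_one r
    have hY3 : 1 ≤ Y := by
      rw [hY]
      exact Nat.le_floor (by push_cast; linarith)
    have hY3' : (1 : ℝ) ≤ Y := by exact_mod_cast hY3
    have hY4 : r ≤ 2 * (Y : ℝ) := by linarith
    obtain ⟨-, hsq⟩ := std_three h3
    obtain ⟨N, hN⟩ : ∃ N, ∑ i, b i ^ 2 + N = d ^ 2 := ⟨d ^ 2 - ∑ i, b i ^ 2, by omega⟩
    have hNr : ∑ i : Fin 9, (b i : ℝ) ^ 2 + (N : ℝ) = (d : ℝ) ^ 2 := by exact_mod_cast hN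
    have hNr' : (d : ℝ) ^ 2 - ∑ i : Fin 9, (b i : ℝ) ^ 2 = N := by linarith
    rw [hNr'] at hAB
    have hYN : Y ^ 2 ≤ N := by
      have h1 : (Y : ℝ) ^ 2 ≤ N := by
        have h2 : (Y : ℝ) ^ 2 ≤ r ^ 2 := pow_le_pow_left₀ (Nat.cast_nonneg _) hY1 2
        linarith
      exact_mod_cast h1
    have hbY : ∀ i, b i + Y ≤ d := by
      intro i
      have h1 : ((b i + Y : ℕ) : ℝ) ≤ d := by
        push_cast
        have := hbr i
        linarith
      exact_mod_cast h1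
    have hsmall : ∀ k : ℕ, C * ((k : ℝ) + 1) ^ (1 + ε) ≤ r → C1 * ((k : ℝ) + 1) ^ (1 + ε) ≤ Y := by
      intro k hk
      have h1 : (0 : ℝ) ≤ ((k : ℝ) + 1) ^ (1 + ε) := Real.rpow_nonneg (by positivity) _
      have h2 := mul_le_mul_of_nonneg_right c1 h1
      linarith
    have hcd : cd (Bm b) + cd (Finset.univ.val.map m) =
        ∑ k : Fin (9 + h), (Fin.append b m k + 1).choose 2 := by
      have e1 : cd (Bm b) + cd (Finset.univ.val.map m) = cd (Bm b + Finset.univ.val.map m) := by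
        simp only [cd, Multiset.map_add, Multiset.sum_add]
      rw [e1, ← map_append']
      exact sumkk_eq (Fin.append b m)
    have hG : Good ℂ (tri d) (Bm b + Finset.univ.val.map m)
        (min (cd (Bm b) + cd (Finset.univ.val.map m)) (tri d).card) := by
      have hmem1 : ∀ μ ∈ Finset.univ.val.map m, C1 * (μ : ℝ) ≤ Y := by
        intro μ hμ
        obtain ⟨i, _, rfl⟩ := Multiset.mem_map.mp hμ
        have h1 := hmr i
        have h2 := mul_le_mul_of_nonneg_right c1 (Nat.cast_nonneg (α := ℝ) (m i))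
        linarith
      rcases hAB with hA | hB | hE
      · refine hC1 d Y N b (Finset.univ.val.map m) h3 hbY hN hYN (by linarith) hmem1 (Or.inl ?_)
        rw [Sq_filter m (fun k => ¬ C1 * ((k : ℝ) + 1) ^ (1 + ε) ≤ Y)]
        refine le_trans (Finset.sum_le_sum_of_subset_of_nonneg ?_ fun _ _ _ => sq_nonneg _) hA
        intro i hi
        rw [Finset.mem_filter] at hi ⊢
        exact ⟨hi.1, fun hcon => hi.2 (hsmall _ hcon)⟩
      · refine hC1 d Y N b (Finset.univ.val.map m) h3 hbY hN hYN (by linarith) hmem1 (Or.inr ?_)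
        rw [Sq_filter m (fun k => C1 * ((k : ℝ) + 1) ^ (1 + ε) ≤ Y)]
        refine le_trans hB (Finset.sum_le_sum_of_subset_of_nonneg ?_ fun _ _ _ => sq_nonneg _)
        intro i hi
        rw [Finset.mem_filter] at hi ⊢
        exact ⟨hi.1, hsmall _ hi.2⟩
      · -- many conditions
        have hSq : ((Sq (Finset.univ.val.map m) : ℕ) : ℝ) = ∑ i, (m i : ℝ) ^ 2 := by
          rw [Sq, Multiset.map_map]
          have h1 : ((Finset.univ : Finset (Fin h)).val.map ((fun m => m ^ 2) ∘ m)).sum =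
            ∑ i, (m i) ^ 2 := rfl
          rw [h1]
          push_cast
          rfl
        have hEE := hC4 d Y N b (Finset.univ.val.map m) h3 hbY hN hYN (by linarith) (by
          intro μ hμ
          obtain ⟨i, _, rfl⟩ := Multiset.mem_map.mp hμ
          have h1 := hmr i
          have h2 := mul_le_mul_of_nonneg_right c4 (Nat.cast_nonneg (α := ℝ) (m i))
          linarith) (by rw [hSq]; exact hE)
        have hle : (d + 2).choose 2 ≤ cd (Bm b) + cd (Finset.univ.val.map m) := by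
          rw [← cd_add]
          exact card_le hEE
        rw [min_eq_right (by rw [card_tri]; exact hle)]
        exact hEE
    rw [hcd, card_tri, ← map_append'] at hG
    exact generic_of_good hG
  have hM1 : (1 : ℝ) ≤ (M : ℝ) + 1 := by
    have := Nat.cast_nonneg (α := ℝ) M
    linarith
  have hM0 : (0 : ℝ) ≤ (M : ℝ) + 1 := by linarith
  rcases hd with ⟨hb, hm⟩ | ⟨hb, hm⟩
  · -- alternative (C)
    have p1 : (0 : ℝ) ≤ ((M : ℝ) + 1) ^ (1 + ε) := Real.rpow_nonneg hM0 _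
    have p2 : (0 : ℝ) ≤ ((M : ℝ) + 1) ^ (2 + ε) := Real.rpow_nonneg hM0 _
    refine hC2 d h M b m h3 hM (fun i hi => ?_) ?_
    · have h1 := hb i hi
      have h2 := mul_le_mul_of_nonneg_right c2 p1
      linarith
    · exact le_trans (mul_le_mul_of_nonneg_right c2 p2) hm
  · -- alternative (D)
    have p2 : (0 : ℝ) ≤ ((M : ℝ) + 1) ^ (5 / 2 + ε) := Real.rpow_nonneg hM0 _
    refine hC3 d h M b m hM h3 (fun i => ?_) ?_
    · have h1 := hb i
      have h2 := mul_le_mul_of_nonneg_right c3 hM0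
      linarith
    · have h2 := mul_le_mul_of_nonneg_right c3 p2
      rcases hm with hm | hm
      · left
        linarith
      · right
        linarith

end Pool.Agent.SGN
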