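import Pool.Agent.SGN.NefEB
import Pool.Agent.SG.BaseA

set_option autoImplicit false

/-!
# Module BaseB: one-sided bound of a base system with nine big points (compare SG/BaseA.lean)

`C0` from `empB` (`f`, `A = 60`), `w = (Sm + X)/2 + C N/Y`, `v = vv d (Bm b + ms)`,
`2 v = N + q + 2 - Sq - Sm` (`two_vvB`).
If `v + w ≤ 1`: `Sq = N + q + 2 - 2 v - Sm ≥ N + q + X + 2 C N/Y ≥ N + 2q + X + 1` (`q ≤ N/(2Y)`, `1 ≤ N/Y`): `empB`.
Otherwise `t = ⌈v + w⌉ - 1 ≥ 1`, `t ≤ v + w ≤ (C + 20) N/..`: note `Sm ≤ Sq ≤ 10 N`, `X ≤ N`, `q ≤ N`, and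
`C N/Y ≤ N` as `C ≤ Y` (from `C μ^(1+r) ≤ Y`); so `t ≤ 20 N`. `x0 = Y / C0` (`≥ Y/(2 C0)`), `X'` from `extras`:
`Sm X' ≤ 2t/x0 + 2 x0 ≤ 80 C0 N/Y + 2Y/C0 ≤ 90 C0 N/Y` (`2 Y^2 ≤ N`). For `ms + X'`: `vv = v - t ≤ 1 - w`:
`Sq ≥ N + q + 2 + 2w - 2 - Sm ms - Sm X' ≥ N + 2q + X + 1` for `C ≥ 50 C0 + 2`; `Sq ≤ 10 N + 2 t ≤ 60 N`. `empB`: empty,
`hh_le_add`: `hh ≤ t ≤ v + w`.
-/

namespace Pool.Agent.SGN

open MvPolynomial Pool.Agent.helper5.NBS Pool.Agent.helper89.Segre Pool.Agent.SH9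
open Pool.Agent.helper25.ST Pool.Agent.helper25.SXN Pool.Agent.SG

theorem baseB {a : ℕ} {r : ℝ} (h : NNB a r) (f : ℕ) : ∃ C : ℕ, 1 ≤ C ∧
    ∀ (d Y N q μ X : ℕ) (b : Fin 9 → ℕ) (ms : Multiset ℕ), Big d Y N q b → 1 ≤ μ →
    (C : ℝ) * (μ : ℝ) ^ (1 + r) ≤ Y → (∀ m ∈ ms, C * m ≤ Y) →
    N ≤ f * Sq (ms.filter fun m => m ≤ μ) → Sq ms ≤ 10 * N →
    C ^ 2 * μ ^ (2 * a + 4) ≤ X ^ 2 * N ^ a → X ≤ N →
    (hh d (Bm b + ms) : ℝ) ≤
      max (vv d (Bm b + ms) + ((Sm ms : ℝ) + (X : ℝ)) / 2 + (C : ℝ) * ((N : ℝ) / (Y : ℝ))) 0 := by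
  obtain ⟨C0, hC0, hE⟩ := empB h f 60
  refine ⟨50 * C0 + 2, by omega, ?_⟩
  intro d Y N q μ X b ms hB hμ hd hm hf hS hX hXd
  set C := 50 * C0 + 2 with hC
  have hCC0 : C0 ≤ C := by omega
  have hY1 : 1 ≤ Y := hB.hY
  have hYq := hB.hYq
  have hY2 := hB.hY2
  have hN1 : 1 ≤ N := by nlinarith
  -- `C ≤ Y` because some weight is positive
  have hCd : C ≤ Y := by
    by_contra hcon
    have h0 : ∀ m ∈ ms, m = 0 := by
      intro m hm'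
      have h1 := hm m hm'
      by_contra h2
      have h3 : C * 1 ≤ C * m := Nat.mul_le_mul_left _ (Nat.one_le_iff_ne_zero.2 h2)
      omega
    have h1 : Sq (ms.filter fun m => m ≤ μ) = 0 := by
      refine Multiset.sum_eq_zero ?_
      intro x hx
      obtain ⟨m, hm1, rfl⟩ := Multiset.mem_map.1 hx
      rw [h0 m (Multiset.mem_of_mem_filter hm1)]
      rfl
    rw [h1] at hf
    omega
  have hSS : Sm ms ≤ Sq ms := Sm_le_Sq ms
  have h2v := two_vvB hB ms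
  have hY1R : (1 : ℝ) ≤ (Y : ℝ) := by exact_mod_cast hY1
  have hYpos : (0 : ℝ) < (Y : ℝ) := by linarith
  have hN1R : (1 : ℝ) ≤ (N : ℝ) := by exact_mod_cast hN1
  have hCdR : (C : ℝ) ≤ (Y : ℝ) := by exact_mod_cast hCd
  have hC1R : (1 : ℝ) ≤ (C : ℝ) := by
    have : 1 ≤ C := by omega
    exact_mod_cast this
  have hYqR : 2 * ((Y : ℝ) * (q : ℝ)) ≤ (N : ℝ) := by exact_mod_cast hYq
  have hY2R : 2 * (Y : ℝ) ^ 2 ≤ (N : ℝ) := by exact_mod_cast hY2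
  have hq0R : (0 : ℝ) ≤ (q : ℝ) := Nat.cast_nonneg _
  have hX0R : (0 : ℝ) ≤ (X : ℝ) := Nat.cast_nonneg _
  set Z : ℝ := (N : ℝ) / (Y : ℝ) with hZ
  have hZY : Z * (Y : ℝ) = (N : ℝ) := div_mul_cancel₀ _ hYpos.ne'
  have hZq : 2 * (q : ℝ) ≤ Z := by
    rw [hZ, le_div_iff₀ hYpos]; nlinarith
  have hZ2 : 2 * (Y : ℝ) ≤ Z := by
    rw [hZ, le_div_iff₀ hYpos]; nlinarith
  have hZq1 : (q : ℝ) + 1 ≤ Z := by linarith
  have hqN : 2 * (q : ℝ) ≤ (N : ℝ) := by nlinarith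
  have hCZ : (C : ℝ) * Z ≤ (N : ℝ) := by
    rw [← hZY]
    nlinarith
  set w : ℝ := ((Sm ms : ℝ) + (X : ℝ)) / 2 + (C : ℝ) * Z with hw
  have hgoal : vv d (Bm b + ms) + ((Sm ms : ℝ) + (X : ℝ)) / 2 + (C : ℝ) * Z =
      vv d (Bm b + ms) + w := by
    rw [hw]; ring
  rw [hgoal]
  have hpow : (0 : ℝ) ≤ (μ : ℝ) ^ (1 + r) := Real.rpow_nonneg (Nat.cast_nonneg _) _
  have hd0 : (C0 : ℝ) * (μ : ℝ) ^ (1 + r) ≤ Y := by
    refine le_trans (mul_le_mul_of_nonneg_right ?_ hpow) hd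
    exact_mod_cast hCC0
  have hX0 : C0 ^ 2 * μ ^ (2 * a + 4) ≤ X ^ 2 * N ^ a :=
    le_trans (Nat.mul_le_mul_right _ (Nat.pow_le_pow_left hCC0 2)) hX
  by_cases h1 : vv d (Bm b + ms) + w ≤ 1
  · have hemp : E d (Bm b + ms) := by
      refine hE d Y N q μ X b ms hB hμ hd0
        (fun m hm' => le_trans (Nat.mul_le_mul_right _ hCC0) (hm m hm')) hf (by omega) hX0 ?_
      have h3 : ((N + 2 * q + X + 1 : ℕ) : ℝ) ≤ (Sq ms : ℝ) := by
        push_cast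
        have h4 : Z ≤ (C : ℝ) * Z := by nlinarith
        rw [hw] at h1
        linarith
      exact_mod_cast h3
    rw [hh_eq_zero_iff.2 hemp]
    simp
  · push Not at h1
    set t := ⌈vv d (Bm b + ms) + w⌉₊ - 1 with ht
    have hpos : 0 < vv d (Bm b + ms) + w := by linarith
    have hc1 : vv d (Bm b + ms) + w ≤ (⌈vv d (Bm b + ms) + w⌉₊ : ℝ) := Nat.le_ceil _
    have hc2 : (⌈vv d (Bm b + ms) + w⌉₊ : ℝ) < vv d (Bm b + ms) + w + 1 :=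
      Nat.ceil_lt_add_one hpos.le
    have hc3 : 1 ≤ ⌈vv d (Bm b + ms) + w⌉₊ := Nat.one_le_ceil_iff.2 hpos
    have htR : (t : ℝ) = (⌈vv d (Bm b + ms) + w⌉₊ : ℝ) - 1 := by
      rw [ht]; push_cast [Nat.cast_sub hc3]; ring
    have ht1 : (t : ℝ) ≤ vv d (Bm b + ms) + w := by linarith
    have ht2 : vv d (Bm b + ms) + w - 1 ≤ (t : ℝ) := by linarith
    have hSmR : (Sm ms : ℝ) ≤ 10 * (N : ℝ) := by
      have : Sm ms ≤ 10 * N := hSS.trans hS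
      exact_mod_cast this
    have hXR : (X : ℝ) ≤ (N : ℝ) := by exact_mod_cast hXd
    have hSq0 : (0 : ℝ) ≤ (Sq ms : ℝ) := Nat.cast_nonneg _
    have hSm0 : (0 : ℝ) ≤ (Sm ms : ℝ) := Nat.cast_nonneg _
    have ht12 : (t : ℝ) ≤ 8 * (N : ℝ) := by
      have h4 : 2 * vv d (Bm b + ms) ≤ 5 / 2 * (N : ℝ) := by
        have h5 : 1 ≤ (Y : ℝ) ^ 2 := one_le_pow₀ hY1R
        linarith
      rw [hw] at ht1
      linarith
    have ht12' : t ≤ 8 * N := by exact_mod_cast ht12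
    set x0 := Y / C0 with hx0
    have hx1 : 1 ≤ x0 := (Nat.one_le_div_iff (by omega)).2 (by omega)
    have hx2 : C0 * x0 ≤ Y := Nat.mul_div_le Y C0
    have hx3 : Y ≤ 2 * (C0 * x0) := by
      have h3 : Y < C0 * (x0 + 1) := Nat.lt_mul_div_succ Y (by omega)
      have h4 : C0 * 1 ≤ C0 * x0 := Nat.mul_le_mul_left _ hx1
      rw [mul_add] at h3
      omega
    have hx4 : x0 ≤ Y := Nat.div_le_self _ _
    obtain ⟨X', hX1, hX2, hX3⟩ := extras t x0 hx1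
    have hSm : Sm X' * Y ≤ 34 * C0 * N := by
      have h3 : Sm X' * Y ≤ Sm X' * (2 * (C0 * x0)) := Nat.mul_le_mul_left _ hx3
      have h4 : Sm X' * (2 * (C0 * x0)) = 2 * C0 * (Sm X' * x0) := by ring
      have h5 : 2 * C0 * (Sm X' * x0) ≤ 2 * C0 * (2 * t + 2 * x0 ^ 2) := Nat.mul_le_mul_left _ hX3
      have h6 : C0 * x0 * x0 ≤ Y * Y := Nat.mul_le_mul hx2 hx4
      have h7 : C0 * t ≤ C0 * (8 * N) := Nat.mul_le_mul_left _ ht12'
      have h8 : N ≤ C0 * N := Nat.le_mul_of_pos_left _ (by omega)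
      have h9 : 2 * C0 * (2 * t + 2 * x0 ^ 2) = 4 * (C0 * t) + 4 * (C0 * x0 * x0) := by ring
      have h10 : C0 * (8 * N) = 8 * (C0 * N) := by ring
      have h11 : 2 * (Y * Y) ≤ N := by rw [← sq]; exact hY2
      have h12 : 34 * C0 * N = 34 * (C0 * N) := by ring
      rw [h12]
      rw [h4] at h3
      rw [h9] at h5
      rw [h10] at h7
      omega
    have hSmZ : (Sm X' : ℝ) ≤ 34 * (C0 : ℝ) * Z := by
      have h3 : (Sm X' : ℝ) * (Y : ℝ) ≤ 34 * (C0 : ℝ) * (N : ℝ) := by exact_mod_cast hSm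
      have h4 : (Sm X' : ℝ) ≤ 34 * (C0 : ℝ) * (N : ℝ) / (Y : ℝ) := (le_div_iff₀ hYpos).2 h3
      rw [hZ]
      calc (Sm X' : ℝ) ≤ 34 * (C0 : ℝ) * (N : ℝ) / (Y : ℝ) := h4
        _ = 34 * (C0 : ℝ) * ((N : ℝ) / (Y : ℝ)) := by ring
    have hvv : vv d (Bm b + ms + X') = vv d (Bm b + ms) - (t : ℝ) := by rw [vv_add, hX1]
    have h2v' := two_vvB hB (ms + X')
    rw [← add_assoc, hvv, Sm_add] at h2v'
    push_cast at h2v'
    have hCR : (C : ℝ) = 50 * (C0 : ℝ) + 2 := by rw [hC]; push_cast; ring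
    have hC0R : (1 : ℝ) ≤ (C0 : ℝ) := by exact_mod_cast hC0
    have hemp : E d (Bm b + (ms + X')) := by
      refine hE d Y N q μ X b (ms + X') hB hμ hd0 ?_ ?_ ?_ hX0 ?_
      · intro m hm'
        rcases Multiset.mem_add.1 hm' with h3 | h3
        · exact le_trans (Nat.mul_le_mul_right _ hCC0) (hm m h3)
        · exact le_trans (Nat.mul_le_mul_left _ (hX2 m h3)) hx2
      · rw [Multiset.filter_add, Sq_add]
        exact hf.trans (Nat.mul_le_mul_left _ (Nat.le_add_right _ _))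
      · rw [Sq_add]
        have h3 := two_cd' X'
        omega
      · have h3 : ((N + 2 * q + X + 1 : ℕ) : ℝ) ≤ (Sq (ms + X') : ℝ) := by
          push_cast
          rw [hw] at ht2
          have h4 : (0 : ℝ) ≤ (C0 : ℝ) * Z := by
            have : (0 : ℝ) ≤ Z := by linarith
            positivity
          rw [hCR] at ht2
          linarith
        exact_mod_cast h3
    have h3 := hh_le_add d (Bm b + ms) X'
    rw [add_assoc, hh_eq_zero_iff.2 hemp, hX1, zero_add] at h3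
    have h4 : (hh d (Bm b + ms) : ℝ) ≤ (t : ℝ) := by exact_mod_cast h3
    exact (h4.trans ht1).trans (le_max_left _ _)

end Pool.Agent.SGN
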