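import Pool.Agent.SG.NefE
import Pool.Agent.helper25.SXQ.FinN

set_option autoImplicit false

/-!
# Project SGN (MP_cfebfb_ag): SG with nine arbitrary points. Definitions.

Architect helper83 (after helper25's SXN/SXQ and SG). Dictionary from SG: `d^2 → N = d^2 - ∑ b^2`,
`2 d → 2 q` (`q = 3 d - ∑ b`), size bound `m ≤ d/C → m ≤ Y/C`, error `C d → C N / Y`,
growth `C μ^(a+2) ≤ d^(a+1) → C^2 μ^(2a+4) ≤ N^(a+1)`. See /team-store/cfebfb_SGN.md.
-/

namespace Pool.Agent.SGN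

open MvPolynomial Pool.Agent.helper5.NBS Pool.Agent.helper89.Segre Pool.Agent.SH9
open Pool.Agent.helper25.ST Pool.Agent.helper25.SXN Pool.Agent.SG

/-- a class `(D; b)` with nine big weights, positive with respect to additional points of weight
`Y`, `N` its self-intersection, `q` its anticanonical degree -/
structure Big (D Y N q : ℕ) (b : Fin 9 → ℕ) : Prop where
  pos : Pos D Y b
  hN : ∑ i, b i ^ 2 + N = D ^ 2
  hq : ∑ i, b i + q = 3 * D
  hY : 1 ≤ Y
  hYq : 2 * (Y * q) ≤ N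
  hY2 : 2 * Y ^ 2 ≤ N

/-- nefness with error exponent `a` (`r` controls the size of `Y`): `b` nine big weights, `w` the others,
all at most `Y / C`, those at most `W` carry the proportion `1 / f` of `N`, the self-intersection is
at least `X`, `C W^(a+2) ≤ X N^(a/2)` -/
def NNB (a : ℕ) (r : ℝ) : Prop := ∀ f : ℕ, ∃ C : ℕ, 1 ≤ C ∧ ∀ (n : ℕ) (b : Fin 9 → ℕ) (w : Fin n → ℕ)
  (D Y N q W X : ℕ), Big D Y N q b → 1 ≤ W → (C : ℝ) * (W : ℝ) ^ (1 + r) ≤ Y → (∀ i, C * w i ≤ Y) →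
  N ≤ f * ∑ i with w i ≤ W, w i ^ 2 → C ^ 2 * W ^ (2 * a + 4) ≤ X ^ 2 * N ^ a →
  ∑ i, w i ^ 2 + X ≤ N → NefP D (Fin.append b w)

end Pool.Agent.SGN
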