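import Pool.Agent.SGN.SWB
import Pool.Agent.SG.ExactC

set_option autoImplicit false

/-!
# Module ExactBB: critical systems are empty, with nine big points (template: SG/ExactC.lean)

`g = 1/(2j+3)`, `ℓ = log (N+3)`, `v = vv d (Bm b + (ms + bg)) ≤ 0`, `X0 = B0 M^(1+2g) ℓ` (`A`, `B` of `swB` and of the
core `SG.sw`, maxima, for `f' = 100 f` or so). If `v ≤ -X0`: `swB`. Let `-X0 < v ≤ 0`.
`T ≤ ms` exactly as in SG/ExactC.lean: a class `i ≤ clog 2 L` with `Sq (cls i sm) ≥ N/(c f ℓ)`, `W = 2^i`,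
`t = ⌈A3 ℓ^4 M^(1+5g)⌉` (`t ≤ Y/A3'`, as `Y ≥ A0 ℓ^6 M^(1+5g)`), `⌈4 t²/W²⌉ ≤ card/2`, `cube`:
`|cd T - kk n| ≥ 2 c t ≥ 2 X0` for all `n`, `kk n0 ≤ cd T < kk (n0+1)`, `t/2 ≤ n0 ≤ 4 t`.
Local: the core `SG.sw j (nn_all _)` for `T` (no `b`, no big points, `L = M`) in the degrees `n0 - 1` and `n0`
(`log (n0+3) ≤ ℓ`: `n0 ≤ 4 t ≤ Y ≤ N`). So `cn T n = n + 1` for `n < n0`, `cn T n0 = σ`, `cn T n = 0` for `n > n0`.
Global: `swB` for `ms - T`, `bg + {n}`, `n = n0, n0 + 1` (`A0' n ≤ Y`, `A0' ℓ L^(1+g) (Sm bg + n) ≤ N` as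
`ℓ L^(1+g) ≤ Y`, `n ≤ 4 t + 1 ≤ Y/C`, `2 Y² ≤ N`; `N ≤ 2 f Sq ((ms - T).filter)` as `Sq T ≤ 10 t² ≤ N/(2f)`):
`vv = v - v0 ≤ -X0`: `hh = 0` for `n0 + 1`; `vv = v + σ ≥ X0`: `hh = v + σ` for `n0` (`v0 = kk (n0+1) - cd T`).
`master` (`gs = T`, `ms := Bm b + ((ms - T) + bg)`): the sum is `(v)^+ = 0`. So `hh d = 0`.
-/

namespace Pool.Agent.SGN

open MvPolynomial Pool.Agent.helper5.NBS Pool.Agent.helper89.Segre Pool.Agent.SH9
open Pool.Agent.helper25.ST Pool.Agent.helper25.SXN Pool.Agent.SG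

private lemma kk_real (n : ℕ) : 2 * (kk n : ℝ) = (n : ℝ) * n + n := by
  exact_mod_cast two_mul_kk n

private lemma Sq_zero' : Sq 0 = 0 := by simp [Sq]

/-- decomposition into the classes -/
private lemma sum_cls (K : ℕ) (s : Multiset ℕ) (h : ∀ m ∈ s, Nat.clog 2 m ≤ K) :
    ∑ i ∈ Finset.range (K + 1), Sq (cls i s) = Sq s := by
  induction s using Multiset.induction_on with
  | empty => simp [cls, Sq]
  | cons m s ih =>
    rw [Sq_cons, ← ih (fun x hx => h x (Multiset.mem_cons_of_mem hx))]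
    have h1 : ∀ i ∈ Finset.range (K + 1), Sq (cls i (m ::ₘ s)) =
        (if Nat.clog 2 m = i then m ^ 2 else 0) + Sq (cls i s) := by
      intro i _
      by_cases hi : Nat.clog 2 m = i
      · rw [if_pos hi, cls, Multiset.filter_cons_of_pos (p := fun m => Nat.clog 2 m = i) _ hi,
          Sq_cons, cls]
      · rw [if_neg hi, cls, Multiset.filter_cons_of_neg (p := fun m => Nat.clog 2 m = i) _ hi,
          zero_add, cls]
    rw [Finset.sum_congr rfl h1, Finset.sum_add_distrib, Finset.sum_ite_eq,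
      if_pos (Finset.mem_range.mpr (Nat.lt_succ_of_le (h m (Multiset.mem_cons_self m s))))]

/-- a large class -/
private lemma exists_cls (K : ℕ) (s : Multiset ℕ) (h : ∀ m ∈ s, Nat.clog 2 m ≤ K) :
    ∃ i ≤ K, Sq s ≤ (K + 1) * Sq (cls i s) := by
  by_contra hc
  push Not at hc
  have h1 : ∑ i ∈ Finset.range (K + 1), (K + 1) * Sq (cls i s) <
      ∑ _i ∈ Finset.range (K + 1), Sq s := by
    apply Finset.sum_lt_sum_of_nonempty ⟨0, by simp⟩
    intro i hi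
    exact hc i (Nat.lt_succ_iff.mp (Finset.mem_range.mp hi))
  rw [← Finset.mul_sum, sum_cls K s h, Finset.sum_const, Finset.card_range, smul_eq_mul] at h1
  exact lt_irrefl _ h1

private lemma mem_cls {i m : ℕ} {s : Multiset ℕ} (h : m ∈ cls i s) (h1 : 1 ≤ m) :
    2 ^ i < 2 * m ∧ m ≤ 2 ^ i := by
  have h2 : Nat.clog 2 m = i := (Multiset.mem_filter.mp h).2
  constructor
  · rcases Nat.eq_zero_or_pos i with h0 | h0
    · subst h0
      simp
      omega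
    · have h3 : ¬ m ≤ 2 ^ (i - 1) := by
        intro h4
        have h5 := Nat.clog_le_of_le_pow h4
        omega
      have h6 : 2 ^ i = 2 * 2 ^ (i - 1) := by
        rw [← pow_succ']
        congr 1
        omega
      omega
  · rw [← h2]
    exact Nat.le_pow_clog (by norm_num) m

/-- `kk n0 ≤ c < kk (n0 + 1)` -/
private lemma exists_kk (c : ℕ) : ∃ n, kk n ≤ c ∧ c < kk (n + 1) := by
  have hex : ∃ n, c < kk n := by
    refine ⟨c + 1, ?_⟩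
    have := two_mul_kk (c + 1)
    nlinarith
  classical
  have h1 := Nat.find_spec hex
  have h0 : Nat.find hex ≠ 0 := by
    intro h
    rw [h] at h1
    have : kk 0 = 0 := by decide
    omega
  obtain ⟨n, hn⟩ := Nat.exists_eq_succ_of_ne_zero h0
  refine ⟨n, ?_, ?_⟩
  · by_contra h
    exact Nat.find_min hex (by rw [hn]; exact Nat.lt_succ_self n) (not_le.mp h)
  · rw [← Nat.succ_eq_add_one, ← hn]
    exact h1

private lemma Sq_le_two_cd (s : Multiset ℕ) : Sq s ≤ 2 * cd s := by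
  rw [two_cd']
  exact Nat.le_add_right _ _

private lemma cd_le_Sq (s : Multiset ℕ) : cd s ≤ Sq s := by
  have h1 := two_cd' s
  have h2 := Sm_le_Sq s
  omega

private lemma Sq_le_of_le {s s' : Multiset ℕ} (h : s ≤ s') : Sq s ≤ Sq s' := by
  obtain ⟨u, rfl⟩ := Multiset.le_iff_exists_add.mp h
  rw [Sq_add]
  exact Nat.le_add_right _ _

private lemma Sq_le_card {W : ℕ} {s : Multiset ℕ} (h : ∀ m ∈ s, m ≤ W) :
    Sq s ≤ Multiset.card s * W ^ 2 := by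
  induction s using Multiset.induction_on with
  | empty => simp [Sq]
  | cons m s ih =>
    rw [Sq_cons, Multiset.card_cons]
    have h1 := ih (fun x hx => h x (Multiset.mem_cons_of_mem hx))
    have h2 : m ^ 2 ≤ W ^ 2 := Nat.pow_le_pow_left (h m (Multiset.mem_cons_self m s)) 2
    linarith [add_mul (Multiset.card s) 1 (W ^ 2)]

private lemma card_le_cd {W : ℕ} {s : Multiset ℕ} (h : ∀ m ∈ s, W < 2 * m) :
    Multiset.card s * W ^ 2 ≤ 8 * cd s := by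
  induction s using Multiset.induction_on with
  | empty => simp [cd]
  | cons m s ih =>
    rw [cd_cons, Multiset.card_cons]
    have h1 := ih (fun x hx => h x (Multiset.mem_cons_of_mem hx))
    have h2 := h m (Multiset.mem_cons_self m s)
    have h3 := two_mul_kk m
    have h4 : W ^ 2 ≤ 8 * kk m := by
      have : W ^ 2 ≤ (2 * m) ^ 2 := Nat.pow_le_pow_left h2.le 2
      nlinarith
    linarith [add_mul (Multiset.card s) 1 (W ^ 2)]

/-- the conclusion of `sw` -/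
private def SWp (j f : ℕ) (A B : ℝ) : Prop :=
  ∀ (d L M : ℕ) (ms bg : Multiset ℕ), 1 ≤ L → L ≤ M → (∀ m ∈ ms, 1 ≤ m ∧ m ≤ M) →
    (∀ m ∈ bg, 1 ≤ m ∧ A * (m : ℝ) ≤ d) → d ^ 2 ≤ f * Sq (ms.filter fun m => m ≤ L) →
    Sq (ms + bg) ≤ 3 * d ^ 2 →
    A * Real.log ((d : ℝ) + 3) ^ 4 * (M : ℝ) ^ (1 + 5 / (2 * (j : ℝ) + 3)) ≤ d →
    A * Real.log ((d : ℝ) + 3) * (L : ℝ) ^ (1 + 1 / (2 * (j : ℝ) + 3)) * (Sm bg : ℝ) ≤ (d : ℝ) ^ 2 →
    B * (M : ℝ) ^ (1 + 2 / (2 * (j : ℝ) + 3)) * Real.log ((d : ℝ) + 3) ≤ |vv d (ms + bg)| →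
    (hh d (ms + bg) : ℝ) = max (vv d (ms + bg)) 0

private lemma vv_kk (d : ℕ) (ms : Multiset ℕ) : vv d ms = (kk (d + 1) : ℝ) - (cd ms : ℝ) := rfl

/-- the one level zone of a group -/
private lemma local_zone {j f : ℕ} {A B : ℝ} (hA : 1 ≤ A) (hB : 1 ≤ B) (hf : 2 ≤ f)
    (SW : SWp j f A B)
    {M n0 : ℕ} {T : Multiset ℕ} {l : ℝ} (hM : 1 ≤ M) (hT : ∀ m ∈ T, 1 ≤ m ∧ m ≤ M)
    (h1 : kk n0 ≤ cd T) (h2 : cd T < kk (n0 + 1)) (h5 : 5 ≤ n0)
    (hl : Real.log ((n0 : ℝ) + 3) ≤ l)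
    (hg : A * l ^ 4 * (M : ℝ) ^ (1 + 5 / (2 * (j : ℝ) + 3)) ≤ (n0 : ℝ) - 1)
    (hs : B * (M : ℝ) ^ (1 + 2 / (2 * (j : ℝ) + 3)) * l ≤ (cd T : ℝ) - kk n0)
    (hv : B * (M : ℝ) ^ (1 + 2 / (2 * (j : ℝ) + 3)) * l ≤ (kk (n0 + 1) : ℝ) - cd T) :
    Zone T n0 (n0 + 1) ∧ cn T n0 = (cd T : ℝ) - kk n0 := by
  have hMr : (1 : ℝ) ≤ M := by exact_mod_cast hM
  have hP5 : (0 : ℝ) ≤ (M : ℝ) ^ (1 + 5 / (2 * (j : ℝ) + 3)) := Real.rpow_nonneg (by linarith) _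
  have hP2 : (0 : ℝ) ≤ (M : ℝ) ^ (1 + 2 / (2 * (j : ℝ) + 3)) := Real.rpow_nonneg (by linarith) _
  have key : ∀ n : ℕ, n0 ≤ n + 1 → n ≤ n0 →
      B * (M : ℝ) ^ (1 + 2 / (2 * (j : ℝ) + 3)) * l ≤ |vv n T| →
      (hh n T : ℝ) = max (vv n T) 0 := by
    intro n hn1 hn2 hx
    have hfil : (T.filter fun m => m ≤ M) = T := Multiset.filter_eq_self.mpr fun m hm => (hT m hm).2
    have hlog : Real.log ((n : ℝ) + 3) ≤ l := by
      refine le_trans (Real.log_le_log (by positivity) ?_) hl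
      have : (n : ℝ) ≤ n0 := by exact_mod_cast hn2
      linarith
    have hlog0 : 0 ≤ Real.log ((n : ℝ) + 3) := Real.log_nonneg (by
      have : (0 : ℝ) ≤ n := Nat.cast_nonneg n
      linarith)
    have hk := two_mul_kk n0
    have hk1 := two_mul_kk (n0 + 1)
    have hc1 := cd_le_Sq T
    have hc2 := Sq_le_two_cd T
    have h := SW n M M T 0 hM le_rfl hT (by simp) ?_ ?_ ?_ ?_ ?_
    · rwa [add_zero] at h
    · rw [hfil]
      have e1 : n ^ 2 ≤ n0 ^ 2 := Nat.pow_le_pow_left hn2 2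
      have e2 : 2 * Sq T ≤ f * Sq T := Nat.mul_le_mul_right _ hf
      have e3 : n0 ^ 2 = n0 * n0 := sq n0
      omega
    · rw [add_zero]
      have e1 : (n0 + 1) ≤ n + 2 := by omega
      have e2 : (n0 + 1) * (n0 + 1) ≤ (n + 2) * (n + 2) := Nat.mul_le_mul e1 e1
      have e3 : 4 ≤ n := by omega
      have e4 : (n + 2) * (n + 2) + (n + 2) ≤ 3 * n ^ 2 + 2 := by nlinarith
      omega
    · have e1 : Real.log ((n : ℝ) + 3) ^ 4 ≤ l ^ 4 := pow_le_pow_left₀ hlog0 hlog 4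
      have e2 : (n0 : ℝ) ≤ n + 1 := by exact_mod_cast hn1
      have e3 : A * Real.log ((n : ℝ) + 3) ^ 4 * (M : ℝ) ^ (1 + 5 / (2 * (j : ℝ) + 3)) ≤
          A * l ^ 4 * (M : ℝ) ^ (1 + 5 / (2 * (j : ℝ) + 3)) :=
        mul_le_mul_of_nonneg_right (mul_le_mul_of_nonneg_left e1 (by linarith)) hP5
      linarith
    · have : Sm 0 = 0 := by simp [Sm]
      rw [this]
      simp
    · rw [add_zero]
      exact le_trans (mul_le_mul_of_nonneg_left hlog (mul_nonneg (by linarith) hP2)) hx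
  have hXpos : 0 ≤ B * (M : ℝ) ^ (1 + 2 / (2 * (j : ℝ) + 3)) * l := by
    have : 0 ≤ l := le_trans (Real.log_nonneg (by
      have : (0 : ℝ) ≤ n0 := Nat.cast_nonneg n0
      linarith)) hl
    have hB0 : 0 ≤ B := by linarith
    positivity
  obtain ⟨p, rfl⟩ : ∃ p, n0 = p + 1 := ⟨n0 - 1, by omega⟩
  have k1 : hh p T = 0 := by
    have h3 := key p le_rfl (Nat.le_succ p) (by
      rw [vv_kk, abs_of_nonpos (by linarith)]
      linarith)
    rw [vv_kk, max_eq_right (by linarith)] at h3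
    exact_mod_cast h3
  have k2 : (hh (p + 1) T : ℝ) = vv (p + 1) T := by
    have h3 := key (p + 1) (Nat.le_succ _) le_rfl (by
      rw [vv_kk, abs_of_nonneg (by linarith)]
      linarith)
    rw [h3, max_eq_left]
    rw [vv_kk]
    linarith
  refine ⟨⟨Nat.le_succ _, Nat.le_add_left _ _, ?_, ?_⟩, ?_⟩
  · intro n hn
    exact E_deg (hh_eq_zero_iff.mp k1) (Nat.lt_succ_iff.mp hn)
  · intro n hn
    exact reg_deg k2 (by omega)
  · rw [cn, hk, hk, if_neg (by omega), if_neg (by omega)]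
    have e1 : p + 1 + 1 - 1 = p + 1 := by omega
    have e2 : p + 1 - 1 = p := by omega
    rw [e1, e2, k1, k2, vv_kk]
    have e3 := kk_real (p + 1)
    have e4 := kk_real (p + 1 + 1)
    push_cast at e3 e4 ⊢
    nlinarith

/-- the collision inequality with a one level zone -/
private lemma final_step {d n0 : ℕ} {T R : Multiset ℕ} (hz : Zone T n0 (n0 + 1))
    (h0 : (hh d (n0 ::ₘ R) : ℝ) ≤ cn T n0) (h1 : hh d ((n0 + 1) ::ₘ R) = 0) : E d (T + R) := by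
  rw [← hh_eq_zero_iff]
  have hm := master d T R
  have hs : ∑ n ∈ Finset.range (d + 1),
      max ((hh d (n ::ₘ R) : ℝ) - (hh d ((n + 1) ::ₘ R) : ℝ) - cn T n) 0 ≤ 0 := by
    apply Finset.sum_nonpos
    intro n _
    apply max_le _ le_rfl
    rcases lt_trichotomy n n0 with hn | hn | hn
    · rw [cn_lt hz hn]
      have h2 : (hh d (n ::ₘ R) : ℝ) ≤ hh d ((n + 1) ::ₘ R) + ((n : ℝ) + 1) := by
        exact_mod_cast hh_cons_le d n R
      linarith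
    · subst hn
      rw [h1]
      push_cast
      linarith
    · rw [cn_ge hz hn]
      have h2 : hh d (n ::ₘ R) ≤ 0 := by
        rw [← h1]
        exact hh_raise hn
      have h3 : hh d (n ::ₘ R) = 0 := Nat.le_zero.mp h2
      rw [h3]
      have h4 : (0 : ℝ) ≤ hh d ((n + 1) ::ₘ R) := Nat.cast_nonneg _
      push_cast
      linarith
  have h2 : (hh d (T + R) : ℝ) ≤ 0 := le_trans hm hs
  have h3 : hh d (T + R) ≤ 0 := by exact_mod_cast h2
  exact Nat.le_zero.mp h3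


private lemma exists_le_card {s : Multiset ℕ} {N : ℕ} (h : N ≤ Multiset.card s) :
    ∃ t ≤ s, Multiset.card t = N := by
  induction s using Quot.inductionOn with
  | h l =>
    refine ⟨(l.take N : List ℕ), ?_, ?_⟩
    · exact Multiset.coe_le.mpr (List.take_sublist N l).subperm
    · have h' : N ≤ l.length := h
      simp [h']

private lemma le_of_sq_le_sq' {a b : ℝ} (h : a ^ 2 ≤ b ^ 2) (hb : 0 ≤ b) : a ≤ b :=
  abs_le_of_sq_le_sq' h hb |>.2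

/-- the hypothesis of `cube` -/
private lemma cube_cond {j C0 W N : ℕ} {M Q A3 t : ℝ} (hM1 : 1 ≤ M) (hQ1 : 1 ≤ Q) (hA3d : 20 ≤ A3)
    (hA3c : 4 * (C0 : ℝ) ≤ A3) (hQk : Q ^ (2 * j + 3) = M ^ 5) (hWR : (W : ℝ) ≤ 2 * M)
    (hW1R : (1 : ℝ) ≤ W) (hN1 : 4 * t ^ 2 ≤ (N : ℝ) * (W : ℝ) ^ 2) (ht0 : A3 * (M * Q) ≤ t) :
    C0 * W ^ 2 ≤ N ^ (2 * j + 3) := by
  have hM0 : (0 : ℝ) < M := by linarith
  have hC0 : (0 : ℝ) ≤ C0 := Nat.cast_nonneg _
  have h1 : A3 * Q ≤ (N : ℝ) := by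
    have e1 : (W : ℝ) ^ 2 ≤ (2 * M) ^ 2 := pow_le_pow_left₀ (by linarith) hWR 2
    have e2 : (N : ℝ) * (W : ℝ) ^ 2 ≤ N * (2 * M) ^ 2 :=
      mul_le_mul_of_nonneg_left e1 (Nat.cast_nonneg N)
    have e3 : (A3 * (M * Q)) ^ 2 ≤ t ^ 2 := pow_le_pow_left₀ (by positivity) ht0 2
    have e4 : 4 * (A3 * (M * Q)) ^ 2 ≤ N * (2 * M) ^ 2 := by linarith
    have e5 : (A3 * Q) ^ 2 ≤ (N : ℝ) := by
      have : (A3 * Q) ^ 2 * (4 * (M : ℝ) ^ 2) ≤ N * (4 * (M : ℝ) ^ 2) := by linarith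
      exact le_of_mul_le_mul_right this (by positivity)
    have e6 : 1 ≤ A3 * Q := one_le_mul_of_one_le_of_one_le (by linarith) hQ1
    exact le_trans (le_self_pow₀ e6 (by norm_num)) e5
  have h2 : (A3 * Q) ^ (2 * j + 3) ≤ (N : ℝ) ^ (2 * j + 3) :=
    pow_le_pow_left₀ (by positivity) h1 _
  have h3 : A3 ≤ A3 ^ (2 * j + 3) := le_self_pow₀ (by linarith) (by omega)
  have h4 : (M : ℝ) ^ 2 ≤ (M : ℝ) ^ 5 := pow_le_pow_right₀ hM1 (by norm_num)
  have h5 : (W : ℝ) ^ 2 ≤ (2 * M) ^ 2 := pow_le_pow_left₀ (by linarith) hWR 2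
  have h6 : (C0 : ℝ) * (W : ℝ) ^ 2 ≤ (N : ℝ) ^ (2 * j + 3) := by
    have e1 : (C0 : ℝ) * (W : ℝ) ^ 2 ≤ C0 * (2 * M) ^ 2 :=
      mul_le_mul_of_nonneg_left h5 hC0
    have e2 : 4 * (C0 : ℝ) * (M : ℝ) ^ 2 ≤ A3 ^ (2 * j + 3) * (M : ℝ) ^ 5 :=
      mul_le_mul (hA3c.trans h3) h4 (by positivity) (by positivity)
    have e3 : (A3 * Q) ^ (2 * j + 3) = A3 ^ (2 * j + 3) * (M : ℝ) ^ 5 := by
      rw [mul_pow, hQk]
    rw [e3] at h2
    linarith
  exact_mod_cast h6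

/-- the degree of the group -/
private lemma n0_bounds {n0 : ℕ} {t x : ℝ} (ht : 20 ≤ t) (h1 : (kk n0 : ℝ) ≤ x)
    (h2 : x < kk (n0 + 1)) (h3 : t ^ 2 ≤ 4 * x) (h4 : x ≤ 5 * t ^ 2) :
    t / 2 ≤ n0 ∧ (n0 : ℝ) ≤ 4 * t := by
  have kr0 := kk_real n0
  have kr1 := kk_real (n0 + 1)
  push_cast at kr1
  have hn0R : (0 : ℝ) ≤ n0 := Nat.cast_nonneg n0
  constructor
  · by_contra hcon
    have e1 : (n0 : ℝ) < t / 2 := not_le.mp hcon
    have e2 : ((n0 : ℝ) + 1) * ((n0 : ℝ) + 1) ≤ (t / 2 + 1) * (t / 2 + 1) :=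
      mul_le_mul (by linarith) (by linarith) (by linarith) (by linarith)
    have e3 : 20 * t ≤ t ^ 2 := by nlinarith
    linarith
  · by_contra hcon
    have e1 : 4 * t < (n0 : ℝ) := not_le.mp hcon
    have e2 : (4 * t) * (4 * t) ≤ (n0 : ℝ) * n0 :=
      mul_le_mul e1.le e1.le (by linarith) (by linarith)
    have e3 : 20 * t ≤ t ^ 2 := by nlinarith
    linarith

/-- the number of the classes -/
private lemma clog_bound {L : ℕ} {d l : ℝ} (hL : 1 ≤ L) (hd : (L : ℝ) ≤ d)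
    (hl : l = Real.log (d + 3)) (hl1 : 1 ≤ l) : (Nat.clog 2 L : ℝ) + 1 ≤ 4 * l := by
  rcases Nat.lt_or_ge 1 L with h1 | h1
  · have h2 := Nat.pow_pred_clog_lt_self (b := 2) (by norm_num) h1
    have h3 : ((2 : ℝ)) ^ ((Nat.clog 2 L).pred) ≤ d := by
      have : ((2 ^ (Nat.clog 2 L).pred : ℕ) : ℝ) ≤ L := by exact_mod_cast h2.le
      push_cast at this
      linarith
    have h4 : ((Nat.clog 2 L).pred : ℝ) * Real.log 2 ≤ l := by
      rw [← Real.log_pow, hl]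
      exact Real.log_le_log (by positivity) (by linarith)
    have h5 : 0 < Nat.clog 2 L := Nat.clog_pos (by norm_num) h1
    have h6 : ((Nat.clog 2 L).pred : ℝ) = (Nat.clog 2 L : ℝ) - 1 := by
      rw [Nat.pred_eq_sub_one, Nat.cast_sub h5]
      simp
    have h7 := Real.log_two_gt_d9
    rw [h6] at h4
    have h8 : (0 : ℝ) ≤ (Nat.clog 2 L : ℝ) - 1 := by
      have : (1 : ℝ) ≤ Nat.clog 2 L := by exact_mod_cast h5
      linarith
    have h9 : ((Nat.clog 2 L : ℝ) - 1) * 0.69 ≤ ((Nat.clog 2 L : ℝ) - 1) * Real.log 2 :=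
      mul_le_mul_of_nonneg_left (by linarith) h8
    linarith
  · have : L = 1 := le_antisymm h1 hL
    subst this
    simp
    linarith

/-- the powers -/
private lemma pow_facts {j M L : ℕ} (hL : 1 ≤ L) (hLM : L ≤ M) :
    ∃ Q : ℝ, 1 ≤ Q ∧ (M : ℝ) ^ (1 + 5 / (2 * (j : ℝ) + 3)) = M * Q ∧ Q ^ (2 * j + 3) = (M : ℝ) ^ 5 ∧
      (M : ℝ) ^ (1 + 2 / (2 * (j : ℝ) + 3)) ≤ M * Q ∧
      (L : ℝ) ^ (1 + 1 / (2 * (j : ℝ) + 3)) ≤ M * Q ∧
      1 ≤ (M : ℝ) ^ (1 + 2 / (2 * (j : ℝ) + 3)) ∧ 0 ≤ (L : ℝ) ^ (1 + 1 / (2 * (j : ℝ) + 3)) := by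
  have hL1 : (1 : ℝ) ≤ L := by exact_mod_cast hL
  have hM1 : (1 : ℝ) ≤ M := by exact_mod_cast hL.trans hLM
  have hLM' : (L : ℝ) ≤ M := by exact_mod_cast hLM
  have hk : (0 : ℝ) < 2 * (j : ℝ) + 3 := by positivity
  have e1 : (M : ℝ) ^ (1 + 5 / (2 * (j : ℝ) + 3)) = M * (M : ℝ) ^ (5 / (2 * (j : ℝ) + 3)) := by
    rw [Real.rpow_add (by linarith), Real.rpow_one]
  refine ⟨(M : ℝ) ^ (5 / (2 * (j : ℝ) + 3)), Real.one_le_rpow hM1 (by positivity), e1, ?_, ?_, ?_,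
    Real.one_le_rpow hM1 (by positivity), Real.rpow_nonneg (by linarith) _⟩
  · rw [← Real.rpow_natCast, ← Real.rpow_mul (by linarith)]
    have : 5 / (2 * (j : ℝ) + 3) * ((2 * j + 3 : ℕ) : ℝ) = ((5 : ℕ) : ℝ) := by
      push_cast
      field_simp
    rw [this, Real.rpow_natCast]
  · rw [← e1]
    apply Real.rpow_le_rpow_of_exponent_le hM1
    gcongr
    norm_num
  · rw [← e1]
    refine le_trans (Real.rpow_le_rpow (by linarith) hLM' (by positivity)) ?_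
    apply Real.rpow_le_rpow_of_exponent_le hM1
    gcongr
    norm_num

/-- the conclusion of `swB` -/
private def SWBp (j f : ℕ) (A B : ℝ) : Prop :=
  ∀ (d L M Y N q : ℕ) (b : Fin 9 → ℕ) (ms bg : Multiset ℕ), 1 ≤ L → L ≤ M → Big d Y N q b →
    (∀ m ∈ ms, 1 ≤ m ∧ m ≤ M) → (∀ m ∈ bg, 1 ≤ m ∧ A * (m : ℝ) ≤ Y) →
    N ≤ f * Sq (ms.filter fun m => m ≤ L) → Sq (ms + bg) ≤ 3 * N →
    A * Real.log ((N : ℝ) + 3) ^ 4 * (M : ℝ) ^ (1 + 5 / (2 * (j : ℝ) + 3)) ≤ Y →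
    A * Real.log ((N : ℝ) + 3) * (L : ℝ) ^ (1 + 1 / (2 * (j : ℝ) + 3)) * (Sm bg : ℝ) ≤ N →
    B * (M : ℝ) ^ (1 + 2 / (2 * (j : ℝ) + 3)) * Real.log ((N : ℝ) + 3) ≤
      |vv d (Bm b + (ms + bg))| →
    (hh d (Bm b + (ms + bg)) : ℝ) = max (vv d (Bm b + (ms + bg))) 0

private lemma log_nonneg' (n : ℕ) : 0 ≤ Real.log ((n : ℝ) + 3) := Real.log_nonneg (by
  have : (0 : ℝ) ≤ n := Nat.cast_nonneg n
  linarith)

private lemma swp_mono {j f : ℕ} {A B A' B' : ℝ} (h : SWp j f A B) (hA : A ≤ A') (hB : B ≤ B') :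
    SWp j f A' B' := by
  intro d L M ms bg hL hLM hms hbg hf hsq hd hSm hx
  have hl := log_nonneg' d
  apply h d L M ms bg hL hLM hms _ hf hsq _ _ _
  · intro m hm
    exact ⟨(hbg m hm).1, le_trans (mul_le_mul_of_nonneg_right hA (Nat.cast_nonneg m)) (hbg m hm).2⟩
  · refine le_trans ?_ hd
    have : 0 ≤ (M : ℝ) ^ (1 + 5 / (2 * (j : ℝ) + 3)) := Real.rpow_nonneg (Nat.cast_nonneg M) _
    have h2 : 0 ≤ Real.log ((d : ℝ) + 3) ^ 4 := by positivity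
    exact mul_le_mul_of_nonneg_right (mul_le_mul_of_nonneg_right hA h2) this
  · refine le_trans ?_ hSm
    have : 0 ≤ (L : ℝ) ^ (1 + 1 / (2 * (j : ℝ) + 3)) := Real.rpow_nonneg (Nat.cast_nonneg L) _
    have h2 : (0 : ℝ) ≤ Sm bg := Nat.cast_nonneg _
    exact mul_le_mul_of_nonneg_right (mul_le_mul_of_nonneg_right
      (mul_le_mul_of_nonneg_right hA hl) this) h2
  · refine le_trans ?_ hx
    have : 0 ≤ (M : ℝ) ^ (1 + 2 / (2 * (j : ℝ) + 3)) := Real.rpow_nonneg (Nat.cast_nonneg M) _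
    exact mul_le_mul_of_nonneg_right (mul_le_mul_of_nonneg_right hB this) hl

private lemma swbp_mono {j f : ℕ} {A B A' B' : ℝ} (h : SWBp j f A B) (hA : A ≤ A') (hB : B ≤ B') :
    SWBp j f A' B' := by
  intro d L M Y N q b ms bg hL hLM hbig hms hbg hf hsq hd hSm hx
  have hl := log_nonneg' N
  apply h d L M Y N q b ms bg hL hLM hbig hms _ hf hsq _ _ _
  · intro m hm
    exact ⟨(hbg m hm).1, le_trans (mul_le_mul_of_nonneg_right hA (Nat.cast_nonneg m)) (hbg m hm).2⟩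
  · refine le_trans ?_ hd
    have : 0 ≤ (M : ℝ) ^ (1 + 5 / (2 * (j : ℝ) + 3)) := Real.rpow_nonneg (Nat.cast_nonneg M) _
    have h2 : 0 ≤ Real.log ((N : ℝ) + 3) ^ 4 := by positivity
    exact mul_le_mul_of_nonneg_right (mul_le_mul_of_nonneg_right hA h2) this
  · refine le_trans ?_ hSm
    have : 0 ≤ (L : ℝ) ^ (1 + 1 / (2 * (j : ℝ) + 3)) := Real.rpow_nonneg (Nat.cast_nonneg L) _
    have h2 : (0 : ℝ) ≤ Sm bg := Nat.cast_nonneg _
    exact mul_le_mul_of_nonneg_right (mul_le_mul_of_nonneg_right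
      (mul_le_mul_of_nonneg_right hA hl) this) h2
  · refine le_trans ?_ hx
    have : 0 ≤ (M : ℝ) ^ (1 + 2 / (2 * (j : ℝ) + 3)) := Real.rpow_nonneg (Nat.cast_nonneg M) _
    exact mul_le_mul_of_nonneg_right (mul_le_mul_of_nonneg_right hB this) hl

theorem exactBB (j f : ℕ) : ∃ A0 : ℝ, 1 ≤ A0 ∧
    ∀ (d L M Y N q : ℕ) (b : Fin 9 → ℕ) (ms bg : Multiset ℕ), 1 ≤ L → L ≤ M → Big d Y N q b →
    (∀ m ∈ ms, 1 ≤ m ∧ m ≤ M) → (∀ m ∈ bg, 1 ≤ m ∧ A0 * (m : ℝ) ≤ Y) →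
    N ≤ f * Sq (ms.filter fun m => m ≤ L) → 2 * Sq (ms + bg) ≤ 5 * N →
    A0 * Real.log ((N : ℝ) + 3) ^ 6 * (M : ℝ) ^ (1 + 5 / (2 * (j : ℝ) + 3)) ≤ Y →
    A0 * Real.log ((N : ℝ) + 3) * (L : ℝ) ^ (1 + 1 / (2 * (j : ℝ) + 3)) * (Sm bg : ℝ) ≤ N →
    vv d (Bm b + (ms + bg)) ≤ 0 → E d (Bm b + (ms + bg)) := by
  obtain ⟨Aa, Ba, hAa, hBa, SWa⟩ := swB j (2 * f + 2)
  obtain ⟨Ab, Bb, hAb, hBb, SWb⟩ := sw j (nn_all _) (2 * f + 2)
  obtain ⟨C0, c, hC0, hc, CU⟩ := cube j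
  obtain ⟨A1, hA1a, hA1b⟩ : ∃ A1 : ℝ, Aa ≤ A1 ∧ Ab ≤ A1 := ⟨max Aa Ab, le_max_left _ _, le_max_right _ _⟩
  obtain ⟨B1, hB1a, hB1b⟩ : ∃ B1 : ℝ, Ba ≤ B1 ∧ Bb ≤ B1 := ⟨max Ba Bb, le_max_left _ _, le_max_right _ _⟩
  have hA1 : 1 ≤ A1 := hAa.trans hA1a
  have hB1 : 1 ≤ B1 := hBa.trans hB1a
  have SW : SWBp j (2 * f + 2) A1 B1 := swbp_mono SWa hA1a hB1a
  have SW' : SWp j (2 * f + 2) A1 B1 := swp_mono SWb hA1b hB1b
  clear SWa SWb hAa hAb hBa hBb hA1a hA1b hB1a hB1b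
  have hfR : (0 : ℝ) ≤ f := Nat.cast_nonneg f
  have hC0R : (1 : ℝ) ≤ C0 := by exact_mod_cast hC0
  obtain ⟨A3, hA3⟩ : ∃ A3 : ℝ, A3 = 4 * A1 + 2 * B1 / c + 4 * C0 + 20 := ⟨_, rfl⟩
  obtain ⟨R, hR⟩ : ∃ R : ℝ, R = 20 * f + 20 * A1 + 50 := ⟨_, rfl⟩
  have hBc : 0 ≤ 2 * B1 / c := by positivity
  have hA3a : 4 * A1 ≤ A3 := by linarith
  have hA3b : 2 * B1 ≤ c * A3 := by
    have : c * (2 * B1 / c) = 2 * B1 := by field_simp
    have h2 : c * (2 * B1 / c) ≤ c * A3 := mul_le_mul_of_nonneg_left (by linarith) hc.le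
    linarith
  have hA3c : 4 * (C0 : ℝ) ≤ A3 := by linarith
  have hA3d : 20 ≤ A3 := by linarith
  have hR1 : 50 ≤ R := by linarith
  have hR2 : 20 * (f : ℝ) ≤ R := by linarith
  have hR3 : 20 * A1 ≤ R := by linarith
  have hAA : 1 ≤ A3 * R := by nlinarith
  refine ⟨A3 * R, hAA, ?_⟩
  intro d L M Y N q b ms bg hL hLM hbig hms hbg hf hsq hd hSm hv
  obtain ⟨l, hl⟩ : ∃ l : ℝ, l = Real.log ((N : ℝ) + 3) := ⟨_, rfl⟩
  obtain ⟨Q, hQ1, hP5, hQk, hP2, hPL, hP21, hPL0⟩ := pow_facts (j := j) hL hLM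
  have hM1 : (1 : ℝ) ≤ M := by exact_mod_cast hL.trans hLM
  have hY0 : (0 : ℝ) ≤ Y := Nat.cast_nonneg Y
  have hN0 : (0 : ℝ) ≤ N := Nat.cast_nonneg N
  have hYN2 : 2 * (Y : ℝ) ^ 2 ≤ N := by exact_mod_cast hbig.hY2
  have hY1 : (1 : ℝ) ≤ Y := by exact_mod_cast hbig.hY
  have hYN : (Y : ℝ) ≤ N := by nlinarith
  have hl1 : 1 ≤ l := by
    rw [hl, Real.le_log_iff_exp_le (by linarith)]
    have := Real.exp_one_lt_d9
    linarith
  rw [← hl] at hd hSm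
  rw [hP5] at hd
  -- the degree of the group
  obtain ⟨t, ht⟩ : ∃ t : ℝ, t = A3 * l ^ 4 * (M * Q) := ⟨_, rfl⟩
  have hMQ : (M : ℝ) ≤ M * Q := le_mul_of_one_le_right (by linarith) hQ1
  have hl4 : 1 ≤ l ^ 4 := one_le_pow₀ hl1
  have hl2 : 1 ≤ l ^ 2 := one_le_pow₀ hl1
  have ht0 : A3 * (M * Q) ≤ t := by
    rw [ht]
    nlinarith [mul_le_mul_of_nonneg_left hl4 (show (0 : ℝ) ≤ A3 by linarith)]
  have ht1 : 20 * (M : ℝ) ≤ t := by nlinarith
  have ht2 : 20 ≤ t := by linarith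
  have hdt : R * l ^ 2 * t ≤ Y := by
    have : R * l ^ 2 * t = A3 * R * l ^ 6 * (M * Q) := by rw [ht]; ring
    rw [this]; exact hd
  have hRl : R * l ≤ R * l ^ 2 := mul_le_mul_of_nonneg_left (by nlinarith) (by linarith)
  have hdRl : R * l * t ≤ Y := le_trans (mul_le_mul_of_nonneg_right hRl (by linarith)) hdt
  have hdR : R * t ≤ Y := by
    refine le_trans ?_ hdRl
    have : R * 1 * t ≤ R * l * t :=
      mul_le_mul_of_nonneg_right (mul_le_mul_of_nonneg_left hl1 (by linarith)) (by linarith)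
    linarith
  have h50 : 50 * t ≤ Y := le_trans (mul_le_mul_of_nonneg_right hR1 (by linarith)) hdR
  have htd : t ≤ Y := by linarith
  -- squares
  have hd2 : R * l * t ^ 2 ≤ N := by
    have e1 : R * l * t * t ≤ Y * t := mul_le_mul_of_nonneg_right hdRl (by linarith)
    have e2 : (Y : ℝ) * t ≤ Y * Y := mul_le_mul_of_nonneg_left htd hY0
    nlinarith
  have hA1g : A1 * l ^ 4 * (M * Q) ≤ t / 4 := by
    rw [ht]
    have : 4 * A1 * (l ^ 4 * (M * Q)) ≤ A3 * (l ^ 4 * (M * Q)) :=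
      mul_le_mul_of_nonneg_right hA3a (by positivity)
    linarith
  have hgrow : A1 * l ^ 4 * (M * Q) ≤ Y := by linarith
  have hXt : 2 * (B1 * (M : ℝ) ^ (1 + 2 / (2 * (j : ℝ) + 3)) * l) ≤ c * t := by
    have e1 : 2 * B1 * ((M : ℝ) ^ (1 + 2 / (2 * (j : ℝ) + 3)) * l) ≤ 2 * B1 * ((M * Q) * l ^ 4) := by
      apply mul_le_mul_of_nonneg_left _ (by linarith)
      apply mul_le_mul hP2 _ (by linarith) (by positivity)
      exact le_self_pow₀ hl1 (by norm_num)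
    have e2 : 2 * B1 * ((M * Q) * l ^ 4) ≤ c * A3 * ((M * Q) * l ^ 4) :=
      mul_le_mul_of_nonneg_right hA3b (by positivity)
    rw [ht]
    linarith
  obtain ⟨X, hX⟩ : ∃ X : ℝ, X = B1 * (M : ℝ) ^ (1 + 2 / (2 * (j : ℝ) + 3)) * l := ⟨_, rfl⟩
  rw [← hX] at hXt
  have hX0 : 0 < X := by
    rw [hX]
    have : 0 < (M : ℝ) ^ (1 + 2 / (2 * (j : ℝ) + 3)) := by linarith
    positivity
  have hsqR : 2 * (Sq (ms + bg) : ℝ) ≤ 5 * (N : ℝ) := by exact_mod_cast hsq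
  have hbg1 : ∀ m ∈ bg, 1 ≤ m ∧ A1 * (m : ℝ) ≤ Y := by
    intro m hm
    refine ⟨(hbg m hm).1, le_trans ?_ (hbg m hm).2⟩
    apply mul_le_mul_of_nonneg_right _ (Nat.cast_nonneg m)
    nlinarith
  have hSm2 : A1 * l * (L : ℝ) ^ (1 + 1 / (2 * (j : ℝ) + 3)) * (Sm bg : ℝ) ≤ (N : ℝ) / 2 := by
    have e1 : 2 * A1 ≤ A3 * R := by nlinarith
    have e2 : 2 * A1 * (l * (L : ℝ) ^ (1 + 1 / (2 * (j : ℝ) + 3)) * (Sm bg : ℝ)) ≤
        A3 * R * (l * (L : ℝ) ^ (1 + 1 / (2 * (j : ℝ) + 3)) * (Sm bg : ℝ)) := by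
      apply mul_le_mul_of_nonneg_right e1
      have : (0 : ℝ) ≤ Sm bg := Nat.cast_nonneg _
      positivity
    linarith
  have hfR2 : (N : ℝ) ≤ f * (Sq (ms.filter fun m => m ≤ L) : ℝ) := by exact_mod_cast hf
  -- the case of a very negative virtual dimension
  rcases le_or_gt (vv d (Bm b + (ms + bg))) (-X) with hcase | hcase
  · have h1 : (hh d (Bm b + (ms + bg)) : ℝ) = max (vv d (Bm b + (ms + bg))) 0 := by
      apply SW d L M Y N q b ms bg hL hLM hbig hms hbg1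
      · exact le_trans hf (Nat.mul_le_mul_right _ (by omega))
      · omega
      · rw [← hl, hP5]; exact hgrow
      · rw [← hl]
        linarith
      · rw [← hl, ← hX, abs_of_nonpos hv]
        linarith
    rw [max_eq_right hv] at h1
    exact hh_eq_zero_iff.mp (by exact_mod_cast h1)
  -- the class
  have hLd : (L : ℝ) ≤ N := by
    have : (L : ℝ) ≤ M := by exact_mod_cast hLM
    linarith
  have hclog := clog_bound hL hLd hl hl1
  obtain ⟨i, hi, hcls⟩ := exists_cls (Nat.clog 2 L) (ms.filter fun m => m ≤ L) (by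
    intro m hm
    exact Nat.clog_mono_right 2 (Multiset.mem_filter.mp hm).2)
  obtain ⟨G, hG⟩ : ∃ G, G = cls i (ms.filter fun m => m ≤ L) := ⟨_, rfl⟩
  rw [← hG] at hcls
  have hGms : G ≤ ms := by
    rw [hG]
    exact (Multiset.filter_le _ _).trans (Multiset.filter_le _ _)
  have hGW : ∀ m ∈ G, 2 ^ i < 2 * m ∧ m ≤ 2 ^ i := by
    intro m hm
    exact mem_cls (hG ▸ hm) (hms m (Multiset.mem_of_le hGms hm)).1
  have hclsR : (Sq (ms.filter fun m => m ≤ L) : ℝ) ≤ 4 * l * Sq G := by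
    have : (Sq (ms.filter fun m => m ≤ L) : ℝ) ≤ ((Nat.clog 2 L : ℝ) + 1) * Sq G := by
      exact_mod_cast hcls
    exact le_trans this (mul_le_mul_of_nonneg_right hclog (Nat.cast_nonneg _))
  have hdG : (N : ℝ) ≤ 4 * f * l * Sq G := by
    have := mul_le_mul_of_nonneg_left hclsR hfR
    linarith
  have hdpos : (0 : ℝ) < (N : ℝ) := by linarith
  have hflG : 0 < 4 * f * l * (Sq G : ℝ) := lt_of_lt_of_le hdpos hdG
  have hW2L : (2 : ℕ) ^ i ≤ 2 * L := by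
    have hne : G ≠ 0 := by
      intro h0
      rw [h0] at hflG
      simp [Sq] at hflG
    obtain ⟨m, hm⟩ := Multiset.exists_mem_of_ne_zero hne
    have e1 := (hGW m hm).1
    have e2 : m ≤ L := by
      rw [hG] at hm
      exact (Multiset.mem_filter.mp (Multiset.mem_filter.mp hm).1).2
    omega
  obtain ⟨W, hW⟩ : ∃ W : ℕ, W = 2 ^ i := ⟨_, rfl⟩
  rw [← hW] at hGW hW2L
  have hW1 : 1 ≤ W := by rw [hW]; exact Nat.one_le_two_pow
  have hW1R : (1 : ℝ) ≤ W := by exact_mod_cast hW1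
  have hWR : (W : ℝ) ≤ 2 * M := by
    have : W ≤ 2 * M := by omega
    exact_mod_cast this
  have hWt : (W : ℝ) ≤ t := by linarith
  -- the group
  obtain ⟨K, hK⟩ : ∃ K : ℕ, K = ⌈4 * t ^ 2 / (W : ℝ) ^ 2⌉₊ := ⟨_, rfl⟩
  have hN1 : 4 * t ^ 2 ≤ (K : ℝ) * (W : ℝ) ^ 2 := by
    have := Nat.le_ceil (4 * t ^ 2 / (W : ℝ) ^ 2)
    rw [← hK, div_le_iff₀ (by positivity)] at this
    exact this
  have hN2 : (K : ℝ) * (W : ℝ) ^ 2 ≤ 5 * t ^ 2 := by
    have h1 := Nat.ceil_lt_add_one (show 0 ≤ 4 * t ^ 2 / (W : ℝ) ^ 2 by positivity)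
    rw [← hK] at h1
    have h2 : (K : ℝ) * (W : ℝ) ^ 2 ≤ (4 * t ^ 2 / (W : ℝ) ^ 2 + 1) * (W : ℝ) ^ 2 :=
      mul_le_mul_of_nonneg_right h1.le (by positivity)
    have h3 : (4 * t ^ 2 / (W : ℝ) ^ 2 + 1) * (W : ℝ) ^ 2 = 4 * t ^ 2 + (W : ℝ) ^ 2 := by
      field_simp
    have h4 : (W : ℝ) ^ 2 ≤ t ^ 2 := pow_le_pow_left₀ (by linarith) hWt 2
    linarith
  have hNG : K ≤ Multiset.card G := by
    rw [hK, Nat.ceil_le, div_le_iff₀ (by positivity)]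
    have h1 : (Sq G : ℝ) ≤ (Multiset.card G : ℝ) * (W : ℝ) ^ 2 := by
      exact_mod_cast Sq_le_card (fun m hm => (hGW m hm).2)
    have h2 : (0 : ℝ) < f * l := by
      by_contra hcon
      have : (f : ℝ) * l = 0 := le_antisymm (not_lt.mp hcon) (by positivity)
      nlinarith
    have h3 : 20 * (f : ℝ) * l * t ^ 2 ≤ R * l * t ^ 2 := by
      apply mul_le_mul_of_nonneg_right _ (by positivity)
      exact mul_le_mul_of_nonneg_right hR2 (by linarith)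
    have h4 : f * l * (5 * t ^ 2) ≤ f * l * Sq G := by linarith
    have h5 : 5 * t ^ 2 ≤ (Sq G : ℝ) := le_of_mul_le_mul_left h4 h2
    have h6 : 0 ≤ t ^ 2 := sq_nonneg t
    linarith
  obtain ⟨gs0, hgs0, hcard0⟩ := exists_le_card hNG
  have hCW : C0 * W ^ 2 ≤ Multiset.card gs0 ^ (2 * j + 3) := by
    rw [hcard0]
    exact cube_cond hM1 hQ1 hA3d hA3c hQk hWR hW1R hN1 ht0
  obtain ⟨T, hT, hcardT, hdist⟩ := CU W gs0 hW1 (fun m hm => hGW m (Multiset.mem_of_le hgs0 hm)) hCW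
  rw [hcard0] at hcardT hdist
  have hTms : T ≤ ms := hT.trans (hgs0.trans hGms)
  have hsqrt : 2 * t ≤ Real.sqrt K * W := by
    have e1 : (Real.sqrt K * W) ^ 2 = K * (W : ℝ) ^ 2 := by
      rw [mul_pow, Real.sq_sqrt (Nat.cast_nonneg K)]
    have e2 : (2 * t) ^ 2 ≤ (Real.sqrt K * W) ^ 2 := by
      rw [e1]
      linarith
    exact le_of_sq_le_sq' e2 (by positivity)
  have hdist' : ∀ n : ℕ, 2 * c * t ≤ |((cd T : ℕ) : ℝ) - (kk n : ℝ)| := by
    intro n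
    have := hdist n
    have e1 : c * (2 * t) ≤ c * (Real.sqrt K * W) := mul_le_mul_of_nonneg_left hsqrt hc.le
    linarith
  have hTW : ∀ m ∈ T, W < 2 * m ∧ m ≤ W := fun m hm =>
    hGW m (Multiset.mem_of_le (hT.trans hgs0) hm)
  have hTM : ∀ m ∈ T, 1 ≤ m ∧ m ≤ M := fun m hm => hms m (Multiset.mem_of_le hTms hm)
  have hcT : Multiset.card T ≤ K := by
    rw [← hcard0]
    exact Multiset.card_le_card hT
  have hSqT : (Sq T : ℝ) ≤ 5 * t ^ 2 := by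
    have e1 : (Sq T : ℝ) ≤ (Multiset.card T : ℝ) * (W : ℝ) ^ 2 := by
      exact_mod_cast Sq_le_card (fun m hm => (hTW m hm).2)
    have e2 : (Multiset.card T : ℝ) * (W : ℝ) ^ 2 ≤ K * (W : ℝ) ^ 2 :=
      mul_le_mul_of_nonneg_right (by exact_mod_cast hcT) (by positivity)
    linarith
  have hcdT2 : (cd T : ℝ) ≤ 5 * t ^ 2 := by
    have : (cd T : ℝ) ≤ Sq T := by exact_mod_cast cd_le_Sq T
    linarith
  have hcdT1 : t ^ 2 ≤ 4 * (cd T : ℝ) := by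
    have e1 : (Multiset.card T : ℝ) * (W : ℝ) ^ 2 ≤ 8 * (cd T : ℝ) := by
      exact_mod_cast card_le_cd (fun m hm => (hTW m hm).1)
    have e2 : (K : ℝ) * (W : ℝ) ^ 2 ≤ 2 * (Multiset.card T : ℝ) * (W : ℝ) ^ 2 :=
      mul_le_mul_of_nonneg_right (by exact_mod_cast hcardT) (by positivity)
    linarith
  obtain ⟨n0, hk1, hk2⟩ := exists_kk (cd T)
  have hk1R : (kk n0 : ℝ) ≤ cd T := by exact_mod_cast hk1
  have hk2R : (cd T : ℝ) < kk (n0 + 1) := by exact_mod_cast hk2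
  have kr0 := kk_real n0
  have kr1 := kk_real (n0 + 1)
  push_cast at kr1
  have hn0R : (0 : ℝ) ≤ n0 := Nat.cast_nonneg n0
  obtain ⟨hn1, hn2⟩ := n0_bounds ht2 hk1R hk2R hcdT1 hcdT2
  have h5 : 5 ≤ n0 := by
    have : (5 : ℝ) ≤ n0 := by linarith
    exact_mod_cast this
  have hs : 2 * c * t ≤ (cd T : ℝ) - kk n0 := by
    have := hdist' n0
    rwa [abs_of_nonneg (by linarith)] at this
  have hv0 : 2 * c * t ≤ (kk (n0 + 1) : ℝ) - cd T := by
    have := hdist' (n0 + 1)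
    rw [abs_of_nonpos (by linarith)] at this
    linarith
  obtain ⟨hz, hcn⟩ := local_zone (f := 2 * f + 2) hA1 hB1 (by omega) SW' (hL.trans hLM) hTM hk1 hk2 h5
    (l := l) (by
      rw [hl]
      exact Real.log_le_log (by positivity) (by linarith))
    (by rw [hP5]; linarith) (by rw [← hX]; linarith) (by rw [← hX]; linarith)
  -- the rest
  obtain ⟨u, rfl⟩ := Multiset.le_iff_exists_add.mp hTms
  have hSqadd : (Sq (T + u + bg) : ℝ) = Sq T + Sq u + Sq bg := by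
    rw [Sq_add, Sq_add]; push_cast; ring
  have ht2l : t ^ 2 ≤ l * t ^ 2 := le_mul_of_one_le_left (sq_nonneg t) hl1
  have hRt2 : R * t ^ 2 ≤ (N : ℝ) := by
    have : R * t ^ 2 ≤ R * (l * t ^ 2) := mul_le_mul_of_nonneg_left ht2l (by linarith)
    linarith
  have glob : ∀ n : ℕ, 1 ≤ n → n ≤ n0 + 1 → X ≤ |vv d (Bm b + (u + n ::ₘ bg))| →
      (hh d (Bm b + (u + n ::ₘ bg)) : ℝ) = max (vv d (Bm b + (u + n ::ₘ bg))) 0 := by
    intro n hn1' hn2' hx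
    have hnt : (n : ℝ) ≤ 5 * t := by
      have : (n : ℝ) ≤ (n0 : ℝ) + 1 := by exact_mod_cast hn2'
      linarith
    apply SW d L M Y N q b u (n ::ₘ bg) hL hLM hbig
    · intro m hm
      exact hms m (Multiset.mem_add.mpr (Or.inr hm))
    · intro m hm
      rcases Multiset.mem_cons.mp hm with rfl | hm
      · refine ⟨hn1', ?_⟩
        have e1 : A1 * (m : ℝ) ≤ A1 * (5 * t) := mul_le_mul_of_nonneg_left hnt (by linarith)
        have e2 : 20 * A1 * t ≤ R * t := mul_le_mul_of_nonneg_right hR3 (by linarith)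
        have e3 : 0 ≤ A1 * t := by positivity
        linarith
      · exact hbg1 m hm
    · have e1 : (Sq ((T + u).filter fun m => m ≤ L) : ℝ) ≤ 5 * t ^ 2 +
          Sq (u.filter fun m => m ≤ L) := by
        rw [Multiset.filter_add, Sq_add]
        have : Sq (T.filter fun m => m ≤ L) ≤ Sq T := Sq_le_of_le (Multiset.filter_le _ _)
        have : (Sq (T.filter fun m => m ≤ L) : ℝ) ≤ Sq T := by exact_mod_cast this
        push_cast
        linarith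
      have e2 := mul_le_mul_of_nonneg_left e1 hfR
      have e3 : 20 * (f : ℝ) * t ^ 2 ≤ R * t ^ 2 := mul_le_mul_of_nonneg_right hR2 (sq_nonneg t)
      have e4 : (0 : ℝ) ≤ Sq (u.filter fun m => m ≤ L) := Nat.cast_nonneg _
      have e5 : (N : ℝ) ≤ (2 * f + 2) * Sq (u.filter fun m => m ≤ L) := by
        have e6 : 0 ≤ (f : ℝ) * Sq (u.filter fun m => m ≤ L) := mul_nonneg hfR e4
        linarith
      exact_mod_cast e5
    · have e1 : (Sq (u + n ::ₘ bg) : ℝ) = Sq u + n ^ 2 + Sq bg := by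
        rw [Sq_add, Sq_cons]; push_cast; ring
      have e2 : (n : ℝ) ^ 2 ≤ (5 * t) ^ 2 := pow_le_pow_left₀ (Nat.cast_nonneg n) hnt 2
      have e3 : 50 * t ^ 2 ≤ R * t ^ 2 := mul_le_mul_of_nonneg_right hR1 (sq_nonneg t)
      have e4 : (0 : ℝ) ≤ Sq T := Nat.cast_nonneg _
      have e5 : (Sq (u + n ::ₘ bg) : ℝ) ≤ 3 * (N : ℝ) := by
        rw [e1]
        linarith
      exact_mod_cast e5
    · rw [← hl, hP5]; exact hgrow
    · rw [← hl, Sm_cons]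
      push_cast
      have e0 : 0 ≤ A1 * l := by positivity
      have e1 : A1 * l * (L : ℝ) ^ (1 + 1 / (2 * (j : ℝ) + 3)) * (n : ℝ) ≤
          A1 * l * (M * Q) * (5 * t) := by
        apply mul_le_mul _ hnt (Nat.cast_nonneg n) (by positivity)
        exact mul_le_mul_of_nonneg_left hPL e0
      have e2 : (M : ℝ) * Q ≤ t :=
        le_trans (le_mul_of_one_le_left (by positivity) (by linarith)) ht0
      have e3 : A1 * l * (M * Q) * (5 * t) ≤ A1 * l * t * (5 * t) := by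
        apply mul_le_mul_of_nonneg_right _ (by positivity)
        exact mul_le_mul_of_nonneg_left e2 e0
      have e4 : 20 * A1 * (l * t ^ 2) ≤ R * (l * t ^ 2) :=
        mul_le_mul_of_nonneg_right hR3 (by positivity)
      have e5 : 0 ≤ A1 * (l * t ^ 2) := by positivity
      linarith
    · rw [← hl, ← hX]; exact hx
  have hvn : ∀ n : ℕ, vv d (Bm b + (u + n ::ₘ bg)) =
      vv d (Bm b + (T + u + bg)) + (cd T : ℝ) - kk n := by
    intro n
    have e1 : Bm b + (T + u + bg) = T + (Bm b + (u + bg)) := by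
      rw [add_assoc T u bg, add_left_comm]
    have e2 : Bm b + (u + n ::ₘ bg) = n ::ₘ (Bm b + (u + bg)) := by
      rw [Multiset.add_cons, Multiset.add_cons]
    rw [e2, vv_cons, e1, vv_kk, vv_kk, cd_add T (Bm b + (u + bg))]
    push_cast
    ring
  have hre : ∀ n : ℕ, Bm b + (u + n ::ₘ bg) = n ::ₘ (Bm b + (u + bg)) := by
    intro n
    rw [Multiset.add_cons, Multiset.add_cons]
  have hh1 : hh d ((n0 + 1) ::ₘ (Bm b + (u + bg))) = 0 := by
    have e1 := glob (n0 + 1) (Nat.le_add_left _ _) le_rfl (by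
      rw [hvn, abs_of_nonpos (by linarith)]
      linarith)
    rw [hvn, max_eq_right (by linarith), hre] at e1
    exact_mod_cast e1
  have hh0 : (hh d (n0 ::ₘ (Bm b + (u + bg))) : ℝ) ≤ cn T n0 := by
    have e1 := glob n0 (by omega) (Nat.le_succ _) (by
      rw [hvn, abs_of_nonneg (by linarith)]
      linarith)
    rw [hvn, max_eq_left (by linarith), hre] at e1
    rw [e1, hcn]
    linarith
  have hfin := final_step hz hh0 hh1
  have e1 : Bm b + (T + u + bg) = T + (Bm b + (u + bg)) := by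
    rw [add_assoc T u bg, add_left_comm]
  rwa [e1]

end Pool.Agent.SGN
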