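import Pool.Agent.SGN.FinM
import Pool.Agent.SG.FinalB

set_option autoImplicit false

/-!
# Module FinB: nine arbitrary points and many big points (port of SG/FinalB.lean, `core` and `exactB`)

`Y` is the margin: `b i + Y ≤ d` (`i ≠ 8`, `b 8` smallest), `Y² ≤ N`. All other multiplicities are at most `Y/C`;
those `≤ L` have `∑ m² ≥ N/f`.

`coreB` (port of `core`): `g = 1/(2j+3) ≤ 1/20`, `A` from `exactBB j f`; `ℓ = log (N+3) ≤ K log (Y+3)` as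
`N ≤ R Y³`; `M = ⌈3 A ℓ L^(1+g)⌉ ≥ L`, `bg` = elements `> M` of `T`, the others are the `ms` of `exactBB`:
`Sm bg ≤ Sq T/M ≤ 2.5 N/M`, so `A ℓ L^(1+g) Sm bg ≤ N`; growth `A ℓ^6 M^(1+5g) ≤ C' ℓ^9 L^((1+g)(1+5g)) ≤ Y` by
`log_pow` (SG/LogE.lean) for `Y` in place of `d`.

`exactGB` (port of `exactB`). `C0` from `exactMQ 0` (SXQ/FinM.lean). All `m ≤ M0 := ⌊Y/C⌋` (`C ≤ Y`).
(0) If `(C0+1) Y³ ≤ N`: `exactMQ 0` with `M0`: `C0 (M0+1) ≤ Y`, `C0 (M0+1)^6 ≤ N²` (`M0 + 1 ≤ Y`).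
(1) Otherwise `N ≤ R Y³`, `R = C0 + 1`. `Y1 = Y/100` (`100 Y1 ≤ Y`, `2 Y1² ≤ N`, `Y ≤ 200 Y1`):
`Big d Y1 N q b` by `std_posQ`, `std_NQ` exactly as in `critB` of SGN/FinM.lean. Drop the zeros. Let `L` be the
largest number with `C (L+1)^(1+ε) ≤ Y` (the hypothesis is about the elements `≤ L`; `L ≥ 1` because otherwise
`N = 0`), `S = ms.filter (· ≤ L)`.
If `cd (Bm b) + cd S ≥ C(d+2,2)`: `exactMG ε` for `S` (`M = L`, `N ≥ Y² ≥ C² (L+1)^(2+2ε)`): empty, `E.add`.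
Otherwise: if `cd (Bm b) + cd ms ≤ C(d+2,2)` let `ms' = ms + 1^v` with `cd (Bm b) + cd ms' = C(d+2,2)`; else
remove elements of `ms - S` (all `≤ Y/C`) until `C(d+2,2) ≤ cd (Bm b) + cd ms' ≤ C(d+2,2) + kk (Y/C)`. So
`Sq ms' + Sm ms' ≤ N + q + 2 + 2 kk(Y/C)`, `2 Sq ms' ≤ 5 N` (`2 q ≤ N`, `N ≥ Y² ≥ C²`), `vv ≤ 0`: `coreB`.
`E d (Bm b + ms')` implies the claim (`good_of_E_ones`, `E.add`).
-/

namespace Pool.Agent.SGN

open MvPolynomial Pool.Agent.helper5.NBS Pool.Agent.helper89.Segre Pool.Agent.SH9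
open Pool.Agent.helper25.ST Pool.Agent.helper25.SXN Pool.Agent.helper25.SXQ Pool.Agent.SG

private lemma mul_Sm_le_Sq {M : ℕ} (a : Multiset ℕ) (h : ∀ m ∈ a, M ≤ m) : M * Sm a ≤ Sq a := by
  induction a using Multiset.induction_on with
  | empty => simp [Sq, Sm]
  | cons m a ih =>
    have h1 := ih (fun μ hμ => h μ (Multiset.mem_cons_of_mem hμ))
    have h2 := h m (Multiset.mem_cons_self _ _)
    rw [Sm_cons, Sq_cons]
    nlinarith

private lemma Sq_nil_of {t : Multiset ℕ} (h : ∀ m ∈ t, m = 0) : Sq t = 0 := by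
  induction t using Multiset.induction_on with
  | empty => simp [Sq]
  | cons m a ih =>
    rw [Sq_cons, ih (fun μ hμ => h μ (Multiset.mem_cons_of_mem hμ)),
      h m (Multiset.mem_cons_self _ _)]
    norm_num

private lemma cd_nil_of {t : Multiset ℕ} (h : ∀ m ∈ t, m = 0) : cd t = 0 := by
  induction t using Multiset.induction_on with
  | empty => simp [cd]
  | cons m a ih =>
    rw [cd_cons, ih (fun μ hμ => h μ (Multiset.mem_cons_of_mem hμ)),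
      h m (Multiset.mem_cons_self _ _)]
    decide

private lemma kk_mono {m n : ℕ} (h : m ≤ n) : kk m ≤ kk n := by
  have h1 := two_mul_kk m
  have h2 := two_mul_kk n
  have h3 : m * m ≤ n * n := Nat.mul_le_mul h h
  omega

/-- a subset with prescribed number of conditions -/
private lemma pick {K : ℕ} (t : Multiset ℕ) : ∀ N : ℕ, (∀ m ∈ t, kk m ≤ K) → N ≤ cd t →
    ∃ gs ≤ t, N ≤ cd gs ∧ cd gs ≤ N + K := by
  induction t using Multiset.induction_on with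
  | empty =>
    intro N _ hN
    exact ⟨0, le_refl _, hN, by simp [cd]⟩
  | cons m a ih =>
    intro N h hN
    by_cases h1 : N ≤ cd a
    · obtain ⟨gs, g1, g2, g3⟩ := ih N (fun μ hμ => h μ (Multiset.mem_cons_of_mem hμ)) h1
      exact ⟨gs, g1.trans (Multiset.le_cons_self _ _), g2, g3⟩
    · refine ⟨m ::ₘ a, le_refl _, hN, ?_⟩
      have h2 := h m (Multiset.mem_cons_self _ _)
      rw [cd_cons]
      omega

private lemma filter_filter_le {L M : ℕ} (h : L ≤ M) (t : Multiset ℕ) :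
    (t.filter fun m => m ≤ M).filter (fun m => m ≤ L) = t.filter fun m => m ≤ L := by
  rw [Multiset.filter_filter]
  refine Multiset.filter_congr fun m _ => ?_
  constructor
  · exact fun h1 => h1.1
  · exact fun h1 => ⟨h1, h1.trans h⟩

/-- the growth condition of `exactBB` for `M = ⌈3 A ℓ L^(1+g)⌉` -/
private lemma growth {g A ℓ d : ℝ} {L M : ℕ} (hg : 0 < g) (hg5 : g ≤ 1 / 20) (hA : 1 ≤ A)
    (hℓ : 1 ≤ ℓ) (hL : 1 ≤ L) (hM : (M : ℝ) ≤ 4 * (A * ℓ * (L : ℝ) ^ (1 + g)))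
    (h : 16 * A ^ 3 * ℓ ^ 8 * (L : ℝ) ^ (1 + 5 * (2 * g)) ≤ d) :
    A * ℓ ^ 6 * (M : ℝ) ^ (1 + 5 * g) ≤ d := by
  have hL1 : (1 : ℝ) ≤ L := by exact_mod_cast hL
  have hL0 : (0 : ℝ) ≤ L := by linarith
  have hx : (1 : ℝ) ≤ 4 * A * ℓ := by nlinarith
  have h1 : (M : ℝ) ^ (1 + 5 * g) ≤ (4 * A * ℓ) ^ 2 * (L : ℝ) ^ (1 + 5 * (2 * g)) := by
    have h2 : (M : ℝ) ^ (1 + 5 * g) ≤ (4 * A * ℓ * (L : ℝ) ^ (1 + g)) ^ (1 + 5 * g) := by
      refine Real.rpow_le_rpow (Nat.cast_nonneg M) ?_ (by linarith)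
      refine hM.trans (le_of_eq ?_)
      ring
    refine h2.trans ?_
    rw [Real.mul_rpow (by linarith) (by positivity), ← Real.rpow_mul hL0]
    refine mul_le_mul ?_ ?_ (by positivity) (by positivity)
    · rw [← Real.rpow_two]
      exact Real.rpow_le_rpow_of_exponent_le hx (by linarith)
    · exact Real.rpow_le_rpow_of_exponent_le hL1 (by nlinarith)
  calc A * ℓ ^ 6 * (M : ℝ) ^ (1 + 5 * g)
      ≤ A * ℓ ^ 6 * ((4 * A * ℓ) ^ 2 * (L : ℝ) ^ (1 + 5 * (2 * g))) :=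
        mul_le_mul_of_nonneg_left h1 (by positivity)
    _ = 16 * A ^ 3 * ℓ ^ 8 * (L : ℝ) ^ (1 + 5 * (2 * g)) := by ring
    _ ≤ d := h

/-- `log (N + 3) ≤ K log (Y + 3)` for `N ≤ R Y³` -/
private lemma log_le {R : ℝ} (hR : 1 ≤ R) {N Y : ℕ} (hY : 1 ≤ Y)
    (h : (N : ℝ) ≤ R * (Y : ℝ) ^ 3) :
    Real.log ((N : ℝ) + 3) ≤ (Real.log R + 3) * Real.log ((Y : ℝ) + 3) := by
  have hY1 : (1 : ℝ) ≤ Y := by exact_mod_cast hY
  have hN0 : (0 : ℝ) ≤ N := Nat.cast_nonneg N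
  have hR0 : 0 < R := by linarith
  have h1 : (N : ℝ) + 3 ≤ R * ((Y : ℝ) + 3) ^ 3 := by
    have h2 : ((Y : ℝ) + 3) ^ 3 = (Y : ℝ) ^ 3 + 9 * (Y : ℝ) ^ 2 + 27 * Y + 27 := by ring
    rw [h2]
    have h3 : 0 ≤ (Y : ℝ) ^ 2 := sq_nonneg _
    nlinarith
  have h4 : Real.log ((N : ℝ) + 3) ≤ Real.log (R * ((Y : ℝ) + 3) ^ 3) :=
    Real.log_le_log (by linarith) h1
  have h5 : Real.log (R * ((Y : ℝ) + 3) ^ 3) = Real.log R + 3 * Real.log ((Y : ℝ) + 3) := by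
    rw [Real.log_mul hR0.ne' (by positivity), Real.log_pow]
    norm_num
  have h6 : 1 ≤ Real.log ((Y : ℝ) + 3) := by
    rw [Real.le_log_iff_exp_le (by linarith)]
    have := Real.exp_one_lt_d9
    linarith
  have h7 : 0 ≤ Real.log R := Real.log_nonneg hR
  rw [h5] at h4
  nlinarith

theorem coreB (j f : ℕ) (g R : ℝ) (hgj : g = 1 / (2 * (j : ℝ) + 3)) (hg5 : g ≤ 1 / 20)
    (hR : 1 ≤ R) : ∃ C : ℝ, 1 ≤ C ∧
    ∀ (d L Y N q : ℕ) (b : Fin 9 → ℕ) (T : Multiset ℕ), Big d Y N q b → 1 ≤ L →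
    (N : ℝ) ≤ R * (Y : ℝ) ^ 3 → C * (L : ℝ) ^ (1 + 14 * g) ≤ Y →
    (∀ m ∈ T, 1 ≤ m ∧ C * (m : ℝ) ≤ Y) → N ≤ f * Sq (T.filter fun m => m ≤ L) →
    2 * Sq T ≤ 5 * N → vv d (Bm b + T) ≤ 0 → E d (Bm b + T) := by
  have hj0 : (0 : ℝ) < 2 * (j : ℝ) + 3 := by positivity
  have hg : 0 < g := by rw [hgj]; positivity
  obtain ⟨A, hA, hC⟩ := exactBB j f
  obtain ⟨K, hK⟩ : ∃ K : ℝ, K = Real.log R + 3 := ⟨_, rfl⟩
  obtain ⟨C1, hC1, hlog⟩ := log_pow (2 * g) (16 * A ^ 3 * K ^ 8) 8 (by linarith) (by linarith)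
  refine ⟨C1 + A, by linarith, ?_⟩
  intro d L Y N q b T hB hL hNR hd hT hS hSq hv
  have hL1 : (1 : ℝ) ≤ L := by exact_mod_cast hL
  have hLp : (1 : ℝ) ≤ (L : ℝ) ^ (1 + 14 * g) := Real.one_le_rpow hL1 (by linarith)
  have hN0 : (0 : ℝ) ≤ N := Nat.cast_nonneg N
  have hN1 : (1 : ℝ) ≤ N := by
    have h1 := hB.hY
    have h2 := hB.hY2
    have h3 : 1 ≤ Y ^ 2 := Nat.one_le_pow _ _ h1
    have h4 : 1 ≤ N := by omega
    exact_mod_cast h4
  obtain ⟨ℓ, hℓ⟩ : ∃ ℓ : ℝ, ℓ = Real.log ((N : ℝ) + 3) := ⟨_, rfl⟩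
  have hℓ1 : 1 ≤ ℓ := by
    rw [hℓ, Real.le_log_iff_exp_le (by linarith)]
    have := Real.exp_one_lt_d9
    linarith
  have hℓK : ℓ ≤ K * Real.log ((Y : ℝ) + 3) := by
    rw [hℓ, hK]
    exact log_le hR hB.hY hNR
  have hLg : (L : ℝ) ≤ (L : ℝ) ^ (1 + g) := by
    calc (L : ℝ) = (L : ℝ) ^ (1 : ℝ) := (Real.rpow_one _).symm
      _ ≤ (L : ℝ) ^ (1 + g) := Real.rpow_le_rpow_of_exponent_le hL1 (by linarith)
  have hAℓ : 1 ≤ A * ℓ := by nlinarith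
  have hx1 : (L : ℝ) ≤ A * ℓ * (L : ℝ) ^ (1 + g) := by nlinarith
  obtain ⟨M, hM⟩ : ∃ M : ℕ, M = ⌈3 * (A * ℓ * (L : ℝ) ^ (1 + g))⌉₊ := ⟨_, rfl⟩
  have hM1 : 3 * (A * ℓ * (L : ℝ) ^ (1 + g)) ≤ (M : ℝ) := by
    rw [hM]
    exact Nat.le_ceil _
  have hM2 : (M : ℝ) ≤ 4 * (A * ℓ * (L : ℝ) ^ (1 + g)) := by
    have := (Nat.ceil_lt_add_one (by linarith : 0 ≤ 3 * (A * ℓ * (L : ℝ) ^ (1 + g)))).le
    rw [← hM] at this
    linarith
  have hLM : L ≤ M := by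
    have : (L : ℝ) ≤ M := by linarith
    exact_mod_cast this
  have hlog' := hlog Y L hL (by
    refine le_trans ?_ hd
    have e1 : 1 + 7 * (2 * g) = 1 + 14 * g := by ring
    rw [e1]
    nlinarith)
  have hlog2 : 16 * A ^ 3 * ℓ ^ 8 * (L : ℝ) ^ (1 + 5 * (2 * g)) ≤ Y := by
    refine le_trans ?_ hlog'
    have h1 : ℓ ^ 8 ≤ (K * Real.log ((Y : ℝ) + 3)) ^ 8 := pow_le_pow_left₀ (by linarith) hℓK 8
    have h2 : 16 * A ^ 3 * ℓ ^ 8 ≤ 16 * A ^ 3 * K ^ 8 * Real.log ((Y : ℝ) + 3) ^ 8 := by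
      calc 16 * A ^ 3 * ℓ ^ 8 ≤ 16 * A ^ 3 * (K * Real.log ((Y : ℝ) + 3)) ^ 8 :=
            mul_le_mul_of_nonneg_left h1 (by positivity)
        _ = 16 * A ^ 3 * K ^ 8 * Real.log ((Y : ℝ) + 3) ^ 8 := by ring
    exact mul_le_mul_of_nonneg_right h2 (by positivity)
  have hgr := growth (d := Y) hg hg5 hA hℓ1 hL hM2 hlog2
  obtain ⟨sm, hsm⟩ : ∃ sm : Multiset ℕ, sm = T.filter fun m => m ≤ M := ⟨_, rfl⟩
  obtain ⟨bg, hbg⟩ : ∃ bg : Multiset ℕ, bg = T.filter fun m => ¬ m ≤ M := ⟨_, rfl⟩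
  have hsum : sm + bg = T := by
    rw [hsm, hbg]
    exact Multiset.filter_add_not _ _
  have hbgS : M * Sm bg ≤ Sq bg := by
    refine mul_Sm_le_Sq bg fun m hm => ?_
    rw [hbg, Multiset.mem_filter] at hm
    omega
  have hSqT : Sq bg ≤ Sq T := by
    rw [← hsum, Sq_add]
    omega
  have hbgR : 2 * ((M : ℝ) * (Sm bg : ℝ)) ≤ 5 * (N : ℝ) := by
    have : 2 * (M * Sm bg) ≤ 5 * N := by omega
    exact_mod_cast this
  have hres := hC d L M Y N q b sm bg hL hLM hB ?_ ?_ ?_ ?_ ?_ ?_ ?_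
  · rwa [hsum] at hres
  · intro m hm
    rw [hsm, Multiset.mem_filter] at hm
    exact ⟨(hT m hm.1).1, hm.2⟩
  · intro m hm
    rw [hbg, Multiset.mem_filter] at hm
    refine ⟨(hT m hm.1).1, le_trans ?_ (hT m hm.1).2⟩
    have : (0 : ℝ) ≤ m := Nat.cast_nonneg m
    nlinarith
  · rw [hsm, filter_filter_le hLM]
    exact hS
  · rw [hsum]
    exact hSq
  · have e1 : (1 : ℝ) + 5 / (2 * (j : ℝ) + 3) = 1 + 5 * g := by
      rw [hgj]; ring
    rw [e1, ← hℓ]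
    exact hgr
  · have e1 : (1 : ℝ) + 1 / (2 * (j : ℝ) + 3) = 1 + g := by rw [hgj]
    rw [e1, ← hℓ]
    have hs0 : (0 : ℝ) ≤ (Sm bg : ℝ) := Nat.cast_nonneg _
    have h1 : 3 * (A * ℓ * (L : ℝ) ^ (1 + g)) * (Sm bg : ℝ) ≤ (M : ℝ) * (Sm bg : ℝ) :=
      mul_le_mul_of_nonneg_right hM1 hs0
    have h3 : A * ℓ * (L : ℝ) ^ (1 + g) * (Sm bg : ℝ) =
      (3 * (A * ℓ * (L : ℝ) ^ (1 + g)) * (Sm bg : ℝ)) / 3 := by ring
    rw [h3]
    linarith
  · rw [hsum]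
    exact hv

theorem exactGB (ε : ℝ) (hε : 0 < ε) (f : ℕ) : ∃ C : ℝ, 1 ≤ C ∧
    ∀ (d Y N : ℕ) (b : Fin 9 → ℕ) (ms : Multiset ℕ), (∀ i, b 8 ≤ b i) →
    (∀ i j k, i ≠ j → j ≠ k → i ≠ k → b i + b j + b k ≤ d) → (∀ i, i ≠ 8 → b i + Y ≤ d) →
    ∑ i, b i ^ 2 + N = d ^ 2 → Y ^ 2 ≤ N → C ≤ Y → (∀ m ∈ ms, C * (m : ℝ) ≤ Y) →
    (∀ L : ℕ, (∀ l : ℕ, C * ((l : ℝ) + 1) ^ (1 + ε) ≤ Y → l ≤ L) →
      N ≤ f * Sq (ms.filter fun m => m ≤ L)) →
    Good ℂ (tri d) (Bm b + ms) (min (cd (Bm b) + cd ms) (tri d).card) := by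
  classical
  obtain ⟨j, hj⟩ : ∃ j : ℕ, max 20 (14 / ε) ≤ 2 * (j : ℝ) + 3 := by
    obtain ⟨j, hj⟩ := exists_nat_ge (max 20 (14 / ε))
    refine ⟨j, hj.trans ?_⟩
    have : (0 : ℝ) ≤ j := Nat.cast_nonneg j
    linarith
  obtain ⟨g, hgj⟩ : ∃ g : ℝ, g = 1 / (2 * (j : ℝ) + 3) := ⟨_, rfl⟩
  have hj0 : (0 : ℝ) < 2 * (j : ℝ) + 3 := by positivity
  have hg : 0 < g := by rw [hgj]; positivity
  have hg5 : g ≤ 1 / 20 := by
    rw [hgj]
    exact one_div_le_one_div_of_le (by norm_num) ((le_max_left _ _).trans hj)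
  have hgε : 14 * g ≤ ε := by
    have h1 : 14 / ε ≤ 2 * (j : ℝ) + 3 := (le_max_right _ _).trans hj
    rw [div_le_iff₀ hε] at h1
    rw [hgj, mul_one_div, div_le_iff₀ hj0]
    linarith
  obtain ⟨C0, hC0⟩ := exactMQ 0
  have hC0p : (0 : ℝ) ≤ (C0 : ℝ) := Nat.cast_nonneg C0
  obtain ⟨C1, hC1, hcore⟩ := coreB j f g (((C0 : ℝ) + 1) * 200 ^ 3) hgj hg5 (by linarith)
  obtain ⟨C2, hC2, hG⟩ := exactMG ε hε
  obtain ⟨C, hCdef⟩ : ∃ C : ℝ, C = 2 * (C0 : ℝ) + 200 * C1 + C2 + 100 := ⟨_, rfl⟩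
  have hC100 : 100 ≤ C := by linarith
  have hCC0 : 2 * (C0 : ℝ) ≤ C := by linarith
  have hCC1 : 200 * C1 ≤ C := by linarith
  have hCC2 : C2 ≤ C := by linarith
  clear hCdef
  refine ⟨C, by linarith, ?_⟩
  intro d Y N b ms hmin h3 hbY hN hYN hCY hms hL'
  have hYC : (100 : ℝ) ≤ Y := hC100.trans hCY
  have hY100 : 100 ≤ Y := by exact_mod_cast hYC
  have hC0' : 0 < C := by linarith
  rcases le_or_gt (((C0 : ℝ) + 1) * (Y : ℝ) ^ 3) (N : ℝ) with hbig | hsml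
  · -- many conditions
    obtain ⟨M0, hM0⟩ : ∃ M0 : ℕ, M0 = ⌊(Y : ℝ) / C⌋₊ := ⟨_, rfl⟩
    have hM0a : (M0 : ℝ) ≤ (Y : ℝ) / C := by
      rw [hM0]
      exact Nat.floor_le (by positivity)
    have hM0b : C * (M0 : ℝ) ≤ Y := by
      rw [le_div_iff₀ hC0'] at hM0a
      linarith
    have hM0c : C * ((M0 : ℝ) + 1) ≤ 2 * Y := by linarith
    have hM0d : (C0 : ℝ) * ((M0 : ℝ) + 1) ≤ Y := by
      have h1 : (0 : ℝ) ≤ (M0 : ℝ) + 1 := by positivity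
      nlinarith
    have hM0e : (M0 : ℝ) + 1 ≤ Y := by
      have h1 : (0 : ℝ) ≤ (M0 : ℝ) + 1 := by positivity
      nlinarith
    refine hC0 d M0 Y N b ms ?_ hmin h3 hbY hN ?_ ?_
    · intro μ hμ
      rw [hM0]
      refine Nat.le_floor ?_
      rw [le_div_iff₀ hC0', mul_comm]
      exact hms μ hμ
    · exact_mod_cast hM0d
    · have h1 : (C0 + 1) * Y ^ 3 ≤ N := by exact_mod_cast hbig
      have h2 : M0 + 1 ≤ Y := by exact_mod_cast hM0e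
      calc C0 * (M0 + 1) ^ (5 * 9 ^ 0 + 1) ≤ (C0 + 1) ^ 2 * (Y ^ 3) ^ 2 := by
            rw [← pow_mul]
            refine Nat.mul_le_mul ?_ (Nat.pow_le_pow_left h2 _)
            nlinarith
        _ = ((C0 + 1) * Y ^ 3) ^ 2 := by rw [mul_pow]
        _ ≤ N ^ 2 := Nat.pow_le_pow_left h1 2
        _ = N ^ (2 * 9 ^ 0) := by norm_num
  -- the margin `Y1`
  obtain ⟨Y1, hY1⟩ : ∃ Y1 : ℕ, Y1 = Y / 100 := ⟨_, rfl⟩
  have y1 : 1 ≤ Y1 := by omega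
  have y2 : 100 * Y1 ≤ Y := by omega
  have y3 : Y ≤ 200 * Y1 := by omega
  clear hY1
  have y4 : 2 * Y1 ^ 2 ≤ N := by
    have h1 : (100 * Y1) ^ 2 ≤ Y ^ 2 := Nat.pow_le_pow_left y2 2
    have h2 : (100 * Y1) ^ 2 = 10000 * Y1 ^ 2 := by ring
    omega
  have y3R : (Y : ℝ) ≤ 200 * (Y1 : ℝ) := by exact_mod_cast y3
  have hN100 : 10000 ≤ N := by
    have h1 : 100 ^ 2 ≤ Y ^ 2 := Nat.pow_le_pow_left hY100 2
    omega
  obtain ⟨h3d, -⟩ := std_three h3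
  obtain ⟨q, hq⟩ : ∃ q, ∑ i, b i + q = 3 * d := ⟨3 * d - ∑ i, b i, by omega⟩
  have hqY := std_NQ hmin h3 hbY hN hq
  have hqY1 : 2 * (Y1 * q) ≤ N := by
    have h4 : 100 * (q * Y1) ≤ q * Y := by
      calc 100 * (q * Y1) = q * (100 * Y1) := by ring
        _ ≤ q * Y := Nat.mul_le_mul_left _ y2
    have h5 : Y1 * q = q * Y1 := mul_comm _ _
    omega
  have hP : Pos d Y1 b := std_posQ hmin h3 (fun i hi => by
    have := hbY i hi
    omega) hN y4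
  have hBig : Big d Y1 N q b := ⟨hP, hN, hq, y1, hqY1, y4⟩
  have hqN : 2 * q ≤ N := by
    have : q ≤ Y1 * q := Nat.le_mul_of_pos_left _ y1
    omega
  have hNR : (N : ℝ) ≤ ((C0 : ℝ) + 1) * 200 ^ 3 * (Y1 : ℝ) ^ 3 := by
    refine hsml.le.trans ?_
    have h1 : (Y : ℝ) ^ 3 ≤ (200 * (Y1 : ℝ)) ^ 3 := pow_le_pow_left₀ (by linarith) y3R 3
    calc ((C0 : ℝ) + 1) * (Y : ℝ) ^ 3 ≤ ((C0 : ℝ) + 1) * (200 * (Y1 : ℝ)) ^ 3 :=
          mul_le_mul_of_nonneg_left h1 (by linarith)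
      _ = ((C0 : ℝ) + 1) * 200 ^ 3 * (Y1 : ℝ) ^ 3 := by ring
  have hdiv : ∀ x : ℝ, 0 ≤ x → C * x ≤ Y → C1 * x ≤ Y1 := by
    intro x hx h
    have h1 : 200 * C1 * x ≤ C * x := mul_le_mul_of_nonneg_right hCC1 hx
    linarith
  -- the largest admissible `L`
  obtain ⟨L, hLdef⟩ : ∃ L : ℕ, L = Nat.findGreatest (fun l : ℕ => C * ((l : ℝ) + 1) ^ (1 + ε) ≤ Y) Y :=
    ⟨_, rfl⟩
  have hup : ∀ l : ℕ, C * ((l : ℝ) + 1) ^ (1 + ε) ≤ Y → l ≤ L := by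
    intro l hl
    rw [hLdef]
    refine Nat.le_findGreatest ?_ hl
    have h1 : (1 : ℝ) ≤ (l : ℝ) + 1 := by
      have : (0 : ℝ) ≤ l := Nat.cast_nonneg l
      linarith
    have h2 : (l : ℝ) + 1 ≤ ((l : ℝ) + 1) ^ (1 + ε) := by
      calc (l : ℝ) + 1 = ((l : ℝ) + 1) ^ (1 : ℝ) := (Real.rpow_one _).symm
        _ ≤ _ := Real.rpow_le_rpow_of_exponent_le h1 (by linarith)
    have h3 : (l : ℝ) ≤ Y := by nlinarith
    exact_mod_cast h3
  have hS := hL' L hup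
  have hLpos : 1 ≤ L := by
    rcases Nat.eq_zero_or_pos L with h0 | h0
    · exfalso
      have h1 : Sq (ms.filter fun m => m ≤ L) = 0 := by
        refine Sq_nil_of fun m hm => ?_
        rw [Multiset.mem_filter, h0] at hm
        omega
      rw [h1, Nat.mul_zero] at hS
      omega
    · exact h0
  have hPL : C * ((L : ℝ) + 1) ^ (1 + ε) ≤ Y :=
    Nat.findGreatest_of_ne_zero (P := fun l : ℕ => C * ((l : ℝ) + 1) ^ (1 + ε) ≤ Y) (n := Y)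
      hLdef.symm (by omega)
  have hL1 : (1 : ℝ) ≤ L := by exact_mod_cast hLpos
  have hL1' : (1 : ℝ) ≤ (L : ℝ) + 1 := by linarith
  have hL0' : (0 : ℝ) < (L : ℝ) + 1 := by linarith
  have hpos : (1 : ℝ) ≤ ((L : ℝ) + 1) ^ (1 + ε) := Real.one_le_rpow hL1' (by linarith)
  have hLcore : C1 * (L : ℝ) ^ (1 + 14 * g) ≤ Y1 := by
    refine hdiv _ (by positivity) (le_trans ?_ hPL)
    have h1 : (L : ℝ) ^ (1 + 14 * g) ≤ ((L : ℝ) + 1) ^ (1 + ε) := by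
      calc (L : ℝ) ^ (1 + 14 * g) ≤ ((L : ℝ) + 1) ^ (1 + 14 * g) :=
            Real.rpow_le_rpow (by linarith) (by linarith) (by linarith)
        _ ≤ _ := Real.rpow_le_rpow_of_exponent_le hL1' (by linarith)
    exact mul_le_mul_of_nonneg_left h1 (by linarith)
  have hLG : C2 * ((L : ℝ) + 1) ^ (1 + ε) ≤ Y := by
    refine le_trans ?_ hPL
    exact mul_le_mul_of_nonneg_right hCC2 (by linarith)
  have hLG2 : C2 * ((L : ℝ) + 1) ^ (2 + ε) ≤ N := by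
    have h1 : ((L : ℝ) + 1) ^ (2 + ε) ≤ (((L : ℝ) + 1) ^ (1 + ε)) ^ 2 := by
      rw [← Real.rpow_natCast (((L : ℝ) + 1) ^ (1 + ε)), ← Real.rpow_mul hL0'.le]
      refine Real.rpow_le_rpow_of_exponent_le hL1' ?_
      push_cast
      linarith
    have h2 : (C * ((L : ℝ) + 1) ^ (1 + ε)) ^ 2 ≤ (Y : ℝ) ^ 2 :=
      pow_le_pow_left₀ (by positivity) hPL 2
    have h3 : (Y : ℝ) ^ 2 ≤ N := by exact_mod_cast hYN
    have h4 : C2 ≤ C ^ 2 := by nlinarith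
    calc C2 * ((L : ℝ) + 1) ^ (2 + ε) ≤ C ^ 2 * (((L : ℝ) + 1) ^ (1 + ε)) ^ 2 :=
          mul_le_mul h4 h1 (by positivity) (by positivity)
      _ = (C * ((L : ℝ) + 1) ^ (1 + ε)) ^ 2 := by rw [mul_pow]
      _ ≤ (Y : ℝ) ^ 2 := h2
      _ ≤ N := h3
  -- drop the zeros
  obtain ⟨m0, hm0⟩ : ∃ m0 : Multiset ℕ, m0 = ms.filter fun m => 1 ≤ m := ⟨_, rfl⟩
  obtain ⟨z0, hz0⟩ : ∃ z0 : Multiset ℕ, z0 = ms.filter fun m => ¬ 1 ≤ m := ⟨_, rfl⟩
  have hmz : m0 + z0 = ms := by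
    rw [hm0, hz0]
    exact Multiset.filter_add_not _ _
  have hz0' : ∀ m ∈ z0, m = 0 := by
    intro m hm
    rw [hz0, Multiset.mem_filter] at hm
    omega
  have hcdm : cd m0 = cd ms := by
    rw [← hmz, cd_add, cd_nil_of hz0', Nat.add_zero]
  obtain ⟨S, hSdef⟩ : ∃ S : Multiset ℕ, S = m0.filter fun m => m ≤ L := ⟨_, rfl⟩
  obtain ⟨Q, hQdef⟩ : ∃ Q : Multiset ℕ, Q = m0.filter fun m => ¬ m ≤ L := ⟨_, rfl⟩
  have hSR : S + Q = m0 := by
    rw [hSdef, hQdef]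
    exact Multiset.filter_add_not _ _
  have hSqS : Sq (ms.filter fun m => m ≤ L) = Sq S := by
    rw [hSdef, ← hmz, Multiset.filter_add, Sq_add, Sq_nil_of (t := z0.filter fun m => m ≤ L) (by
      intro m hm
      exact hz0' m (Multiset.mem_of_mem_filter hm)), Nat.add_zero]
  rw [hSqS] at hS
  have hm0' : ∀ m ∈ m0, 1 ≤ m ∧ C1 * (m : ℝ) ≤ Y1 := by
    intro m hm
    rw [hm0, Multiset.mem_filter] at hm
    exact ⟨hm.2, hdiv _ (Nat.cast_nonneg m) (hms m hm.1)⟩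
  have hkk : ∀ m ∈ m0, kk m ≤ kk (Y / 100) := by
    intro m hm
    rw [hm0, Multiset.mem_filter] at hm
    refine kk_mono ?_
    have h1 := hms m hm.1
    have h2 : (100 : ℝ) * m ≤ Y := by
      have : (0 : ℝ) ≤ m := Nat.cast_nonneg m
      nlinarith
    have h3 : 100 * m ≤ Y := by exact_mod_cast h2
    omega
  obtain ⟨κ, hκ⟩ : ∃ κ, κ = kk (Y / 100) := ⟨_, rfl⟩
  rw [← hκ] at hkk
  have hK : 4 + 4 * κ ≤ 2 * N := by
    have h2 := two_mul_kk (Y / 100)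
    rw [← hκ] at h2
    obtain ⟨p, hp⟩ : ∃ p, p = Y / 100 := ⟨_, rfl⟩
    have hp1 : 100 * p ≤ Y := by omega
    rw [← hp] at h2
    have h3 : (100 * p) ^ 2 ≤ Y ^ 2 := Nat.pow_le_pow_left hp1 2
    have h4 : p ≤ p * p := Nat.le_mul_self p
    have h5 : (100 * p) ^ 2 = 10000 * (p * p) := by ring
    omega
  have hvv : ∀ T : Multiset ℕ, (d + 2).choose 2 ≤ cd (Bm b) + cd T → vv d (Bm b + T) ≤ 0 := by
    intro T hT
    rw [← cd_add] at hT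
    have : (((d + 2).choose 2 : ℕ) : ℝ) ≤ ((cd (Bm b + T) : ℕ) : ℝ) := by exact_mod_cast hT
    unfold vv
    linarith
  have h2b := two_cd_Bm b
  have htc := two_choose d
  have hexp : (d + 1) * (d + 2) = d ^ 2 + 3 * d + 2 := by ring
  rw [hexp] at htc
  have hSqcd : ∀ T : Multiset ℕ, cd (Bm b) + cd T ≤ (d + 2).choose 2 + κ → 2 * Sq T ≤ 5 * N := by
    intro T hT
    have := two_cd' T
    omega
  have hBc : cd (Bm b) ≤ (d + 2).choose 2 := by omega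
  rcases Nat.le_total (cd (Bm b) + cd ms) ((d + 2).choose 2) with hc | hc
  · -- add simple points
    obtain ⟨v, hv⟩ : ∃ v : ℕ, v = (d + 2).choose 2 - (cd (Bm b) + cd ms) := ⟨_, rfl⟩
    have hE : E d (Bm b + (m0 + Multiset.replicate v 1)) := by
      refine hcore d L Y1 N q b _ hBig hLpos hNR hLcore ?_ ?_ ?_ ?_
      · intro m hm
        rcases Multiset.mem_add.1 hm with h1 | h1
        · exact hm0' m h1
        · rw [Multiset.eq_of_mem_replicate h1]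
          refine ⟨le_refl _, hdiv _ (by simp) ?_⟩
          rw [Nat.cast_one, mul_one]
          exact hCY
      · refine hS.trans (Nat.mul_le_mul_left _ ?_)
        rw [Multiset.filter_add, Sq_add, ← hSdef]
        exact Nat.le_add_right _ _
      · refine hSqcd _ ?_
        rw [cd_add, cd_ones, hcdm]
        omega
      · refine hvv _ ?_
        rw [cd_add, cd_ones, hcdm]
        omega
    have hE2 : E d (Bm b + ms + Multiset.replicate v 1) := by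
      have h1 := hE.add z0
      have h2 : Bm b + (m0 + Multiset.replicate v 1) + z0 =
          Bm b + ms + Multiset.replicate v 1 := by
        rw [← hmz]; abel
      rwa [h2] at h1
    have h3 := good_of_E_ones hE2
    rw [card_tri] at h3 ⊢
    rw [Nat.min_eq_left hc]
    have he : (d + 2).choose 2 - v = cd (Bm b) + cd ms := by omega
    rwa [he] at h3
  · have hfin : ∀ T ≤ m0, E d (Bm b + T) →
        Good ℂ (tri d) (Bm b + ms) (min (cd (Bm b) + cd ms) (tri d).card) := by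
      intro T hT hE
      rw [Nat.min_eq_right (by rw [card_tri]; exact hc)]
      obtain ⟨t, ht⟩ := Multiset.le_iff_exists_add.1 hT
      have h1 := hE.add (t + z0)
      have h2 : Bm b + T + (t + z0) = Bm b + ms := by
        rw [← hmz, ht]
        abel
      rw [h2] at h1
      exact h1
    rcases Nat.le_total ((d + 2).choose 2) (cd (Bm b) + cd S) with hcS | hcS
    · -- the small ones suffice
      refine hfin S (by rw [hSdef]; exact Multiset.filter_le _ _) ?_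
      have h1 := hG d L Y N b S (fun m hm => by
        rw [hSdef, Multiset.mem_filter] at hm
        exact hm.2) hmin h3 hbY hN hLG hLG2
      rw [Nat.min_eq_right (by rw [card_tri]; exact hcS)] at h1
      exact h1
    · have hR : (d + 2).choose 2 - (cd (Bm b) + cd S) ≤ cd Q := by
        have h1 : cd S + cd Q = cd ms := by rw [← cd_add, hSR, hcdm]
        omega
      obtain ⟨gs, g1, g2, g3⟩ := pick (K := κ) Q _ (fun m hm =>
        hkk m (by rw [hQdef] at hm; exact Multiset.mem_of_mem_filter hm)) hR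
      have hle : S + gs ≤ m0 := by
        rw [← hSR]
        exact Multiset.add_le_add_left g1
      refine hfin (S + gs) hle ?_
      refine hcore d L Y1 N q b _ hBig hLpos hNR hLcore ?_ ?_ ?_ ?_
      · intro m hm
        exact hm0' m (Multiset.mem_of_le hle hm)
      · refine hS.trans (Nat.mul_le_mul_left _ ?_)
        rw [Multiset.filter_add, Sq_add]
        have h1 : S.filter (fun m => m ≤ L) = S := by
          rw [Multiset.filter_eq_self]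
          intro m hm
          rw [hSdef, Multiset.mem_filter] at hm
          exact hm.2
        rw [h1]
        exact Nat.le_add_right _ _
      · refine hSqcd _ ?_
        rw [cd_add]
        omega
      · refine hvv _ ?_
        rw [cd_add]
        omega

end Pool.Agent.SGN
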