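import Pool.Agent.SGN.FinB
import Pool.Agent.SGN.AllG

set_option autoImplicit false

/-!
# Module FinC: alternatives (A) and (B) of the final theorem (nine arbitrary points; port of SG/FinalC.lean)

First `b 8 ≤ b i` may be assumed (`perm_min` in AllG.lean, as in `exactAllG'`). `small` means
`C (m+1)^(1+ε) ≤ Y`, `big` the opposite.
(B): `exactGB` with `f = ⌈1/δ⌉₊`, `C ≥ C_B`: for `L` as there the elements `≤ L` contain the small ones
(`C_B (m+1)^(1+ε) ≤ C (m+1)^(1+ε) ≤ Y → m ≤ L`), so `N ≤ f δ N ≤ f Sq (ms.filter ≤ L)`.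
(A): `δ ≤ 1` (otherwise `Sq big < 0`). `f = ⌈8/δ⌉₊`, `L0 = ⌈8/δ⌉₊`, `M0 = ⌈(L0+1)^(1+ε)⌉₊`, `C ≥ C_B` (`exactGB` for
this `f`), `C ≥ (C0+1) (M0+1)^6` (`C0` from `exactMQ 0`).
 Case 1, `Y < C (L0+1)^(1+ε)`: all `m ≤ Y/C ≤ M0`: `exactMQ 0` with `M = M0` (`C0 (M0+1) ≤ C ≤ Y`,
 `C0 (M0+1)^6 ≤ C ≤ Y ≤ N²`).
 Case 2: every big element is `> L0` (`C (m+1)^(1+ε) > Y ≥ C (L0+1)^(1+ε)`), so `L0 Sm(big) ≤ Sq(big)`,
 `2 cd(big) = Sq + Sm ≤ (1+δ/8)(1-δ) N ≤ (1 - 7δ/8) N`. `2 C(d+2,2) - 2 cd (Bm b) = N + q + 2`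
 (`two_cd_Bm`, `two_choose`).
 If `cd (Bm b) + cd ms ≤ C(d+2,2)`: `ms' = ms + 1^v` with `cd (Bm b) + cd ms' = C(d+2,2)`; `1` is small
 (`C 2^(1+ε) ≤ C (L0+1)^(1+ε) ≤ Y`), so the small elements of `ms'` have
 `2 Sq ≥ 2 cd = N + q + 2 - 2 cd(big) ≥ 7δN/8`, `N ≤ f Sq(small)`: `exactGB` for `ms'`: `E d (Bm b + ms')`,
 `good_of_E_ones`. If `cd (Bm b) + cd ms > C(d+2,2)`: `2 Sq(small) ≥ 2 cd(small) ≥ N + q + 2 - 2 cd(big) ≥ 7δN/8`:
 `exactGB` for `ms`.
-/

namespace Pool.Agent.SGN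

open MvPolynomial Pool.Agent.helper5.NBS Pool.Agent.helper89.Segre Pool.Agent.SH9
open Pool.Agent.helper25.ST Pool.Agent.helper25.SXN Pool.Agent.helper25.SXQ Pool.Agent.SG

private lemma Sq_le_of_le {s s' : Multiset ℕ} (h : s ≤ s') : Sq s ≤ Sq s' := by
  obtain ⟨t, rfl⟩ := Multiset.le_iff_exists_add.mp h
  rw [Sq_add]
  exact Nat.le_add_right _ _

/-- large elements have a small sum -/
private lemma Sm_le_mul_Sq {δ : ℝ} {a : Multiset ℕ} (h : ∀ m ∈ a, 8 ≤ δ * (m : ℝ)) :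
    8 * ((Sm a : ℕ) : ℝ) ≤ δ * ((Sq a : ℕ) : ℝ) := by
  induction a using Multiset.induction_on with
  | empty => simp [Sq, Sm]
  | cons m a ih =>
    have h1 := ih (fun μ hμ => h μ (Multiset.mem_cons_of_mem hμ))
    have h2 := h m (Multiset.mem_cons_self _ _)
    rw [Sm_cons, Sq_cons]
    push_cast
    have h3 : (0 : ℝ) ≤ m := Nat.cast_nonneg m
    nlinarith

/-- the numerical part of alternative (A) -/
private lemma numA {δ f N S Q M : ℝ} (hδ : 0 < δ) (hf : 8 ≤ δ * f) (hf0 : 0 ≤ f)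
    (hN : 0 ≤ N) (hA : Q ≤ (1 - δ) * N) (hM : 8 * M ≤ δ * Q) (h : N ≤ 2 * S + (Q + M)) :
    N ≤ f * S := by
  have h1 : δ * Q ≤ δ * ((1 - δ) * N) := mul_le_mul_of_nonneg_left hA hδ.le
  have h2 : 0 ≤ δ * N := by positivity
  have h3 : 0 ≤ δ * (δ * N) := by positivity
  have h4 : 7 * (δ * N) ≤ 16 * S := by nlinarith
  have h5 : f * (7 * (δ * N)) ≤ f * (16 * S) := mul_le_mul_of_nonneg_left h4 hf0
  have h6 : 8 * N ≤ (δ * f) * N := mul_le_mul_of_nonneg_right hf hN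
  nlinarith

/-- the numerical part of case 1 of alternative (A) -/
private lemma numC {C0 M Y N : ℕ} (h : (C0 + 1) * (M + 1) ^ 6 ≤ Y) (hN : Y ^ 2 ≤ N) :
    C0 * (M + 1) ≤ Y ∧ C0 * (M + 1) ^ (5 * 9 ^ 0 + 1) ≤ N ^ (2 * 9 ^ 0) := by
  have h1 : 1 ≤ (M + 1) ^ 5 := Nat.one_le_pow _ _ (Nat.succ_pos _)
  have h2 : (M + 1) ^ 6 = (M + 1) * (M + 1) ^ 5 := by ring
  have h3 : M + 1 ≤ (M + 1) ^ 6 := by
    rw [h2]
    exact Nat.le_mul_of_pos_right _ h1
  have h4 : C0 * (M + 1) ^ 6 ≤ (C0 + 1) * (M + 1) ^ 6 := Nat.mul_le_mul_right _ (Nat.le_succ _)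
  refine ⟨(Nat.mul_le_mul_left _ h3).trans (h4.trans h), ?_⟩
  have e1 : 5 * 9 ^ 0 + 1 = 6 := by norm_num
  have e2 : 2 * 9 ^ 0 = 2 := by norm_num
  rw [e1, e2]
  have h5 : Y ≤ Y ^ 2 := Nat.le_self_pow (by norm_num) _
  have h6 : N ≤ N ^ 2 := Nat.le_self_pow (by norm_num) _
  exact h4.trans (h.trans (h5.trans (hN.trans h6)))

/-- counting: the conditions imposed by the small elements -/
private lemma numK {D N q S2 S1 c B Qs Qb Mb cs cb v : ℕ} (hB : 2 * B = S2 + S1)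
    (ht : 2 * c = D ^ 2 + 3 * D + 2) (hN : S2 + N = D ^ 2) (hq : S1 + q = 3 * D)
    (hv : c ≤ B + (cs + cb) + v) (hb : 2 * cb = Qb + Mb) (hs : 2 * (cs + v) ≤ 2 * Qs) :
    N ≤ 2 * Qs + (Qb + Mb) := by
  omega

/-- the multiset form, the last weight is the smallest -/
private theorem altC (ε δ : ℝ) (hε : 0 < ε) (hδ : 0 < δ) (hδ1 : δ ≤ 1) : ∃ C : ℝ, 1 ≤ C ∧
    ∀ (d Y N : ℕ) (b : Fin 9 → ℕ) (ms : Multiset ℕ), (∀ i, b 8 ≤ b i) →
    (∀ i j k, i ≠ j → j ≠ k → i ≠ k → b i + b j + b k ≤ d) → (∀ i, i ≠ 8 → b i + Y ≤ d) →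
    ∑ i, b i ^ 2 + N = d ^ 2 → Y ^ 2 ≤ N → C ≤ Y → (∀ m ∈ ms, C * (m : ℝ) ≤ Y) →
    ((Sq (ms.filter fun m => ¬ C * ((m : ℝ) + 1) ^ (1 + ε) ≤ Y) : ℝ) ≤ (1 - δ) * N ∨
      δ * N ≤ (Sq (ms.filter fun m => C * ((m : ℝ) + 1) ^ (1 + ε) ≤ Y) : ℝ)) →
    Good ℂ (tri d) (Bm b + ms) (min (cd (Bm b) + cd ms) (tri d).card) := by
  classical
  obtain ⟨f, hf⟩ : ∃ f : ℕ, f = ⌈8 / δ⌉₊ := ⟨_, rfl⟩
  have hfδ : 8 ≤ δ * (f : ℝ) := by
    have h1 : 8 / δ ≤ (f : ℝ) := by rw [hf]; exact Nat.le_ceil _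
    rw [div_le_iff₀ hδ] at h1
    linarith
  obtain ⟨CB, hCB, hB⟩ := exactGB ε hε f
  obtain ⟨C0, hC0⟩ := exactMQ 0
  have hL08 : (8 : ℝ) ≤ f := by
    have : (0 : ℝ) ≤ f := Nat.cast_nonneg _
    nlinarith
  obtain ⟨M0, hM0⟩ : ∃ M0 : ℕ, M0 = ⌈((f : ℝ) + 1) ^ (1 + ε)⌉₊ := ⟨_, rfl⟩
  have hM0r : ((f : ℝ) + 1) ^ (1 + ε) ≤ (M0 : ℝ) := by rw [hM0]; exact Nat.le_ceil _
  have hp1 : (2 : ℝ) ^ (1 + ε) ≤ ((f : ℝ) + 1) ^ (1 + ε) :=
    Real.rpow_le_rpow (by norm_num) (by linarith) (by linarith)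
  have hp2 : (1 : ℝ) ≤ (2 : ℝ) ^ (1 + ε) := Real.one_le_rpow (by norm_num) (by linarith)
  obtain ⟨K, hK⟩ : ∃ K : ℕ, K = (C0 + 1) * (M0 + 1) ^ 6 := ⟨_, rfl⟩
  have hK0 : (0 : ℝ) ≤ (K : ℝ) := Nat.cast_nonneg _
  refine ⟨CB + K, by linarith, ?_⟩
  intro d Y N b ms hmin h3 h2 hN hYN hCY hms hAB
  obtain ⟨C, hCe⟩ : ∃ C : ℝ, C = CB + K := ⟨_, rfl⟩
  rw [← hCe] at hCY hms hAB
  have hCCB : CB ≤ C := by linarith
  have hCK : (K : ℝ) ≤ C := by linarith
  have hCpos : 0 < C := by linarith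
  clear hCe
  have hCBY : CB ≤ Y := hCCB.trans hCY
  have hN0 : (0 : ℝ) ≤ N := Nat.cast_nonneg N
  have hf0 : (0 : ℝ) ≤ f := Nat.cast_nonneg _
  have hmsB : ∀ m ∈ ms, CB * (m : ℝ) ≤ Y := by
    intro m hm
    exact (mul_le_mul_of_nonneg_right hCCB (Nat.cast_nonneg m)).trans (hms m hm)
  -- small elements are admissible
  have hsm : ∀ L : ℕ, (∀ l : ℕ, CB * ((l : ℝ) + 1) ^ (1 + ε) ≤ Y → l ≤ L) → ∀ m : ℕ,
      C * ((m : ℝ) + 1) ^ (1 + ε) ≤ Y → m ≤ L := by
    intro L hL m hm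
    refine hL m (le_trans (mul_le_mul_of_nonneg_right hCCB ?_) hm)
    positivity
  rcases hAB with hA | hBB
  · rcases lt_or_ge (Y : ℝ) (C * ((f : ℝ) + 1) ^ (1 + ε)) with hlt | hge
    · -- bounded multiplicities
      have hmM : ∀ m ∈ ms, m ≤ M0 := by
        intro m hm
        have h1 := hms m hm
        have h2 : C * (m : ℝ) < C * ((f : ℝ) + 1) ^ (1 + ε) := lt_of_le_of_lt h1 hlt
        have h3 : (m : ℝ) < ((f : ℝ) + 1) ^ (1 + ε) := lt_of_mul_lt_mul_left h2 hCpos.le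
        have h4 : (m : ℝ) < M0 := lt_of_lt_of_le h3 hM0r
        exact_mod_cast h4.le
      have hKY : (C0 + 1) * (M0 + 1) ^ 6 ≤ Y := by
        rw [← hK]
        exact_mod_cast hCK.trans hCY
      obtain ⟨n1, n2⟩ := numC hKY hYN
      exact hC0 d M0 Y N b ms hmM hmin h3 h2 hN n1 n2
    · -- big elements are larger than `f`
      have hbig : ∀ m ∈ ms.filter (fun m : ℕ => ¬ C * ((m : ℝ) + 1) ^ (1 + ε) ≤ Y),
          8 ≤ δ * (m : ℝ) := by
        intro m hm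
        have h1 := (Multiset.mem_filter.mp hm).2
        push Not at h1
        have h2 : C * ((f : ℝ) + 1) ^ (1 + ε) < C * ((m : ℝ) + 1) ^ (1 + ε) :=
          lt_of_le_of_lt hge h1
        have h3 : ((f : ℝ) + 1) ^ (1 + ε) < ((m : ℝ) + 1) ^ (1 + ε) :=
          lt_of_mul_lt_mul_left h2 hCpos.le
        have h4 : (f : ℝ) < m := by
          by_contra hcon
          push Not at hcon
          have := Real.rpow_le_rpow (z := 1 + ε) (add_nonneg (Nat.cast_nonneg m) zero_le_one)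
            (by linarith : (m : ℝ) + 1 ≤ (f : ℝ) + 1) (by linarith)
          linarith
        have h5 : δ * (f : ℝ) ≤ δ * (m : ℝ) := mul_le_mul_of_nonneg_left h4.le hδ.le
        linarith
      have hdB : CB * (2 : ℝ) ^ (1 + ε) ≤ Y := by
        refine le_trans ?_ hge
        exact mul_le_mul hCCB hp1 (by linarith) hCpos.le
      have hSmb := Sm_le_mul_Sq hbig
      obtain ⟨hs3, -⟩ := std_three h3
      obtain ⟨q, hq⟩ : ∃ q, ∑ i, b i + q = 3 * d := ⟨3 * d - ∑ i, b i, by omega⟩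
      have hBm := two_cd_Bm b
      have htr : 2 * (tri d).card = d ^ 2 + 3 * d + 2 := by
        rw [card_tri, two_choose]
        ring
      -- the key estimate for a system with at least the expected number of conditions
      have key : ∀ v : ℕ, (tri d).card ≤ cd (Bm b) + cd ms + v →
          Good ℂ (tri d) (Bm b + (ms + Multiset.replicate v 1))
            (min (cd (Bm b) + cd (ms + Multiset.replicate v 1)) (tri d).card) := by
        intro v hv
        refine hB d Y N b _ hmin h3 h2 hN hYN hCBY ?_ ?_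
        · intro m hm
          rcases Multiset.mem_add.1 hm with h1 | h1
          · exact hmsB m h1
          · rw [Multiset.eq_of_mem_replicate h1, Nat.cast_one, mul_one]
            exact hCBY
        · intro L hL
          have hL1 : 1 ≤ L := hL 1 (by
            have e1 : ((1 : ℕ) : ℝ) + 1 = 2 := by norm_num
            rw [e1]
            exact hdB)
          obtain ⟨bg, hbg⟩ : ∃ bg : Multiset ℕ,
              bg = ms.filter (fun m : ℕ => ¬ C * ((m : ℝ) + 1) ^ (1 + ε) ≤ Y) := ⟨_, rfl⟩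
          obtain ⟨sm, hsmd⟩ : ∃ sm : Multiset ℕ,
              sm = ms.filter (fun m : ℕ => C * ((m : ℝ) + 1) ^ (1 + ε) ≤ Y) := ⟨_, rfl⟩
          have hsum : sm + bg = ms := by
            rw [hbg, hsmd]
            exact Multiset.filter_add_not _ _
          rw [← hbg] at hA hSmb
          have hle : sm + Multiset.replicate v 1 ≤
              (ms + Multiset.replicate v 1).filter fun m => m ≤ L := by
            rw [Multiset.filter_add]
            refine add_le_add ?_ ?_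
            · rw [Multiset.le_filter, hsmd]
              refine ⟨Multiset.filter_le _ _, ?_⟩
              intro m hm
              exact hsm L hL m (Multiset.mem_filter.mp hm).2
            · rw [Multiset.le_filter]
              refine ⟨le_refl _, ?_⟩
              intro m hm
              rw [Multiset.eq_of_mem_replicate hm]
              exact hL1
          have g1 := Sq_le_of_le hle
          have g2 := two_cd' (sm + Multiset.replicate v 1)
          have g3 := Sm_le_Sq (sm + Multiset.replicate v 1)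
          have g4 := two_cd' bg
          have g5 : cd ms = cd sm + cd bg := by rw [← cd_add, hsum]
          have g6 : cd (sm + Multiset.replicate v 1) = cd sm + v := by rw [cd_add, cd_ones]
          rw [g6] at g2
          rw [g5] at hv
          have g7 : 2 * (cd sm + v) ≤ 2 * Sq (sm + Multiset.replicate v 1) := by
            clear hB hC0 hBm htr hN hq hs3
            omega
          have g8 := numK hBm htr hN hq hv g4 g7
          have g9 : (N : ℝ) ≤ 2 * ((Sq (sm + Multiset.replicate v 1) : ℕ) : ℝ) +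
                (((Sq bg : ℕ) : ℝ) + ((Sm bg : ℕ) : ℝ)) := by
            exact_mod_cast g8
          have g10 := numA hδ hfδ hf0 hN0 hA hSmb g9
          have g11 : N ≤ f * Sq (sm + Multiset.replicate v 1) := by exact_mod_cast g10
          exact g11.trans (Nat.mul_le_mul_left _ g1)
      rcases Nat.le_total (cd (Bm b) + cd ms) (tri d).card with hc | hc
      · obtain ⟨v, hv⟩ := Nat.exists_eq_add_of_le hc
        have h1 := key v hv.le
        have e1 : min (cd (Bm b) + cd (ms + Multiset.replicate v 1)) (tri d).card =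
            (tri d).card := by
          rw [cd_add, cd_ones]
          apply Nat.min_eq_right
          rw [← add_assoc]
          exact hv.le
        rw [e1, ← add_assoc] at h1
        have hE : E d (Bm b + ms + Multiset.replicate v 1) := h1
        have hG := good_of_E_ones hE
        rw [Nat.min_eq_left hc]
        have he : (tri d).card - v = cd (Bm b) + cd ms := by
          rw [hv, Nat.add_sub_cancel]
        rwa [he] at hG
      · have h1 := key 0 (by rw [add_zero]; exact hc)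
        rwa [Multiset.replicate_zero, add_zero] at h1
  · -- alternative (B)
    refine hB d Y N b ms hmin h3 h2 hN hYN hCBY hmsB ?_
    intro L hL
    have hle : ms.filter (fun m : ℕ => C * ((m : ℝ) + 1) ^ (1 + ε) ≤ Y) ≤
        ms.filter fun m => m ≤ L := by
      rw [Multiset.le_filter]
      refine ⟨Multiset.filter_le _ _, ?_⟩
      intro m hm
      exact hsm L hL m (Multiset.mem_filter.mp hm).2
    have h1 := Sq_le_of_le hle
    have h2 : (N : ℝ) ≤ (f : ℝ) *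
        ((Sq (ms.filter fun m : ℕ => C * ((m : ℝ) + 1) ^ (1 + ε) ≤ Y) : ℕ) : ℝ) := by
      have h16 := mul_le_mul_of_nonneg_left hBB hf0
      have h17 : (8 : ℝ) * (N : ℝ) ≤ (δ * (f : ℝ)) * (N : ℝ) :=
        mul_le_mul_of_nonneg_right hfδ hN0
      nlinarith
    have h3 : N ≤ f * Sq (ms.filter fun m : ℕ => C * ((m : ℝ) + 1) ^ (1 + ε) ≤ Y) := by
      exact_mod_cast h2
    exact h3.trans (Nat.mul_le_mul_left _ h1)

theorem altAB (ε δ : ℝ) (hε : 0 < ε) (hδ : 0 < δ) : ∃ C : ℝ, 1 ≤ C ∧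
    ∀ (d Y N : ℕ) (b : Fin 9 → ℕ) (ms : Multiset ℕ),
    (∀ i j k, i ≠ j → j ≠ k → i ≠ k → b i + b j + b k ≤ d) → (∀ i, b i + Y ≤ d) →
    ∑ i, b i ^ 2 + N = d ^ 2 → Y ^ 2 ≤ N → C ≤ Y → (∀ m ∈ ms, C * (m : ℝ) ≤ Y) →
    ((Sq (ms.filter fun m => ¬ C * ((m : ℝ) + 1) ^ (1 + ε) ≤ Y) : ℝ) ≤ (1 - δ) * N ∨
      δ * N ≤ (Sq (ms.filter fun m => C * ((m : ℝ) + 1) ^ (1 + ε) ≤ Y) : ℝ)) →
    Good ℂ (tri d) (Bm b + ms) (min (cd (Bm b) + cd ms) (tri d).card) := by
  obtain ⟨C, hC1, hC⟩ := altC ε (min δ 1) hε (lt_min hδ one_pos) (min_le_right _ _)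
  refine ⟨C, hC1, fun d Y N b ms h3 h2 hN hYN hCY hms hAB => ?_⟩
  obtain ⟨σ, hσ, hB⟩ := perm_min b
  have hmin : min δ 1 ≤ δ := min_le_left _ _
  have hN0 : (0 : ℝ) ≤ N := Nat.cast_nonneg N
  have hG := hC d Y N (fun i => b (σ i)) ms (fun i => hσ _)
    (fun i j k hij hjk hik => h3 _ _ _ (fun h => hij (σ.injective h))
      (fun h => hjk (σ.injective h)) (fun h => hik (σ.injective h)))
    (fun i _ => h2 _)
    (by rw [Equiv.sum_comp σ (fun i => b i ^ 2)]; exact hN) hYN hCY hms (by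
      rcases hAB with hA | hBB
      · exact Or.inl (hA.trans (mul_le_mul_of_nonneg_right (by linarith) hN0))
      · exact Or.inr ((mul_le_mul_of_nonneg_right hmin hN0).trans hBB))
  rwa [hB] at hG

end Pool.Agent.SGN
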