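import Pool.Agent.SGN.ExactBB
import Pool.Agent.SG.LogE
import Pool.Agent.helper25.SXQ.AllB

set_option autoImplicit false

/-!
# Module FinM: standard systems (`exactMG`)

`g = 1/(2j+3)`, `16 g ≤ ε`. If `N ≥ C' (M+1)^3`: `exactMQ 0` (SXQ/FinM.lean). Otherwise `log (N+3)^6 ≤ K (M+1)^(3g)`,
`Y1 = ⌈A0 log(N+3)^6 (M+1)^(1+5g)⌉ ≤ Y/100`, `2 Y1² ≤ N`; `Big d Y1 N q b`: `std_posQ`, `std_NQ` (SXQ/StdQ.lean).
Zeros are dropped; if `cd (Bm b) + cd ms ≤ C(d+2,2)` add `v` simple points, `exactBB` (`bg = 0`, `L = M + 1`, `f = 2`),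
`good_of_E_ones`; otherwise `exists_sub`, `exactBB`, `E.add`.
-/

namespace Pool.Agent.SGN

open MvPolynomial Pool.Agent.helper5.NBS Pool.Agent.helper89.Segre Pool.Agent.SH9
open Pool.Agent.helper25.ST Pool.Agent.helper25.SXN Pool.Agent.helper25.SXQ Pool.Agent.SG

/-- the choice of the margin `Y1` -/
private lemma numY (ε g A R : ℝ) (hg : 0 < g) (hgε : 16 * g ≤ ε) (hA : 1 ≤ A) (hR : 1 ≤ R) :
    ∃ C : ℝ, 1 ≤ C ∧ ∀ M N Y : ℕ, C * ((M : ℝ) + 1) ^ (1 + ε) ≤ Y →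
      C * ((M : ℝ) + 1) ^ (2 + ε) ≤ N → (N : ℝ) ≤ R * ((M : ℝ) + 1) ^ 3 →
      ∃ Y1 : ℕ, 1 ≤ Y1 ∧ A * Real.log ((N : ℝ) + 3) ^ 6 * ((M : ℝ) + 1) ^ (1 + 5 * g) ≤ Y1 ∧
        100 * Y1 ≤ Y ∧ 2 * Y1 ^ 2 ≤ N ∧ 100 * (M + 1) ^ 2 ≤ N := by
  obtain ⟨K, hK, hlog⟩ := logE_pow_le g 6 hg
  obtain ⟨B, hB⟩ : ∃ B : ℝ, B = A * K * R ^ g := ⟨_, rfl⟩
  have hRg : 0 < R ^ g := Real.rpow_pos_of_pos (by linarith) g
  have hB0 : 0 < B := by rw [hB]; positivity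
  refine ⟨100 * (B + 1) + 2 * (B + 1) ^ 2 + 100, by nlinarith, fun M N Y hY hN hNR => ?_⟩
  obtain ⟨x, hx⟩ : ∃ x : ℝ, x = (M : ℝ) + 1 := ⟨_, rfl⟩
  have hx1 : 1 ≤ x := by
    rw [hx]
    have := Nat.cast_nonneg (α := ℝ) M
    linarith
  have hx0 : 0 < x := by linarith
  rw [← hx] at hY hN hNR ⊢
  obtain ⟨C, hC⟩ : ∃ C : ℝ, C = 100 * (B + 1) + 2 * (B + 1) ^ 2 + 100 := ⟨_, rfl⟩
  rw [← hC] at hY hN
  have hBB : 0 ≤ (B + 1) ^ 2 := sq_nonneg _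
  have hC1 : 100 * (B + 1) ≤ C := by linarith
  have hC2 : 2 * (B + 1) ^ 2 ≤ C := by linarith
  have hC3 : 100 ≤ C := by linarith
  have p1 : x ^ (1 + 8 * g) ≤ x ^ (1 + ε) := Real.rpow_le_rpow_of_exponent_le hx1 (by linarith)
  have p2 : x ^ (2 + 16 * g) ≤ x ^ (2 + ε) := Real.rpow_le_rpow_of_exponent_le hx1 (by linarith)
  have p3 : 1 ≤ x ^ (1 + 8 * g) := Real.one_le_rpow hx1 (by linarith)
  have p4 : (x ^ (1 + 8 * g)) ^ 2 = x ^ (2 + 16 * g) := by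
    rw [← Real.rpow_natCast (x ^ (1 + 8 * g)), ← Real.rpow_mul hx0.le]
    congr 1
    push_cast
    ring
  have p5 : x ^ 2 ≤ x ^ (2 + ε) := by
    rw [← Real.rpow_natCast x 2]
    exact Real.rpow_le_rpow_of_exponent_le hx1 (by push_cast; linarith)
  have p6 : 1 ≤ x ^ (2 + ε) := Real.one_le_rpow hx1 (by linarith)
  have hN1 : (1 : ℝ) ≤ N := by
    refine le_trans ?_ hN
    nlinarith
  -- the logarithm
  have hl : Real.log ((N : ℝ) + 3) ^ 6 ≤ K * R ^ g * x ^ (3 * g) := by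
    refine (hlog N hN1).trans ?_
    have h1 : (N : ℝ) ^ g ≤ (R * x ^ 3) ^ g := Real.rpow_le_rpow (by linarith) hNR hg.le
    have h2 : (R * x ^ 3) ^ g = R ^ g * x ^ (3 * g) := by
      rw [Real.mul_rpow (by linarith) (by positivity), ← Real.rpow_natCast x 3,
        ← Real.rpow_mul hx0.le]
      norm_num
    rw [h2] at h1
    calc K * (N : ℝ) ^ g ≤ K * (R ^ g * x ^ (3 * g)) := mul_le_mul_of_nonneg_left h1 hK.le
      _ = K * R ^ g * x ^ (3 * g) := by ring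
  have hl0 : 0 < Real.log ((N : ℝ) + 3) := Real.log_pos (by linarith)
  obtain ⟨Z, hZ⟩ : ∃ Z : ℝ, Z = A * Real.log ((N : ℝ) + 3) ^ 6 * x ^ (1 + 5 * g) := ⟨_, rfl⟩
  have hZ0 : 0 < Z := by
    rw [hZ]
    have : 0 < x ^ (1 + 5 * g) := Real.rpow_pos_of_pos hx0 _
    have hA0 : 0 < A := by linarith
    positivity
  have hZB : Z ≤ B * x ^ (1 + 8 * g) := by
    have h1 : x ^ (1 + 8 * g) = x ^ (3 * g) * x ^ (1 + 5 * g) := by
      rw [← Real.rpow_add hx0]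
      congr 1
      ring
    have h2 : 0 ≤ x ^ (1 + 5 * g) := Real.rpow_nonneg hx0.le _
    have h3 : A * Real.log ((N : ℝ) + 3) ^ 6 ≤ A * (K * R ^ g * x ^ (3 * g)) :=
      mul_le_mul_of_nonneg_left hl (by linarith)
    calc Z = A * Real.log ((N : ℝ) + 3) ^ 6 * x ^ (1 + 5 * g) := hZ
      _ ≤ A * (K * R ^ g * x ^ (3 * g)) * x ^ (1 + 5 * g) := mul_le_mul_of_nonneg_right h3 h2
      _ = B * x ^ (1 + 8 * g) := by rw [hB, h1]; ring
  rw [← hZ]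
  have hc1 : Z ≤ (⌈Z⌉₊ : ℝ) := Nat.le_ceil Z
  have hc2 : (⌈Z⌉₊ : ℝ) < Z + 1 := Nat.ceil_lt_add_one hZ0.le
  have hc3 : (⌈Z⌉₊ : ℝ) ≤ (B + 1) * x ^ (1 + 8 * g) := by nlinarith
  have hc0 : (0 : ℝ) ≤ (⌈Z⌉₊ : ℝ) := Nat.cast_nonneg _
  refine ⟨⌈Z⌉₊, Nat.ceil_pos.mpr hZ0, hc1, ?_, ?_, ?_⟩
  · have h1 : (100 : ℝ) * (⌈Z⌉₊ : ℝ) ≤ Y := by
      calc (100 : ℝ) * (⌈Z⌉₊ : ℝ) ≤ 100 * ((B + 1) * x ^ (1 + 8 * g)) := by linarith
        _ = 100 * (B + 1) * x ^ (1 + 8 * g) := by ring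
        _ ≤ C * x ^ (1 + ε) := mul_le_mul hC1 p1 (by linarith) (by linarith)
        _ ≤ Y := hY
    exact_mod_cast h1
  · have h1 : (2 : ℝ) * (⌈Z⌉₊ : ℝ) ^ 2 ≤ N := by
      calc (2 : ℝ) * (⌈Z⌉₊ : ℝ) ^ 2 ≤ 2 * ((B + 1) * x ^ (1 + 8 * g)) ^ 2 := by
            have := pow_le_pow_left₀ hc0 hc3 2
            linarith
        _ = 2 * (B + 1) ^ 2 * x ^ (2 + 16 * g) := by rw [mul_pow, p4]; ring
        _ ≤ C * x ^ (2 + ε) := mul_le_mul hC2 p2 (Real.rpow_nonneg hx0.le _) (by linarith)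
        _ ≤ N := hN
    exact_mod_cast h1
  · have h1 : (100 : ℝ) * ((M : ℝ) + 1) ^ 2 ≤ N := by
      rw [← hx]
      calc (100 : ℝ) * x ^ 2 ≤ C * x ^ (2 + ε) :=
            mul_le_mul hC3 p5 (by positivity) (by linarith)
        _ ≤ N := hN
    exact_mod_cast h1

/-- critical systems with `N ≤ R (M+1)^3` are empty -/
private theorem critB (ε R : ℝ) (hε : 0 < ε) (hR : 1 ≤ R) : ∃ C : ℝ, 1 ≤ C ∧
    ∀ (d M Y N : ℕ) (b : Fin 9 → ℕ) (ms : Multiset ℕ), (∀ m ∈ ms, 1 ≤ m ∧ m ≤ M + 1) →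
    (∀ i, b 8 ≤ b i) → (∀ i j k, i ≠ j → j ≠ k → i ≠ k → b i + b j + b k ≤ d) →
    (∀ i, i ≠ 8 → b i + Y ≤ d) → ∑ i, b i ^ 2 + N = d ^ 2 → C * ((M : ℝ) + 1) ^ (1 + ε) ≤ Y →
    C * ((M : ℝ) + 1) ^ (2 + ε) ≤ N → (N : ℝ) ≤ R * ((M : ℝ) + 1) ^ 3 →
    (d + 2).choose 2 ≤ cd (Bm b) + cd ms → cd (Bm b) + cd ms ≤ (d + 2).choose 2 + (M + 1) ^ 2 →
    E d (Bm b + ms) := by
  obtain ⟨j, hj⟩ := exists_nat_gt (16 / ε)
  have hjp : (0 : ℝ) < 2 * (j : ℝ) + 3 := by positivity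
  obtain ⟨g, hg⟩ : ∃ g : ℝ, g = 1 / (2 * (j : ℝ) + 3) := ⟨_, rfl⟩
  have hg0 : 0 < g := by rw [hg]; positivity
  have hgε : 16 * g ≤ ε := by
    have h1 : 16 * g = 16 / (2 * (j : ℝ) + 3) := by rw [hg]; ring
    rw [h1, div_le_iff₀ hjp]
    have h2 : 16 < (j : ℝ) * ε := by rwa [div_lt_iff₀ hε] at hj
    nlinarith
  obtain ⟨A, hA1, hA⟩ := exactBB j 2
  obtain ⟨C, hC1, hC⟩ := numY ε g A R hg0 hgε hA1 hR
  refine ⟨C, hC1, fun d M Y N b ms hms hmin h3 hbY hN hY hNC hNR hlo hhi => ?_⟩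
  obtain ⟨Y1, y1, y2, y3, y4, y5⟩ := hC M N Y hY hNC hNR
  obtain ⟨h3d, -⟩ := std_three h3
  obtain ⟨q, hq⟩ : ∃ q, ∑ i, b i + q = 3 * d := ⟨3 * d - ∑ i, b i, by omega⟩
  have hqY := std_NQ hmin h3 hbY hN hq
  have hqY1 : 2 * (Y1 * q) ≤ N := by
    have h4 : 100 * (q * Y1) ≤ q * Y := by
      calc 100 * (q * Y1) = q * (100 * Y1) := by ring
        _ ≤ q * Y := Nat.mul_le_mul_left _ y3
    have h5 : Y1 * q = q * Y1 := mul_comm _ _
    omega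
  have hP : Pos d Y1 b := std_posQ hmin h3 (fun i hi => by
    have := hbY i hi
    omega) hN y4
  have hBig : Big d Y1 N q b := ⟨hP, hN, hq, y1, hqY1, y4⟩
  have hqN : 2 * q ≤ N := by
    have : q ≤ Y1 * q := Nat.le_mul_of_pos_left _ y1
    omega
  have h2cd := two_cd' ms
  have h2b := two_cd_Bm b
  have hSS := Sm_le_Sq ms
  have htc := two_choose d
  have hexp : (d + 1) * (d + 2) = d ^ 2 + 3 * d + 2 := by ring
  rw [hexp] at htc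
  have hfil : (ms.filter fun m => m ≤ M + 1) = ms :=
    Multiset.filter_eq_self.mpr fun m hm => (hms m hm).2
  have hMM : 1 ≤ (M + 1) ^ 2 := Nat.one_le_pow _ _ (by omega)
  have e1 : Sq ms + Sm ms ≤ N + q + 2 + 2 * (M + 1) ^ 2 := by omega
  have e2 : N ≤ Sq ms + Sm ms := by omega
  have h := hA d (M + 1) (M + 1) Y1 N q b ms 0 (by omega) le_rfl hBig hms (by simp)
    (by rw [hfil]; omega) (by rw [add_zero]; omega) (by
      have h1 : 5 / (2 * (j : ℝ) + 3) = 5 * g := by rw [hg]; ring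
      rw [h1]
      push_cast
      exact y2) (by simp [Sm]) (by
      rw [add_zero]
      unfold vv
      have h1 : (((d + 2).choose 2 : ℕ) : ℝ) ≤ ((cd (Bm b + ms) : ℕ) : ℝ) := by
        rw [cd_add]
        exact_mod_cast hlo
      linarith)
  rwa [add_zero] at h

theorem exactMG (ε : ℝ) (hε : 0 < ε) : ∃ C : ℝ, 1 ≤ C ∧
    ∀ (d M Y N : ℕ) (b : Fin 9 → ℕ) (ms : Multiset ℕ), (∀ μ ∈ ms, μ ≤ M) → (∀ i, b 8 ≤ b i) →
    (∀ i j k, i ≠ j → j ≠ k → i ≠ k → b i + b j + b k ≤ d) → (∀ i, i ≠ 8 → b i + Y ≤ d) →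
    ∑ i, b i ^ 2 + N = d ^ 2 → C * ((M : ℝ) + 1) ^ (1 + ε) ≤ Y → C * ((M : ℝ) + 1) ^ (2 + ε) ≤ N →
    Good ℂ (tri d) (Bm b + ms) (min (cd (Bm b) + cd ms) (tri d).card) := by
  obtain ⟨C0, hC0⟩ := exactMQ 0
  obtain ⟨C1, hC11, hC1⟩ := critB ε ((C0 : ℝ) + 1) hε (by
    have := Nat.cast_nonneg (α := ℝ) C0
    linarith)
  refine ⟨C0 + C1, by
    have := Nat.cast_nonneg (α := ℝ) C0
    linarith, fun d M Y N b ms hms hmin h3 hbY hN hY hNC => ?_⟩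
  have hC0p := Nat.cast_nonneg (α := ℝ) C0
  have hM1 : (1 : ℝ) ≤ (M : ℝ) + 1 := by
    have := Nat.cast_nonneg (α := ℝ) M
    linarith
  have hM0 : (0 : ℝ) ≤ (M : ℝ) + 1 := by linarith
  have hP1 : (0 : ℝ) ≤ ((M : ℝ) + 1) ^ (1 + ε) := Real.rpow_nonneg hM0 _
  have hP2 : (0 : ℝ) ≤ ((M : ℝ) + 1) ^ (2 + ε) := Real.rpow_nonneg hM0 _
  have hMP : (M : ℝ) + 1 ≤ ((M : ℝ) + 1) ^ (1 + ε) := by
    have h1 := Real.rpow_le_rpow_of_exponent_le hM1 (by linarith : (1 : ℝ) ≤ 1 + ε)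
    rwa [Real.rpow_one] at h1
  rcases le_or_gt (((C0 : ℝ) + 1) * ((M : ℝ) + 1) ^ 3) (N : ℝ) with hbig | hsm
  · -- many conditions: the theorem with exponent `5/2`
    refine hC0 d M Y N b ms hms hmin h3 hbY hN ?_ ?_
    · have h1 : (C0 : ℝ) * ((M : ℝ) + 1) ≤ Y := by
        refine le_trans ?_ hY
        exact mul_le_mul (by linarith) hMP hM0 (by linarith)
      exact_mod_cast h1
    · have h1 : (C0 + 1) * (M + 1) ^ 3 ≤ N := by exact_mod_cast hbig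
      calc C0 * (M + 1) ^ (5 * 9 ^ 0 + 1) ≤ (C0 + 1) ^ 2 * ((M + 1) ^ 3) ^ 2 := by
            rw [← pow_mul]
            refine Nat.mul_le_mul ?_ le_rfl
            nlinarith
        _ = ((C0 + 1) * (M + 1) ^ 3) ^ 2 := by rw [mul_pow]
        _ ≤ N ^ 2 := Nat.pow_le_pow_left h1 2
        _ = N ^ (2 * 9 ^ 0) := by norm_num
  -- the new range
  have hY1 : C1 * ((M : ℝ) + 1) ^ (1 + ε) ≤ Y :=
    le_trans (mul_le_mul_of_nonneg_right (by linarith) hP1) hY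
  have hN1 : C1 * ((M : ℝ) + 1) ^ (2 + ε) ≤ N :=
    le_trans (mul_le_mul_of_nonneg_right (by linarith) hP2) hNC
  have key : ∀ gs : Multiset ℕ, (∀ m ∈ gs, 1 ≤ m ∧ m ≤ M + 1) →
      (d + 2).choose 2 ≤ cd (Bm b) + cd gs → cd (Bm b) + cd gs ≤ (d + 2).choose 2 + (M + 1) ^ 2 →
      E d (Bm b + gs) := fun gs hgs h4 h5 =>
    hC1 d M Y N b gs hgs hmin h3 hbY hN hY1 hN1 hsm.le h4 h5
  obtain ⟨a, z, hz⟩ : ∃ a z : Multiset ℕ, a = ms.filter (fun m => 1 ≤ m) ∧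
      z = ms.filter (fun m => ¬ 1 ≤ m) := ⟨_, _, rfl, rfl⟩
  have hms' : a + z = ms := by
    rw [hz.1, hz.2]
    exact Multiset.filter_add_not _ _
  have ha : ∀ m ∈ a, 1 ≤ m ∧ m ≤ M := by
    intro m hm
    rw [hz.1, Multiset.mem_filter] at hm
    exact ⟨hm.2, hms m hm.1⟩
  have hzc : cd z = 0 := by
    rw [cd, Multiset.sum_eq_zero_iff]
    intro x hx
    obtain ⟨m, hm, rfl⟩ := Multiset.mem_map.mp hx
    rw [hz.2, Multiset.mem_filter] at hm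
    have h0 : m = 0 := by omega
    rw [h0]
    have := two_mul_kk 0
    omega
  have hcd : cd ms = cd a := by rw [← hms', cd_add, hzc, add_zero]
  have hB : cd (Bm b) ≤ (d + 2).choose 2 := by
    have e1 := two_cd_Bm b
    have e2 := two_choose d
    have e3 : (d + 1) * (d + 2) = d ^ 2 + 3 * d + 2 := by ring
    obtain ⟨h3d, -⟩ := std_three h3
    omega
  rcases Nat.le_total (cd (Bm b) + cd ms) ((d + 2).choose 2) with hc | hc
  · have hE : E d (Bm b + (a + Multiset.replicate ((d + 2).choose 2 - (cd (Bm b) + cd ms)) 1)) := by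
      refine key _ ?_ ?_ ?_
      · intro m hm
        rcases Multiset.mem_add.mp hm with h | h
        · have := ha m h
          omega
        · have := Multiset.eq_of_mem_replicate h
          omega
      · rw [cd_add, cd_ones]
        omega
      · rw [cd_add, cd_ones]
        omega
    have hE2 := E.add hE z
    have he : Bm b + (a + Multiset.replicate ((d + 2).choose 2 - (cd (Bm b) + cd ms)) 1) + z =
        Bm b + ms + Multiset.replicate ((d + 2).choose 2 - (cd (Bm b) + cd ms)) 1 := by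
      rw [← hms']
      abel
    rw [he] at hE2
    have hG := good_of_E_ones hE2
    rw [card_tri] at hG ⊢
    rw [Nat.min_eq_left hc]
    have he : (d + 2).choose 2 - ((d + 2).choose 2 - (cd (Bm b) + cd ms)) =
        cd (Bm b) + cd ms := by omega
    rwa [he] at hG
  · have haW : ∀ μ ∈ a, μ + 1 ≤ M + 1 := fun μ hμ => by
      have := ha μ hμ
      omega
    obtain ⟨gs, hg, g1, g2⟩ := exists_sub (x := (d + 2).choose 2 - cd (Bm b)) haW (by omega)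
    have hE : E d (Bm b + gs) := key gs (fun m hm => by
      have := ha m (Multiset.mem_of_le hg hm)
      omega) (by omega) (by omega)
    obtain ⟨rest, hr⟩ := Multiset.le_iff_exists_add.mp hg
    have hQ := (hE.add rest).add z
    rw [add_assoc (Bm b), ← hr, add_assoc, hms'] at hQ
    rw [Nat.min_eq_right (by rw [card_tri]; exact hc)]
    exact hQ

end Pool.Agent.SGN
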