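import Pool.Agent.SGN.Defs
import Pool.Agent.helper25.SXN.Crit

set_option autoImplicit false

/-!
# Module ViolB: numerics of a curve which violates nefness, nine big points

`(D; b; w)` the class, `(e; β; μ)` the curve (`Curve D Y b e β μ` of helper25/SXN/Defs.lean), violation
`D e < ∑ b β + ∑ w μ`. Compare SG/Viol.lean and helper25/SXN/NumV.lean (`core`, `numVB`). Here `μ` denotes the
multiplicities, `t` the new cutoff.
Let `F = D e - ∑ b β` (`≥ Y μ_j` for all `j` by `Curve.std`), `P = ∑ w μ > F`, `NF = e^2 - ∑ β^2` (an integer),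
`mm` the smallest positive `μ_j` (exists as `P > 0`).
(0) If exactly one `j` has `μ_j > 0`: `F ≥ Y μ_j ≥ w_j μ_j = P`, contradiction. So at least two, and by Xu
`NF ≥ ∑ μ^2 - mm ≥ 2 mm^2 - mm ≥ mm^2 > 0`, `∑ μ^2 ≤ NF + mm ≤ 2 NF`.
(1) `rev_cs`: `N NF ≤ F^2`. `s = sqrt(NF/N)`. `F^2 < P^2 ≤ (∑ w^2)(∑ μ^2) ≤ (N - X)(NF + mm)`.
`V := ∑ (μ_i - s w_i)^2 = ∑ μ^2 - 2 s P + s^2 ∑ w^2 < (NF + mm) - 2 NF + NF - s^2 X = mm - s^2 X`
(`s P > s F ≥ s sqrt(N NF) = NF`). Also `NF < ∑ μ^2` (otherwise `P^2 ≤ N NF ≤ F^2`).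
(2) `8 s Y > C`-type bound: if `s w_i ≤ 1/8` for all `i` then two indices with `μ ≥ 1` give
`(49/64) 2 mm^2 < mm`, contradiction. So `s w_i > 1/8` for some `i`, `R w_i ≤ Y`: `8 s Y > R`.
(3) some `j` with `w_j ≤ W`, `μ_j > 0`: otherwise `s^2 N / f ≤ V < mm`. For `j` attaining `mm`... any `j` with
`μ_j > 0`: `mm ≤ μ_j < s w_j + sqrt mm`, so `mm < max(4, 2 s w_j) ≤ max(4, 2 s Y/R)`, while
`s^2 N ≥ 2 (s Y)^2`: `2 (sY)^2 / f < max(4, 2 sY/R)` contradicts `8 s Y > R` for `R` large.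
(4) so `mm < max(4, 2 s W)`, and for small `i` (`w_i ≤ W`): `μ_i < 4` if `s W < 2`, `μ_i < 2 s W` otherwise.
`t = 4` if `NF W^2 < 4 N`, else `t = Nat.sqrt (4 NF W^2 / N)` (largest `t` with `t^2 N ≤ 4 NF W^2`).
(5) `μ_i < s w_i + sqrt mm ≤ sY/R + sqrt(max(4, 2 s Y/R))` for all `i`, so `R0 μ_i ≤ Y'`, where
`Y' = Nat.sqrt (NF Y^2 / (4 N))`, `s Y/4 ≤ s Y/2 - 1 ≤ Y' ≤ s Y/2` (`4 (Y'^2 N) ≤ NF Y^2`).
(6) `Near D b N e β NF W'` for `W' = Y/100 + 1`: `f = F`, `F^2 ≤ N (NF + mm)`, `1 ≤ mm`, `1000 mm ≤ NF`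
(`NF = s^2 N ≥ 2 (sY)^2`), `36 mm^2 N ≤ 49 NF W'^2` (`mm ≤ max(4, 2sY/R) ≤ (7/6) s Y/100`, `R` large). So
`Near.pos` (with `Curve.cross`): `Pos e Y' β`; `Near.degK`: `100 p^2 N ≤ 121 NF q^2`, `p ≤ 1.1 s q`:
`2 Y' p ≤ 1.1 s^2 Y q ≤ NF`, `2 Y'^2 ≤ s^2 Y^2/2 ≤ NF`: `Big e Y' NF p β`.
(7) energy: `∑_(w_i ≤ W) μ_i^2 ≥ s^2 ∑_(w_i ≤ W) w_i^2 / 2 - V ≥ NF/(2f) - mm ≥ NF/(4f)`.
(8) `s^2 X < mm`: if `t = 4`: `NF X < 4 N`. Otherwise `s^2 X < 2 s W`, `NF X^2 < 4 W^2 N`.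
(9) `R0 t^(1+r) ≤ Y'` from `R W^(1+2r) ≤ Y`, `1 ≤ X`: if `t = 4` from (2), (5). Otherwise `t ≤ 2 s W`,
`s X < 2 W`, so `s ≤ 2 W`, `t^(1+r) ≤ (2 s W)^(1+r) ≤ 8 s W^(1+2r)·..` (`s^r ≤ (2W)^r`) `≤ c s Y / R`.
-/

namespace Pool.Agent.SGN

open MvPolynomial Pool.Agent.helper5.NBS Pool.Agent.helper89.Segre Pool.Agent.SH9
open Pool.Agent.helper25.ST Pool.Agent.helper25.SXN Pool.Agent.SG

private lemma sumsq_cast {n : ℕ} (a : Fin n → ℕ) :
    ((∑ i, a i ^ 2 : ℕ) : ℝ) = ∑ i, (a i : ℝ) ^ 2 := by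
  push_cast
  rfl

private lemma le_of_sq_le' {a b : ℝ} (h : a ^ 2 ≤ b ^ 2) (hb : 0 ≤ b) : a ≤ b :=
  (abs_le.mp (abs_le_of_sq_le_sq h hb)).2

private lemma lt_of_sq_lt' {a b : ℝ} (h : a ^ 2 < b ^ 2) (hb : 0 ≤ b) : a < b :=
  (abs_lt.mp (abs_lt_of_sq_lt_sq h hb)).2

/-- the arithmetic of the violating curve -/
private lemma core {n : ℕ} {b β : Fin 9 → ℕ} {w μ : Fin n → ℕ} {D Y N X e : ℕ} (hn : 0 < n)
    (h : Curve D Y b e β μ) (hN : ∑ i, b i ^ 2 + N = D ^ 2) (hw : ∀ i, w i ≤ Y)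
    (hsq : ∑ i, w i ^ 2 + X ≤ N) (viol : D * e < ∑ i, b i * β i + ∑ i, w i * μ i) :
    ∃ NF F mm : ℕ, ∃ j k : Fin n, ∑ i, β i ^ 2 + NF = e ^ 2 ∧ ∑ i, b i * β i + F = D * e ∧
      1 ≤ mm ∧ mm ≤ NF ∧ ∑ i, μ i ^ 2 ≤ NF + mm ∧ F ^ 2 ≤ N * (NF + mm) ∧
      NF < ∑ i, μ i ^ 2 ∧ N * NF ≤ F ^ 2 ∧ F < ∑ i, w i * μ i ∧ j ≠ k ∧ μ j = mm ∧ mm ≤ μ k ∧
      ∀ i, 0 < μ i → mm ≤ μ i := by
  classical
  have hstd0 : ∑ i, b i * β i ≤ D * e := by
    have := h.std ⟨0, hn⟩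
    omega
  obtain ⟨F, hF⟩ := Nat.exists_eq_add_of_le hstd0
  have hFP : F < ∑ i, w i * μ i := by omega
  have hex : (Finset.univ.filter fun i => 0 < μ i).Nonempty := by
    by_contra hc
    rw [Finset.not_nonempty_iff_eq_empty, Finset.filter_eq_empty_iff] at hc
    have h3 : ∑ i, w i * μ i = 0 := Finset.sum_eq_zero fun i hi => by
      have := hc hi
      have h0 : μ i = 0 := by omega
      rw [h0, mul_zero]
    omega
  obtain ⟨j, hj, hmin⟩ := Finset.exists_min_image _ μ hex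
  rw [Finset.mem_filter] at hj
  have hj0 : 0 < μ j := hj.2
  have hmin' : ∀ i, 0 < μ i → μ j ≤ μ i := fun i hi =>
    hmin i (Finset.mem_filter.2 ⟨Finset.mem_univ i, hi⟩)
  obtain ⟨k, hk, hμk⟩ : ∃ k, k ≠ j ∧ 0 < μ k := by
    by_contra hc
    push Not at hc
    have h1 : ∑ i, w i * μ i = w j * μ j :=
      Finset.sum_eq_single j (fun k _ hk => by
        have := hc k hk
        have h0 : μ k = 0 := by omega
        rw [h0, mul_zero])
        (fun h => absurd (Finset.mem_univ _) h)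
    have h2 : w j * μ j ≤ Y * μ j := Nat.mul_le_mul_right _ (hw j)
    have h3 := h.std j
    omega
  have hxu := h.xu j hj0
  have hlow : 2 * μ j ^ 2 ≤ ∑ i, μ i ^ 2 := by
    have h1 : μ j ^ 2 + μ k ^ 2 ≤ ∑ i, μ i ^ 2 :=
      Finset.add_le_sum (f := fun i => μ i ^ 2) (fun i _ => Nat.zero_le _)
        (Finset.mem_univ j) (Finset.mem_univ k) hk.symm
    have h2 : μ j ^ 2 ≤ μ k ^ 2 := Nat.pow_le_pow_left (hmin' k hμk) 2
    omega
  have hmm1 : μ j ≤ μ j ^ 2 := Nat.le_self_pow two_ne_zero _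
  have hβe : ∑ i, β i ^ 2 ≤ e ^ 2 := by omega
  obtain ⟨NF, hNF⟩ := Nat.exists_eq_add_of_le hβe
  have hμN : ∑ i, μ i ^ 2 ≤ NF + μ j := by omega
  have hNFl : μ j ≤ NF := by omega
  have hNr : ∑ i, (b i : ℝ) ^ 2 + (N : ℝ) = (D : ℝ) ^ 2 := by
    rw [← sumsq_cast]; exact_mod_cast hN
  have hNFr : ∑ i, (β i : ℝ) ^ 2 + (NF : ℝ) = (e : ℝ) ^ 2 := by
    rw [← sumsq_cast]; exact_mod_cast hNF.symm
  have hfr : ∑ i, (b i : ℝ) * (β i : ℝ) + (F : ℝ) = (D : ℝ) * (e : ℝ) := by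
    exact_mod_cast hF.symm
  obtain ⟨-, hrev⟩ := rev_cs (Nat.cast_nonneg D) (Nat.cast_nonneg e) hNr (Nat.cast_nonneg N) hNFr
    (Nat.cast_nonneg NF) hfr
  have hrevN : N * NF ≤ F ^ 2 := by exact_mod_cast hrev
  have cs : (∑ i, w i * μ i) ^ 2 ≤ (∑ i, w i ^ 2) * (∑ i, μ i ^ 2) :=
    Finset.sum_mul_sq_le_sq_mul_sq Finset.univ w μ
  have hwN : ∑ i, w i ^ 2 ≤ N := by omega
  have hf2 : F ^ 2 < (∑ i, w i * μ i) ^ 2 := Nat.pow_lt_pow_left hFP (by norm_num)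
  have hNFlt : NF < ∑ i, μ i ^ 2 := by
    by_contra hh
    push Not at hh
    have g1 : (∑ i, w i ^ 2) * (∑ i, μ i ^ 2) ≤ N * NF := Nat.mul_le_mul hwN hh
    omega
  have hfN : F ^ 2 ≤ N * (NF + μ j) := by
    have g1 : (∑ i, w i ^ 2) * (∑ i, μ i ^ 2) ≤ N * (NF + μ j) := Nat.mul_le_mul hwN hμN
    omega
  exact ⟨NF, F, μ j, j, k, hNF.symm, hF.symm, hj0, hNFl, hμN, hfN, hNFlt, hrevN, hFP, hk.symm, rfl,
    hmin' k hμk, hmin'⟩

/-- the real form -/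
private lemma realV {n : ℕ} {w μ : Fin n → ℕ} {N NF F mm X : ℕ} (hN0 : 0 < N) (hNF0 : 0 < NF)
    (hμN : ∑ i, μ i ^ 2 ≤ NF + mm) (hFP : F < ∑ i, w i * μ i) (hsq : ∑ i, w i ^ 2 + X ≤ N)
    (hrev : N * NF ≤ F ^ 2) :
    ∃ s : ℝ, 0 < s ∧ s ^ 2 * N = NF ∧ ∑ i, ((μ i : ℝ) - s * w i) ^ 2 + s ^ 2 * X < mm := by
  have hNr : (0:ℝ) < N := by exact_mod_cast hN0
  have hNFr : (0:ℝ) < NF := by exact_mod_cast hNF0
  obtain ⟨s, hs⟩ : ∃ s : ℝ, s = Real.sqrt (NF / N) := ⟨_, rfl⟩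
  have hs0 : 0 < s := by rw [hs]; exact Real.sqrt_pos.2 (by positivity)
  have hs2 : s ^ 2 * N = NF := by
    rw [hs, Real.sq_sqrt (by positivity), div_mul_cancel₀ _ hNr.ne']
  refine ⟨s, hs0, hs2, ?_⟩
  have r1 : (∑ i, (μ i : ℝ) ^ 2) ≤ (NF:ℝ) + mm := by
    rw [← sumsq_cast]; exact_mod_cast hμN
  have r2 : (F : ℝ) < ∑ i, (w i : ℝ) * μ i := by exact_mod_cast hFP
  have r3 : (∑ i, (w i : ℝ) ^ 2) + X ≤ (N:ℝ) := by
    rw [← sumsq_cast]; exact_mod_cast hsq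
  have r4 : s * N ≤ F := by
    have k1 : (s * N) ^ 2 ≤ (F : ℝ) ^ 2 := by
      have k2 : (s * N) ^ 2 = (N : ℝ) * NF := by
        calc (s * N) ^ 2 = (s ^ 2 * N) * N := by ring
          _ = _ := by rw [hs2]; ring
      rw [k2]
      exact_mod_cast hrev
    exact le_of_sq_le' k1 (Nat.cast_nonneg F)
  have hVe : ∑ i, ((μ i : ℝ) - s * w i) ^ 2 =
      (∑ i, (μ i : ℝ) ^ 2) - 2 * s * (∑ i, (w i : ℝ) * μ i) + s ^ 2 * (∑ i, (w i : ℝ) ^ 2) := by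
    rw [Finset.mul_sum, Finset.mul_sum, ← Finset.sum_sub_distrib, ← Finset.sum_add_distrib]
    apply Finset.sum_congr rfl
    intro i _
    ring
  have g1 : 2 * s * (s * N) < 2 * s * (∑ i, (w i : ℝ) * μ i) :=
    mul_lt_mul_of_pos_left (lt_of_le_of_lt r4 r2) (by positivity)
  have g2 : s ^ 2 * ((∑ i, (w i : ℝ) ^ 2) + X) ≤ s ^ 2 * (N:ℝ) :=
    mul_le_mul_of_nonneg_left r3 (by positivity)
  have g4 : 2 * s * (s * N) = 2 * (NF:ℝ) := by
    rw [← hs2]; ring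
  rw [hVe]
  linarith

private lemma sq_lt_two {s x : ℝ} (h2 : 2 ≤ s) (h : s ^ 2 < x + s) : s ^ 2 < 2 * x := by nlinarith

private lemma lt_two {s x : ℝ} (hx : x < 2) (h : s ^ 2 < x + s) (hs : 0 ≤ s) : s < 2 := by nlinarith

private lemma sq_lt_two' {s x : ℝ} (hx : 2 ≤ x) (h : s ^ 2 < x + s) : s ^ 2 < 2 * x := by
  by_contra h'
  rw [not_lt] at h'
  have h1 : x < s := by linarith
  nlinarith

private lemma lt_of_sq {s x : ℝ} (hx : 2 ≤ x) (h : s ^ 2 < 2 * x) : s < x := by nlinarith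

private lemma two_indices {m c V A B : ℝ} (hm : 1 ≤ m) (hc : 7 / 8 ≤ c) (hA : c * m ≤ A)
    (hB : c * m ≤ B) (h : A ^ 2 + B ^ 2 ≤ V) (hV : V < m) : False := by
  have h0 : 7 / 8 * m ≤ c * m := mul_le_mul_of_nonneg_right hc (by linarith)
  have h7 := pow_le_pow_left₀ (by linarith) (h0.trans hA) 2
  have h8 := pow_le_pow_left₀ (by linarith) (h0.trans hB) 2
  nlinarith

private lemma par (b y : ℝ) : y ^ 2 ≤ 2 * b ^ 2 + 2 * (b - y) ^ 2 := by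
  have e : 2 * b ^ 2 + 2 * (b - y) ^ 2 - y ^ 2 = (2 * b - y) ^ 2 := by ring
  linarith [sq_nonneg (2 * b - y)]

/-- `mm` is small compared with `NF` -/
private lemma mm_small {c R y mm NF : ℝ} (hc : 1 ≤ c) (hcR : 64 * c ≤ R) (hR : R < 8 * y)
    (hR32 : 32 ≤ R) (hNF : 2 * y ^ 2 ≤ NF) (hmm : mm < 4 ∨ mm * R < 2 * y) : c * mm ≤ NF := by
  have hy4 : 8 * c < y := by linarith
  have hy0 : 0 < y := by linarith
  have hyy : y * (8 * c) ≤ y * y := mul_le_mul_of_nonneg_left hy4.le hy0.le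
  have hy1 : 4 * 1 ≤ y * 1 := by linarith
  have h1c : 4 * c ≤ y * c := mul_le_mul_of_nonneg_right (by linarith) (by linarith)
  rcases hmm with h | h
  · have h1 : c * mm ≤ c * 4 := mul_le_mul_of_nonneg_left h.le (by linarith)
    nlinarith
  · have hmR : mm < 2 * y := by
      by_contra hh
      push Not at hh
      have : 2 * y * 1 ≤ mm * R := mul_le_mul hh (by linarith) (by norm_num) (by linarith)
      linarith
    have h1 : c * mm ≤ c * (2 * y) := mul_le_mul_of_nonneg_left hmR.le (by linarith)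
    nlinarith

/-- `R0` times the size of the multiplicities is at most `y / 4` -/
private lemma size {R0 R y a u : ℝ} (hR0 : 0 ≤ R0) (hR0R : 64 * R0 ≤ R) (hR1 : 32 ≤ R)
    (hR : R < 8 * y) (hu0 : 0 ≤ u) (hu : u < 2 ∨ u ^ 2 * R < 2 * y) (ha0 : 0 ≤ a)
    (ha : a * R ≤ y) (hRR : 128 * R0 ^ 2 ≤ y * R) (hR16 : 16 * R0 ≤ y) :
    R0 * (a + u) ≤ y / 4 := by
  have hy0 : 0 < y := by linarith
  have h1 : R0 * a ≤ y / 8 := by
    have h2 : (8 * R0) * a ≤ R * a := mul_le_mul_of_nonneg_right (by linarith) ha0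
    linarith
  have h2 : R0 * u ≤ y / 8 := by
    rcases hu with h | h
    · have := mul_le_mul_of_nonneg_left h.le hR0
      linarith
    · refine le_of_sq_le' ?_ (by linarith)
      have h3 : (R0 * u) ^ 2 * R ≤ (y / 8) ^ 2 * R := by
        calc (R0 * u) ^ 2 * R = R0 ^ 2 * (u ^ 2 * R) := by ring
          _ ≤ R0 ^ 2 * (2 * y) := mul_le_mul_of_nonneg_left h.le (sq_nonneg _)
          _ = (128 * R0 ^ 2) * (y / 64) := by ring
          _ ≤ (y * R) * (y / 64) := mul_le_mul_of_nonneg_right hRR (by linarith)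
          _ = (y / 8) ^ 2 * R := by ring
      exact le_of_mul_le_mul_right h3 (by linarith)
  linarith

/-- the growth of the cutoff -/
private lemma growth {s W R y t r R0 : ℝ} (hs0 : 0 < s) (hW : 1 ≤ W) (hr : 0 ≤ r) (hr1 : r ≤ 1)
    (hs : s ≤ 2 * W) (ht0 : 0 ≤ t) (ht : t ≤ 2 * (s * W)) (hR : 0 < R) (hy : R * (s * W ^ (1 + 2 * r)) ≤ y)
    (hR0 : 0 ≤ R0) (hR0R : 32 * R0 ≤ R) (hy0 : 0 ≤ y) : R0 * t ^ (1 + r) ≤ y / 4 := by
  have hW0 : 0 < W := by linarith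
  have hx0 : 0 < 2 * (s * W) := by positivity
  have h1 : t ^ (1 + r) ≤ (2 * (s * W)) ^ (1 + r) := Real.rpow_le_rpow ht0 ht (by linarith)
  have h2 : (2 * (s * W)) ^ (1 + r) = 2 * (s * W) * (2 * (s * W)) ^ r := by
    rw [Real.rpow_add hx0, Real.rpow_one]
  have h3 : (2 * (s * W)) ^ r ≤ (4 * W ^ 2) ^ r := by
    refine Real.rpow_le_rpow hx0.le ?_ hr
    have := mul_le_mul_of_nonneg_right hs hW0.le
    nlinarith
  have h4 : (4 * W ^ 2) ^ r = 4 ^ r * W ^ (2 * r) := by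
    rw [Real.mul_rpow (by norm_num) (by positivity), ← Real.rpow_natCast W 2,
      ← Real.rpow_mul hW0.le]
    norm_num
  have h5 : (4 : ℝ) ^ r ≤ 4 := by
    have := Real.rpow_le_rpow_of_exponent_le (by norm_num : (1 : ℝ) ≤ 4) hr1
    rwa [Real.rpow_one] at this
  have h6 : W ^ (1 + 2 * r) = W * W ^ (2 * r) := by
    rw [Real.rpow_add hW0, Real.rpow_one]
  have hp : 0 < W ^ (2 * r) := Real.rpow_pos_of_pos hW0 _
  have h7 : t ^ (1 + r) ≤ 8 * (s * W ^ (1 + 2 * r)) := by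
    calc t ^ (1 + r) ≤ 2 * (s * W) * (4 ^ r * W ^ (2 * r)) := by
          refine h1.trans ?_
          rw [h2, ← h4]
          exact mul_le_mul_of_nonneg_left h3 hx0.le
      _ ≤ 2 * (s * W) * (4 * W ^ (2 * r)) :=
          mul_le_mul_of_nonneg_left (mul_le_mul_of_nonneg_right h5 hp.le) hx0.le
      _ = 8 * (s * W ^ (1 + 2 * r)) := by rw [h6]; ring
  have hz : 0 ≤ s * W ^ (1 + 2 * r) := by
    rw [h6]; positivity
  have h8 : R0 * t ^ (1 + r) ≤ R0 * (8 * (s * W ^ (1 + 2 * r))) := mul_le_mul_of_nonneg_left h7 hR0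
  have h9 : 32 * R0 * (s * W ^ (1 + 2 * r)) ≤ R * (s * W ^ (1 + 2 * r)) :=
    mul_le_mul_of_nonneg_right hR0R hz
  linarith

/-- the version with `0 ≤ r` -/
theorem violB0 (f R0 : ℕ) (r : ℝ) (hr : 0 ≤ r) (hr1 : r ≤ 1) : ∃ R : ℕ, 1 ≤ R ∧
    ∀ (n : ℕ) (b β : Fin 9 → ℕ) (w μ : Fin n → ℕ) (D Y N q W X e : ℕ), Big D Y N q b → 1 ≤ W → 1 ≤ X →
    (R : ℝ) * (W : ℝ) ^ (1 + 2 * r) ≤ Y → (∀ i, R * w i ≤ Y) → N ≤ f * ∑ i with w i ≤ W, w i ^ 2 →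
    ∑ i, w i ^ 2 + X ≤ N → Curve D Y b e β μ → D * e < ∑ i, b i * β i + ∑ i, w i * μ i →
    ∃ Y' NF p t : ℕ, Big e Y' NF p β ∧ 1 ≤ t ∧ (R0 : ℝ) * (t : ℝ) ^ (1 + r) ≤ Y' ∧
      (∀ i, R0 * μ i ≤ Y') ∧ (∀ i, w i ≤ W → μ i ≤ t) ∧ NF ≤ 4 * f * ∑ i with w i ≤ W, μ i ^ 2 ∧
      NF ≤ ∑ i, μ i ^ 2 ∧ ∑ i, μ i ^ 2 ≤ 2 * NF ∧
      ((t = 4 ∧ NF * X < 4 * N) ∨ (4 ≤ t ∧ t ^ 2 * N ≤ 4 * NF * W ^ 2 ∧ NF * X ^ 2 < 4 * W ^ 2 * N)) ∧
      (256 * NF * W ^ 2 < N → ∃ j, w j ≤ W ∧ 0 < μ j ∧ ∀ i, w i ≤ W → 0 < μ i → i = j) := by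
  refine ⟨65536 * (f + R0 + 1), by omega, ?_⟩
  intro n b β w μ D Y N q W X e hB hW hX hRW hRw hf hsq hC viol
  obtain ⟨R, hR⟩ : ∃ R : ℕ, R = 65536 * (f + R0 + 1) := ⟨_, rfl⟩
  rw [← hR] at hRW hRw
  have hY1 := hB.hY
  have hY0r : (0 : ℝ) < Y := by exact_mod_cast hY1
  have hN0 : 0 < N := by
    have h1 : 1 ≤ Y ^ 2 := Nat.one_le_pow _ _ hY1
    have := hB.hY2
    omega
  have hNr : (0 : ℝ) < N := by exact_mod_cast hN0
  have hf0 : 0 < f := by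
    rcases Nat.eq_zero_or_pos f with h | h
    · rw [h, zero_mul] at hf
      omega
    · exact h
  have hn : 0 < n := by
    rcases Nat.eq_zero_or_pos n with h | h
    · subst h
      simp at hf
      omega
    · exact h
  have hRr : (65536 : ℝ) * (f + R0 + 1) = R := by rw [hR]; push_cast; ring
  have hfr : (1 : ℝ) ≤ f := by exact_mod_cast hf0
  have hR0r : (0 : ℝ) ≤ R0 := Nat.cast_nonneg _
  have hR1 : (65536 : ℝ) ≤ R := by linarith
  have hR0' : (0 : ℝ) < R := by linarith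
  have hwY : ∀ i, w i ≤ Y := fun i => by
    have h1 : 1 * w i ≤ R * w i := Nat.mul_le_mul_right _ (by omega)
    have := hRw i
    omega
  have hWr : (1 : ℝ) ≤ W := by exact_mod_cast hW
  obtain ⟨NF, F, mm, j0, k0, hNF, hF, hmm, hmmNF, hμN, hFN, hNFlt, hrev, hFP, hjk, hj0, hk0,
    hmin⟩ := core hn hC hB.hN hwY hsq viol
  have hNF0 : 0 < NF := by omega
  have hNFr : (0 : ℝ) < NF := by exact_mod_cast hNF0
  obtain ⟨s, hs0, hs2, hVX⟩ := realV hN0 hNF0 hμN hFP hsq hrev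
  have hmmr : (1 : ℝ) ≤ mm := by exact_mod_cast hmm
  obtain ⟨V, hV⟩ : ∃ V : ℝ, V = ∑ i, ((μ i : ℝ) - s * w i) ^ 2 := ⟨_, rfl⟩
  rw [← hV] at hVX
  have hX0 : 0 ≤ s ^ 2 * (X : ℝ) := by positivity
  have hV0 : 0 ≤ V := by rw [hV]; exact Finset.sum_nonneg fun i _ => sq_nonneg _
  have hVm : V < mm := by linarith
  have hterm : ∀ i, ((μ i : ℝ) - s * w i) ^ 2 ≤ V := fun i => by
    rw [hV]
    exact Finset.single_le_sum (f := fun i => ((μ i : ℝ) - s * w i) ^ 2)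
      (fun i _ => sq_nonneg _) (Finset.mem_univ i)
  have htwo : ∀ i k : Fin n, i ≠ k → ((μ i : ℝ) - s * w i) ^ 2 + ((μ k : ℝ) - s * w k) ^ 2 ≤ V :=
    fun i k hik => by
    rw [hV]
    exact Finset.add_le_sum (f := fun i => ((μ i : ℝ) - s * w i) ^ 2) (fun i _ => sq_nonneg _)
      (Finset.mem_univ i) (Finset.mem_univ k) hik
  obtain ⟨y, hy⟩ : ∃ y : ℝ, y = s * Y := ⟨_, rfl⟩
  have hy0 : 0 < y := by rw [hy]; positivity
  have hsw : ∀ i, s * w i * R ≤ y := by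
    intro i
    have h1 : (R : ℝ) * w i ≤ Y := by exact_mod_cast hRw i
    have := mul_le_mul_of_nonneg_left h1 hs0.le
    rw [hy]
    linarith
  -- (2)
  have hRy : (R : ℝ) < 8 * y := by
    by_contra hc
    rw [not_lt] at hc
    have hsm : ∀ i, s * w i ≤ 1 / 8 := by
      intro i
      have h1 := hsw i
      have h2 : s * w i * R ≤ 1 / 8 * R := by linarith
      exact le_of_mul_le_mul_right h2 hR0'
    refine two_indices (m := (mm : ℝ)) (c := 7 / 8) hmmr le_rfl ?_ ?_ (htwo j0 k0 hjk) hVm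
    · have h1 := hsm j0
      have h2 : (μ j0 : ℝ) = mm := by rw [hj0]
      linarith
    · have h1 := hsm k0
      have h2 : (mm : ℝ) ≤ μ k0 := by exact_mod_cast hk0
      linarith
  have hNFy : 2 * y ^ 2 ≤ NF := by
    have h1 : (2 : ℝ) * Y ^ 2 ≤ N := by exact_mod_cast hB.hY2
    have h2 := mul_le_mul_of_nonneg_left h1 (sq_nonneg s)
    rw [hs2] at h2
    rw [hy]
    linarith
  -- the square root of mm
  obtain ⟨u, hu⟩ : ∃ u : ℝ, u = √(mm : ℝ) := ⟨_, rfl⟩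
  have hu0 : 0 ≤ u := by rw [hu]; exact Real.sqrt_nonneg _
  have hu2 : u ^ 2 = mm := by rw [hu]; exact Real.sq_sqrt (by linarith)
  have habs : ∀ i, (μ i : ℝ) < s * w i + u := by
    intro i
    have h1 : ((μ i : ℝ) - s * w i) ^ 2 < u ^ 2 := by rw [hu2]; exact (hterm i).trans_lt hVm
    have h2 := lt_of_sq_lt' h1 hu0
    linarith
  have hub : u < 2 ∨ u ^ 2 * R < 2 * y := by
    rcases lt_or_ge u 2 with h | h
    · exact Or.inl h
    · right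
      have h1 : u ^ 2 < s * w j0 + u := by
        have := habs j0
        rw [hu2]
        rw [hj0] at this
        exact this
      have h2 := mul_lt_mul_of_pos_right (sq_lt_two h h1) hR0'
      have h3 := hsw j0
      linarith
  have hmmb : (mm : ℝ) < 4 ∨ (mm : ℝ) * R < 2 * y := by
    rw [← hu2]
    rcases hub with h | h
    · left
      nlinarith
    · exact Or.inr h
  have hmf : 4 * (f : ℝ) * mm ≤ NF :=
    mm_small (c := 4 * f) (R := R) (y := y) (by linarith) (by linarith) hRy (by linarith) hNFy hmmb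
  -- the sum over the small ones
  have hfr2 : (N : ℝ) ≤ f * ∑ i with w i ≤ W, (w i : ℝ) ^ 2 := by exact_mod_cast hf
  have hLsum : (NF : ℝ) ≤ f * ∑ i with w i ≤ W, (s * w i) ^ 2 := by
    have h1 : ∑ i with w i ≤ W, (s * (w i : ℝ)) ^ 2 = s ^ 2 * ∑ i with w i ≤ W, (w i : ℝ) ^ 2 := by
      rw [Finset.mul_sum]
      exact Finset.sum_congr rfl fun i _ => by ring
    rw [h1, ← hs2]
    have := mul_le_mul_of_nonneg_left hfr2 (sq_nonneg s)
    linarith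
  have hVs : ∑ i with w i ≤ W, ((μ i : ℝ) - s * w i) ^ 2 ≤ V := by
    rw [hV]
    exact Finset.sum_le_sum_of_subset_of_nonneg (Finset.filter_subset _ _) fun i _ _ => sq_nonneg _
  -- (3)
  have hii : ∃ j, w j ≤ W ∧ 0 < μ j := by
    by_contra hc
    push Not at hc
    have h1 : ∑ i with w i ≤ W, ((μ i : ℝ) - s * w i) ^ 2 = ∑ i with w i ≤ W, (s * w i) ^ 2 := by
      refine Finset.sum_congr rfl fun i hi' => ?_
      have h0 : μ i = 0 := by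
        have := hc i (Finset.mem_filter.1 hi').2
        omega
      rw [h0]
      push_cast
      ring
    have h2 : (NF : ℝ) ≤ f * V := by
      refine hLsum.trans (mul_le_mul_of_nonneg_left ?_ (by linarith))
      rw [← h1]
      exact hVs
    have h3 : (f : ℝ) * V < f * mm := mul_lt_mul_of_pos_left hVm (by linarith)
    have h4 : (f : ℝ) * mm ≤ 4 * f * mm := by
      have : 0 ≤ (f : ℝ) * mm := by positivity
      linarith
    linarith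
  obtain ⟨j, hjW, hj⟩ := hii
  obtain ⟨x, hx⟩ : ∃ x : ℝ, x = s * W := ⟨_, rfl⟩
  have hx0 : 0 < x := by rw [hx]; positivity
  have hxN : x ^ 2 * N = NF * W ^ 2 := by rw [hx, ← hs2]; ring
  have hLw : ∀ i, w i ≤ W → s * w i ≤ x := fun i hi' => by
    rw [hx]
    exact mul_le_mul_of_nonneg_left (by exact_mod_cast hi') hs0.le
  have hxu : u ^ 2 < x + u := by
    have h1 := habs j
    have h2 := hLw j hjW
    have h3 : (mm : ℝ) ≤ μ j := by exact_mod_cast hmin j hj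
    rw [hu2]
    linarith
  -- `Y'`
  obtain ⟨Y', hY'⟩ : ∃ Y' : ℕ, Y' = Nat.sqrt (NF * Y ^ 2 / (4 * N)) := ⟨_, rfl⟩
  have h4N : 0 < 4 * N := by omega
  have hYN : 4 * (Y' ^ 2 * N) ≤ NF * Y ^ 2 := by
    have h1 : Y' ^ 2 ≤ NF * Y ^ 2 / (4 * N) := by rw [hY']; exact Nat.sqrt_le' _
    have h2 := (Nat.le_div_iff_mul_le h4N).1 h1
    linarith
  have hYlow : NF * Y ^ 2 < (Y' + 1) ^ 2 * (4 * N) := by
    have h1 : NF * Y ^ 2 / (4 * N) < (Y' + 1) ^ 2 := by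
      rw [hY']
      exact Nat.lt_succ_sqrt' _
    exact (Nat.div_lt_iff_lt_mul h4N).1 h1
  have hyN : y ^ 2 * N = NF * Y ^ 2 := by rw [hy, ← hs2]; ring
  have hY'up : 2 * (Y' : ℝ) ≤ y := by
    refine le_of_sq_le' ?_ hy0.le
    have h1 : (4 : ℝ) * ((Y' : ℝ) ^ 2 * N) ≤ NF * Y ^ 2 := by exact_mod_cast hYN
    rw [← hyN] at h1
    have h2 : (2 * (Y' : ℝ)) ^ 2 * N ≤ y ^ 2 * N := by linarith
    exact le_of_mul_le_mul_right h2 hNr
  have hY'lo : y / 4 ≤ Y' := by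
    have h1 : (NF : ℝ) * Y ^ 2 < ((Y' : ℝ) + 1) ^ 2 * (4 * N) := by exact_mod_cast hYlow
    rw [← hyN] at h1
    have h2 : y ^ 2 * N < (2 * ((Y' : ℝ) + 1)) ^ 2 * N := by linarith
    have h3 := lt_of_mul_lt_mul_right h2 hNr.le
    have h4 := lt_of_sq_lt' h3 (by positivity)
    linarith
  have hY'1 : 1 ≤ Y' := by
    have : (1 : ℝ) ≤ Y' := by linarith
    exact_mod_cast this
  -- Near
  have hnear : Near D b N e β NF (mm * N) := by
    refine ⟨hB.hN, hNF, F, mm, hF, hFN, hmm, ?_, ?_⟩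
    · have h1 := mm_small (c := 1000) (R := R) (y := y) (by norm_num) (by linarith) hRy
        (by linarith) hNFy hmmb
      exact_mod_cast h1
    · have h1 : 1 ≤ N := hN0
      have h2 : mm ^ 2 * N ≤ NF * (mm * N) ^ 2 := by
        calc mm ^ 2 * N = 1 * (mm ^ 2 * (N * 1)) := by ring
          _ ≤ NF * (mm ^ 2 * (N * N)) :=
            Nat.mul_le_mul hNF0 (Nat.mul_le_mul_left _ (Nat.mul_le_mul_left _ h1))
          _ = NF * (mm * N) ^ 2 := by ring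
      omega
  obtain ⟨p, hp⟩ := Nat.exists_eq_add_of_le hC.three
  have hpos : Pos e Y' β := Near.pos hnear hC.cross hB.pos hY1 hN0 hYN
  have hdeg := Pool.Agent.helper25.SXQ.Near.degK hnear hN0 hB.hq hp.symm
  have hp2 : (p : ℝ) ≤ 2 * (s * q) := by
    refine le_of_sq_le' ?_ (by positivity)
    have h1 : (100 : ℝ) * ((p : ℝ) ^ 2 * N) ≤ 121 * (NF * q ^ 2) := by exact_mod_cast hdeg
    rw [← hs2] at h1
    have h2 : (p : ℝ) ^ 2 * N ≤ (2 * (s * q)) ^ 2 * N := by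
      have h3 : 0 ≤ s ^ 2 * N * (q : ℝ) ^ 2 := by positivity
      nlinarith
    exact le_of_mul_le_mul_right h2 hNr
  have hYp : 2 * (Y' * p) ≤ NF := by
    have h1 : (2 : ℝ) * (Y * q) ≤ N := by exact_mod_cast hB.hYq
    have h2 := mul_le_mul_of_nonneg_left h1 (sq_nonneg s)
    rw [hs2] at h2
    have h3 : 2 * (Y' : ℝ) * p ≤ y * (2 * (s * q)) :=
      mul_le_mul hY'up hp2 (Nat.cast_nonneg _) hy0.le
    have h4 : y * (2 * (s * (q : ℝ))) = s ^ 2 * (2 * (Y * q)) := by rw [hy]; ring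
    have h5 : (2 : ℝ) * (Y' * p) ≤ NF := by linarith
    exact_mod_cast h5
  have hY2 : 2 * Y' ^ 2 ≤ NF := by
    have h1 : (2 * (Y' : ℝ)) ^ 2 ≤ y ^ 2 := pow_le_pow_left₀ (by positivity) hY'up 2
    have h2 : (2 : ℝ) * (Y' : ℝ) ^ 2 ≤ NF := by nlinarith
    exact_mod_cast h2
  have hBig : Big e Y' NF p β := ⟨hpos, hNF, hp.symm, hY'1, hYp, hY2⟩
  -- sizes
  have hRR : 128 * (R0 : ℝ) ^ 2 ≤ y * R := by
    have h1 : 128 * (R0 : ℝ) ≤ y := by linarith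
    have h2 : (R0 : ℝ) ≤ R := by linarith
    have := mul_le_mul h1 h2 hR0r hy0.le
    nlinarith
  have hsz : ∀ a : ℝ, 0 ≤ a → a * R ≤ y → (R0 : ℝ) * (a + u) ≤ y / 4 := fun a ha0 ha =>
    size hR0r (by linarith) (by linarith) hRy hu0 hub ha0 ha hRR (by linarith)
  have hμY : ∀ i, R0 * μ i ≤ Y' := by
    intro i
    have h1 := hsz (s * w i) (by positivity) (hsw i)
    have h3 : (R0 : ℝ) * μ i ≤ R0 * (s * w i + u) := mul_le_mul_of_nonneg_left (habs i).le hR0r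
    have h4 : (R0 : ℝ) * μ i ≤ Y' := by linarith
    exact_mod_cast h4
  -- energy
  have hen : NF ≤ 4 * f * ∑ i with w i ≤ W, μ i ^ 2 := by
    have h1 : ∑ i with w i ≤ W, (s * (w i : ℝ)) ^ 2 ≤ 2 * ∑ i with w i ≤ W, (μ i : ℝ) ^ 2 +
        2 * ∑ i with w i ≤ W, ((μ i : ℝ) - s * w i) ^ 2 := by
      rw [Finset.mul_sum, Finset.mul_sum, ← Finset.sum_add_distrib]
      exact Finset.sum_le_sum fun i _ => par _ _
    have h2 : ∑ i with w i ≤ W, (s * (w i : ℝ)) ^ 2 ≤ 2 * ∑ i with w i ≤ W, (μ i : ℝ) ^ 2 +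
        2 * mm := by linarith
    have h3 : (NF : ℝ) ≤ f * (2 * ∑ i with w i ≤ W, (μ i : ℝ) ^ 2 + 2 * mm) :=
      hLsum.trans (mul_le_mul_of_nonneg_left h2 (by linarith))
    have h5 : (NF : ℝ) ≤ 4 * f * ∑ i with w i ≤ W, (μ i : ℝ) ^ 2 := by
      have e3 : (f : ℝ) * (2 * ∑ i with w i ≤ W, (μ i : ℝ) ^ 2 + 2 * mm) =
        2 * (f * ∑ i with w i ≤ W, (μ i : ℝ) ^ 2) + 2 * (f * mm) := by ring
      rw [e3] at h3
      linarith
    exact_mod_cast h5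
  -- at most one small point if the class is small
  have hone : 256 * NF * W ^ 2 < N →
      ∃ j, w j ≤ W ∧ 0 < μ j ∧ ∀ i, w i ≤ W → 0 < μ i → i = j := by
    intro hsm
    refine ⟨j, hjW, hj, fun i hi hμi => ?_⟩
    by_contra hij
    have hx16 : x < 1 / 8 := by
      refine lt_of_sq_lt' ?_ (by norm_num)
      have h1 : (256 : ℝ) * NF * W ^ 2 < N := by exact_mod_cast hsm
      have h2 : 256 * (x ^ 2 * N) < N := by rw [hxN]; linarith
      have h3 : x ^ 2 * N < (1 / 8 : ℝ) ^ 2 * N := by linarith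
      exact lt_of_mul_lt_mul_right h3 hNr.le
    refine two_indices (m := (mm : ℝ)) (c := 7 / 8) hmmr le_rfl ?_ ?_ (htwo i j hij) hVm
    · have h1 := hLw i hi
      have h2 : (mm : ℝ) ≤ μ i := by exact_mod_cast hmin i hμi
      linarith
    · have h1 := hLw j hjW
      have h2 : (mm : ℝ) ≤ μ j := by exact_mod_cast hmin j hj
      linarith
  -- the two cases
  rcases lt_or_ge x 2 with hc | hc
  · have hs2' : u < 2 := lt_two hc hxu hu0
    refine ⟨Y', NF, p, 4, hBig, by norm_num, ?_, hμY, ?_, hen, hNFlt.le, by omega,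
      Or.inl ⟨rfl, ?_⟩, hone⟩
    · have h1 : ((4 : ℕ) : ℝ) ^ (1 + r) ≤ 16 := by
        have h2 := Real.rpow_le_rpow_of_exponent_le (by norm_num : (1 : ℝ) ≤ 4)
          (by linarith : 1 + r ≤ 2)
        have h3 : (4 : ℝ) ^ (2 : ℝ) = 16 := by
          rw [show (2 : ℝ) = ((2 : ℕ) : ℝ) by norm_num, Real.rpow_natCast]
          norm_num
        rw [h3] at h2
        push_cast
        exact h2
      have h2 := mul_le_mul_of_nonneg_left h1 hR0r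
      linarith
    · intro i hiW
      have h1 := habs i
      have h2 := hLw i hiW
      have h3 : (μ i : ℝ) < 4 := by linarith
      have h4 : μ i < 4 := by exact_mod_cast h3
      omega
    · have h6 : u ^ 2 < 4 := by nlinarith
      have h1 : s ^ 2 * X < 4 := by linarith
      have h2 : s ^ 2 * X * (N : ℝ) < 4 * N := mul_lt_mul_of_pos_right h1 hNr
      have h3 : (NF : ℝ) * X < 4 * N := by
        rw [← hs2]
        linarith
      exact_mod_cast h3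
  · have hsx2 : u ^ 2 < 2 * x := sq_lt_two' hc hxu
    have hsx : u < x := lt_of_sq hc hsx2
    have hsX : s * X < 2 * W := by
      have h1 : s ^ 2 * X < 2 * x := by linarith
      have h2 : (s * X) * s < (2 * W) * s := by rw [hx] at h1; linarith
      exact lt_of_mul_lt_mul_right h2 hs0.le
    obtain ⟨t, ht⟩ : ∃ t : ℕ, t = Nat.sqrt (4 * NF * W ^ 2 / N) := ⟨_, rfl⟩
    have htN : t ^ 2 * N ≤ 4 * NF * W ^ 2 := by
      have h1 : t ^ 2 ≤ 4 * NF * W ^ 2 / N := by rw [ht]; exact Nat.sqrt_le' _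
      exact (Nat.le_div_iff_mul_le hN0).1 h1
    have hle : ∀ a : ℕ, (a : ℝ) ≤ 2 * x → a ≤ t := by
      intro a ha
      rw [ht, Nat.le_sqrt', Nat.le_div_iff_mul_le hN0]
      have h1 : (a : ℝ) ^ 2 ≤ (2 * x) ^ 2 := pow_le_pow_left₀ (Nat.cast_nonneg _) ha 2
      have h2 : (a : ℝ) ^ 2 * N ≤ 4 * NF * W ^ 2 := by
        have h3 := mul_le_mul_of_nonneg_right h1 hNr.le
        have h4 : (2 * x) ^ 2 * (N : ℝ) = 4 * (x ^ 2 * N) := by ring
        rw [h4, hxN] at h3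
        linarith
      exact_mod_cast h2
    have ht4 : 4 ≤ t := hle 4 (by push_cast; linarith)
    have htx : (t : ℝ) ≤ 2 * x := by
      refine le_of_sq_le' ?_ (by linarith)
      have h1 : (t : ℝ) ^ 2 * N ≤ 4 * NF * W ^ 2 := by exact_mod_cast htN
      have h2 : (t : ℝ) ^ 2 * N ≤ (2 * x) ^ 2 * N := by
        have h4 : (2 * x) ^ 2 * (N : ℝ) = 4 * (x ^ 2 * N) := by ring
        rw [h4, hxN]
        linarith
      exact le_of_mul_le_mul_right h2 hNr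
    refine ⟨Y', NF, p, t, hBig, by omega, ?_, hμY, ?_, hen, hNFlt.le, by omega,
      Or.inr ⟨ht4, htN, ?_⟩, hone⟩
    · have hX1 : (1 : ℝ) ≤ X := by exact_mod_cast hX
      have hs2W : s ≤ 2 * W := by
        have := mul_le_mul_of_nonneg_left hX1 hs0.le
        linarith
      have hyR : (R : ℝ) * (s * (W : ℝ) ^ (1 + 2 * r)) ≤ y := by
        have := mul_le_mul_of_nonneg_left hRW hs0.le
        rw [hy]
        linarith
      have h1 := growth (t := (t : ℝ)) hs0 hWr hr hr1 hs2W (Nat.cast_nonneg _)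
        (by rw [← hx]; exact htx) hR0' hyR hR0r (by linarith) hy0.le
      linarith
    · intro i hiW
      have h1 := habs i
      have h2 := hLw i hiW
      exact hle _ (by linarith)
    · have h1 : (s * X) ^ 2 < (2 * (W : ℝ)) ^ 2 := pow_lt_pow_left₀ hsX (by positivity) two_ne_zero
      have h2 := mul_lt_mul_of_pos_right h1 hNr
      have h3 : (NF : ℝ) * X ^ 2 < 4 * W ^ 2 * N := by
        rw [← hs2]
        linarith
      exact_mod_cast h3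

theorem violB (f R0 : ℕ) (r : ℝ) (hr : 0 < r) (hr1 : r ≤ 1) : ∃ R : ℕ, 1 ≤ R ∧
    ∀ (n : ℕ) (b β : Fin 9 → ℕ) (w μ : Fin n → ℕ) (D Y N q W X e : ℕ), Big D Y N q b → 1 ≤ W → 1 ≤ X →
    (R : ℝ) * (W : ℝ) ^ (1 + 2 * r) ≤ Y → (∀ i, R * w i ≤ Y) → N ≤ f * ∑ i with w i ≤ W, w i ^ 2 →
    ∑ i, w i ^ 2 + X ≤ N → Curve D Y b e β μ → D * e < ∑ i, b i * β i + ∑ i, w i * μ i →
    ∃ Y' NF p t : ℕ, Big e Y' NF p β ∧ 1 ≤ t ∧ (R0 : ℝ) * (t : ℝ) ^ (1 + r) ≤ Y' ∧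
      (∀ i, R0 * μ i ≤ Y') ∧ (∀ i, w i ≤ W → μ i ≤ t) ∧ NF ≤ 4 * f * ∑ i with w i ≤ W, μ i ^ 2 ∧
      NF ≤ ∑ i, μ i ^ 2 ∧ ∑ i, μ i ^ 2 ≤ 2 * NF ∧
      ((t = 4 ∧ NF * X < 4 * N) ∨ (4 ≤ t ∧ t ^ 2 * N ≤ 4 * NF * W ^ 2 ∧ NF * X ^ 2 < 4 * W ^ 2 * N)) ∧
      (256 * NF * W ^ 2 < N → ∃ j, w j ≤ W ∧ 0 < μ j ∧ ∀ i, w i ≤ W → 0 < μ i → i = j) :=
  violB0 f R0 r hr.le hr1

end Pool.Agent.SGN
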