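import Pool.Agent.SGN.PropEB
import Pool.Agent.SGN.ViolB

set_option autoImplicit false

/-!
# Module NNBstep: nefness of every level with nine big points (compare SG/NNstep.lean)

`0 < n` and `1 ≤ X`, `1 ≤ N` follow from the hypotheses of `NNB` (`N ≥ 2 Y² ≥ 2`, `N ≤ f ∑ ...`;
`C² W^(2a+4) ≤ X² N^a`). `nefPB_of` (SXN/Crit.lean) gives `(e; β, μ)` with `Curve D Y b e β μ` and the violation;
to prove: `E e (Bm β + univ.val.map μ)`. `violB f R0 ..` gives `Y', NF, p, t`.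
`nnb_zero` (`C² W⁴ ≤ X²`, i.e. `C W² ≤ X`), `violB f R0 (min r 1 / 2)` (`W^(1+2r') ≤ W^(1+r)`), contradiction:
second alternative: `16 N ≤ t² N ≤ 4 NF W²`, `NF X² < 4 W² N ≤ NF W⁴`, so `X² < W⁴`, false. First alternative:
`t = 4`, `NF X < 4 N`, `C W² ≤ X`, `C ≥ 1024`: `256 NF W² < N`, so only one small index has `μ_j > 0` (last
conclusion of `violB`), `μ_j ≤ t = 4`, `NF ≤ 4 f ∑_(w_i ≤ W) μ_i² ≤ 64 f`, but `NF ≥ 2 Y'² ≥ 2 R0²`
(`Big.hY2`, `R0 t^(1+r) ≤ Y'`), `R0 = 100 (f+1)`.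
`nnb_succ`: `C1` from `propEB h (4 f)`, `R0 = 4^(a+2) C1 + C1`: `R` from `violB`, `C = R + 2^(a+4) C1`.
`C1² t^(2a+4) ≤ NF^(a+1)`: `t = 4`: `C1² 4^(2a+4) ≤ R0² ≤ Y'^2 ≤ NF`. Otherwise `t² N ≤ 4 NF W²`, `NF X² < 4 W² N`,
`C² W^(2a+6) ≤ X² N^(a+1)`: `C² NF W^(2a+6) ≤ NF X² N^(a+1) < 4 W² N^(a+2)`, so `C² NF W^(2a+4) < 4 N^(a+2)`;
`C² t^(2a+4) N^(a+2) ≤ C² 4^(a+2) NF^(a+2) W^(2a+4) < 4^(a+3) NF^(a+1) N^(a+2)`.
`propEB` with `ms = univ.val.map μ` (elements with `w_i ≤ W` have `μ_i ≤ t`, so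
`∑_(w_i ≤ W) μ_i² ≤ Sq (ms.filter ≤ t)`).
`nnb_mono`: `W^(1+r) ≤ W^(1+r')`. `nnb_all`: induction on `a` for all `r`: for `a + 1` and `r` use
`nnb_succ` for `min r 1 / 2` and `nnb_mono`.
-/

namespace Pool.Agent.SGN

open MvPolynomial Pool.Agent.helper5.NBS Pool.Agent.helper89.Segre Pool.Agent.SH9
open Pool.Agent.helper25.ST Pool.Agent.helper25.SXN Pool.Agent.SG

private lemma sq_map {n : ℕ} (b : Fin n → ℕ) :
    Sq (Finset.univ.val.map b) = ∑ i, b i ^ 2 := by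
  unfold Sq
  rw [Multiset.map_map]
  rfl

private lemma sq_filter_map {n : ℕ} (b : Fin n → ℕ) (t : ℕ) :
    Sq ((Finset.univ.val.map b).filter fun m => m ≤ t) = ∑ i with b i ≤ t, b i ^ 2 := by
  unfold Sq
  rw [Multiset.filter_map, Multiset.map_map]
  rfl

private lemma rpow_mono_W {W : ℕ} (hW : 1 ≤ W) {x y : ℝ} (h : x ≤ y) :
    (W : ℝ) ^ x ≤ (W : ℝ) ^ y :=
  Real.rpow_le_rpow_of_exponent_le (by exact_mod_cast hW) h

private lemma le_of_rpow {R0 t Y : ℕ} {x : ℝ} (ht : 1 ≤ t) (hx : 0 ≤ x)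
    (h : (R0 : ℝ) * (t : ℝ) ^ x ≤ Y) : R0 ≤ Y := by
  have h1 : (1 : ℝ) ≤ (t : ℝ) ^ x := Real.one_le_rpow (by exact_mod_cast ht) hx
  have h2 : (R0 : ℝ) * 1 ≤ (R0 : ℝ) * (t : ℝ) ^ x := mul_le_mul_of_nonneg_left h1 (Nat.cast_nonneg _)
  have h3 : (R0 : ℝ) ≤ Y := by linarith
  exact_mod_cast h3

private lemma mul_rpow_mono {R C W Y : ℕ} {x y : ℝ} (hW : 1 ≤ W) (hR : R ≤ C) (hxy : x ≤ y)
    (h : (C : ℝ) * (W : ℝ) ^ y ≤ Y) : (R : ℝ) * (W : ℝ) ^ x ≤ Y := by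
  have h1 : (W : ℝ) ^ x ≤ (W : ℝ) ^ y := rpow_mono_W hW hxy
  have h0 : (0 : ℝ) ≤ (W : ℝ) ^ y := Real.rpow_nonneg (Nat.cast_nonneg _) _
  have h2 : (R : ℝ) ≤ C := by exact_mod_cast hR
  calc (R : ℝ) * (W : ℝ) ^ x ≤ (R : ℝ) * (W : ℝ) ^ y :=
        mul_le_mul_of_nonneg_left h1 (Nat.cast_nonneg _)
    _ ≤ (C : ℝ) * (W : ℝ) ^ y := mul_le_mul_of_nonneg_right h2 h0
    _ ≤ Y := h

private lemma pos_n {n N Y f W : ℕ} {w : Fin n → ℕ} (hY : 1 ≤ Y) (hY2 : 2 * Y ^ 2 ≤ N)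
    (hf : N ≤ f * ∑ i with w i ≤ W, w i ^ 2) : 0 < n := by
  rcases Nat.eq_zero_or_pos n with h | h
  · exfalso
    subst h
    have h1 : ∑ i with w i ≤ W, w i ^ 2 = 0 := by
      apply Finset.sum_eq_zero
      intro i _
      exact i.elim0
    rw [h1, mul_zero] at hf
    have h2 : 1 ≤ Y ^ 2 := Nat.one_le_pow _ _ hY
    omega
  · exact h

theorem nnb_mono {a : ℕ} {r r' : ℝ} (hrr : r ≤ r') (h : NNB a r) : NNB a r' := by
  intro f
  obtain ⟨C, hC, hN⟩ := h f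
  refine ⟨C, hC, ?_⟩
  intro n b w D Y N q W X hB hW hCW hCw hf hX hsq
  exact hN n b w D Y N q W X hB hW (mul_rpow_mono hW le_rfl (by linarith) hCW) hCw hf hX hsq

theorem nnb_zero {r : ℝ} (hr : 0 < r) : NNB 0 r := by
  intro f
  have hm0 : 0 < min r 1 := lt_min hr one_pos
  have hm1 : min r 1 ≤ 1 := min_le_right _ _
  have hmr : min r 1 ≤ r := min_le_left _ _
  obtain ⟨R, hR1, hR⟩ := violB f (100 * (f + 1)) (min r 1 / 2) (by linarith) (by linarith)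
  refine ⟨R + 1024, by omega, ?_⟩
  intro n b w D Y N q W X hB hW hCW hCw hf hX hsq
  have hn : 0 < n := pos_n hB.hY hB.hY2 hf
  have hX2 : (R + 1024) ^ 2 * W ^ 4 ≤ X ^ 2 := by simpa using hX
  have hX' : (R + 1024) * W ^ 2 ≤ X := by
    have h1 : ((R + 1024) * W ^ 2) ^ 2 ≤ X ^ 2 := by
      calc ((R + 1024) * W ^ 2) ^ 2 = (R + 1024) ^ 2 * W ^ 4 := by ring
        _ ≤ X ^ 2 := hX2
    exact (Nat.pow_le_pow_iff_left (by norm_num)).mp h1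
  have hW2 : 1 ≤ W ^ 2 := Nat.one_le_pow _ _ hW
  have hXW : 1024 * W ^ 2 ≤ X := le_trans (Nat.mul_le_mul_right _ (by omega)) hX'
  have hX1 : 1 ≤ X := by omega
  refine nefPB_of w hn hB.pos ?_
  intro e β μ hcu hv
  exfalso
  obtain ⟨Y', NF, p, t, hB', ht, hRt, hRμ, hμt, hNFf, hNF1, hNF2, hcase, hone⟩ :=
    hR n b β w μ D Y N q W X e hB hW hX1
      (mul_rpow_mono hW (by omega) (by linarith) hCW)
      (fun i => le_trans (Nat.mul_le_mul_right _ (by omega)) (hCw i)) hf hsq hcu hv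
  have hY' : 100 * (f + 1) ≤ Y' := le_of_rpow ht (by linarith) hRt
  have hNFb : 2 * (100 * (f + 1)) ^ 2 ≤ NF :=
    (Nat.mul_le_mul_left 2 (Nat.pow_le_pow_left hY' 2)).trans hB'.hY2
  have hNF0 : 0 < NF := by
    have h1 : 0 < 2 * (100 * (f + 1)) ^ 2 := by positivity
    omega
  rcases hcase with ⟨h4, hXe⟩ | ⟨h4, htN, hXe⟩
  · subst h4
    have h1 : NF * (1024 * W ^ 2) ≤ NF * X := Nat.mul_le_mul_left _ hXW
    have h2 : 256 * NF * W ^ 2 < N := by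
      have h3 : NF * (1024 * W ^ 2) = 4 * (256 * NF * W ^ 2) := by ring
      omega
    obtain ⟨j, hjW, hj0, hju⟩ := hone h2
    have h5 : ∑ i with w i ≤ W, μ i ^ 2 ≤ 16 := by
      have h6 : ∑ i with w i ≤ W, μ i ^ 2 = μ j ^ 2 := by
        apply Finset.sum_eq_single j
        · intro i hi hij
          rw [Finset.mem_filter] at hi
          have h7 : μ i = 0 := by
            by_contra h8
            exact hij (hju i hi.2 (Nat.pos_of_ne_zero h8))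
          rw [h7]
          rfl
        · intro hj
          exact absurd (Finset.mem_filter.mpr ⟨Finset.mem_univ j, hjW⟩) hj
      rw [h6]
      have h7 : μ j ≤ 4 := hμt j hjW
      calc μ j ^ 2 ≤ 4 ^ 2 := Nat.pow_le_pow_left h7 2
        _ = 16 := by norm_num
    have h6 : NF ≤ 4 * f * 16 := hNFf.trans (Nat.mul_le_mul_left _ h5)
    have h7 : 2 * (100 * (f + 1)) ^ 2 = 20000 * f ^ 2 + 40000 * f + 20000 := by ring
    have h8 : 4 * f * 16 = 64 * f := by ring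
    have h9 : 0 ≤ f ^ 2 := Nat.zero_le _
    omega
  · have h1 : 16 * N ≤ t ^ 2 * N := Nat.mul_le_mul_right _ (by
      have : 4 ^ 2 ≤ t ^ 2 := Nat.pow_le_pow_left h4 2
      omega)
    have h2 : 4 * N ≤ NF * W ^ 2 := by
      have h3 : 4 * NF * W ^ 2 = 4 * (NF * W ^ 2) := by ring
      omega
    have h3 : NF * X ^ 2 < NF * W ^ 4 := by
      calc NF * X ^ 2 < 4 * W ^ 2 * N := hXe
        _ = W ^ 2 * (4 * N) := by ring
        _ ≤ W ^ 2 * (NF * W ^ 2) := Nat.mul_le_mul_left _ h2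
        _ = NF * W ^ 4 := by ring
    have h4' : X ^ 2 < W ^ 4 := Nat.lt_of_mul_lt_mul_left h3
    have h5 : 1 * W ^ 4 ≤ (R + 1024) ^ 2 * W ^ 4 :=
      Nat.mul_le_mul_right _ (Nat.one_le_pow _ _ (by omega))
    omega

/-- the growth condition for the new cutoff, second alternative -/
private lemma grow {a C C1 W X N NF t : ℕ} (hW : 1 ≤ W) (hN : 1 ≤ N) (hC : 2 ^ (a + 4) * C1 ≤ C)
    (hX : C ^ 2 * W ^ (2 * (a + 1) + 4) ≤ X ^ 2 * N ^ (a + 1)) (htN : t ^ 2 * N ≤ 4 * NF * W ^ 2)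
    (hXe : NF * X ^ 2 < 4 * W ^ 2 * N) : C1 ^ 2 * t ^ (2 * a + 4) ≤ NF ^ (a + 1) := by
  have h1 : W ^ 2 * (C ^ 2 * NF * W ^ (2 * a + 4)) ≤ W ^ 2 * (4 * N ^ (a + 2)) := by
    calc W ^ 2 * (C ^ 2 * NF * W ^ (2 * a + 4)) = NF * (C ^ 2 * W ^ (2 * (a + 1) + 4)) := by ring
      _ ≤ NF * (X ^ 2 * N ^ (a + 1)) := Nat.mul_le_mul_left _ hX
      _ = (NF * X ^ 2) * N ^ (a + 1) := by ring
      _ ≤ (4 * W ^ 2 * N) * N ^ (a + 1) := Nat.mul_le_mul_right _ hXe.le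
      _ = W ^ 2 * (4 * N ^ (a + 2)) := by ring
  have h2 : C ^ 2 * NF * W ^ (2 * a + 4) ≤ 4 * N ^ (a + 2) :=
    Nat.le_of_mul_le_mul_left h1 (Nat.pow_pos (by omega))
  have h3 : N ^ (a + 2) * (C ^ 2 * t ^ (2 * a + 4)) ≤ N ^ (a + 2) * (4 ^ (a + 3) * NF ^ (a + 1)) := by
    calc N ^ (a + 2) * (C ^ 2 * t ^ (2 * a + 4)) = C ^ 2 * (t ^ 2 * N) ^ (a + 2) := by
          rw [mul_pow, ← pow_mul, show 2 * (a + 2) = 2 * a + 4 by ring]
          ring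
      _ ≤ C ^ 2 * (4 * NF * W ^ 2) ^ (a + 2) := Nat.mul_le_mul_left _ (Nat.pow_le_pow_left htN _)
      _ = 4 ^ (a + 2) * NF ^ (a + 1) * (C ^ 2 * NF * W ^ (2 * a + 4)) := by
          rw [mul_pow, mul_pow, ← pow_mul, show 2 * (a + 2) = 2 * a + 4 by ring]
          ring
      _ ≤ 4 ^ (a + 2) * NF ^ (a + 1) * (4 * N ^ (a + 2)) := Nat.mul_le_mul_left _ h2
      _ = N ^ (a + 2) * (4 ^ (a + 3) * NF ^ (a + 1)) := by ring
  have h4 : C ^ 2 * t ^ (2 * a + 4) ≤ 4 ^ (a + 3) * NF ^ (a + 1) :=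
    Nat.le_of_mul_le_mul_left h3 (Nat.pow_pos (by omega))
  have h5 : 4 ^ (a + 3) * (C1 ^ 2 * t ^ (2 * a + 4)) ≤ 4 ^ (a + 3) * NF ^ (a + 1) := by
    calc 4 ^ (a + 3) * (C1 ^ 2 * t ^ (2 * a + 4)) ≤ (2 ^ (a + 4) * C1) ^ 2 * t ^ (2 * a + 4) := by
          rw [← mul_assoc]
          apply Nat.mul_le_mul_right
          rw [mul_pow]
          apply Nat.mul_le_mul_right
          have h6 : (2 ^ (a + 4)) ^ 2 = 4 ^ (a + 4) := by
            rw [← pow_mul, mul_comm (a + 4) 2, pow_mul]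
            norm_num
          rw [h6]
          exact Nat.pow_le_pow_right (by norm_num) (by omega)
      _ ≤ C ^ 2 * t ^ (2 * a + 4) := Nat.mul_le_mul_right _ (Nat.pow_le_pow_left hC 2)
      _ ≤ _ := h4
  exact Nat.le_of_mul_le_mul_left h5 (Nat.pow_pos (by norm_num))

theorem nnb_succ {a : ℕ} {r : ℝ} (hr : 0 < r) (hr1 : r ≤ 1) (h : NNB a r) : NNB (a + 1) (2 * r) := by
  intro f
  obtain ⟨C1, hC1, hE⟩ := propEB hr h (4 * f)
  obtain ⟨R, hR1, hR⟩ := violB f (4 ^ (a + 2) * C1 + C1) r hr hr1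
  refine ⟨R + 2 ^ (a + 4) * C1, by omega, ?_⟩
  intro n b w D Y N q W X hB hW hCW hCw hf hX hsq
  have hn : 0 < n := pos_n hB.hY hB.hY2 hf
  have hN1 : 1 ≤ N := by
    have h1 : 1 ≤ Y ^ 2 := Nat.one_le_pow _ _ hB.hY
    have := hB.hY2
    omega
  have hX1 : 1 ≤ X := by
    rcases Nat.eq_zero_or_pos X with h0 | h0
    · exfalso
      subst h0
      have h1 : 0 < (R + 2 ^ (a + 4) * C1) ^ 2 * W ^ (2 * (a + 1) + 4) :=
        Nat.mul_pos (Nat.pow_pos (by omega)) (Nat.pow_pos (by omega))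
      have h2 : 0 ^ 2 * N ^ (a + 1) = 0 := by
        rw [zero_pow (by norm_num), zero_mul]
      omega
    · exact h0
  refine nefPB_of w hn hB.pos ?_
  intro e β μ hcu hv
  obtain ⟨Y', NF, p, t, hB', ht, hRt, hRμ, hμt, hNFf, hNF1, hNF2, hcase, -⟩ :=
    hR n b β w μ D Y N q W X e hB hW hX1
      (mul_rpow_mono hW (by omega) le_rfl hCW)
      (fun i => le_trans (Nat.mul_le_mul_right _ (by omega)) (hCw i)) hf hsq hcu hv
  have hC1R : C1 ≤ 4 ^ (a + 2) * C1 + C1 := Nat.le_add_left _ _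
  refine hE e t Y' NF p β (Finset.univ.val.map μ) hB' ht
    (mul_rpow_mono ht hC1R le_rfl hRt) ?_ ?_ ?_ ?_ ?_
  · rcases hcase with ⟨h4, -⟩ | ⟨-, htN, hXe⟩
    · subst h4
      have hY' : 4 ^ (a + 2) * C1 + C1 ≤ Y' := le_of_rpow ht (by linarith) hRt
      have h1 : C1 ^ 2 * 4 ^ (2 * a + 4) = (4 ^ (a + 2) * C1) ^ 2 := by
        rw [mul_pow, ← pow_mul, show (a + 2) * 2 = 2 * a + 4 by ring]
        ring
      have h2 : (4 ^ (a + 2) * C1) ^ 2 ≤ Y' ^ 2 := Nat.pow_le_pow_left (by omega) 2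
      have h3 := hB'.hY2
      have h4 : NF ≤ NF ^ (a + 1) := Nat.le_self_pow (by omega) NF
      omega
    · exact grow hW hN1 (Nat.le_add_left _ _) hX htN hXe
  · rw [sq_filter_map]
    refine hNFf.trans (Nat.mul_le_mul_left _ ?_)
    apply Finset.sum_le_sum_of_subset
    intro i hi
    rw [Finset.mem_filter] at hi ⊢
    exact ⟨hi.1, hμt i hi.2⟩
  · intro m hm
    rw [Multiset.mem_map] at hm
    obtain ⟨i, _, rfl⟩ := hm
    exact (Nat.mul_le_mul_right _ hC1R).trans (hRμ i)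
  · rw [sq_map]; exact hNF1
  · rw [sq_map]; exact hNF2

theorem nnb_all (a : ℕ) {r : ℝ} (hr : 0 < r) : NNB a r := by
  induction a generalizing r with
  | zero => exact nnb_zero hr
  | succ a ih =>
    have hm0 : 0 < min r 1 := lt_min hr one_pos
    have hm1 : min r 1 ≤ 1 := min_le_right _ _
    have hmr : min r 1 ≤ r := min_le_left _ _
    have h1 : NNB a (min r 1 / 2) := ih (by linarith)
    have h2 := nnb_succ (by linarith) (by linarith) h1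
    exact nnb_mono (by linarith) h2

end Pool.Agent.SGN
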