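import Pool.Agent.SGN.Defs

set_option autoImplicit false

/-!
# Module NefEB: empty and regular systems from `NNB a r` (nine big points)

`big_q_pos`: `q ≥ 1`: `(∑ b)^2 ≤ 9 ∑ b^2 < 9 D^2` (`N ≥ 2 Y^2 > 0`).
`big_step`: `Big D Y N q b` implies `Big (D + 3k) Y (N + 2 (k q)) q (b + k)` (`pos_upK`, `sum_add_sq`,
`sum_add_one` in helper25/SXQ/Defs.lean).
`two_vvB`: `2 vv d (Bm b + ms) = N + q + 2 - Sq ms - Sm ms` (`two_cd_Bm`, `two_cd'`, `two_choose`).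

`empB` (compare `finNQ` in helper25/SXQ/FinN.lean and `empN` in SG/NefE.lean): smallest `k` with
`Sq ms + X ≤ N + 2 k q`. As `Sq ms + X > N` we have `k ≥ 1` and `N + 2 (k-1) q < Sq + X`, so
`N' := N + 2kq < Sq + X + 2q ≤ (2A+1) N`-ish (`X ≤ Sq ≤ A N`, `2q ≤ N`): `NNB` for `f' = (2A+1) f`, the class
`(d+3k; b+k; m)`: nef. Its product with `(d; b; m)` is
`(d+3k) d - ∑ (b+k) b - Sq = N + k q - Sq < 0`: `2 k q < Sq + X - N + 2 q` and `N + 2q + X + 1 ≤ Sq` give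
`2 (N + k q) < N + Sq + X + 2q < 2 Sq`. So empty (the private lemma `finNK` of SXQ/FinN.lean; copy it).
(`n > 0` as `Sq ms > 0`.)

`regB` (compare `regN`): KV (`goodP` in helper25/ST/FinP.lean) with the class `(d+3; b+1; m+1)`,
self-intersection `N + 2q - S2 ≥ X`: `2 vv ≥ 2 S1` gives `S2 = Sq + Sm + S1 ≤ N + q + 2 - S1`, and
`X + 2 ≤ S1 + q`. `NNB` for `16 f`, `W + 1 ≤ 2W`, `C = C0 2^(a+4) + ..` (`(C0 (W+1)^(a+2))^2 ≤ (C W^(a+2))^2`;
`C0 (W+1)^(1+r) ≤ C0 2^(1+r) W^(1+r)`), weights `m + 1` (`m = 0`: `C0 ≤ Y`). Other hypotheses of `goodP`: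
`∑ (m_l+1)^2 < (d+3)^2` over all points: `∑ (b+1)^2 + S2 < (d+3)^2` iff `S2 < N + 2q` ok (`X ≥ 1`);
`∑ (m_l+2).choose 2 < (d+5).choose 2`: `vv` of `(d+3; b+1, m+1)` is positive: `2 * = (N+2q) + q - S2 - S1 + 2 > 0`
since `S2 + S1 ≤ N + q + 2`. Then `hh_of_good`.
-/

namespace Pool.Agent.SGN

open MvPolynomial Pool.Agent.helper5.NBS Pool.Agent.helper89.Segre Pool.Agent.SH9
open Pool.Agent.helper25.ST Pool.Agent.helper25.SXN Pool.Agent.SG

private lemma exF (ms : Multiset ℕ) : ∃ n : ℕ, ∃ m : Fin n → ℕ, Finset.univ.val.map m = ms :=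
  ⟨_, exists_fin ms⟩

private lemma Sq_map {n : ℕ} (m : Fin n → ℕ) : Sq (Finset.univ.val.map m) = ∑ i, m i ^ 2 := by
  rw [Sq, Multiset.map_map]
  rfl

private lemma Sq_filter_map {n : ℕ} (m : Fin n → ℕ) (W : ℕ) :
    Sq ((Finset.univ.val.map m).filter fun x => x ≤ W) = ∑ i with m i ≤ W, m i ^ 2 := by
  rw [Multiset.filter_map, Sq, Multiset.map_map]
  rfl

private lemma append_succ {n : ℕ} (b : Fin 9 → ℕ) (m : Fin n → ℕ) :
    (fun i => Fin.append b m i + 1) = Fin.append (fun i => b i + 1) (fun i => m i + 1) := by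
  funext i
  refine Fin.addCases (fun j => ?_) (fun j => ?_) i
  · simp
  · simp

private lemma sum_succ_sq {n : ℕ} (b : Fin 9 → ℕ) (m : Fin n → ℕ) :
    ∑ l, (Fin.append b m l + 1) ^ 2 = ∑ i, (b i + 1) ^ 2 + ∑ i, (m i + 1) ^ 2 := by
  rw [Fin.sum_univ_add]
  simp

private lemma sum_succ_choose {n : ℕ} (b : Fin 9 → ℕ) (m : Fin n → ℕ) :
    ∑ l, (Fin.append b m l + 2).choose 2 =
      ∑ i, (b i + 2).choose 2 + ∑ i, (m i + 2).choose 2 := by
  rw [Fin.sum_univ_add]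
  simp

private lemma two_sum_choose (b : Fin 9 → ℕ) :
    2 * ∑ i, (b i + 2).choose 2 = ∑ i, b i ^ 2 + 3 * ∑ i, b i + 18 := by
  have h : ∀ i : Fin 9, 2 * (b i + 2).choose 2 = b i ^ 2 + 3 * b i + 2 := by
    intro i
    rw [two_choose (b i)]
    ring
  rw [Finset.mul_sum, Finset.sum_congr rfl fun i _ => h i, Finset.sum_add_distrib,
    Finset.sum_add_distrib, ← Finset.mul_sum]
  simp

private lemma sum_sq_fin' {n : ℕ} (m : Fin n → ℕ) :
    ∑ i, (m i + 1) ^ 2 = S2 (Finset.univ.val.map m) := by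
  rw [S2, Multiset.map_map]
  rfl

private lemma sum_one_fin' {n : ℕ} (m : Fin n → ℕ) :
    ∑ i, (m i + 1) = S1 (Finset.univ.val.map m) := by
  rw [S1, Multiset.map_map]
  rfl

private lemma sum_choose_fin' {n : ℕ} (m : Fin n → ℕ) :
    2 * ∑ i, (m i + 2).choose 2 = S2 (Finset.univ.val.map m) + S1 (Finset.univ.val.map m) := by
  rw [← sum_sq_fin', ← sum_one_fin', Finset.mul_sum, ← Finset.sum_add_distrib]
  apply Finset.sum_congr rfl
  intro i _
  rw [two_choose (m i)]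
  ring

/-- a nef class with negative intersection -/
private theorem finNK {d k n : ℕ} {b : Fin 9 → ℕ} {m : Fin n → ℕ}
    (hNef : NefP (d + 3 * k) (Fin.append (fun i => b i + k) m))
    (hD : (d + 3 * k) * d < ∑ i, (b i + k) * b i + ∑ i, m i ^ 2) :
    E d (Finset.univ.val.map (Fin.append b m)) := by
  classical
  obtain ⟨S, hSc, hS0, hSq⟩ := hNef
  obtain ⟨x, hx⟩ := Pool.Agent.helper7.SC.exists_avoid S hSc hS0
  let q : Fin (9 + n) → Fin 2 → ℂ := fun i l => x (i, l)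
  have hq : ∀ Q ∈ S, evP q Q ≠ 0 := fun Q hQ => hx Q hQ
  obtain ⟨_, hnef⟩ := hSq q hq
  refine E_of_emp (p := q) ?_
  intro F hF hmem
  by_contra hF0
  have h1 := hnef F hF0
  have h2 : ∑ i, Fin.append (fun i => b i + k) m i * Fin.append b m i ≤
      ∑ i, Fin.append (fun i => b i + k) m i * mult (q i) F := by
    apply Finset.sum_le_sum
    intro i _
    exact Nat.mul_le_mul le_rfl ((mem_pow_iff_le_mult hF0).mp (hmem i))
  have h3 := Nat.mul_le_mul (le_refl (d + 3 * k)) hF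
  have h4 : ∑ i, Fin.append (fun i => b i + k) m i * Fin.append b m i =
      ∑ i, (b i + k) * b i + ∑ i, m i ^ 2 := by
    rw [Fin.sum_univ_add]
    simp only [Fin.append_left, Fin.append_right]
    congr 1
    exact Finset.sum_congr rfl fun i _ => by ring
  omega

/-- the number of steps -/
private lemma numK {N X S q : ℕ} (hq : 1 ≤ q) (h : N + 2 * q + X + 1 ≤ S) :
    ∃ k : ℕ, S + X ≤ N + 2 * (k * q) ∧ N + 2 * (k * q) ≤ S + X + 2 * q ∧ N + k * q < S := by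
  obtain ⟨x, hx⟩ := Nat.exists_eq_add_of_le (show N ≤ S + X by omega)
  obtain ⟨k, hk⟩ : ∃ k, k = x / (2 * q) + 1 := ⟨_, rfl⟩
  have h1 : x < 2 * q * k := by
    rw [hk]
    exact Nat.lt_mul_div_succ _ (by omega)
  have h2 : 2 * q * k ≤ x + 2 * q := by
    rw [hk, mul_add, mul_one]
    exact Nat.add_le_add_right (Nat.mul_div_le _ _) _
  have h3 : 2 * q * k = 2 * (k * q) := by ring
  exact ⟨k, by omega, by omega, by omega⟩

lemma big_q_pos {D Y N q : ℕ} {b : Fin 9 → ℕ} (h : Big D Y N q b) : 1 ≤ q := by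
  rcases Nat.eq_zero_or_pos q with h0 | h0
  · exfalso
    have h1 := h.hN
    have h2 := h.hq
    have h3 := h.hY
    have h4 := h.hY2
    rw [h0, add_zero] at h2
    have h5 : (∑ i, b i) ^ 2 ≤ 9 * ∑ i, b i ^ 2 := by
      have := sq_sum_le_card_mul_sum_sq (s := (Finset.univ : Finset (Fin 9))) (f := b)
      simpa using this
    rw [h2] at h5
    nlinarith
  · exact h0

lemma big_step {D Y N q : ℕ} {b : Fin 9 → ℕ} (h : Big D Y N q b) (k : ℕ) :
    Big (D + 3 * k) Y (N + 2 * (k * q)) q (fun i => b i + k) := by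
  have h1 := h.hN
  have h2 := h.hq
  refine ⟨Pool.Agent.helper25.SXQ.pos_upK h.pos k, ?_, ?_, h.hY, ?_, ?_⟩
  · rw [Pool.Agent.helper25.SXQ.sum_add_sq]
    have e1 : (D + 3 * k) ^ 2 = D ^ 2 + 2 * k * (3 * D) + 9 * k ^ 2 := by ring
    have e2 : 2 * k * (∑ i, b i + q) = 2 * k * ∑ i, b i + 2 * (k * q) := by ring
    rw [e1, ← h2, e2]
    omega
  · rw [Pool.Agent.helper25.SXQ.sum_add_one]
    omega
  · exact h.hYq.trans (Nat.le_add_right _ _)
  · exact h.hY2.trans (Nat.le_add_right _ _)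

private lemma two_vvB_nat {D Y N q : ℕ} {b : Fin 9 → ℕ} (h : Big D Y N q b) (ms : Multiset ℕ) :
    2 * (D + 2).choose 2 = 2 * cd (Bm b + ms) + (N + q + 2) - Sq ms - Sm ms ∧
      Sq ms + Sm ms ≤ 2 * cd (Bm b + ms) := by
  have h1 := h.hN
  have h2 := h.hq
  have h3 := two_cd_Bm b
  have h4 := two_cd' ms
  have h5 := two_choose D
  have h6 : (D + 1) * (D + 2) = D ^ 2 + 3 * D + 2 := by ring
  have h7 := cd_add (Bm b) ms
  omega

lemma two_vvB {D Y N q : ℕ} {b : Fin 9 → ℕ} (h : Big D Y N q b) (ms : Multiset ℕ) :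
    2 * vv D (Bm b + ms) = (N : ℝ) + q + 2 - (Sq ms : ℕ) - (Sm ms : ℕ) := by
  obtain ⟨h1, h2⟩ := two_vvB_nat h ms
  have h3 : 2 * (D + 2).choose 2 + Sq ms + Sm ms = 2 * cd (Bm b + ms) + (N + q + 2) := by omega
  have h4 : ((2 * (D + 2).choose 2 + Sq ms + Sm ms : ℕ) : ℝ) =
      ((2 * cd (Bm b + ms) + (N + q + 2) : ℕ) : ℝ) := by rw [h3]
  push_cast at h4
  unfold vv
  linarith

theorem empB {a : ℕ} {r : ℝ} (h : NNB a r) (f A : ℕ) : ∃ C : ℕ, 1 ≤ C ∧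
    ∀ (d Y N q W X : ℕ) (b : Fin 9 → ℕ) (ms : Multiset ℕ), Big d Y N q b → 1 ≤ W →
    (C : ℝ) * (W : ℝ) ^ (1 + r) ≤ Y → (∀ m ∈ ms, C * m ≤ Y) →
    N ≤ f * Sq (ms.filter fun m => m ≤ W) → Sq ms ≤ A * N →
    C ^ 2 * W ^ (2 * a + 4) ≤ X ^ 2 * N ^ a → N + 2 * q + X + 1 ≤ Sq ms → E d (Bm b + ms) := by
  obtain ⟨C, hC, hNN⟩ := h ((2 * A + 1) * f)
  refine ⟨C, hC, ?_⟩
  intro d Y N q W X b ms hB hW hCW hCm hf hA hX hS
  obtain ⟨n, m, rfl⟩ := exF ms
  rw [Sq_filter_map] at hf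
  rw [Sq_map] at hA hS
  obtain ⟨k, k1, k2, k3⟩ := numK (big_q_pos hB) hS
  have hB' := big_step hB k
  have hY := hB.hY
  have hYq := hB.hYq
  have hq2 : 2 * q ≤ N := by
    have h1 : q ≤ Y * q := Nat.le_mul_of_pos_left q hY
    omega
  have hN' : N + 2 * (k * q) ≤ (2 * A + 1) * N := by
    have h1 : (2 * A + 1) * N = 2 * (A * N) + N := by ring
    omega
  have hP := hNN n (fun i => b i + k) m (d + 3 * k) Y (N + 2 * (k * q)) q W X hB' hW hCW
    (fun i => hCm (m i) (Multiset.mem_map_of_mem m (Finset.mem_univ_val i)))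
    (calc N + 2 * (k * q) ≤ (2 * A + 1) * N := hN'
      _ ≤ (2 * A + 1) * (f * ∑ i with m i ≤ W, m i ^ 2) := Nat.mul_le_mul_left _ hf
      _ = (2 * A + 1) * f * ∑ i with m i ≤ W, m i ^ 2 := by ring)
    (hX.trans (Nat.mul_le_mul_left _ (Nat.pow_le_pow_left (Nat.le_add_right _ _) a))) k1
  rw [← map_append']
  refine finNK hP ?_
  have h1 := hB.hN
  have h2 := hB.hq
  have e1 : (d + 3 * k) * d = d ^ 2 + k * (3 * d) := by ring
  have e2 : ∑ i, (b i + k) * b i = ∑ i, b i ^ 2 + k * ∑ i, b i := by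
    rw [Finset.mul_sum, ← Finset.sum_add_distrib]
    exact Finset.sum_congr rfl fun i _ => by ring
  have e3 : k * (∑ i, b i + q) = k * ∑ i, b i + k * q := by ring
  rw [e1, e2, ← h2, e3]
  omega

private lemma rpow_succ_le {W : ℕ} (hW : 1 ≤ W) (t : ℝ) :
    ((W + 1 : ℕ) : ℝ) ^ t ≤ ((⌈(2 : ℝ) ^ t⌉₊ + 1 : ℕ) : ℝ) * (W : ℝ) ^ t := by
  have hW1 : (1 : ℝ) ≤ W := by exact_mod_cast hW
  have hW0 : (0 : ℝ) < W := by linarith
  have hWt : 0 < (W : ℝ) ^ t := Real.rpow_pos_of_pos hW0 t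
  rcases le_total 0 t with ht | ht
  · have h1 : ((W + 1 : ℕ) : ℝ) ≤ 2 * W := by
      push_cast
      linarith
    have h2 : ((W + 1 : ℕ) : ℝ) ^ t ≤ (2 * (W : ℝ)) ^ t :=
      Real.rpow_le_rpow (by positivity) h1 ht
    rw [Real.mul_rpow (by norm_num) hW0.le] at h2
    have h3 : (2 : ℝ) ^ t ≤ ((⌈(2 : ℝ) ^ t⌉₊ + 1 : ℕ) : ℝ) := by
      push_cast
      have := Nat.le_ceil ((2 : ℝ) ^ t)
      linarith
    exact h2.trans (mul_le_mul_of_nonneg_right h3 hWt.le)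
  · have h1 : ((W + 1 : ℕ) : ℝ) ^ t ≤ (W : ℝ) ^ t := by
      apply Real.rpow_le_rpow_of_nonpos hW0 _ ht
      push_cast
      linarith
    have h3 : (1 : ℝ) ≤ ((⌈(2 : ℝ) ^ t⌉₊ + 1 : ℕ) : ℝ) := by
      push_cast
      have : (0 : ℝ) ≤ (⌈(2 : ℝ) ^ t⌉₊ : ℝ) := Nat.cast_nonneg _
      linarith
    calc ((W + 1 : ℕ) : ℝ) ^ t ≤ 1 * (W : ℝ) ^ t := by rw [one_mul]; exact h1
      _ ≤ _ := mul_le_mul_of_nonneg_right h3 hWt.le

theorem regB {a : ℕ} {r : ℝ} (h : NNB a r) (f : ℕ) : ∃ C : ℕ, 1 ≤ C ∧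
    ∀ (d Y N q W X : ℕ) (b : Fin 9 → ℕ) (ms : Multiset ℕ), Big d Y N q b → 1 ≤ W → 1 ≤ X →
    (C : ℝ) * (W : ℝ) ^ (1 + r) ≤ Y → (∀ m ∈ ms, C * m ≤ Y) →
    N ≤ f * Sq (ms.filter fun m => m ≤ W) → X + 2 ≤ S1 ms + q →
    C ^ 2 * W ^ (2 * a + 4) ≤ X ^ 2 * N ^ a → ((S1 ms : ℕ) : ℝ) ≤ vv d (Bm b + ms) →
    (hh d (Bm b + ms) : ℝ) = vv d (Bm b + ms) := by
  obtain ⟨C0, hC0, hNN⟩ := h (2 * f)
  obtain ⟨K, hK⟩ : ∃ K : ℕ, K = ⌈(2 : ℝ) ^ (1 + r)⌉₊ + 1 := ⟨_, rfl⟩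
  refine ⟨C0 * (K + 2 ^ (a + 2)), ?_, ?_⟩
  · exact Nat.mul_pos hC0 (Nat.add_pos_right _ (Nat.two_pow_pos _))
  intro d Y N q W X b ms hB hW hX1 hCW hCm hf hXS hX hS
  obtain ⟨n, m, rfl⟩ := exF ms
  rw [Sq_filter_map] at hf
  have hB' := big_step hB 1
  have hY := hB.hY
  have hY2 := hB.hY2
  have hYq := hB.hYq
  have hq0 := big_q_pos hB
  have hN0 : 1 ≤ N := by
    have : 1 ≤ Y ^ 2 := Nat.one_le_pow _ _ hY
    omega
  have hq2 : 2 * q ≤ N := by
    have h1 : q ≤ Y * q := Nat.le_mul_of_pos_left q hY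
    omega
  -- some multiplicity is positive
  obtain ⟨i0, hi0⟩ : ∃ i, 1 ≤ m i := by
    by_contra hne
    have h0 : ∑ i with m i ≤ W, m i ^ 2 = 0 := by
      apply Finset.sum_eq_zero
      intro i _
      have h1 : m i = 0 := by
        by_contra h2
        exact hne ⟨i, by omega⟩
      rw [h1]
      rfl
    rw [h0, mul_zero] at hf
    omega
  have hp2 : 4 ≤ 2 ^ (a + 2) := by
    have h1 : 1 ≤ 2 ^ a := Nat.one_le_two_pow
    have h2 : 2 ^ (a + 2) = 4 * 2 ^ a := by ring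
    omega
  have hCY : 2 * C0 ≤ Y := by
    have h1 := hCm (m i0) (Multiset.mem_map_of_mem m (Finset.mem_univ_val i0))
    have h2 : C0 * (K + 2 ^ (a + 2)) * 1 ≤ C0 * (K + 2 ^ (a + 2)) * m i0 :=
      Nat.mul_le_mul_left _ hi0
    have h3 : C0 * 2 ≤ C0 * (K + 2 ^ (a + 2)) := Nat.mul_le_mul_left _ (by omega)
    omega
  have e0 := two_cd_Bm b
  have e1 := two_cd (Finset.univ.val.map m)
  have e2 := two_choose d
  have e2' : (d + 1) * (d + 2) = d ^ 2 + 3 * d + 2 := by ring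
  have e3 := two_choose (d + 3)
  have e3' : (d + 3 + 1) * (d + 3 + 2) = d ^ 2 + 9 * d + 20 := by ring
  have s1 := sum_sq_fin' m
  have s1' := sum_one_fin' m
  have s2 := sum_choose_fin' m
  have b2 := two_sum_choose b
  have hN := hB.hN
  have hq := hB.hq
  have hN' := hB'.hN
  have hcd : cd (Bm b + Finset.univ.val.map m) = cd (Bm b) + cd (Finset.univ.val.map m) :=
    cd_add _ _
  have hR : cd (Bm b + Finset.univ.val.map m) + S1 (Finset.univ.val.map m) ≤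
      (d + 2).choose 2 := by
    unfold vv at hS
    have h1 : ((cd (Bm b + Finset.univ.val.map m) + S1 (Finset.univ.val.map m) : ℕ) : ℝ) ≤
        (((d + 2).choose 2 : ℕ) : ℝ) := by
      rw [Nat.cast_add]
      linarith
    exact_mod_cast h1
  have hSS : S2 (Finset.univ.val.map m) + S1 (Finset.univ.val.map m) ≤ N + q + 2 := by omega
  have hCW' : (C0 : ℝ) * ((W + 1 : ℕ) : ℝ) ^ (1 + r) ≤ Y := by
    have h1 := rpow_succ_le hW (1 + r)
    rw [← hK] at h1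
    have hWt : 0 ≤ (W : ℝ) ^ (1 + r) := Real.rpow_nonneg (Nat.cast_nonneg _) _
    have h2 : (C0 : ℝ) * ((W + 1 : ℕ) : ℝ) ^ (1 + r) ≤
        (C0 : ℝ) * ((K : ℝ) * (W : ℝ) ^ (1 + r)) :=
      mul_le_mul_of_nonneg_left h1 (Nat.cast_nonneg _)
    have h3 : (C0 : ℝ) * ((K : ℝ) * (W : ℝ) ^ (1 + r)) ≤
        ((C0 * (K + 2 ^ (a + 2)) : ℕ) : ℝ) * (W : ℝ) ^ (1 + r) := by
      rw [← mul_assoc]
      apply mul_le_mul_of_nonneg_right _ hWt
      have h4 : C0 * K ≤ C0 * (K + 2 ^ (a + 2)) := Nat.mul_le_mul_left _ (by omega)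
      exact_mod_cast h4
    exact h2.trans (h3.trans hCW)
  have hNef := hNN n (fun i => b i + 1) (fun i => m i + 1) (d + 3 * 1) Y (N + 2 * (1 * q)) q
    (W + 1) X hB' (by omega) hCW' ?_ ?_ ?_ ?_
  · have hNef' : NefP (d + 3) (fun i => Fin.append b m i + 1) := by
      rw [append_succ]
      exact hNef
    have hgood : Good ℂ (tri d) (Finset.univ.val.map (Fin.append b m))
        (cd (Finset.univ.val.map (Fin.append b m))) := by
      refine goodP hNef' ?_ ?_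
      · rw [sum_succ_sq, s1]
        have h1 : (d + 3) ^ 2 = (d + 3 * 1) ^ 2 := by ring
        rw [h1]
        omega
      · have h5 : (d + 5).choose 2 = (d + 3 + 2).choose 2 := rfl
        rw [sum_succ_choose, h5]
        omega
    rw [map_append' b m] at hgood
    exact hh_of_good hgood
  · intro i
    rcases Nat.eq_zero_or_pos (m i) with h0 | h0
    · rw [h0]
      omega
    · have h1 := hCm (m i) (Multiset.mem_map_of_mem m (Finset.mem_univ_val i))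
      have h2 : C0 * (m i + 1) ≤ C0 * (K + 2 ^ (a + 2)) * m i := by
        rw [mul_assoc]
        apply Nat.mul_le_mul_left
        have h3 : 4 * m i ≤ (K + 2 ^ (a + 2)) * m i := Nat.mul_le_mul_right _ (by omega)
        omega
      exact h2.trans h1
  · have h2 : ∑ i with m i ≤ W, m i ^ 2 ≤ ∑ i with m i + 1 ≤ W + 1, (m i + 1) ^ 2 := by
      have h3 : (Finset.univ.filter fun i => m i + 1 ≤ W + 1) =
          Finset.univ.filter fun i => m i ≤ W := by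
        apply Finset.filter_congr
        intro i _
        omega
      rw [h3]
      apply Finset.sum_le_sum
      intro i _
      exact Nat.pow_le_pow_left (by omega) 2
    calc N + 2 * (1 * q) ≤ 2 * N := by omega
      _ ≤ 2 * (f * ∑ i with m i ≤ W, m i ^ 2) := Nat.mul_le_mul_left _ hf
      _ = 2 * f * ∑ i with m i ≤ W, m i ^ 2 := by ring
      _ ≤ 2 * f * ∑ i with m i + 1 ≤ W + 1, (m i + 1) ^ 2 := Nat.mul_le_mul_left _ h2
  · have h1 : (W + 1) ^ (2 * a + 4) ≤ 2 ^ (2 * a + 4) * W ^ (2 * a + 4) := by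
      rw [← mul_pow]
      exact Nat.pow_le_pow_left (by omega) _
    have h2 : 2 ^ (2 * a + 4) = (2 ^ (a + 2)) ^ 2 := by
      rw [← pow_mul]
      congr 1
      ring
    calc C0 ^ 2 * (W + 1) ^ (2 * a + 4) ≤ C0 ^ 2 * (2 ^ (2 * a + 4) * W ^ (2 * a + 4)) :=
          Nat.mul_le_mul_left _ h1
      _ = (C0 * 2 ^ (a + 2)) ^ 2 * W ^ (2 * a + 4) := by rw [h2]; ring
      _ ≤ (C0 * (K + 2 ^ (a + 2))) ^ 2 * W ^ (2 * a + 4) := by
          apply Nat.mul_le_mul_right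
          apply Nat.pow_le_pow_left
          exact Nat.mul_le_mul_left _ (by omega)
      _ ≤ X ^ 2 * N ^ a := hX
      _ ≤ X ^ 2 * (N + 2 * (1 * q)) ^ a :=
          Nat.mul_le_mul_left _ (Nat.pow_le_pow_left (Nat.le_add_right _ _) a)
  · rw [s1]
    omega

end Pool.Agent.SGN
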