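import Pool.Agent.SG.PropE
import Pool.Agent.SG.NNstep
import Pool.Agent.SGN.BaseB

set_option autoImplicit false

/-!
# Module PropEB: the systems of the violating curves are empty, with nine big points (template: SG/PropE.lean)

The local groups use `localZone (nn_all a')` with `a'` so large that `g = 1/(a'+2) ≤ r/4` (in SG/PropE.lean
`a' = a`): `N i = ⌈c1 (2^i)^(2g)⌉₊` (so that `C_LZ 4^i ≤ N i ^ (a'+2)` and `N i ≥ 48`), `t i = (n_i + 1)/2 + N i`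
exactly as there: `sm = ms'.filter (· ≤ μ) = ∑ gs_j + rest` (`ms'` the positive elements of `ms`),
`Sq sm ≤ 8 Sq rest`, `∑_j Sm gs_j ≥ Sm sm / 4 - c2 μ^(1+2g)`, windows of width `Y0 ≤ c3 μ^(1+2g)` in which
`n ≤ Sm gs / 2`, `n ≤ c4 μ^(1+g)`.
Base states `B = ns + rest + big`, `baseB` (`f' = 8 f`, cutoff `μ`, margin `Y`), `X = Sm sm / 40`:
* `C0 m ≤ Y` for all `m ∈ B`: `C0 c4 μ^(1+g) ≤ C0 c4 μ^(1+r) ≤ Y`.
* `Sm sm ≥ Sq sm/μ ≥ NF/(f μ)`, so `X ≥ NF/(80 f μ) ≥ 1` (`NF ≥ 2 Y² ≥ 2 C² μ²`); `X ≤ NF`.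
* `Sq B ≤ 3 Sq ms ≤ 6 NF`, `NF ≤ 8 f Sq (B.filter ≤ μ)`.
* `C0² μ^(2a+4) ≤ X² NF^a`: `X² ≥ NF²/(80 f μ)²`, `NF^(a+2) = NF NF^(a+1) ≥ μ² C² μ^(2a+4)`.
`w = (Sm ms' - (1/2) ∑ Sm gs_j + X)/2 + C0 NF/Y`, `hh e (Bm β + B) ≤ max (vv + w) 0 ≤ Phi 1 b b (vv + w)`
(`le_phi`). `unmerge` with `ms := Bm β + (rest + big)` (reorder by `add_comm`, `add_assoc`), `q = 1`, `c = 0`,
`b1 = b2 = 22 Y0 + 1`: `hh e (Bm β + ms') ≤ Phi 1 b b (vv + w)`.
`2 vv = NF + p + 2 - Sq - Sm ≤ p + 2 - Sm ms'` (`two_vvB`, `NF ≤ Sq`), so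
`vv + w ≤ (p + 2)/2 - (1/4) ∑ Sm gs_j + X/2 + C0 NF/Y ≤ -Sm sm/16 + c2 μ^(1+2g) + Sm sm/80 + (C0 + 2) NF/Y ≤
-Sm sm/50`: `Sm sm ≥ NF/(f μ)`, `Y ≥ C μ`, `p ≤ NF/(2Y)`, `1 ≤ NF/Y`. `hh < 1` if `Sm sm ≥ 50 b log b`:
`b log b ≤ c5 μ^(1+2g) (1 + log μ)`, and `Sm sm ≥ NF/(f μ) ≥ 2 Y²/(f μ) ≥ (2 C²/f) μ^(1+2r)`, `r ≥ 4 g`,
`log μ ≤ μ^g/g`.
-/

namespace Pool.Agent.SGN

open MvPolynomial Pool.Agent.helper5.NBS Pool.Agent.helper89.Segre Pool.Agent.SH9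
open Pool.Agent.helper25.ST Pool.Agent.helper25.SXN Pool.Agent.SG

/-! ### The size of the groups -/

private lemma propEB_N (a Clz : ℕ) : ∃ (c1 : ℕ) (N : ℕ → ℕ), 48 ≤ c1 ∧ (∀ i, 48 ≤ N i) ∧
    (∀ i, Clz * (2 ^ i) ^ 2 ≤ N i ^ (a + 2)) ∧
    (∀ i, (N i : ℝ) ≤ 2 * c1 * ((2 : ℝ) ^ i) ^ (2 / ((a : ℝ) + 2))) := by
  obtain ⟨g, hg⟩ : ∃ g : ℝ, g = 2 / ((a : ℝ) + 2) := ⟨_, rfl⟩
  have ha : (0 : ℝ) < (a : ℝ) + 2 := by positivity
  have hg0 : 0 < g := by rw [hg]; positivity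
  have h1 : ∀ i : ℕ, (1 : ℝ) ≤ ((2 : ℝ) ^ i) ^ g := fun i =>
    Real.one_le_rpow (one_le_pow₀ (by norm_num)) hg0.le
  refine ⟨Clz + 48, fun i => ⌈((Clz + 48 : ℕ) : ℝ) * ((2 : ℝ) ^ i) ^ g⌉₊, by omega, ?_, ?_, ?_⟩
  · intro i
    have h2 : (48 : ℝ) ≤ ((Clz + 48 : ℕ) : ℝ) * ((2 : ℝ) ^ i) ^ g := by
      have h3 : (48 : ℝ) ≤ ((Clz + 48 : ℕ) : ℝ) := by exact_mod_cast Nat.le_add_left 48 Clz
      calc (48 : ℝ) = 48 * 1 := by ring
        _ ≤ _ := mul_le_mul h3 (h1 i) (by norm_num) (by positivity)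
    exact_mod_cast h2.trans (Nat.le_ceil _)
  · intro i
    have h2 : ((Clz + 48 : ℕ) : ℝ) * ((2 : ℝ) ^ i) ^ g ≤
        (⌈((Clz + 48 : ℕ) : ℝ) * ((2 : ℝ) ^ i) ^ g⌉₊ : ℝ) := Nat.le_ceil _
    have h3 : (((2 : ℝ) ^ i) ^ g) ^ (a + 2) = ((2 : ℝ) ^ i) ^ 2 := by
      rw [← Real.rpow_natCast, ← Real.rpow_mul (by positivity), hg]
      have h4 : 2 / ((a : ℝ) + 2) * ((a + 2 : ℕ) : ℝ) = (2 : ℕ) := by
        push_cast
        rw [div_mul_cancel₀ _ ha.ne']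
      rw [h4, Real.rpow_natCast]
    have h5 : ((Clz : ℝ)) * ((2 : ℝ) ^ i) ^ 2 ≤
        (⌈((Clz + 48 : ℕ) : ℝ) * ((2 : ℝ) ^ i) ^ g⌉₊ : ℝ) ^ (a + 2) := by
      calc ((Clz : ℝ)) * ((2 : ℝ) ^ i) ^ 2
          ≤ ((Clz + 48 : ℕ) : ℝ) ^ (a + 2) * ((2 : ℝ) ^ i) ^ 2 := by
            refine mul_le_mul_of_nonneg_right ?_ (by positivity)
            have h6 : (1 : ℝ) ≤ ((Clz + 48 : ℕ) : ℝ) := by
              exact_mod_cast (by omega : 1 ≤ Clz + 48)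
            calc (Clz : ℝ) ≤ ((Clz + 48 : ℕ) : ℝ) := by exact_mod_cast Nat.le_add_right _ _
              _ = ((Clz + 48 : ℕ) : ℝ) ^ 1 := (pow_one _).symm
              _ ≤ _ := pow_le_pow_right₀ h6 (by omega)
        _ = (((Clz + 48 : ℕ) : ℝ) * ((2 : ℝ) ^ i) ^ g) ^ (a + 2) := by rw [mul_pow, h3]
        _ ≤ _ := pow_le_pow_left₀ (by positivity) h2 _
    exact_mod_cast h5
  · intro i
    rw [← hg]
    have h2 : (1 : ℝ) ≤ ((Clz + 48 : ℕ) : ℝ) * ((2 : ℝ) ^ i) ^ g := by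
      have h3 : (1 : ℝ) ≤ ((Clz + 48 : ℕ) : ℝ) := by exact_mod_cast (by omega : 1 ≤ Clz + 48)
      calc (1 : ℝ) = 1 * 1 := by ring
        _ ≤ _ := mul_le_mul h3 (h1 i) (by norm_num) (by positivity)
    have h4 := (Nat.ceil_lt_add_one (zero_le_one.trans h2)).le
    linarith

/-! ### Windows and multisets -/

private lemma propEB_win {gs : Multiset ℕ} {nL nR : ℕ} {Y Y' : ℝ} (h : Win gs nL nR Y)
    (hY : Y ≤ Y') : Win gs nL nR Y' := ⟨h.ex, h.wid.trans hY⟩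

private lemma propEB_cls_add (i : ℕ) (A B : Multiset ℕ) : cls i (A + B) = cls i A + cls i B :=
  Multiset.filter_add _ _ _

private lemma propEB_filter (μ : ℕ) (ms : Multiset ℕ) :
    Sq (ms.filter fun m => m ≤ μ) ≤ Sq (ms.filter fun m => 1 ≤ m ∧ m ≤ μ) := by
  induction ms using Multiset.induction_on with
  | empty => simp
  | cons m s ih =>
    by_cases h1 : m ≤ μ
    · rw [Multiset.filter_cons_of_pos (p := fun m => m ≤ μ) _ h1, Sq_cons]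
      by_cases h2 : 1 ≤ m
      · rw [Multiset.filter_cons_of_pos (p := fun m => 1 ≤ m ∧ m ≤ μ) _ ⟨h2, h1⟩, Sq_cons]
        omega
      · have h3 : m = 0 := by omega
        rw [Multiset.filter_cons_of_neg (p := fun m => 1 ≤ m ∧ m ≤ μ) _ (fun h => h2 h.1), h3]
        simpa using ih
    · rw [Multiset.filter_cons_of_neg (p := fun m => m ≤ μ) _ h1,
        Multiset.filter_cons_of_neg (p := fun m => 1 ≤ m ∧ m ≤ μ) _ (fun h => h1 h.2)]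
      exact ih

/-- a group of elements of the class `i`: sizes -/
private lemma propEB_group {i : ℕ} {gs : Multiset ℕ} (h : ∀ m ∈ gs, m ≤ 2 ^ i ∧ 2 ^ i < 2 * m) :
    Sq gs ≤ Multiset.card gs * (2 ^ i) ^ 2 ∧ Multiset.card gs * 2 ^ i ≤ 2 * Sm gs := by
  induction gs using Multiset.induction_on with
  | empty => simp [Sq, Sm]
  | cons m s ih =>
    obtain ⟨h1, h2⟩ := ih fun m hm => h m (Multiset.mem_cons_of_mem hm)
    obtain ⟨h3, h4⟩ := h m (Multiset.mem_cons_self m s)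
    have h5 : m ^ 2 ≤ (2 ^ i) ^ 2 := Nat.pow_le_pow_left h3 2
    rw [Sq_cons, Sm_cons, Multiset.card_cons]
    constructor
    · calc m ^ 2 + Sq s ≤ (2 ^ i) ^ 2 + Multiset.card s * (2 ^ i) ^ 2 := Nat.add_le_add h5 h1
        _ = _ := by ring
    · calc (Multiset.card s + 1) * 2 ^ i = Multiset.card s * 2 ^ i + 2 ^ i := by ring
        _ ≤ 2 * Sm s + 2 * m := Nat.add_le_add h2 h4.le
        _ = _ := by ring

/-- the window of a group is short compared with the group -/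
private lemma propEB_half {i N : ℕ} {gs : Multiset ℕ} (h : ∀ m ∈ gs, m ≤ 2 ^ i ∧ 2 ^ i < 2 * m)
    (hN : Multiset.card gs = N) (h48 : 48 ≤ N) {nR : ℕ} (hR : nR ^ 2 ≤ 3 * Sq gs) :
    2 * nR ≤ Sm gs ∧ nR ^ 2 ≤ 3 * N * (2 ^ i) ^ 2 := by
  obtain ⟨h1, h2⟩ := propEB_group h
  rw [hN] at h1 h2
  have h3 : nR ^ 2 ≤ 3 * N * (2 ^ i) ^ 2 := by
    calc nR ^ 2 ≤ 3 * Sq gs := hR
      _ ≤ 3 * (N * (2 ^ i) ^ 2) := Nat.mul_le_mul_left _ h1
      _ = _ := by ring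
  refine ⟨?_, h3⟩
  have h4 : (2 * (2 * nR)) ^ 2 ≤ (2 * Sm gs) ^ 2 := by
    calc (2 * (2 * nR)) ^ 2 = 16 * nR ^ 2 := by ring
      _ ≤ 16 * (3 * N * (2 ^ i) ^ 2) := Nat.mul_le_mul_left _ h3
      _ = 48 * (N * (2 ^ i) ^ 2) := by ring
      _ ≤ N * (N * (2 ^ i) ^ 2) := Nat.mul_le_mul_right _ h48
      _ = (N * 2 ^ i) ^ 2 := by ring
      _ ≤ (2 * Sm gs) ^ 2 := Nat.pow_le_pow_left h2 2
  have h5 := (Nat.pow_le_pow_iff_left (by norm_num : (2 : ℕ) ≠ 0)).1 h4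
  omega

/-! ### The grouping -/

private lemma propEB_split (P : ℕ → Multiset ℕ → Prop) (N : ℕ → ℕ) (hN : ∀ i, 48 ≤ N i)
    (hP : ∀ (i : ℕ) (A : Multiset ℕ), (∀ m ∈ A, 1 ≤ m ∧ Nat.clog 2 m = i) →
      Multiset.card A = N i → P i A) (μ : ℕ) (sm : Multiset ℕ) (hsm : ∀ m ∈ sm, 1 ≤ m ∧ m ≤ μ) :
    ∃ (l : List (ℕ × Multiset ℕ)) (rest : Multiset ℕ),
      sm = (l.map Prod.snd).sum + rest ∧
      (∀ x ∈ l, P x.1 x.2 ∧ x.2 ≠ 0 ∧ Multiset.card x.2 = N x.1 ∧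
        ∀ m ∈ x.2, m ≤ 2 ^ x.1 ∧ 2 ^ x.1 < 2 * m) ∧
      Sq sm ≤ 8 * Sq rest ∧
      Sm sm ≤ 4 * Sm (l.map Prod.snd).sum +
        2 * ∑ i ∈ Finset.range (Nat.clog 2 μ + 1), N i * 2 ^ i := by
  obtain ⟨l, rest, h1, h2, h3, h4⟩ := grp (fun i gs => P i gs ∧ Multiset.card gs = N i) N
    (fun i => (Multiset.card (cls i sm) + 1) / 2 + N i) (fun i => (by norm_num : 1 ≤ 48).trans (hN i))
    (fun i => Nat.le_add_left _ _)
    (fun i A hA hc => ⟨A, le_refl _, by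
      intro h0
      rw [h0, Multiset.card_zero] at hc
      have := hN i
      omega, hP i A hA hc, hc⟩) sm (fun m hm => (hsm m hm).1)
  obtain ⟨mg, hmg⟩ : ∃ mg, mg = (l.map Prod.snd).sum := ⟨_, rfl⟩
  rw [← hmg] at h1
  have hrest : ∀ m ∈ rest, 1 ≤ m ∧ m ≤ μ := fun m hm =>
    hsm m (by rw [h1]; exact Multiset.mem_add.2 (Or.inr hm))
  have hmgm : ∀ m ∈ mg, 1 ≤ m ∧ m ≤ μ := fun m hm =>
    hsm m (by rw [h1]; exact Multiset.mem_add.2 (Or.inl hm))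
  obtain ⟨a1, -, a3, -⟩ := cls_bounds hsm
  obtain ⟨-, b2, -, -⟩ := cls_bounds hrest
  obtain ⟨-, -, -, c4⟩ := cls_bounds hmgm
  have hcard : ∀ i, Multiset.card (cls i sm) =
      Multiset.card (cls i mg) + Multiset.card (cls i rest) := by
    intro i
    rw [h1, propEB_cls_add, Multiset.card_add]
  have hr : ∀ i, Multiset.card (cls i sm) ≤ 2 * Multiset.card (cls i rest) := by
    intro i
    rcases h4 i with h5 | h5
    · rw [h5]; omega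
    · omega
  have hm : ∀ i, Multiset.card (cls i sm) ≤ 2 * Multiset.card (cls i mg) + 2 * N i := by
    intro i
    have h5 := h3 i
    have h6 := hcard i
    omega
  refine ⟨l, rest, by rw [← hmg]; exact h1, ?_, ?_, ?_⟩
  · intro x hx
    obtain ⟨⟨h5, h6⟩, h7, -, h8⟩ := h2 x hx
    exact ⟨h5, h7, h6, fun m hm => clsW (h8 m hm).1 (h8 m hm).2⟩
  · calc Sq sm ≤ ∑ i ∈ Finset.range (Nat.clog 2 μ + 1), Multiset.card (cls i sm) * 4 ^ i := a1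
      _ ≤ ∑ i ∈ Finset.range (Nat.clog 2 μ + 1), 2 * (Multiset.card (cls i rest) * 4 ^ i) := by
        refine Finset.sum_le_sum fun i _ => ?_
        rw [← mul_assoc]
        exact Nat.mul_le_mul_right _ (hr i)
      _ = 2 * ∑ i ∈ Finset.range (Nat.clog 2 μ + 1), Multiset.card (cls i rest) * 4 ^ i := by
        rw [Finset.mul_sum]
      _ ≤ 2 * (4 * Sq rest) := Nat.mul_le_mul_left _ b2
      _ = 8 * Sq rest := by ring
  · rw [← hmg]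
    calc Sm sm ≤ ∑ i ∈ Finset.range (Nat.clog 2 μ + 1), Multiset.card (cls i sm) * 2 ^ i := a3
      _ ≤ ∑ i ∈ Finset.range (Nat.clog 2 μ + 1),
          (2 * (Multiset.card (cls i mg) * 2 ^ i) + 2 * (N i * 2 ^ i)) := by
        refine Finset.sum_le_sum fun i _ => ?_
        calc Multiset.card (cls i sm) * 2 ^ i
            ≤ (2 * Multiset.card (cls i mg) + 2 * N i) * 2 ^ i := Nat.mul_le_mul_right _ (hm i)
          _ = _ := by ring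
      _ = 2 * ∑ i ∈ Finset.range (Nat.clog 2 μ + 1), Multiset.card (cls i mg) * 2 ^ i +
          2 * ∑ i ∈ Finset.range (Nat.clog 2 μ + 1), N i * 2 ^ i := by
        rw [Finset.sum_add_distrib, Finset.mul_sum, Finset.mul_sum]
      _ ≤ 4 * Sm mg + 2 * ∑ i ∈ Finset.range (Nat.clog 2 μ + 1), N i * 2 ^ i := by
        omega

/-- admissible multiplicities -/
private lemma propEB_forall2 {C0 e : ℕ} : ∀ (l : List Tup) (ns : List ℕ),
    List.Forall₂ (fun (n : ℕ) (x : Tup) => x.nL ≤ n ∧ n ≤ x.nR) ns l →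
    (∀ x ∈ l, 2 * x.nR ≤ Sm x.gs ∧ x.nR ^ 2 ≤ 3 * Sq x.gs ∧ C0 * x.nR ≤ e) →
    2 * Sm (ns : Multiset ℕ) ≤ Sm (l.map Tup.gs).sum ∧
      Sq (ns : Multiset ℕ) ≤ 3 * Sq (l.map Tup.gs).sum ∧ ∀ n ∈ ns, C0 * n ≤ e := by
  intro l ns h
  induction h with
  | nil => intro _; simp [Sm, Sq]
  | @cons n x ns l hn _ ih =>
    intro hl
    obtain ⟨h1, h2, h3⟩ := ih fun y hy => hl y (List.mem_cons_of_mem _ hy)
    obtain ⟨h4, h5, h6⟩ := hl x List.mem_cons_self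
    rw [← Multiset.cons_coe, Sm_cons, Sq_cons, List.map_cons, List.sum_cons, Sm_add, Sq_add]
    refine ⟨by omega, ?_, ?_⟩
    · have h7 : n ^ 2 ≤ x.nR ^ 2 := Nat.pow_le_pow_left hn.2 2
      omega
    · intro m hm
      rcases List.mem_cons.1 hm with rfl | hm
      · exact (Nat.mul_le_mul_left _ hn.2).trans h6
      · exact h3 m hm

/-! ### Numbers -/

private lemma propEB_x (a μ : ℕ) (hμ : 1 ≤ μ) : ∃ x : ℝ, 1 ≤ x ∧
    x ^ ((a + 1) * (a + 2)) = (μ : ℝ) ∧ (μ : ℝ) ^ (2 / ((a : ℝ) + 2)) = (x ^ (a + 1)) ^ 2 := by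
  have hμ' : (1 : ℝ) ≤ (μ : ℝ) := by exact_mod_cast hμ
  have hn : (a + 1) * (a + 2) ≠ 0 := by positivity
  obtain ⟨x, hx⟩ : ∃ x : ℝ, x = (μ : ℝ) ^ ((((a + 1) * (a + 2) : ℕ) : ℝ)⁻¹) := ⟨_, rfl⟩
  have h1 : 1 ≤ x := by
    rw [hx]
    exact Real.one_le_rpow hμ' (by positivity)
  have h2 : x ^ ((a + 1) * (a + 2)) = (μ : ℝ) := by
    rw [hx]
    exact Real.rpow_inv_natCast_pow (by positivity) hn
  refine ⟨x, h1, h2, ?_⟩
  have hx0 : 0 ≤ x := zero_le_one.trans h1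
  rw [← h2, ← Real.rpow_natCast, ← Real.rpow_mul hx0, ← pow_mul, ← Real.rpow_natCast]
  congr 1
  push_cast
  field_simp

/-- the bound of the size of the groups in the classes up to `clog μ` -/
private lemma propEB_Nle {c1 : ℕ} {N : ℕ → ℕ} {a μ : ℕ} {A : ℝ}
    (hN : ∀ i, (N i : ℝ) ≤ 2 * c1 * ((2 : ℝ) ^ i) ^ (2 / ((a : ℝ) + 2)))
    (hA : (μ : ℝ) ^ (2 / ((a : ℝ) + 2)) = A ^ 2) (i : ℕ) (hi : 2 ^ i ≤ 2 * μ) :
    (N i : ℝ) ≤ 4 * c1 * A ^ 2 := by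
  have h0 : (0 : ℝ) ≤ 2 / ((a : ℝ) + 2) := by positivity
  have hi' : (2 : ℝ) ^ i ≤ 2 * (μ : ℝ) := by exact_mod_cast hi
  have h1 : ((2 : ℝ) ^ i) ^ (2 / ((a : ℝ) + 2)) ≤ (2 * (μ : ℝ)) ^ (2 / ((a : ℝ) + 2)) :=
    Real.rpow_le_rpow (by positivity) hi' h0
  have h2 : (2 * (μ : ℝ)) ^ (2 / ((a : ℝ) + 2)) = 2 ^ (2 / ((a : ℝ) + 2)) * A ^ 2 := by
    rw [Real.mul_rpow (by norm_num) (by positivity), hA]
  have h3 : (2 : ℝ) ^ (2 / ((a : ℝ) + 2)) ≤ 2 := by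
    have h4 : 2 / ((a : ℝ) + 2) ≤ 1 := by
      rw [div_le_one (by positivity)]
      have : (0 : ℝ) ≤ (a : ℝ) := by positivity
      linarith
    calc (2 : ℝ) ^ (2 / ((a : ℝ) + 2)) ≤ 2 ^ (1 : ℝ) :=
          Real.rpow_le_rpow_of_exponent_le (by norm_num) h4
      _ = 2 := Real.rpow_one 2
  calc (N i : ℝ) ≤ 2 * c1 * ((2 : ℝ) ^ i) ^ (2 / ((a : ℝ) + 2)) := hN i
    _ ≤ 2 * c1 * (2 * A ^ 2) := by
      refine mul_le_mul_of_nonneg_left ?_ (by positivity)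
      rw [h2] at h1
      exact h1.trans (mul_le_mul_of_nonneg_right h3 (by positivity))
    _ = 4 * c1 * A ^ 2 := by ring

private lemma propEB_geom (n : ℕ) : ∑ i ∈ Finset.range n, 2 ^ i ≤ 2 ^ n := by
  induction n with
  | zero => simp
  | succ n ih =>
    rw [Finset.sum_range_succ, pow_succ]
    omega

private lemma propEB_sum {c1 : ℕ} {N : ℕ → ℕ} {μ : ℕ} {A : ℝ} (hμ : 1 ≤ μ)
    (hN : ∀ i, 2 ^ i ≤ 2 * μ → (N i : ℝ) ≤ 4 * c1 * A ^ 2) :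
    ((∑ i ∈ Finset.range (Nat.clog 2 μ + 1), N i * 2 ^ i : ℕ) : ℝ) ≤ 16 * c1 * μ * A ^ 2 := by
  have h1 := (clsW hμ rfl).2
  have h2 : ∀ i ∈ Finset.range (Nat.clog 2 μ + 1), 2 ^ i ≤ 2 * μ := by
    intro i hi
    have h3 : i ≤ Nat.clog 2 μ := Nat.lt_succ_iff.1 (Finset.mem_range.1 hi)
    exact (Nat.pow_le_pow_right (by norm_num) h3).trans h1.le
  have h4 := propEB_geom (Nat.clog 2 μ + 1)
  have h5 : ∑ i ∈ Finset.range (Nat.clog 2 μ + 1), 2 ^ i ≤ 4 * μ := by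
    rw [pow_succ] at h4
    omega
  have h5' : ((∑ i ∈ Finset.range (Nat.clog 2 μ + 1), 2 ^ i : ℕ) : ℝ) ≤ 4 * μ := by
    exact_mod_cast h5
  calc ((∑ i ∈ Finset.range (Nat.clog 2 μ + 1), N i * 2 ^ i : ℕ) : ℝ)
      = ∑ i ∈ Finset.range (Nat.clog 2 μ + 1), (N i : ℝ) * 2 ^ i := by push_cast; rfl
    _ ≤ ∑ i ∈ Finset.range (Nat.clog 2 μ + 1), (4 * c1 * A ^ 2) * 2 ^ i :=
      Finset.sum_le_sum fun i hi => mul_le_mul_of_nonneg_right (hN i (h2 i hi)) (by positivity)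
    _ = (4 * c1 * A ^ 2) * ((∑ i ∈ Finset.range (Nat.clog 2 μ + 1), 2 ^ i : ℕ) : ℝ) := by
      rw [← Finset.mul_sum]; push_cast; rfl
    _ ≤ (4 * c1 * A ^ 2) * (4 * μ) := mul_le_mul_of_nonneg_left h5' (by positivity)
    _ = 16 * c1 * μ * A ^ 2 := by ring

/-- the error term is small -/
private lemma propEB_exp {b V S : ℝ} (hb : 1 ≤ b) (hV : V ≤ -S / 50) (hS : 0 ≤ S)
    (hlog : 50 * (b * Real.log b) ≤ S) : Phi 1 b b V < 1 := by
  have hb0 : 0 < b := lt_of_lt_of_le one_pos hb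
  have hV0 : V ≤ 0 := hV.trans (by linarith)
  rw [Pool.Agent.SG.phi_one, max_eq_right hV0, abs_of_nonpos hV0, neg_neg]
  have h1 : V / b ≤ -Real.log b := by
    rw [div_le_iff₀ hb0]
    linarith
  have h2 : Real.exp (V / b) ≤ b⁻¹ := by
    calc Real.exp (V / b) ≤ Real.exp (-Real.log b) := Real.exp_le_exp.2 h1
      _ = b⁻¹ := by rw [Real.exp_neg, Real.exp_log hb0]
  have h3 : b * Real.exp (V / b) ≤ 1 := by
    calc b * Real.exp (V / b) ≤ b * b⁻¹ := mul_le_mul_of_nonneg_left h2 hb0.le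
      _ = 1 := mul_inv_cancel₀ hb0.ne'
  linarith

/-- `50 b log b ≤ S` -/
private lemma propEB_log {a c1 c5 c6 : ℕ} {μ x A b : ℝ} (h5 : c5 = 17601 * c1)
    (h6 : c6 = c5 + (a + 1) * (a + 4)) (hc1 : 1 ≤ c1) (hx : 1 ≤ x)
    (hμ : x ^ ((a + 1) * (a + 2)) = μ) (hA : x ^ (a + 1) = A)
    (hb : b = 22 * (800 * c1 * μ * A ^ 2) + 1) :
    1 ≤ b ∧ b * Real.log b ≤ c5 * c6 * (μ * A ^ 2 * x ^ 2) := by
  have hx0 : 0 < x := lt_of_lt_of_le one_pos hx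
  have hμ1 : 1 ≤ μ := by rw [← hμ]; exact one_le_pow₀ hx
  have hA1 : 1 ≤ A := by rw [← hA]; exact one_le_pow₀ hx
  have hc1' : (1 : ℝ) ≤ c1 := by exact_mod_cast hc1
  have hA2 : 1 ≤ A ^ 2 := one_le_pow₀ hA1
  have hμA : 1 ≤ μ * A ^ 2 := one_le_mul_of_one_le_of_one_le hμ1 hA2
  have hcμA : 1 ≤ c1 * (μ * A ^ 2) := one_le_mul_of_one_le_of_one_le hc1' hμA
  have hb1 : 1 ≤ b := by
    rw [hb]
    nlinarith
  have hb2 : b ≤ c5 * (μ * A ^ 2) := by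
    rw [hb, h5]
    push_cast
    nlinarith
  refine ⟨hb1, ?_⟩
  have hc5 : (1 : ℝ) ≤ c5 := by
    have h7 : 1 ≤ c5 := by omega
    exact_mod_cast h7
  have hlx : Real.log x ≤ x := (Real.log_le_sub_one_of_pos hx0).trans (by linarith)
  have hl5 : Real.log c5 ≤ c5 :=
    (Real.log_le_sub_one_of_pos (by linarith)).trans (by linarith)
  have hlb : Real.log b ≤ c6 * x ^ 2 := by
    have h7 : Real.log b ≤ Real.log (c5 * (μ * A ^ 2)) :=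
      Real.log_le_log (by linarith) hb2
    have h8 : Real.log (c5 * (μ * A ^ 2)) =
        Real.log c5 + (((a + 1) * (a + 2) : ℕ) : ℝ) * Real.log x +
          2 * (((a + 1 : ℕ) : ℝ) * Real.log x) := by
      rw [Real.log_mul (by positivity) (by positivity), Real.log_mul (by positivity)
        (by positivity), Real.log_pow, ← hμ, ← hA, Real.log_pow, Real.log_pow]
      push_cast
      ring
    have h9 : x ≤ x ^ 2 := by nlinarith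
    have h10 : (1 : ℝ) ≤ x ^ 2 := one_le_pow₀ hx
    have h11 : (((a + 1) * (a + 2) : ℕ) : ℝ) * Real.log x ≤ (((a + 1) * (a + 2) : ℕ) : ℝ) * x ^ 2 :=
      mul_le_mul_of_nonneg_left (hlx.trans h9) (by positivity)
    have h12 : ((a + 1 : ℕ) : ℝ) * Real.log x ≤ ((a + 1 : ℕ) : ℝ) * x ^ 2 :=
      mul_le_mul_of_nonneg_left (hlx.trans h9) (by positivity)
    have h13 : (c5 : ℝ) ≤ c5 * x ^ 2 := le_mul_of_one_le_right (by positivity) h10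
    rw [h6]
    push_cast at h8 h11 h12 ⊢
    nlinarith
  have hlb0 : 0 ≤ Real.log b := Real.log_nonneg hb1
  calc b * Real.log b ≤ (c5 * (μ * A ^ 2)) * (c6 * x ^ 2) :=
        mul_le_mul hb2 hlb hlb0 (by positivity)
    _ = c5 * c6 * (μ * A ^ 2 * x ^ 2) := by ring

/-- membership in the sum of the groups -/
private lemma propEB_mem {z : ℕ × Multiset ℕ} {m : ℕ} :
    ∀ (l : List (ℕ × Multiset ℕ)), z ∈ l → m ∈ z.2 → m ∈ (l.map Prod.snd).sum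
  | [], h, _ => absurd h List.not_mem_nil
  | y :: l, h, hm => by
    rw [List.map_cons, List.sum_cons, Multiset.mem_add]
    rcases List.mem_cons.1 h with h | h
    · left
      rw [← h]
      exact hm
    · right
      exact propEB_mem l h hm

/-- consequences of `e ≥ K μ A x`, `e^2 ≤ f μ S` -/
private lemma propEB_S {f K : ℕ} {e μ x A S : ℝ} (hμ : 1 ≤ μ) (hx : 1 ≤ x) (hA : 1 ≤ A)
    (he0 : 0 ≤ e) (hKe : (K : ℝ) * μ * (A * x) ≤ e) (hS : e ^ 2 ≤ f * (μ * S)) :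
    (K : ℝ) * e ≤ f * S ∧ (K : ℝ) ^ 2 * (μ * A ^ 2 * x ^ 2) ≤ f * S := by
  have hμ0 : 0 < μ := lt_of_lt_of_le one_pos hμ
  have hAx : 1 ≤ A * x := one_le_mul_of_one_le_of_one_le hA hx
  have hK0 : (0 : ℝ) ≤ K := Nat.cast_nonneg K
  constructor
  · have h1 : ((K : ℝ) * e) * μ ≤ (f * S) * μ := by
      calc ((K : ℝ) * e) * μ = e * (K * μ * 1) := by ring
        _ ≤ e * (K * μ * (A * x)) :=
          mul_le_mul_of_nonneg_left (mul_le_mul_of_nonneg_left hAx (by positivity)) he0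
        _ ≤ e * e := mul_le_mul_of_nonneg_left hKe he0
        _ = e ^ 2 := by ring
        _ ≤ f * (μ * S) := hS
        _ = (f * S) * μ := by ring
    exact le_of_mul_le_mul_right h1 hμ0
  · have h1 : ((K : ℝ) ^ 2 * (μ * A ^ 2 * x ^ 2)) * μ ≤ (f * S) * μ := by
      calc ((K : ℝ) ^ 2 * (μ * A ^ 2 * x ^ 2)) * μ = ((K : ℝ) * μ * (A * x)) ^ 2 := by ring
        _ ≤ e ^ 2 := pow_le_pow_left₀ (by positivity) hKe 2
        _ ≤ f * (μ * S) := hS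
        _ = (f * S) * μ := by ring
    exact le_of_mul_le_mul_right h1 hμ0

/-- the final shift -/
private lemma propEB_V {f c1 C0 K : ℕ} {e μ x A S G X T V : ℝ} (hf : (0 : ℝ) < f) (hμ : 1 ≤ μ)
    (hx : 1 ≤ x) (hA : 1 ≤ A) (he : 1 ≤ e) (h1 : (K : ℝ) * e ≤ f * S)
    (h2 : (K : ℝ) ^ 2 * (μ * A ^ 2 * x ^ 2) ≤ f * S) (hK1 : 100 * f * (C0 + 3) ≤ K)
    (hK2 : 100 * c1 * f ≤ K) (hK : 1 ≤ K) (hT : T ≤ 16 * c1 * μ * A ^ 2)
    (hG : S ≤ 4 * G + 2 * T) (hX : X ≤ S / 40)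
    (hV : V ≤ (3 * e + 2) / 2 - G / 4 + X / 2 + C0 * e) : V ≤ -S / 50 := by
  have hK' : (1 : ℝ) ≤ K := by exact_mod_cast hK
  have hK1' : (100 : ℝ) * f * (C0 + 3) ≤ K := by exact_mod_cast hK1
  have hK2' : (100 : ℝ) * c1 * f ≤ K := by exact_mod_cast hK2
  have hM0 : 0 ≤ μ * A ^ 2 := by positivity
  -- `(C0 + 3) e ≤ S / 100`
  have h3 : 100 * ((C0 : ℝ) + 3) * e ≤ S := by
    have h4 : f * (100 * ((C0 : ℝ) + 3) * e) ≤ f * S := by
      calc f * (100 * ((C0 : ℝ) + 3) * e) = (100 * f * (C0 + 3)) * e := by ring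
        _ ≤ K * e := mul_le_mul_of_nonneg_right hK1' (by linarith)
        _ ≤ f * S := h1
    exact le_of_mul_le_mul_left h4 hf
  -- `2 c1 μ A^2 ≤ S / 50`
  have h5 : 100 * (c1 : ℝ) * (μ * A ^ 2) ≤ S := by
    have h4 : f * (100 * (c1 : ℝ) * (μ * A ^ 2)) ≤ f * S := by
      calc f * (100 * (c1 : ℝ) * (μ * A ^ 2)) = (100 * c1 * f) * (μ * A ^ 2) := by ring
        _ ≤ K * (μ * A ^ 2) := mul_le_mul_of_nonneg_right hK2' hM0
        _ ≤ K ^ 2 * (μ * A ^ 2 * x ^ 2) := by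
          have h6 : (K : ℝ) ≤ K ^ 2 := by nlinarith
          have h7 : μ * A ^ 2 ≤ μ * A ^ 2 * x ^ 2 :=
            le_mul_of_one_le_right hM0 (one_le_pow₀ hx)
          exact mul_le_mul h6 h7 hM0 (by positivity)
        _ ≤ f * S := h2
    exact le_of_mul_le_mul_left h4 hf
  have h8 : T ≤ 16 * (c1 * (μ * A ^ 2)) := by
    calc T ≤ 16 * c1 * μ * A ^ 2 := hT
      _ = _ := by ring
  nlinarith

/-- `K μ A x ≤ Y` -/
private lemma propEB_Y {a : ℕ} {K : ℕ} {r μ x Y : ℝ} (hr : 1 ≤ ((a : ℝ) + 1) * r) (hx : 1 ≤ x)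
    (hμ : x ^ ((a + 1) * (a + 2)) = μ) (hKY : (K : ℝ) * μ ^ (1 + r) ≤ Y) :
    (K : ℝ) * μ * (x ^ (a + 1) * x) ≤ Y := by
  have hμ1 : 1 ≤ μ := by rw [← hμ]; exact one_le_pow₀ hx
  obtain ⟨z, hz⟩ : ∃ z, z = x ^ (a + 1) * x := ⟨_, rfl⟩
  have hz1 : 1 ≤ z := by
    rw [hz]
    exact one_le_mul_of_one_le_of_one_le (one_le_pow₀ hx) hx
  have hzμ : z ^ (a + 1) = μ := by
    rw [hz, ← pow_succ, ← pow_mul, ← hμ]
    congr 1
    ring
  have h1 : z ≤ μ ^ r := by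
    rw [← hzμ, ← Real.rpow_natCast, ← Real.rpow_mul (zero_le_one.trans hz1)]
    calc z = z ^ (1 : ℝ) := (Real.rpow_one z).symm
      _ ≤ z ^ (((a + 1 : ℕ) : ℝ) * r) := by
        refine Real.rpow_le_rpow_of_exponent_le hz1 ?_
        push_cast
        exact hr
  have h2 : μ ^ (1 + r) = μ * μ ^ r := by
    rw [Real.rpow_add (lt_of_lt_of_le one_pos hμ1), Real.rpow_one]
  rw [← hz]
  calc (K : ℝ) * μ * z ≤ (K : ℝ) * μ * μ ^ r := mul_le_mul_of_nonneg_left h1 (by positivity)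
    _ = (K : ℝ) * μ ^ (1 + r) := by rw [h2]; ring
    _ ≤ Y := hKY

/-- conditions of `baseB` -/
private lemma propEB_X {a f C0 K NF μ S : ℕ} (hμ : 1 ≤ μ) (hf : 1 ≤ f)
    (hCN : K ^ 2 * μ ^ (2 * a + 4) ≤ NF ^ (a + 1)) (hKμ : (K * μ) ^ 2 ≤ NF)
    (hfS : NF ≤ f * (μ * S)) (hS : 80 ≤ S) (hK : 80 * f ≤ K) (hK0 : C0 ≤ K) :
    C0 ^ 2 * μ ^ (2 * a + 4) ≤ (S / 40) ^ 2 * NF ^ a := by
  have h1 : S ≤ 80 * (S / 40) := by omega
  have h0 : NF ≤ 80 * f * μ * (S / 40) := by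
    calc NF ≤ f * (μ * S) := hfS
      _ ≤ f * (μ * (80 * (S / 40))) := Nat.mul_le_mul_left _ (Nat.mul_le_mul_left _ h1)
      _ = _ := by ring
  have h2 : (80 * f * μ) ^ 2 * (C0 ^ 2 * μ ^ (2 * a + 4)) ≤
      (80 * f * μ) ^ 2 * ((S / 40) ^ 2 * NF ^ a) := by
    calc (80 * f * μ) ^ 2 * (C0 ^ 2 * μ ^ (2 * a + 4))
        ≤ (K * μ) ^ 2 * (K ^ 2 * μ ^ (2 * a + 4)) :=
          Nat.mul_le_mul (Nat.pow_le_pow_left (Nat.mul_le_mul_right _ hK) 2)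
            (Nat.mul_le_mul_right _ (Nat.pow_le_pow_left hK0 2))
      _ ≤ NF * NF ^ (a + 1) := Nat.mul_le_mul hKμ hCN
      _ = NF ^ 2 * NF ^ a := by ring
      _ ≤ (80 * f * μ * (S / 40)) ^ 2 * NF ^ a :=
        Nat.mul_le_mul_right _ (Nat.pow_le_pow_left h0 2)
      _ = _ := by ring
  exact Nat.le_of_mul_le_mul_left h2 (by positivity)

theorem propEB {a : ℕ} {r : ℝ} (hr : 0 < r) (h : NNB a r) (f : ℕ) : ∃ C : ℕ, 1 ≤ C ∧
    ∀ (e μ Y NF p : ℕ) (β : Fin 9 → ℕ) (ms : Multiset ℕ), Big e Y NF p β → 1 ≤ μ →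
    (C : ℝ) * (μ : ℝ) ^ (1 + r) ≤ Y → C ^ 2 * μ ^ (2 * a + 4) ≤ NF ^ (a + 1) →
    NF ≤ f * Sq (ms.filter fun m => m ≤ μ) → (∀ m ∈ ms, C * m ≤ Y) → NF ≤ Sq ms →
    Sq ms ≤ 2 * NF → E e (Bm β + ms) := by
  classical
  obtain ⟨a', ha'⟩ : ∃ a' : ℕ, 1 ≤ ((a' : ℝ) + 1) * r := by
    obtain ⟨n, hn⟩ := exists_nat_ge (1 / r)
    refine ⟨n, ?_⟩
    have h1 : 1 ≤ (n : ℝ) * r := by rwa [div_le_iff₀ hr] at hn
    nlinarith
  obtain ⟨Clz, hClz, hLZ⟩ := localZone (nn_all a')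
  obtain ⟨C0, hC0, hBase⟩ := baseB h (8 * f)
  obtain ⟨c1, N, hc1, hN48, hNlz, hNub⟩ := propEB_N a' Clz
  obtain ⟨c5, h5⟩ : ∃ c5, c5 = 17601 * c1 := ⟨_, rfl⟩
  obtain ⟨c6, h6⟩ : ∃ c6, c6 = c5 + (a' + 1) * (a' + 4) := ⟨_, rfl⟩
  obtain ⟨K, hK⟩ : ∃ K, K = 80 * f * C0 + 100 * f * (C0 + 3) + 100 * c1 * f + 50 * c5 * c6 * f +
    7 * c1 * C0 + C0 + 80 * f + 1 := ⟨_, rfl⟩
  have hKf3 : 100 * f * (C0 + 3) ≤ K := by rw [hK]; omega
  have hKcf : 100 * c1 * f ≤ K := by rw [hK]; omega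
  have hKcc : 50 * c5 * c6 * f ≤ K := by rw [hK]; omega
  have hK7 : 7 * c1 * C0 ≤ K := by rw [hK]; omega
  have hKC0 : C0 ≤ K := by rw [hK]; omega
  have hK80 : 80 * f ≤ K := by rw [hK]; omega
  have hK1 : 1 ≤ K := by rw [hK]; omega
  clear hK
  refine ⟨K, hK1, ?_⟩
  intro e μ Y NF p β ms hB hμ hCY hCN hfe hCm hSq1 hSq2
  have hY1 : 1 ≤ Y := hB.hY
  have hYq := hB.hYq
  have hY2 := hB.hY2
  have hNF2 : 2 ≤ NF := by
    have := Nat.one_le_pow 2 Y hY1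
    omega
  have hf1 : 1 ≤ f := by
    rcases Nat.eq_zero_or_pos f with h0 | h0
    · rw [h0, zero_mul] at hfe
      omega
    · exact h0
  -- the small elements
  obtain ⟨sm, hsm⟩ : ∃ sm, sm = ms.filter (fun m => 1 ≤ m ∧ m ≤ μ) := ⟨_, rfl⟩
  obtain ⟨ot, hot⟩ : ∃ ot, ot = ms.filter (fun m => ¬ (1 ≤ m ∧ m ≤ μ)) := ⟨_, rfl⟩
  have hms : ms = sm + ot := by rw [hsm, hot, Multiset.filter_add_not]
  have hsm1 : ∀ m ∈ sm, 1 ≤ m ∧ m ≤ μ := by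
    intro m hm
    rw [hsm] at hm
    exact (Multiset.mem_filter.1 hm).2
  have hSqsm : NF ≤ f * Sq sm :=
    hfe.trans (Nat.mul_le_mul_left _ (by rw [hsm]; exact propEB_filter μ ms))
  have hfS : NF ≤ f * (μ * Sm sm) :=
    hSqsm.trans (Nat.mul_le_mul_left _ (Sq_le_mul_Sm fun m hm => (hsm1 m hm).2))
  -- the groups
  obtain ⟨P, hP⟩ : ∃ P : ℕ → Multiset ℕ → Prop, P = fun i gs => ∃ nL nR : ℕ,
      Win gs nL nR (100 * (Multiset.card gs : ℝ) * ((2 ^ i : ℕ) : ℝ)) ∧ nR ^ 2 ≤ 3 * Sq gs :=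
    ⟨_, rfl⟩
  have hPA : ∀ (i : ℕ) (A : Multiset ℕ), (∀ m ∈ A, 1 ≤ m ∧ Nat.clog 2 m = i) →
      Multiset.card A = N i → P i A := by
    intro i A hA hc
    rw [hP]
    obtain ⟨nL, nR, hw, -, -, hR⟩ := hLZ (2 ^ i) A (Nat.one_le_pow _ _ (by norm_num))
      (fun m hm => ⟨(clsW (hA m hm).1 (hA m hm).2).2, (clsW (hA m hm).1 (hA m hm).2).1⟩)
      (by rw [hc]; exact hNlz i)
    exact ⟨nL, nR, hw, hR⟩
  obtain ⟨l, rest, hl1, hl2, hl3, hl4⟩ := propEB_split P N hN48 hPA μ sm hsm1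
  obtain ⟨mg, hmg⟩ : ∃ mg, mg = (l.map Prod.snd).sum := ⟨_, rfl⟩
  rw [← hmg] at hl1 hl4
  have hT : ∀ x : ℕ × Multiset ℕ, ∃ y : Tup, y.gs = x.2 ∧ y.c = 0 ∧
      (P x.1 x.2 → Win x.2 y.nL y.nR (100 * (Multiset.card x.2 : ℝ) * ((2 ^ x.1 : ℕ) : ℝ)) ∧
        y.nR ^ 2 ≤ 3 * Sq x.2) := by
    intro x
    by_cases hx : P x.1 x.2
    · have hx' := hx
      rw [hP] at hx'
      obtain ⟨nL, nR, h1, h2⟩ := hx'
      exact ⟨⟨x.2, nL, nR, 0⟩, rfl, rfl, fun _ => ⟨h1, h2⟩⟩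
    · exact ⟨⟨x.2, 0, 0, 0⟩, rfl, rfl, fun h => absurd h hx⟩
  choose T hT1 hT2 hT3 using hT
  -- real numbers
  obtain ⟨x, hx1, hxμ, hxA⟩ := propEB_x a' μ hμ
  obtain ⟨A, hA⟩ : ∃ A, x ^ (a' + 1) = A := ⟨_, rfl⟩
  have hKY : (K : ℝ) * μ * (A * x) ≤ Y := by
    rw [← hA]
    exact propEB_Y ha' hx1 hxμ hCY
  rw [hA] at hxA
  have hA1 : 1 ≤ A := by rw [← hA]; exact one_le_pow₀ hx1
  have hμ' : (1 : ℝ) ≤ (μ : ℝ) := by exact_mod_cast hμ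
  have hY' : (1 : ℝ) ≤ (Y : ℝ) := by exact_mod_cast hY1
  have hY0' : (0 : ℝ) < (Y : ℝ) := lt_of_lt_of_le one_pos hY'
  have hf' : (0 : ℝ) < (f : ℝ) := by exact_mod_cast hf1
  have hKμ' : (K : ℝ) * μ ≤ Y := by
    calc (K : ℝ) * μ = K * μ * 1 := (mul_one _).symm
      _ ≤ K * μ * (A * x) := mul_le_mul_of_nonneg_left
        (one_le_mul_of_one_le_of_one_le hA1 hx1) (by positivity)
      _ ≤ Y := hKY
  have hKμ : K * μ ≤ Y := by exact_mod_cast hKμ'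
  have hKμ2 : (K * μ) ^ 2 ≤ NF := by
    have h1 : (K * μ) ^ 2 ≤ Y ^ 2 := Nat.pow_le_pow_left hKμ 2
    omega
  have hfS' : (NF : ℝ) ≤ f * (μ * (Sm sm : ℝ)) := by exact_mod_cast hfS
  have hY2' : (2 : ℝ) * (Y : ℝ) ^ 2 ≤ NF := by exact_mod_cast hY2
  obtain ⟨-, hS2⟩ := propEB_S (e := (Y : ℝ)) hμ' hx1 hA1 (zero_le_one.trans hY') hKY
    (by nlinarith : (Y : ℝ) ^ 2 ≤ f * (μ * (Sm sm : ℝ)))
  obtain ⟨E', hE'⟩ : ∃ E' : ℝ, E' = (NF : ℝ) / (Y : ℝ) := ⟨_, rfl⟩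
  have hE1 : 1 ≤ E' := by
    rw [hE', le_div_iff₀ hY0']
    nlinarith
  have hEp : 2 * (p : ℝ) ≤ E' := by
    have h1 : (2 : ℝ) * ((Y : ℝ) * (p : ℝ)) ≤ NF := by exact_mod_cast hYq
    rw [hE', le_div_iff₀ hY0']
    linarith
  have hS1 : (K : ℝ) * E' ≤ f * (Sm sm : ℝ) := by
    have h1 : (K : ℝ) * E' = (K * NF) / Y := by rw [hE']; ring
    rw [h1, div_le_iff₀ hY0']
    calc (K : ℝ) * NF ≤ K * (f * (μ * (Sm sm : ℝ))) :=
          mul_le_mul_of_nonneg_left hfS' (by positivity)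
      _ = (f * (Sm sm : ℝ)) * (K * μ) := by ring
      _ ≤ (f * (Sm sm : ℝ)) * Y := mul_le_mul_of_nonneg_left hKμ' (by positivity)
  have hNle : ∀ i, 2 ^ i ≤ 2 * μ → (N i : ℝ) ≤ 4 * c1 * A ^ 2 :=
    fun i hi => propEB_Nle hNub hxA i hi
  -- `Sm sm ≥ 80`
  have hS80 : 80 ≤ Sm sm := by
    have h1 : (K : ℝ) ≤ f * (Sm sm : ℝ) := by
      calc (K : ℝ) = K * 1 := (mul_one _).symm
        _ ≤ K * E' := mul_le_mul_of_nonneg_left hE1 (by positivity)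
        _ ≤ _ := hS1
    have h1' : K ≤ f * Sm sm := by exact_mod_cast h1
    have h2 : f * 80 ≤ f * Sm sm := by
      calc f * 80 = 80 * f := mul_comm _ _
        _ ≤ K := hK80
        _ ≤ f * Sm sm := h1'
    exact Nat.le_of_mul_le_mul_left h2 hf1
  obtain ⟨X, hX⟩ : ∃ X, X = Sm sm / 40 := ⟨_, rfl⟩
  have hXbase : C0 ^ 2 * μ ^ (2 * a + 4) ≤ X ^ 2 * NF ^ a := by
    rw [hX]
    exact propEB_X hμ hf1 hCN hKμ2 hfS hS80 hK80 hKC0
  have hXe : X ≤ NF := by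
    have h1 : Sm sm ≤ Sq ms := by
      rw [hms, Sq_add]
      exact (Sm_le_Sq sm).trans (Nat.le_add_right _ _)
    omega
  -- the tuples
  obtain ⟨Y0, hY0⟩ : ∃ Y0 : ℝ, Y0 = 800 * c1 * μ * A ^ 2 := ⟨_, rfl⟩
  have hgrp : ∀ y ∈ l.map T, Win y.gs y.nL y.nR Y0 ∧ 2 * y.nR ≤ Sm y.gs ∧
      y.nR ^ 2 ≤ 3 * Sq y.gs ∧ C0 * y.nR ≤ Y := by
    intro y hy
    obtain ⟨z, hz, rfl⟩ := List.mem_map.1 hy
    obtain ⟨z1, z2, z3, z4⟩ := hl2 z hz
    obtain ⟨w1, w2⟩ := hT3 z z1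
    rw [hT1]
    obtain ⟨v1, v2⟩ := propEB_half z4 z3 (hN48 z.1) w2
    -- the class is at most `2 μ`
    obtain ⟨m, hm⟩ := Multiset.exists_mem_of_ne_zero z2
    have hmμ : m ≤ μ := by
      refine (hsm1 m ?_).2
      rw [hl1, hmg]
      refine Multiset.mem_add.2 (Or.inl ?_)
      exact propEB_mem l hz hm
    have h2i : 2 ^ z.1 ≤ 2 * μ := by
      have := (z4 m hm).2
      omega
    have hNz := hNle z.1 h2i
    have h2i' : (2 : ℝ) ^ z.1 ≤ 2 * (μ : ℝ) := by exact_mod_cast h2i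
    refine ⟨propEB_win w1 ?_, v1, w2, ?_⟩
    · rw [z3, hY0]
      push_cast
      calc 100 * (N z.1 : ℝ) * 2 ^ z.1 ≤ 100 * (4 * c1 * A ^ 2) * (2 * μ) :=
            mul_le_mul (mul_le_mul_of_nonneg_left hNz (by norm_num)) h2i' (by positivity)
              (by positivity)
        _ = 800 * c1 * μ * A ^ 2 := by ring
    · have h1 : ((T z).nR : ℝ) ^ 2 ≤ (7 * c1 * (μ * A)) ^ 2 := by
        have h2 : ((T z).nR : ℝ) ^ 2 ≤ 3 * (N z.1 : ℝ) * (2 ^ z.1) ^ 2 := by exact_mod_cast v2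
        have h3 : (1 : ℝ) ≤ c1 := by exact_mod_cast (by omega : 1 ≤ c1)
        calc ((T z).nR : ℝ) ^ 2 ≤ 3 * (N z.1 : ℝ) * (2 ^ z.1) ^ 2 := h2
          _ ≤ 3 * (4 * c1 * A ^ 2) * (2 * μ) ^ 2 :=
            mul_le_mul (mul_le_mul_of_nonneg_left hNz (by norm_num))
              (pow_le_pow_left₀ (by positivity) h2i' 2) (by positivity) (by positivity)
          _ = 48 * c1 * (μ * A) ^ 2 := by ring
          _ ≤ 49 * (c1 * c1) * (μ * A) ^ 2 := by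
            refine mul_le_mul_of_nonneg_right ?_ (by positivity)
            nlinarith
          _ = (7 * c1 * (μ * A)) ^ 2 := by ring
      have h4 : ((T z).nR : ℝ) ≤ 7 * c1 * (μ * A) :=
        le_of_pow_le_pow_left₀ (by norm_num) (by positivity) h1
      have h5 : ((C0 * (T z).nR : ℕ) : ℝ) ≤ (Y : ℝ) := by
        push_cast
        calc (C0 : ℝ) * (T z).nR ≤ C0 * (7 * c1 * (μ * A)) :=
              mul_le_mul_of_nonneg_left h4 (by positivity)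
          _ = (7 * c1 * C0) * (μ * A) := by ring
          _ ≤ K * (μ * A) := by
            refine mul_le_mul_of_nonneg_right ?_ (by positivity)
            exact_mod_cast hK7
          _ ≤ K * μ * (A * x) := by
            have h7 : A ≤ A * x := le_mul_of_one_le_right (by positivity) hx1
            calc (K : ℝ) * (μ * A) = K * μ * A := by ring
              _ ≤ K * μ * (A * x) := mul_le_mul_of_nonneg_left h7 (by positivity)
          _ ≤ Y := hKY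
      exact_mod_cast h5
  have hgs : (l.map T).map Tup.gs = l.map Prod.snd := by
    rw [List.map_map]
    exact List.map_congr_left fun z _ => hT1 z
  have hcs : ((l.map T).map Tup.c).sum = 0 := by
    rw [List.map_map]
    have h1 : l.map (Tup.c ∘ T) = l.map fun _ => (0 : ℝ) := List.map_congr_left fun z _ => hT2 z
    rw [h1]
    simp
  -- the shift `w`
  obtain ⟨w, hw⟩ : ∃ w : ℝ, w = ((Sm ms : ℝ) - (Sm mg : ℝ) / 2 + (X : ℝ)) / 2 + (C0 : ℝ) * E' :=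
    ⟨_, rfl⟩
  obtain ⟨b, hb⟩ : ∃ b : ℝ, b = 22 * Y0 + 1 := ⟨_, rfl⟩
  rw [hY0] at hb
  obtain ⟨hb1, hblog⟩ := propEB_log h5 h6 (by omega : 1 ≤ c1) hx1 hxμ hA hb
  rw [← hY0] at hb
  have hb0 : 0 < b := lt_of_lt_of_le one_pos hb1
  have hSmms : (Sm ms : ℝ) = Sm mg + Sm rest + Sm ot := by
    rw [hms, hl1, Sm_add, Sm_add]
    push_cast
    ring
  have hC0Y : (C0 : ℝ) * (μ : ℝ) ^ (1 + r) ≤ Y := by
    refine le_trans (mul_le_mul_of_nonneg_right ?_ (by positivity)) hCY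
    exact_mod_cast hKC0
  have hun := unmerge (d := e) (Y := Y0) (b1 := b) (b2 := b) (w := w) (by rw [hb]; linarith) hb0
    le_rfl (l.map T) 1 (Bm β + (rest + ot)) zero_le_one le_rfl
    (fun y hy => by
      obtain ⟨z, -, rfl⟩ := List.mem_map.1 hy
      exact ⟨(hgrp _ hy).1, by rw [hT2], fun n => by rw [hT2]; exact abs_nonneg _⟩)
    (fun ns hns => by
      obtain ⟨n1, n2, n3⟩ := propEB_forall2 (C0 := C0) (e := Y) (l.map T) ns hns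
        (fun y hy => (hgrp y hy).2)
      rw [hgs, ← hmg] at n1 n2
      have hB' := hBase e Y NF p μ X β ((ns : Multiset ℕ) + (rest + ot)) hB hμ hC0Y
        (by
          intro m hm
          rcases Multiset.mem_add.1 hm with hm | hm
          · exact n3 m (Multiset.mem_coe.1 hm)
          · have hm' : m ∈ ms := by
              rw [hms, hl1]
              rcases Multiset.mem_add.1 hm with hm | hm
              · exact Multiset.mem_add.2 (Or.inl (Multiset.mem_add.2 (Or.inr hm)))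
              · exact Multiset.mem_add.2 (Or.inr hm)
            exact (Nat.mul_le_mul_right _ hKC0).trans (hCm m hm'))
        (by
          have h1 : rest.filter (fun m => m ≤ μ) = rest := by
            rw [Multiset.filter_eq_self]
            intro m hm
            exact (hsm1 m (by rw [hl1]; exact Multiset.mem_add.2 (Or.inr hm))).2
          rw [Multiset.filter_add, Multiset.filter_add, Sq_add, Sq_add, h1]
          calc NF ≤ f * Sq sm := hSqsm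
            _ ≤ f * (8 * Sq rest) := Nat.mul_le_mul_left _ hl3
            _ = 8 * f * Sq rest := by ring
            _ ≤ _ := Nat.mul_le_mul_left _ (by omega))
        (by
          rw [Sq_add, Sq_add]
          have h1 : Sq ms = Sq mg + Sq rest + Sq ot := by rw [hms, hl1, Sq_add, Sq_add]
          omega)
        hXbase hXe
      have hcomm : (ns : Multiset ℕ) + (Bm β + (rest + ot)) =
          Bm β + ((ns : Multiset ℕ) + (rest + ot)) := add_left_comm _ _ _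
      rw [hcomm]
      refine hB'.trans (le_trans (max_le_max ?_ le_rfl) (le_phi zero_le_one le_rfl hb0 le_rfl))
      rw [hw, ← hE', add_assoc]
      have h2 : (Sm ((ns : Multiset ℕ) + (rest + ot)) : ℝ) ≤ (Sm ms : ℝ) - (Sm mg : ℝ) / 2 := by
        rw [hSmms, Sm_add, Sm_add]
        have h3 : (2 : ℝ) * (Sm (ns : Multiset ℕ) : ℝ) ≤ Sm mg := by exact_mod_cast n1
        push_cast
        linarith
      linarith)
  have hcomm : mg + (Bm β + (rest + ot)) = Bm β + ms := by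
    rw [add_left_comm, ← add_assoc mg, ← hl1, ← hms]
  rw [hgs, hcs, ← hmg, hcomm, neg_zero, zero_div, Real.exp_zero, mul_one] at hun
  -- the final estimate
  have hV : vv e (Bm β + ms) + w ≤ -(Sm sm : ℝ) / 50 := by
    refine propEB_V (c1 := c1) (C0 := C0) (K := K) (e := E') (X := X) (G := Sm mg)
      (T := ((∑ i ∈ Finset.range (Nat.clog 2 μ + 1), N i * 2 ^ i : ℕ) : ℝ)) hf' hμ' hx1 hA1 hE1
      hS1 hS2 hKf3 hKcf hK1 (propEB_sum hμ hNle)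
      (by exact_mod_cast hl4) ?_ ?_
    · rw [hX, le_div_iff₀ (by norm_num)]
      exact_mod_cast Nat.div_mul_le_self _ _
    · have h1 := two_vvB hB ms
      have h2 : (NF : ℝ) ≤ (Sq ms : ℝ) := by exact_mod_cast hSq1
      rw [hw]
      linarith
  have hfin : 50 * (b * Real.log b) ≤ (Sm sm : ℝ) := by
    have h1 : (f : ℝ) * (50 * (b * Real.log b)) ≤ f * (Sm sm : ℝ) := by
      have h2' : (50 : ℝ) * c5 * c6 * f ≤ K := by exact_mod_cast hKcc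
      have h3 : (1 : ℝ) ≤ K := by exact_mod_cast hK1
      have h4 : (0 : ℝ) ≤ μ * A ^ 2 * x ^ 2 := by positivity
      calc (f : ℝ) * (50 * (b * Real.log b))
          ≤ f * (50 * (c5 * c6 * (μ * A ^ 2 * x ^ 2))) :=
            mul_le_mul_of_nonneg_left (mul_le_mul_of_nonneg_left hblog (by norm_num)) hf'.le
        _ = (50 * c5 * c6 * f) * (μ * A ^ 2 * x ^ 2) := by ring
        _ ≤ K * (μ * A ^ 2 * x ^ 2) := mul_le_mul_of_nonneg_right h2' h4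
        _ ≤ K ^ 2 * (μ * A ^ 2 * x ^ 2) := mul_le_mul_of_nonneg_right (by nlinarith) h4
        _ ≤ f * (Sm sm : ℝ) := hS2
    exact le_of_mul_le_mul_left h1 hf'
  have hlt := lt_of_le_of_lt hun (propEB_exp hb1 hV (Nat.cast_nonneg _) hfin)
  rw [← hh_eq_zero_iff]
  have h9 : hh e (Bm β + ms) < 1 := by exact_mod_cast hlt
  omega

end Pool.Agent.SGN
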