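import Pool.Agent.SGN.NNBstep
import Pool.Agent.SG.WW

set_option autoImplicit false

/-!
# Module WWB: weak two-sided width with nine big points (template: SG/WW.lean)

`g = 1/(A+2)`, local groups with `localZone (nn_all A)`, global nefness `nnb_all (A+2)` with `r = g` (`a = A + 2`,
`g a = 1`). `ms` the small elements (`≤ M`), `bg` other big ones. Groups as in SG/WW.lean:
`N i = ⌈K^2 c1 (2^i)^(2g)⌉₊`, `ms = ∑ gs_j + rest`, windows of width `Y0 ≤ c3 K^2 M^(1+2g)`,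
`n ≤ (4/K) Sm gs`, `n ≤ V := ⌈c4 K M^(1+g)⌉`, `Sq gs ≤ 2 n²`, `n² ≤ 3 Sq gs`. States `B = ns + rest + bg`: all
elements `≥ 1`, `Sq B ≤ 3 Sq (ms + bg) ≤ 30 N`, `N ≤ 2 f Sq (B.filter ≤ V)`,
`Sm B ≤ (4/K) Sm ms + c2 K^2 M^(1+2g) + Sm bg`.
Error `X = V` on both sides (in SG/WW.lean `X = d`):
* `C0 V^(1+g) ≤ Y`: `V^(1+g) ≤ c (K M^(1+g))^(1+g) ≤ c K² M^(1+3g)` (`(1+g)² ≤ 1+3g`) and `C K² M^(1+3g) ≤ Y`.
* `C0² V^(2a+4) ≤ V² N^a`, `a = A + 2`: `N ≥ 2 Y² ≥ (C' V^(1+g))²`, `N^a ≥ C'' V^(2a + 2ga) = C'' V^(2a+2)`.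
* `S1 B ≥ Sm B ≥ N/(2 f V) ≥ V + 2` (`N ≥ C' V²`).
Claim: `hh d (Bm b + B) ≤ Phi 1 bw bw v`, `v = vv d (Bm b + B)`, `2 v = N + q + 2 - Sq B - Sm B` (`two_vvB`),
`S1 B ≤ 2 Sm B`.
 (i) `v ≥ S1 B`: `regB` (cutoff `V`, `X = V`): `hh = v`.
 (ii) `v < S1 B`: let `s = ⌈2 v + Sm B + q + V⌉` (or `0`). `B + 1^s` is empty by `empB` (`X = V`, `A = 300`):
 `Sq B + s = N + q + 2 - 2v - Sm B + s ≥ N + 2 q + V + 2`. So `hh ≤ s` (`hh_le_iff`). If `s = 0` done. Otherwise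
 `s - max v 0 ≤ 3 Sm B + q + V + 1 ≤ bw exp(-|v|/bw)/2`, as `|v| ≤ 2 Sm B + q + V` and
 `bw ≥ 100 (Sm B + q + V + 1)`.
`unmerge` (`q = 1`, `c = 0`, `w = 0`, `b1 = b2 = bw ≥ 22 Y0`), `ms := Bm b + (rest + bg)`.
-/

namespace Pool.Agent.SGN

open MvPolynomial Pool.Agent.helper5.NBS Pool.Agent.helper89.Segre Pool.Agent.SH9
open Pool.Agent.helper25.ST Pool.Agent.helper25.SXN Pool.Agent.SG

/-! ## elementary facts on multisets -/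

private lemma w_card_le {ms : Multiset ℕ} (h : ∀ m ∈ ms, 1 ≤ m) : Multiset.card ms ≤ Sm ms := by
  have h1 := Multiset.card_nsmul_le_sum h
  simpa [Sm] using h1

private lemma w_S1 {ms : Multiset ℕ} (h : ∀ m ∈ ms, 1 ≤ m) : S1 ms ≤ 2 * Sm ms := by
  rw [S1_eq]
  have := w_card_le h
  omega

private lemma w_Sq_mono {A B : Multiset ℕ} (h : A ≤ B) : Sq A ≤ Sq B := by
  obtain ⟨u, rfl⟩ := Multiset.le_iff_exists_add.1 h
  rw [Sq_add]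
  exact Nat.le_add_right _ _

private lemma w_Sq_ones (s : ℕ) : Sq (Multiset.replicate s 1) = s := by
  simp [Sq]

/-! ## a list of windows -/

/-- the numerical properties of a window -/
private structure WOk (K : ℝ) (V : ℕ) (x : Tup) : Prop where
  l1 : 1 ≤ x.nL
  sq1 : Sq x.gs ≤ 2 * x.nL ^ 2
  sq2 : x.nR ^ 2 ≤ 3 * Sq x.gs
  sm : K * (x.nR : ℝ) ≤ 4 * (Sm x.gs : ℝ)
  hV : x.nR ≤ V

private lemma w_list {K : ℝ} (hK : 0 ≤ K) {V : ℕ} {L : List Tup} {ns : List ℕ}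
    (h : List.Forall₂ (fun (n : ℕ) (x : Tup) => x.nL ≤ n ∧ n ≤ x.nR) ns L)
    (hL : ∀ x ∈ L, WOk K V x) :
    Sq (ns : Multiset ℕ) ≤ 3 * Sq ((L.map Tup.gs).sum) ∧
    Sq ((L.map Tup.gs).sum) ≤ 2 * Sq (ns : Multiset ℕ) ∧
    K * (Sm (ns : Multiset ℕ) : ℝ) ≤ 4 * (Sm ((L.map Tup.gs).sum) : ℝ) ∧
    ∀ n ∈ (ns : Multiset ℕ), 1 ≤ n ∧ n ≤ V := by
  induction h with
  | nil => simp [Sq, Sm]
  | @cons n x ns L h1 h2 ih =>
    obtain ⟨i1, i2, i3, i4⟩ := ih fun y hy => hL y (List.mem_cons_of_mem _ hy)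
    have hx := hL x List.mem_cons_self
    rw [List.map_cons, List.sum_cons, ← Multiset.cons_coe, Sq_add, Sq_cons, Sm_add, Sm_cons]
    have e1 : n ^ 2 ≤ x.nR ^ 2 := Nat.pow_le_pow_left h1.2 2
    have e2 : x.nL ^ 2 ≤ n ^ 2 := Nat.pow_le_pow_left h1.1 2
    have e3 := hx.sq1
    have e4 := hx.sq2
    refine ⟨by omega, by omega, ?_, ?_⟩
    · push_cast
      have e5 : K * (n : ℝ) ≤ K * (x.nR : ℝ) :=
        mul_le_mul_of_nonneg_left (by exact_mod_cast h1.2) hK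
      have e6 := hx.sm
      linarith
    · intro k hk
      rcases Multiset.mem_cons.1 hk with rfl | hk
      · exact ⟨hx.l1.trans h1.1, h1.2.trans hx.hV⟩
      · exact i4 k hk

/-! ## one group -/

private lemma w_group {W : ℕ} {gs : Multiset ℕ} (h : ∀ m ∈ gs, W < 2 * m ∧ m ≤ W) :
    Multiset.card gs * W ≤ 2 * Sm gs ∧ Sq gs ≤ Multiset.card gs * W ^ 2 := by
  constructor
  · have h1 := Multiset.card_nsmul_le_sum (s := gs.map fun m => 2 * m) (a := W) (by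
      intro y hy
      obtain ⟨m, hm, rfl⟩ := Multiset.mem_map.1 hy
      exact (h m hm).1.le)
    rw [Multiset.card_map, smul_eq_mul] at h1
    refine h1.trans (le_of_eq ?_)
    rw [Multiset.sum_map_mul_left, Multiset.map_id']
    rfl
  · have h1 := Multiset.sum_le_card_nsmul (gs.map fun m => m ^ 2) (W ^ 2) (by
      intro y hy
      obtain ⟨m, hm, rfl⟩ := Multiset.mem_map.1 hy
      exact Nat.pow_le_pow_left (h m hm).2 2)
    rw [Multiset.card_map, smul_eq_mul] at h1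
    exact h1

/-- the number of elements of a group -/
private noncomputable def wN (a : ℕ) (c1 K : ℝ) (i : ℕ) : ℕ :=
  Nat.ceil (K ^ 2 * c1 * ((2 : ℝ) ^ i) ^ (2 / ((a : ℝ) + 2)))

private lemma w_one_le_rpow (i : ℕ) {θ : ℝ} (hθ : 0 ≤ θ) : 1 ≤ ((2 : ℝ) ^ i) ^ θ :=
  Real.one_le_rpow (one_le_pow₀ one_le_two) hθ

private lemma w_theta (a : ℕ) : 0 ≤ 2 / ((a : ℝ) + 2) ∧ 2 / ((a : ℝ) + 2) ≤ 1 := by
  have ha : (0 : ℝ) ≤ a := Nat.cast_nonneg a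
  constructor
  · positivity
  · rw [div_le_one (by positivity)]
    linarith

private lemma wN_ge (a : ℕ) {c1 K : ℝ} (i : ℕ) :
    K ^ 2 * c1 * ((2 : ℝ) ^ i) ^ (2 / ((a : ℝ) + 2)) ≤ wN a c1 K i := Nat.le_ceil _

private lemma wN_le (a : ℕ) {c1 K : ℝ} (hc : 1 ≤ c1) (hK : 1 ≤ K) (i : ℕ) :
    (wN a c1 K i : ℝ) ≤ 2 * c1 * K ^ 2 * ((2 : ℝ) ^ i) ^ (2 / ((a : ℝ) + 2)) := by
  have h1 := w_one_le_rpow i (w_theta a).1
  set t := ((2 : ℝ) ^ i) ^ (2 / ((a : ℝ) + 2)) with ht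
  have h2 : 1 ≤ K ^ 2 * c1 * t := by
    have hK2 : 1 ≤ K ^ 2 := one_le_pow₀ hK
    have h3 : 1 ≤ K ^ 2 * c1 := one_le_mul_of_one_le_of_one_le hK2 hc
    exact one_le_mul_of_one_le_of_one_le h3 h1
  have h4 := Nat.ceil_lt_add_one (a := K ^ 2 * c1 * t) (by linarith)
  change ((Nat.ceil (K ^ 2 * c1 * t) : ℕ) : ℝ) ≤ _
  nlinarith

private lemma wN_one (a : ℕ) {c1 K : ℝ} (hc : 1 ≤ c1) (hK : 1 ≤ K) (i : ℕ) :
    K ^ 2 ≤ wN a c1 K i ∧ 1 ≤ wN a c1 K i := by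
  have h1 := w_one_le_rpow i (w_theta a).1
  have h2 := wN_ge a (c1 := c1) (K := K) i
  have hK2 : 1 ≤ K ^ 2 := one_le_pow₀ hK
  have h3 : K ^ 2 ≤ K ^ 2 * c1 := le_mul_of_one_le_right (by positivity) hc
  have h4 : K ^ 2 * c1 ≤ K ^ 2 * c1 * ((2 : ℝ) ^ i) ^ (2 / ((a : ℝ) + 2)) :=
    le_mul_of_one_le_right (by positivity) h1
  have h5 : K ^ 2 ≤ wN a c1 K i := h3.trans (h4.trans h2)
  refine ⟨h5, ?_⟩
  have h6 : (1 : ℝ) ≤ wN a c1 K i := hK2.trans h5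
  exact_mod_cast h6

private lemma wN_pow (a CZ : ℕ) (hCZ : 1 ≤ CZ) {K : ℝ} (hK : 1 ≤ K) (i : ℕ) :
    CZ * (2 ^ i) ^ 2 ≤ (wN a (CZ : ℝ) K i) ^ (a + 2) := by
  have ha : (0 : ℝ) ≤ a := Nat.cast_nonneg a
  have hc : (1 : ℝ) ≤ CZ := by exact_mod_cast hCZ
  have h0 := wN_ge a (c1 := (CZ : ℝ)) (K := K) i
  have hK2 : 1 ≤ K ^ 2 := one_le_pow₀ hK
  have hp : (0 : ℝ) < ((2 : ℝ) ^ i) ^ (2 / ((a : ℝ) + 2)) := by positivity
  have h1 : (CZ : ℝ) * ((2 : ℝ) ^ i) ^ (2 / ((a : ℝ) + 2)) ≤ wN a (CZ : ℝ) K i := by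
    refine le_trans ?_ h0
    have : (CZ : ℝ) ≤ K ^ 2 * CZ := le_mul_of_one_le_left (by positivity) hK2
    exact mul_le_mul_of_nonneg_right this hp.le
  have h2 : ((CZ : ℝ) * ((2 : ℝ) ^ i) ^ (2 / ((a : ℝ) + 2))) ^ (a + 2) ≤
      (wN a (CZ : ℝ) K i : ℝ) ^ (a + 2) := pow_le_pow_left₀ (by positivity) h1 _
  have h3 : (((2 : ℝ) ^ i) ^ (2 / ((a : ℝ) + 2))) ^ (a + 2) = ((2 : ℝ) ^ i) ^ 2 := by
    rw [← Real.rpow_natCast, ← Real.rpow_mul (by positivity)]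
    have : 2 / ((a : ℝ) + 2) * ((a + 2 : ℕ) : ℝ) = ((2 : ℕ) : ℝ) := by
      push_cast
      field_simp
    rw [this, Real.rpow_natCast]
  rw [mul_pow, h3] at h2
  have h4 : (CZ : ℝ) ≤ (CZ : ℝ) ^ (a + 2) := le_self_pow₀ hc (by omega)
  have h5 : (CZ : ℝ) * ((2 : ℝ) ^ i) ^ 2 ≤ (wN a (CZ : ℝ) K i : ℝ) ^ (a + 2) :=
    (mul_le_mul_of_nonneg_right h4 (by positivity)).trans h2
  exact_mod_cast h5

/-! ## powers of the dyadic numbers -/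

private lemma w_two_rpow {θ : ℝ} (hθ0 : 0 ≤ θ) (hθ1 : θ ≤ 1) {t : ℝ} (ht : 0 ≤ t) :
    (2 * t) ^ (1 + θ) ≤ 4 * t ^ (1 + θ) ∧ (2 * t) ^ (2 + θ) ≤ 8 * t ^ (2 + θ) := by
  constructor
  · rw [Real.mul_rpow zero_le_two ht]
    refine mul_le_mul_of_nonneg_right ?_ (Real.rpow_nonneg ht _)
    calc (2 : ℝ) ^ (1 + θ) ≤ (2 : ℝ) ^ (2 : ℝ) :=
          Real.rpow_le_rpow_of_exponent_le one_le_two (by linarith)
      _ = 4 := by norm_num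
  · rw [Real.mul_rpow zero_le_two ht]
    refine mul_le_mul_of_nonneg_right ?_ (Real.rpow_nonneg ht _)
    calc (2 : ℝ) ^ (2 + θ) ≤ (2 : ℝ) ^ (3 : ℝ) :=
          Real.rpow_le_rpow_of_exponent_le one_le_two (by linarith)
      _ = 8 := by norm_num

private lemma w_pow_add {t θ : ℝ} (ht : 0 < t) :
    t ^ (1 + θ) = t ^ θ * t ∧ t ^ (2 + θ) = t ^ θ * t ^ 2 := by
  constructor
  · rw [add_comm, Real.rpow_add ht, Real.rpow_one]
  · rw [add_comm, Real.rpow_add ht]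
    norm_num

/-- the remainder is small -/
private lemma w_rest {a M : ℕ} {c1 K : ℝ} (hc : 1 ≤ c1) (hK : 1 ≤ K) (hM : 1 ≤ M)
    {rest : Multiset ℕ} (h1 : ∀ m ∈ rest, 1 ≤ m ∧ m ≤ M)
    (h2 : ∀ i, Multiset.card (cls i rest) < wN a c1 K i) :
    (Sm rest : ℝ) ≤ 16 * c1 * K ^ 2 * (M : ℝ) ^ (1 + 2 / ((a : ℝ) + 2)) := by
  obtain ⟨hθ0, hθ1⟩ := w_theta a
  set θ := 2 / ((a : ℝ) + 2) with hθ
  have e1 := (cls_bounds h1).2.2.1
  have e2 : (Sm rest : ℝ) ≤ ∑ i ∈ Finset.range (Nat.clog 2 M + 1),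
      (Multiset.card (cls i rest) : ℝ) * 2 ^ i := by exact_mod_cast e1
  have e3 : ∀ i ∈ Finset.range (Nat.clog 2 M + 1), (Multiset.card (cls i rest) : ℝ) * 2 ^ i ≤
      2 * c1 * K ^ 2 * ((2 : ℝ) ^ i) ^ (1 + θ) := by
    intro i _
    have e4 : (Multiset.card (cls i rest) : ℝ) ≤ wN a c1 K i := by exact_mod_cast (h2 i).le
    have e5 := e4.trans (wN_le a hc hK i)
    rw [(w_pow_add (by positivity)).1, ← mul_assoc]
    exact mul_le_mul_of_nonneg_right e5 (by positivity)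
  have e6 := e2.trans (Finset.sum_le_sum e3)
  rw [← Finset.mul_sum] at e6
  have e7 := geom hM (θ := 1 + θ) (by linarith)
  have e8 := (w_two_rpow hθ0 hθ1 (t := (M : ℝ)) (Nat.cast_nonneg _)).1
  have e9 : 0 ≤ 2 * c1 * K ^ 2 := by positivity
  calc (Sm rest : ℝ) ≤ _ := e6
    _ ≤ 2 * c1 * K ^ 2 * (2 * (2 * (M : ℝ)) ^ (1 + θ)) := mul_le_mul_of_nonneg_left e7 e9
    _ ≤ 2 * c1 * K ^ 2 * (2 * (4 * (M : ℝ) ^ (1 + θ))) :=
      mul_le_mul_of_nonneg_left (by linarith) e9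
    _ = _ := by ring

/-- the nodes of the windows -/
private noncomputable def wV (a M : ℕ) (c1 K : ℝ) : ℕ :=
  Nat.ceil (7 * c1 * K * (M : ℝ) ^ (1 + 1 / ((a : ℝ) + 2)))

private lemma w_half (a : ℕ) {t : ℝ} (ht : 0 ≤ t) :
    (t ^ (1 + 1 / ((a : ℝ) + 2))) ^ 2 = t ^ (2 + 2 / ((a : ℝ) + 2)) ∧
    (t ^ (1 + 1 / ((a : ℝ) + 2))) ^ (a + 2) = t ^ (a + 3) := by
  have ha : (0 : ℝ) ≤ a := Nat.cast_nonneg a
  constructor
  · rw [← Real.rpow_natCast, ← Real.rpow_mul ht]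
    congr 1
    push_cast
    ring
  · rw [← Real.rpow_natCast, ← Real.rpow_mul ht, ← Real.rpow_natCast t (a + 3)]
    congr 1
    push_cast
    field_simp
    ring

private lemma wV_facts (a : ℕ) {M : ℕ} {c1 K : ℝ} (hc : 1 ≤ c1) (hK : 1 ≤ K) (hM : 1 ≤ M) :
    7 * c1 * K * (M : ℝ) ^ (1 + 1 / ((a : ℝ) + 2)) ≤ wV a M c1 K ∧
    (wV a M c1 K : ℝ) ≤ 8 * c1 * K * (M : ℝ) ^ (1 + 1 / ((a : ℝ) + 2)) ∧ M ≤ wV a M c1 K ∧
    1 ≤ wV a M c1 K := by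
  have ha : (0 : ℝ) ≤ a := Nat.cast_nonneg a
  have hM' : (1 : ℝ) ≤ M := by exact_mod_cast hM
  have h0 : (0 : ℝ) ≤ 1 / ((a : ℝ) + 2) := by positivity
  have h1 : (M : ℝ) ≤ (M : ℝ) ^ (1 + 1 / ((a : ℝ) + 2)) := by
    have := Real.rpow_le_rpow_of_exponent_le hM' (by linarith : (1 : ℝ) ≤ 1 + 1 / ((a : ℝ) + 2))
    rwa [Real.rpow_one] at this
  set T := (M : ℝ) ^ (1 + 1 / ((a : ℝ) + 2)) with hT
  have h2 : 1 ≤ c1 * K := one_le_mul_of_one_le_of_one_le hc hK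
  have h3 : T ≤ c1 * K * T := le_mul_of_one_le_left (by linarith) h2
  have h4 : 7 * c1 * K * T ≤ wV a M c1 K := Nat.le_ceil _
  have h5 : (wV a M c1 K : ℝ) < 7 * c1 * K * T + 1 :=
    Nat.ceil_lt_add_one (by nlinarith)
  have h6 : (M : ℝ) ≤ wV a M c1 K := by nlinarith
  refine ⟨h4, by nlinarith, by exact_mod_cast h6, ?_⟩
  exact hM.trans (by exact_mod_cast h6)

/-! ## the numbers `V` and `Y` -/

private lemma n_num {A C0 V Y N : ℕ} (hC0 : 1 ≤ C0) (hV1 : 1 ≤ V)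
    (hVY : (C0 : ℝ) * (V : ℝ) ^ (1 + 1 / ((A : ℝ) + 2)) ≤ Y) (hY2 : 2 * Y ^ 2 ≤ N) :
    C0 * V ≤ Y ∧ C0 ^ 2 * V ^ (2 * (A + 2) + 4) ≤ V ^ 2 * N ^ (A + 2) := by
  have hA : (0 : ℝ) ≤ A := Nat.cast_nonneg A
  have hV1' : (1 : ℝ) ≤ V := by exact_mod_cast hV1
  have hC0' : (1 : ℝ) ≤ C0 := by exact_mod_cast hC0
  have h0 : (0 : ℝ) ≤ 1 / ((A : ℝ) + 2) := by positivity
  have hVT : (V : ℝ) ≤ (V : ℝ) ^ (1 + 1 / ((A : ℝ) + 2)) := by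
    have := Real.rpow_le_rpow_of_exponent_le hV1' (by linarith : (1 : ℝ) ≤ 1 + 1 / ((A : ℝ) + 2))
    rwa [Real.rpow_one] at this
  constructor
  · have h1 : (C0 : ℝ) * V ≤ Y := (mul_le_mul_of_nonneg_left hVT (by linarith)).trans hVY
    exact_mod_cast h1
  · have h1 : ((C0 : ℝ) * (V : ℝ) ^ (1 + 1 / ((A : ℝ) + 2))) ^ (A + 2) ≤ (Y : ℝ) ^ (A + 2) :=
      pow_le_pow_left₀ (by positivity) hVY _
    rw [mul_pow, (w_half A (Nat.cast_nonneg V)).2] at h1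
    have h2 : C0 ^ (A + 2) * V ^ (A + 3) ≤ Y ^ (A + 2) := by exact_mod_cast h1
    have h3 : C0 ^ 2 ≤ (C0 ^ (A + 2)) ^ 2 := by
      refine Nat.pow_le_pow_left ?_ 2
      exact Nat.le_self_pow (by omega) C0
    have h4 : (C0 ^ (A + 2) * V ^ (A + 3)) ^ 2 ≤ (Y ^ (A + 2)) ^ 2 := Nat.pow_le_pow_left h2 2
    have h5 : (Y ^ (A + 2)) ^ 2 ≤ N ^ (A + 2) := by
      rw [← pow_mul, mul_comm (A + 2) 2, pow_mul]
      exact Nat.pow_le_pow_left (by omega) _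
    calc C0 ^ 2 * V ^ (2 * (A + 2) + 4) ≤ (C0 ^ (A + 2)) ^ 2 * V ^ (2 * (A + 2) + 4) :=
          Nat.mul_le_mul_right _ h3
      _ = V ^ 2 * (C0 ^ (A + 2) * V ^ (A + 3)) ^ 2 := by ring
      _ ≤ V ^ 2 * (Y ^ (A + 2)) ^ 2 := Nat.mul_le_mul_left _ h4
      _ ≤ V ^ 2 * N ^ (A + 2) := Nat.mul_le_mul_left _ h5

private lemma n_Sm {B : Multiset ℕ} {V : ℕ} : Sq (B.filter fun m => m ≤ V) ≤ V * Sm B := by
  have h1 : Sm (B.filter fun m => m ≤ V) ≤ Sm B := by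
    have h2 := Multiset.filter_add_not (fun m => m ≤ V) B
    have h3 : Sm B = Sm (B.filter fun m => m ≤ V) + Sm (B.filter fun m => ¬ m ≤ V) := by
      rw [← Sm_add, h2]
    omega
  refine le_trans ?_ (Nat.mul_le_mul_left V h1)
  have h2 : ∀ D : Multiset ℕ, (∀ m ∈ D, m ≤ V) → Sq D ≤ V * Sm D := by
    intro D
    induction D using Multiset.induction_on with
    | empty => intro _; simp [Sq]
    | cons m D ih =>
      intro h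
      have h3 := ih fun k hk => h k (Multiset.mem_cons_of_mem hk)
      have h4 : m ^ 2 ≤ V * m := by
        rw [sq]
        exact Nat.mul_le_mul_right _ (h m (Multiset.mem_cons_self m D))
      rw [Sq_cons, Sm_cons, mul_add]
      omega
  exact h2 _ fun m hm => (Multiset.mem_filter.1 hm).2

/-- the sum of the multiplicities of a state is at least `3 V` -/
private lemma n_SmV {B : Multiset ℕ} {V Y N f : ℕ} (hV1 : 1 ≤ V) (hY : 3 * (f + 1) * V ≤ Y)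
    (hY2 : 2 * Y ^ 2 ≤ N) (hf : N ≤ 2 * f * Sq (B.filter fun m => m ≤ V)) : V + 2 ≤ Sm B := by
  by_contra hcon
  have h0 : Sm B ≤ 3 * V := by omega
  have h1 : N ≤ 2 * f * (V * (3 * V)) :=
    hf.trans (Nat.mul_le_mul_left _ (n_Sm.trans (Nat.mul_le_mul_left _ h0)))
  have h2 : (3 * (f + 1) * V) ^ 2 ≤ Y ^ 2 := Nat.pow_le_pow_left hY 2
  have h3 : (3 * (f + 1) * V) ^ 2 = 9 * (f + 1) ^ 2 * V ^ 2 := by ring
  have h4 : 2 * f * (V * (3 * V)) = 6 * f * V ^ 2 := by ring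
  have h5 : 1 ≤ V ^ 2 := Nat.one_le_pow _ _ hV1
  have h6 : 6 * f * V ^ 2 < 18 * (f + 1) ^ 2 * V ^ 2 := by
    refine Nat.mul_lt_mul_of_pos_right ?_ h5
    nlinarith
  have h7 : 2 * (9 * (f + 1) ^ 2 * V ^ 2) = 18 * (f + 1) ^ 2 * V ^ 2 := by ring
  omega

/-! ## the bound for a state -/

private lemma n_state {A C0 V f d Y N q : ℕ} {b : Fin 9 → ℕ} (hC0 : 1 ≤ C0) (hV1 : 1 ≤ V)
    (hE : ∀ (d Y N q W X : ℕ) (b : Fin 9 → ℕ) (ms : Multiset ℕ), Big d Y N q b → 1 ≤ W →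
      (C0 : ℝ) * (W : ℝ) ^ (1 + 1 / ((A : ℝ) + 2)) ≤ Y → (∀ m ∈ ms, C0 * m ≤ Y) →
      N ≤ (2 * f) * Sq (ms.filter fun m => m ≤ W) → Sq ms ≤ 300 * N →
      C0 ^ 2 * W ^ (2 * (A + 2) + 4) ≤ X ^ 2 * N ^ (A + 2) → N + 2 * q + X + 1 ≤ Sq ms →
      E d (Bm b + ms))
    (hR : ∀ (d Y N q W X : ℕ) (b : Fin 9 → ℕ) (ms : Multiset ℕ), Big d Y N q b → 1 ≤ W → 1 ≤ X →
      (C0 : ℝ) * (W : ℝ) ^ (1 + 1 / ((A : ℝ) + 2)) ≤ Y → (∀ m ∈ ms, C0 * m ≤ Y) →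
      N ≤ (2 * f) * Sq (ms.filter fun m => m ≤ W) → X + 2 ≤ S1 ms + q →
      C0 ^ 2 * W ^ (2 * (A + 2) + 4) ≤ X ^ 2 * N ^ (A + 2) →
      ((S1 ms : ℕ) : ℝ) ≤ vv d (Bm b + ms) → (hh d (Bm b + ms) : ℝ) = vv d (Bm b + ms))
    (hB : Big d Y N q b)
    (hVY : (C0 : ℝ) * (V : ℝ) ^ (1 + 1 / ((A : ℝ) + 2)) ≤ Y) (hVY2 : 3 * (f + 1) * V ≤ Y)
    {B : Multiset ℕ} (h1 : ∀ m ∈ B, 1 ≤ m ∧ C0 * m ≤ Y)
    (hf : N ≤ (2 * f) * Sq (B.filter fun m => m ≤ V)) (hSq : Sq B ≤ 30 * N) {w : ℝ}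
    (hw : 100 * ((Sm B : ℝ) + q + V + 1) ≤ w) :
    (hh d (Bm b + B) : ℝ) ≤ Phi 1 w w (vv d (Bm b + B)) := by
  have hY1 := hB.hY
  have hYq := hB.hYq
  have hY2 := hB.hY2
  obtain ⟨hCV, hpow⟩ := n_num hC0 hV1 hVY hY2
  have hVY1 : V ≤ Y := (Nat.le_mul_of_pos_left V hC0).trans hCV
  have hYN : Y ≤ N := by
    have : Y ≤ Y ^ 2 := Nat.le_self_pow two_ne_zero Y
    omega
  have hVN : V ≤ N := hVY1.trans hYN
  have hN2 : 2 ≤ N := by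
    have : 1 ≤ Y ^ 2 := Nat.one_le_pow _ _ hY1
    omega
  have hqN : 2 * q ≤ N := by
    have : q ≤ Y * q := Nat.le_mul_of_pos_left q hY1
    omega
  have hVS : V + 2 ≤ Sm B := n_SmV hV1 hVY2 hY2 hf
  have hSm0 : (0 : ℝ) ≤ Sm B := Nat.cast_nonneg _
  have hq0 : (0 : ℝ) ≤ q := Nat.cast_nonneg _
  have hV0 : (0 : ℝ) ≤ V := Nat.cast_nonneg _
  have hw0 : 0 < w := by linarith
  have hlePhi : max (vv d (Bm b + B)) 0 ≤ Phi 1 w w (vv d (Bm b + B)) :=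
    le_phi zero_le_one le_rfl hw0 le_rfl
  by_cases hv : ((S1 B : ℕ) : ℝ) ≤ vv d (Bm b + B)
  · have h3 := hR d Y N q V V b B hB hV1 hV1 hVY (fun m hm => (h1 m hm).2) hf
      (by rw [S1_eq]; omega) hpow hv
    rw [h3]
    exact (le_max_left _ _).trans hlePhi
  · push Not at hv
    have hS1 : ((S1 B : ℕ) : ℝ) ≤ 2 * Sm B := by
      exact_mod_cast w_S1 fun m hm => (h1 m hm).1
    have hv2 : vv d (Bm b + B) < 2 * Sm B := hv.trans_le hS1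
    have h2vv := two_vvB hB B
    set v := vv d (Bm b + B) with hvdef
    set s := Nat.ceil (2 * v + (Sm B : ℝ) + q + V) with hs
    have hSqR : (Sq B : ℝ) ≤ 30 * (N : ℝ) := by exact_mod_cast hSq
    have hSq0 : (0 : ℝ) ≤ Sq B := Nat.cast_nonneg _
    have hs1 : 2 * v + (Sm B : ℝ) + q + V ≤ s := Nat.le_ceil _
    have hs2 : (s : ℝ) ≤ max (2 * v + (Sm B : ℝ) + q + V + 1) 0 := by
      by_cases h0 : 0 ≤ 2 * v + (Sm B : ℝ) + q + V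
      · exact (Nat.ceil_lt_add_one h0).le.trans (le_max_left _ _)
      · push Not at h0
        have : s = 0 := Nat.ceil_eq_zero.mpr h0.le
        rw [this, Nat.cast_zero]
        exact le_max_right _ _
    have hqR : 2 * (q : ℝ) ≤ N := by exact_mod_cast hqN
    have hVR : (V : ℝ) ≤ N := by exact_mod_cast hVN
    have hNR : (2 : ℝ) ≤ N := by exact_mod_cast hN2
    have hsA : (s : ℝ) ≤ 10 * (N : ℝ) := by
      refine hs2.trans (max_le ?_ (by positivity))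
      linarith
    have hcons : E d (Bm b + (B + Multiset.replicate s 1)) := by
      refine hE d Y N q V V b (B + Multiset.replicate s 1) hB hV1 hVY ?_ ?_ ?_ hpow ?_
      · intro m hm
        rcases Multiset.mem_add.1 hm with hm | hm
        · exact (h1 m hm).2
        · rw [Multiset.eq_of_mem_replicate hm]
          exact le_trans (Nat.mul_le_mul_left _ hV1) hCV
      · refine hf.trans (Nat.mul_le_mul_left _ (w_Sq_mono ?_))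
        rw [Multiset.filter_add]
        exact Multiset.le_add_right _ _
      · rw [Sq_add, w_Sq_ones]
        have : ((Sq B + s : ℕ) : ℝ) ≤ ((300 * N : ℕ) : ℝ) := by
          push_cast
          linarith
        exact_mod_cast this
      · rw [Sq_add, w_Sq_ones]
        have : ((N + 2 * q + V + 1 : ℕ) : ℝ) ≤ ((Sq B + s : ℕ) : ℝ) := by
          push_cast
          linarith
        exact_mod_cast this
    rw [← add_assoc] at hcons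
    have hhs : hh d (Bm b + B) ≤ s := hh_le_iff.mpr hcons
    have hhs' : (hh d (Bm b + B) : ℝ) ≤ s := by exact_mod_cast hhs
    refine hhs'.trans ?_
    by_cases h0 : 2 * v + (Sm B : ℝ) + q + V ≤ 0
    · have : s = 0 := Nat.ceil_eq_zero.mpr h0
      rw [this, Nat.cast_zero]
      exact (le_max_right _ _).trans hlePhi
    · push Not at h0
      have hs3 : (s : ℝ) ≤ 2 * v + (Sm B : ℝ) + q + V + 1 := (Nat.ceil_lt_add_one h0.le).le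
      have habs : |v| ≤ 2 * Sm B + q + V := by
        rw [abs_le]
        constructor
        · linarith
        · linarith
      rw [Pool.Agent.SG.phi_one]
      have hexp : (49 : ℝ) / 50 ≤ Real.exp (-|v| / w) := by
        have h5 : |v| / w ≤ 1 / 50 := by
          rw [div_le_iff₀ hw0]
          linarith
        have h6 := Real.add_one_le_exp (-|v| / w)
        have h7 : -|v| / w = -(|v| / w) := neg_div _ _
        linarith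
      have h8 : w * (49 / 50) ≤ w * Real.exp (-|v| / w) :=
        mul_le_mul_of_nonneg_left hexp hw0.le
      rcases le_total 0 v with hp | hn
      · rw [max_eq_left hp]
        linarith
      · rw [max_eq_right hn]
        linarith

/-- the size of `V` against `Y` -/
private lemma n_VY {A M : ℕ} {c1 K : ℝ} (hc : 1 ≤ c1) (hK : 1 ≤ K) (hM : 1 ≤ M) :
    ((wV A M c1 K : ℕ) : ℝ) ^ (1 + 1 / ((A : ℝ) + 2)) ≤
      64 * c1 ^ 2 * (K ^ 2 * (M : ℝ) ^ (1 + 3 / ((A : ℝ) + 2))) := by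
  have hA : (0 : ℝ) ≤ A := Nat.cast_nonneg A
  have hM' : (1 : ℝ) ≤ M := by exact_mod_cast hM
  obtain ⟨g, hg⟩ : ∃ g : ℝ, g = 1 / ((A : ℝ) + 2) := ⟨_, rfl⟩
  have hg0 : 0 ≤ g := by rw [hg]; positivity
  have hg1 : g ≤ 1 := by
    rw [hg, div_le_one (by positivity)]
    linarith
  have h3 : 3 / ((A : ℝ) + 2) = 3 * g := by rw [hg]; ring
  have h1 := (wV_facts A hc hK hM).2.1
  rw [← hg] at h1 ⊢
  rw [h3]
  have hV0 : (0 : ℝ) ≤ (wV A M c1 K : ℝ) := Nat.cast_nonneg _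
  have h4 : ((wV A M c1 K : ℕ) : ℝ) ^ (1 + g) ≤ (8 * c1 * K * (M : ℝ) ^ (1 + g)) ^ (1 + g) :=
    Real.rpow_le_rpow hV0 h1 (by linarith)
  refine h4.trans ?_
  rw [Real.mul_rpow (by positivity) (by positivity)]
  have h5 : (8 * c1 * K) ^ (1 + g) ≤ 64 * c1 ^ 2 * K ^ 2 := by
    have h6 : (1 : ℝ) ≤ 8 * c1 * K := by nlinarith
    calc (8 * c1 * K) ^ (1 + g) ≤ (8 * c1 * K) ^ (2 : ℝ) :=
          Real.rpow_le_rpow_of_exponent_le h6 (by linarith)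
      _ = 64 * c1 ^ 2 * K ^ 2 := by
        rw [show (2 : ℝ) = ((2 : ℕ) : ℝ) by norm_num, Real.rpow_natCast]
        ring
  have h7 : ((M : ℝ) ^ (1 + g)) ^ (1 + g) ≤ (M : ℝ) ^ (1 + 3 * g) := by
    rw [← Real.rpow_mul (by positivity)]
    refine Real.rpow_le_rpow_of_exponent_le hM' ?_
    nlinarith
  calc (8 * c1 * K) ^ (1 + g) * ((M : ℝ) ^ (1 + g)) ^ (1 + g) ≤
        (64 * c1 ^ 2 * K ^ 2) * (M : ℝ) ^ (1 + 3 * g) :=
        mul_le_mul h5 h7 (by positivity) (by positivity)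
    _ = _ := by ring

/-- the window of a group -/
private lemma w_win {a M i : ℕ} {c1 K : ℝ} (hc : 1 ≤ c1) (hK : 1 ≤ K) (hM : 1 ≤ M)
    {gs : Multiset ℕ} {nL nR : ℕ} (hcard : Multiset.card gs = wN a c1 K i)
    (hgs : ∀ m ∈ gs, 2 ^ i < 2 * m ∧ m ≤ 2 ^ i) (hi : 2 ^ i ≤ 2 * M)
    (hw : Win gs nL nR (100 * (Multiset.card gs : ℝ) * (2 ^ i : ℕ))) (h1 : 1 ≤ nL)
    (h2 : Sq gs ≤ 2 * nL ^ 2) (h3 : nR ^ 2 ≤ 3 * Sq gs) :
    Tup.Ok ⟨gs, nL, nR, 0⟩ (800 * c1 * K ^ 2 * (M : ℝ) ^ (1 + 2 / ((a : ℝ) + 2))) ∧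
    WOk K (wV a M c1 K) ⟨gs, nL, nR, 0⟩ := by
  obtain ⟨hθ0, hθ1⟩ := w_theta a
  have hNle := wN_le a hc hK i
  have hN1 := (wN_one a hc hK i).1
  rw [← hcard] at hNle hN1
  obtain ⟨g1, g2⟩ := w_group hgs
  set N := Multiset.card gs with hNdef
  have hM0 : (0 : ℝ) ≤ M := Nat.cast_nonneg M
  have h2M : (2 : ℝ) ^ i ≤ 2 * M := by exact_mod_cast hi
  have hp : (0 : ℝ) < (2 : ℝ) ^ i := by positivity
  have t1 : ((2 : ℝ) ^ i) ^ (1 + 2 / ((a : ℝ) + 2)) ≤ 4 * (M : ℝ) ^ (1 + 2 / ((a : ℝ) + 2)) :=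
    (Real.rpow_le_rpow hp.le h2M (by linarith)).trans (w_two_rpow hθ0 hθ1 hM0).1
  have t2 : ((2 : ℝ) ^ i) ^ (2 + 2 / ((a : ℝ) + 2)) ≤ 8 * (M : ℝ) ^ (2 + 2 / ((a : ℝ) + 2)) :=
    (Real.rpow_le_rpow hp.le h2M (by linarith)).trans (w_two_rpow hθ0 hθ1 hM0).2
  rw [(w_pow_add hp).1] at t1
  rw [(w_pow_add hp).2] at t2
  have hcK : 0 ≤ 2 * c1 * K ^ 2 := by positivity
  refine ⟨⟨⟨hw.ex, hw.wid.trans ?_⟩, le_rfl, fun n => abs_nonneg _⟩, ⟨h1, h2, h3, ?_, ?_⟩⟩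
  · push_cast
    have e1 : (N : ℝ) * 2 ^ i ≤ 2 * c1 * K ^ 2 * ((2 : ℝ) ^ i) ^ (2 / ((a : ℝ) + 2)) * 2 ^ i :=
      mul_le_mul_of_nonneg_right hNle hp.le
    have e2 := mul_le_mul_of_nonneg_left t1 hcK
    nlinarith
  · change K * (nR : ℝ) ≤ 4 * (Sm gs : ℝ)
    have e1 : ((nR : ℝ)) ^ 2 ≤ 3 * (N * ((2 : ℝ) ^ i) ^ 2) := by
      have e2 : nR ^ 2 ≤ 3 * (N * (2 ^ i) ^ 2) := h3.trans (Nat.mul_le_mul_left 3 g2)
      exact_mod_cast e2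
    have e3 : (N : ℝ) * 2 ^ i ≤ 2 * Sm gs := by exact_mod_cast g1
    have hN0 : (0 : ℝ) ≤ N := Nat.cast_nonneg _
    have hS0 : (0 : ℝ) ≤ Sm gs := Nat.cast_nonneg _
    have e4 : (K * (nR : ℝ)) ^ 2 ≤ (4 * (Sm gs : ℝ)) ^ 2 := by
      have e5 : (K * (nR : ℝ)) ^ 2 ≤ K ^ 2 * (3 * (N * ((2 : ℝ) ^ i) ^ 2)) := by
        rw [mul_pow]
        exact mul_le_mul_of_nonneg_left e1 (by positivity)
      have e6 : K ^ 2 * (3 * (N * ((2 : ℝ) ^ i) ^ 2)) ≤ N * (3 * (N * ((2 : ℝ) ^ i) ^ 2)) :=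
        mul_le_mul_of_nonneg_right hN1 (by positivity)
      have e7 : ((N : ℝ) * 2 ^ i) ^ 2 ≤ (2 * (Sm gs : ℝ)) ^ 2 :=
        pow_le_pow_left₀ (by positivity) e3 2
      nlinarith
    exact (pow_le_pow_iff_left₀ (by positivity) (by positivity) two_ne_zero).mp e4
  · change nR ≤ wV a M c1 K
    have e1 : ((nR : ℝ)) ^ 2 ≤ 3 * (N * ((2 : ℝ) ^ i) ^ 2) := by
      have e2 : nR ^ 2 ≤ 3 * (N * (2 ^ i) ^ 2) := h3.trans (Nat.mul_le_mul_left 3 g2)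
      exact_mod_cast e2
    have e3 : (N : ℝ) * ((2 : ℝ) ^ i) ^ 2 ≤
        2 * c1 * K ^ 2 * ((2 : ℝ) ^ i) ^ (2 / ((a : ℝ) + 2)) * ((2 : ℝ) ^ i) ^ 2 :=
      mul_le_mul_of_nonneg_right hNle (by positivity)
    have e4 := mul_le_mul_of_nonneg_left t2 hcK
    have e5 : (nR : ℝ) ^ 2 ≤ 48 * c1 * K ^ 2 * (M : ℝ) ^ (2 + 2 / ((a : ℝ) + 2)) := by
      nlinarith
    have e6 : (nR : ℝ) ^ 2 ≤ (7 * c1 * K * (M : ℝ) ^ (1 + 1 / ((a : ℝ) + 2))) ^ 2 := by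
      rw [mul_pow, (w_half a hM0).1]
      refine e5.trans (mul_le_mul_of_nonneg_right ?_ (by positivity))
      have : c1 ≤ c1 ^ 2 := le_self_pow₀ hc two_ne_zero
      have hK2 : 0 ≤ K ^ 2 := sq_nonneg K
      nlinarith
    have e7 : (nR : ℝ) ≤ 7 * c1 * K * (M : ℝ) ^ (1 + 1 / ((a : ℝ) + 2)) :=
      (pow_le_pow_iff_left₀ (by positivity) (by positivity) two_ne_zero).mp e6
    have e8 := e7.trans (wV_facts a hc hK hM).1
    exact_mod_cast e8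

theorem wwB (A f : ℕ) : ∃ C : ℝ, 1 ≤ C ∧ ∀ (d M Y N q : ℕ) (K bw : ℝ) (b : Fin 9 → ℕ)
    (ms bg : Multiset ℕ), 1 ≤ M → 1 ≤ K → Big d Y N q b → (∀ m ∈ ms, 1 ≤ m ∧ m ≤ M) →
    (∀ m ∈ bg, 1 ≤ m ∧ C * (m : ℝ) ≤ Y) → N ≤ f * Sq ms → Sq (ms + bg) ≤ 10 * N →
    C * K ^ 2 * (M : ℝ) ^ (1 + 3 / ((A : ℝ) + 2)) ≤ Y →
    C * ((Sm ms : ℝ) / K + (Sm bg : ℝ) + q + K ^ 2 * (M : ℝ) ^ (1 + 2 / ((A : ℝ) + 2))) ≤ bw →
    (hh d (Bm b + (ms + bg)) : ℝ) ≤ Phi 1 bw bw (vv d (Bm b + (ms + bg))) := by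
  have hg : 0 < 1 / ((A : ℝ) + 2) := by positivity
  have hNB : NNB (A + 2) (1 / ((A : ℝ) + 2)) := nnb_all (A + 2) hg
  obtain ⟨CE, hCE1, hE⟩ := empB hNB (2 * f) 300
  obtain ⟨CR, hCR1, hR⟩ := regB hNB (2 * f)
  obtain ⟨CZ, hCZ1, hZ⟩ := localZone (nn_all A)
  obtain ⟨C0, hC0⟩ : ∃ C0 : ℕ, C0 = max (max CE CR) (3 * (f + 1)) := ⟨_, rfl⟩
  have hCEC : CE ≤ C0 := by rw [hC0]; exact (le_max_left _ _).trans (le_max_left _ _)
  have hCRC : CR ≤ C0 := by rw [hC0]; exact (le_max_right _ _).trans (le_max_left _ _)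
  have hfC : 3 * (f + 1) ≤ C0 := by rw [hC0]; exact le_max_right _ _
  have hC01 : 1 ≤ C0 := hCE1.trans hCEC
  have hE' : ∀ (d Y N q W X : ℕ) (b : Fin 9 → ℕ) (ms : Multiset ℕ), Big d Y N q b → 1 ≤ W →
      (C0 : ℝ) * (W : ℝ) ^ (1 + 1 / ((A : ℝ) + 2)) ≤ Y → (∀ m ∈ ms, C0 * m ≤ Y) →
      N ≤ (2 * f) * Sq (ms.filter fun m => m ≤ W) → Sq ms ≤ 300 * N →
      C0 ^ 2 * W ^ (2 * (A + 2) + 4) ≤ X ^ 2 * N ^ (A + 2) → N + 2 * q + X + 1 ≤ Sq ms →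
      E d (Bm b + ms) := by
    intro d Y N q W X b ms i0 i1 i2 i3 i4 i5 i6 i7
    refine hE d Y N q W X b ms i0 i1 (le_trans (mul_le_mul_of_nonneg_right ?_ ?_) i2)
      (fun m hm => (Nat.mul_le_mul_right _ hCEC).trans (i3 m hm)) i4 i5
      ((Nat.mul_le_mul_right _ (Nat.pow_le_pow_left hCEC 2)).trans i6) i7
    · exact_mod_cast hCEC
    · exact Real.rpow_nonneg (Nat.cast_nonneg _) _
  have hR' : ∀ (d Y N q W X : ℕ) (b : Fin 9 → ℕ) (ms : Multiset ℕ), Big d Y N q b → 1 ≤ W →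
      1 ≤ X → (C0 : ℝ) * (W : ℝ) ^ (1 + 1 / ((A : ℝ) + 2)) ≤ Y → (∀ m ∈ ms, C0 * m ≤ Y) →
      N ≤ (2 * f) * Sq (ms.filter fun m => m ≤ W) → X + 2 ≤ S1 ms + q →
      C0 ^ 2 * W ^ (2 * (A + 2) + 4) ≤ X ^ 2 * N ^ (A + 2) →
      ((S1 ms : ℕ) : ℝ) ≤ vv d (Bm b + ms) → (hh d (Bm b + ms) : ℝ) = vv d (Bm b + ms) := by
    intro d Y N q W X b ms i0 i1 iX i2 i3 i4 i5 i6 i7
    refine hR d Y N q W X b ms i0 i1 iX (le_trans (mul_le_mul_of_nonneg_right ?_ ?_) i2)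
      (fun m hm => (Nat.mul_le_mul_right _ hCRC).trans (i3 m hm)) i4 i5
      ((Nat.mul_le_mul_right _ (Nat.pow_le_pow_left hCRC 2)).trans i6) i7
    · exact_mod_cast hCRC
    · exact Real.rpow_nonneg (Nat.cast_nonneg _) _
  have hc : (1 : ℝ) ≤ CZ := by exact_mod_cast hCZ1
  have hC0r : (1 : ℝ) ≤ C0 := by exact_mod_cast hC01
  have hP0 : (0 : ℝ) ≤ (C0 : ℝ) * (64 * (CZ : ℝ) ^ 2) := by positivity
  refine ⟨(C0 : ℝ) * (64 * (CZ : ℝ) ^ 2) + 17600 * CZ + C0, by linarith, ?_⟩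
  intro d M Y N q K bw b ms bg hM hK hBig hms hbg hf hSq hd hb
  obtain ⟨C, hC⟩ : ∃ C : ℝ, C = (C0 : ℝ) * (64 * (CZ : ℝ) ^ 2) + 17600 * CZ + C0 := ⟨_, rfl⟩
  rw [← hC] at hbg hd hb
  have hCC0 : (C0 : ℝ) ≤ C := by linarith
  have hCP : (C0 : ℝ) * (64 * (CZ : ℝ) ^ 2) ≤ C := by linarith
  have hCZ : 17600 * (CZ : ℝ) ≤ C := by linarith
  have hK0 : 0 < K := by linarith
  have hM0 : (0 : ℝ) ≤ M := Nat.cast_nonneg M
  have hM1 : (1 : ℝ) ≤ M := by exact_mod_cast hM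
  -- the number `V`
  obtain ⟨V, hV⟩ : ∃ V : ℕ, V = wV A M (CZ : ℝ) K := ⟨_, rfl⟩
  obtain ⟨_, hVup, hMV, hV1⟩ := wV_facts A hc hK hM
  rw [← hV] at hVup hMV hV1
  have hVY : (C0 : ℝ) * (V : ℝ) ^ (1 + 1 / ((A : ℝ) + 2)) ≤ Y := by
    refine le_trans ?_ hd
    have h1 := n_VY (A := A) hc hK hM
    rw [← hV] at h1
    have h2 : (C0 : ℝ) * (V : ℝ) ^ (1 + 1 / ((A : ℝ) + 2)) ≤
        (C0 : ℝ) * (64 * (CZ : ℝ) ^ 2 * (K ^ 2 * (M : ℝ) ^ (1 + 3 / ((A : ℝ) + 2)))) :=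
      mul_le_mul_of_nonneg_left h1 (by linarith)
    refine h2.trans ?_
    have h3 : (0 : ℝ) ≤ K ^ 2 * (M : ℝ) ^ (1 + 3 / ((A : ℝ) + 2)) := by positivity
    calc (C0 : ℝ) * (64 * (CZ : ℝ) ^ 2 * (K ^ 2 * (M : ℝ) ^ (1 + 3 / ((A : ℝ) + 2)))) =
        ((C0 : ℝ) * (64 * (CZ : ℝ) ^ 2)) * (K ^ 2 * (M : ℝ) ^ (1 + 3 / ((A : ℝ) + 2))) := by ring
      _ ≤ C * (K ^ 2 * (M : ℝ) ^ (1 + 3 / ((A : ℝ) + 2))) := mul_le_mul_of_nonneg_right hCP h3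
      _ = _ := by ring
  have hVd1 : C0 * V ≤ Y := (n_num hC01 hV1 hVY hBig.hY2).1
  have hVY2 : 3 * (f + 1) * V ≤ Y := (Nat.mul_le_mul_right _ hfC).trans hVd1
  -- the groups
  obtain ⟨l, rest, hsum, hl, hrest, -⟩ := grp
    (fun i D => Multiset.card D = wN A (CZ : ℝ) K i ∧ ∃ nL nR : ℕ,
      Win D nL nR (100 * (Multiset.card D : ℝ) * (2 ^ i : ℕ)) ∧ 1 ≤ nL ∧
      Sq D ≤ 2 * nL ^ 2 ∧ nR ^ 2 ≤ 3 * Sq D)
    (wN A (CZ : ℝ) K) (wN A (CZ : ℝ) K) (fun i => (wN_one A hc hK i).2) (fun i => le_rfl) (by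
      intro i D hD hcard
      have hWA : ∀ m ∈ D, 2 ^ i < 2 * m ∧ m ≤ 2 ^ i := fun m hm =>
        ⟨(clsW (hD m hm).1 (hD m hm).2).2, (clsW (hD m hm).1 (hD m hm).2).1⟩
      obtain ⟨nL, nR, hw⟩ := hZ (2 ^ i) D Nat.one_le_two_pow hWA (by
        rw [hcard]
        exact wN_pow A CZ hCZ1 hK i)
      refine ⟨D, le_rfl, ?_, hcard, nL, nR, hw⟩
      intro h0
      rw [h0, Multiset.card_zero] at hcard
      have := (wN_one A hc hK i).2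
      omega)
    ms (fun m hm => (hms m hm).1)
  have hlms : ∀ x ∈ l, x.2 ≤ ms := by
    intro x hx
    rw [hsum]
    refine le_trans ?_ (Multiset.le_add_right _ _)
    exact List.single_le_sum (fun y _ => Multiset.zero_le y) x.2 (List.mem_map_of_mem hx)
  have hrms : rest ≤ ms := by
    rw [hsum]
    exact Multiset.le_add_left _ _
  have hw : ∀ x : ℕ × Multiset ℕ, ∃ p : ℕ × ℕ, x ∈ l →
      Tup.Ok ⟨x.2, p.1, p.2, 0⟩ (800 * (CZ : ℝ) * K ^ 2 * (M : ℝ) ^ (1 + 2 / ((A : ℝ) + 2))) ∧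
      WOk K V ⟨x.2, p.1, p.2, 0⟩ := by
    intro x
    by_cases hx : x ∈ l
    · obtain ⟨⟨hcard, nL, nR, w1, w2, w3, w4⟩, hne, _, hcls⟩ := hl x hx
      refine ⟨(nL, nR), fun _ => ?_⟩
      have hWA : ∀ m ∈ x.2, 2 ^ x.1 < 2 * m ∧ m ≤ 2 ^ x.1 := fun m hm =>
        ⟨(clsW (hcls m hm).1 (hcls m hm).2).2, (clsW (hcls m hm).1 (hcls m hm).2).1⟩
      obtain ⟨m, hm⟩ := Multiset.exists_mem_of_ne_zero hne
      have h2 : 2 ^ x.1 ≤ 2 * M := (hWA m hm).1.le.trans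
        (Nat.mul_le_mul_left 2 (hms m (Multiset.mem_of_le (hlms x hx) hm)).2)
      rw [hV]
      exact w_win hc hK hM hcard hWA h2 w1 w2 w3 w4
    · exact ⟨(0, 0), fun h => absurd h hx⟩
  choose p hp using hw
  obtain ⟨L, hL⟩ : ∃ L : List Tup, L = l.map fun x => ⟨x.2, (p x).1, (p x).2, 0⟩ := ⟨_, rfl⟩
  have hLgs : (L.map Tup.gs).sum = (l.map Prod.snd).sum := by
    rw [hL, List.map_map]
    rfl
  have hLc : (L.map Tup.c).sum = 0 := by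
    apply List.sum_eq_zero
    intro y hy
    rw [hL, List.map_map] at hy
    obtain ⟨x, _, rfl⟩ := List.mem_map.1 hy
    rfl
  have hOk : ∀ y ∈ L, Tup.Ok y (800 * (CZ : ℝ) * K ^ 2 * (M : ℝ) ^ (1 + 2 / ((A : ℝ) + 2))) := by
    intro y hy
    rw [hL] at hy
    obtain ⟨x, hx, rfl⟩ := List.mem_map.1 hy
    exact (hp x hx).1
  have hWk : ∀ y ∈ L, WOk K V y := by
    intro y hy
    rw [hL] at hy
    obtain ⟨x, hx, rfl⟩ := List.mem_map.1 hy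
    exact (hp x hx).2
  -- the constants
  obtain ⟨T, hT⟩ : ∃ T : ℝ, T = K ^ 2 * (M : ℝ) ^ (1 + 2 / ((A : ℝ) + 2)) := ⟨_, rfl⟩
  rw [← hT] at hb
  have hT0 : 0 ≤ T := by rw [hT]; positivity
  have hMT : 1 ≤ (M : ℝ) ^ (1 + 2 / ((A : ℝ) + 2)) := Real.one_le_rpow hM1 (by positivity)
  have hK2 : 1 ≤ K ^ 2 := one_le_pow₀ hK
  have hT1 : 1 ≤ T := by rw [hT]; exact one_le_mul_of_one_le_of_one_le hK2 hMT
  have hVT : (V : ℝ) ≤ 8 * (CZ * T) := by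
    refine hVup.trans ?_
    have h1 : (M : ℝ) ^ (1 + 1 / ((A : ℝ) + 2)) ≤ (M : ℝ) ^ (1 + 2 / ((A : ℝ) + 2)) := by
      refine Real.rpow_le_rpow_of_exponent_le hM1 ?_
      have h2 : 1 / ((A : ℝ) + 2) ≤ 2 / ((A : ℝ) + 2) :=
        div_le_div_of_nonneg_right one_le_two (by positivity)
      linarith
    have h3 : K ≤ K ^ 2 := le_self_pow₀ hK two_ne_zero
    have h4 : K * (M : ℝ) ^ (1 + 1 / ((A : ℝ) + 2)) ≤ T := by
      rw [hT]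
      exact mul_le_mul h3 h1 (by positivity) (by positivity)
    calc 8 * (CZ : ℝ) * K * (M : ℝ) ^ (1 + 1 / ((A : ℝ) + 2)) =
        8 * (CZ * (K * (M : ℝ) ^ (1 + 1 / ((A : ℝ) + 2)))) := by ring
      _ ≤ 8 * (CZ * T) := by
        refine mul_le_mul_of_nonneg_left ?_ (by norm_num)
        exact mul_le_mul_of_nonneg_left h4 (by linarith)
  have hS1 : (0 : ℝ) ≤ (Sm ms : ℝ) / K := by positivity
  have hS2 : (0 : ℝ) ≤ Sm bg := Nat.cast_nonneg _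
  have hq0 : (0 : ℝ) ≤ (q : ℝ) := Nat.cast_nonneg _
  have hb1 : 17600 * (CZ : ℝ) * ((Sm ms : ℝ) / K + (Sm bg : ℝ) + q + T) ≤ bw :=
    (mul_le_mul_of_nonneg_right hCZ (by positivity)).trans hb
  have hZ1 : (Sm ms : ℝ) / K + (Sm bg : ℝ) + q ≤
      CZ * ((Sm ms : ℝ) / K + (Sm bg : ℝ) + q) := le_mul_of_one_le_left (by positivity) hc
  have hZT : T ≤ CZ * T := le_mul_of_one_le_left hT0 hc
  have hb2 : 17600 * ((Sm ms : ℝ) / K + (Sm bg : ℝ) + q) + 17600 * (CZ * T) ≤ bw := by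
    have e1 : 17600 * (CZ : ℝ) * ((Sm ms : ℝ) / K + (Sm bg : ℝ) + q + T) =
        17600 * (CZ * ((Sm ms : ℝ) / K + (Sm bg : ℝ) + q)) + 17600 * (CZ * T) := by ring
    rw [e1] at hb1
    linarith
  have hb0 : 0 < bw := by linarith
  have hYb : 22 * (800 * (CZ : ℝ) * K ^ 2 * (M : ℝ) ^ (1 + 2 / ((A : ℝ) + 2))) ≤ bw := by
    have : 22 * (800 * (CZ : ℝ) * K ^ 2 * (M : ℝ) ^ (1 + 2 / ((A : ℝ) + 2))) =
        17600 * (CZ * T) := by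
      rw [hT]
      ring
    rw [this]
    linarith
  have hrest' := w_rest hc hK hM (fun m hm => hms m (Multiset.mem_of_le hrms hm)) hrest
  have hrestT : (Sm rest : ℝ) ≤ 16 * (CZ * T) := by
    have h8 : 16 * (CZ : ℝ) * K ^ 2 * (M : ℝ) ^ (1 + 2 / ((A : ℝ) + 2)) = 16 * (CZ * T) := by
      rw [hT]
      ring
    rw [h8] at hrest'
    exact hrest'
  have key := unmerge (d := d) (w := 0) hYb hb0 (le_refl bw) L 1 (Bm b + (rest + bg)) zero_le_one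
    le_rfl hOk
    (by
      intro ns hns
      rw [add_zero, add_left_comm]
      obtain ⟨i1, i2, i3, i4⟩ := w_list hK0.le hns hWk
      rw [hLgs] at i1 i2 i3
      have hSqms : Sq ms = Sq ((l.map Prod.snd).sum) + Sq rest := by
        rw [← Sq_add, ← hsum]
      have hSmms : Sm ms = Sm ((l.map Prod.snd).sum) + Sm rest := by
        rw [← Sm_add, ← hsum]
      refine n_state (A := A) (V := V) (f := f) (Y := Y) (N := N) (q := q) hC01 hV1 hE' hR' hBig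
        hVY hVY2 ?_ ?_ ?_ ?_
      · intro m hm
        rcases Multiset.mem_add.1 hm with hm | hm
        · exact ⟨(i4 m hm).1, (Nat.mul_le_mul_left _ (i4 m hm).2).trans hVd1⟩
        · rcases Multiset.mem_add.1 hm with hm | hm
          · have h5 := hms m (Multiset.mem_of_le hrms hm)
            exact ⟨h5.1, (Nat.mul_le_mul_left _ (h5.2.trans hMV)).trans hVd1⟩
          · have h5 := hbg m hm
            refine ⟨h5.1, ?_⟩
            have h6 : (C0 : ℝ) * m ≤ Y :=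
              (mul_le_mul_of_nonneg_right hCC0 (Nat.cast_nonneg _)).trans h5.2
            exact_mod_cast h6
      · refine hf.trans ?_
        rw [Multiset.filter_add, Multiset.filter_add,
          Multiset.filter_eq_self.2 (fun m hm => (i4 m hm).2),
          Multiset.filter_eq_self.2 (fun m hm =>
            (hms m (Multiset.mem_of_le hrms hm)).2.trans hMV), Sq_add, Sq_add, hSqms,
          mul_comm 2 f, mul_assoc]
        exact Nat.mul_le_mul_left f (by omega)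
      · rw [Sq_add, Sq_add]
        rw [Sq_add, hSqms] at hSq
        omega
      · rw [Sm_add, Sm_add]
        push_cast
        have h6 : (Sm (ns : Multiset ℕ) : ℝ) ≤ 4 * ((Sm ms : ℝ) / K) := by
          have h7 : (Sm ((l.map Prod.snd).sum) : ℝ) ≤ Sm ms := by
            rw [hSmms]
            push_cast
            linarith [(Nat.cast_nonneg (Sm rest) : (0 : ℝ) ≤ (Sm rest : ℝ))]
          rw [mul_div_assoc', le_div_iff₀ hK0, mul_comm]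
          linarith
        linarith)
  have hre : (l.map Prod.snd).sum + (Bm b + (rest + bg)) = Bm b + (ms + bg) := by
    rw [add_left_comm, ← add_assoc ((l.map Prod.snd).sum), ← hsum]
  rw [hLc, neg_zero, zero_div, Real.exp_zero, mul_one, add_zero, hLgs, hre] at key
  exact key

end Pool.Agent.SGN
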